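import Pool.Agent.MP_1a6d78_lc.CR.Spec

/-! PROJECT CR, row BASE: the direct simulation. -/

namespace Pool.Agent.MP_1a6d78_lc.CR

open Classical ED PR SC Function

namespace Bas

variable {π : Pm} {M : Mc} {D : ℕ} {S : ℕ → Rec} {t H : ℕ}

theorem nil_bd {P : ℕ} (h : 0 < P) : nil.Bd P := dec_zero P ▸ dec_bd h 0

theorem bd (hF : π.Fit M D) (hS : ∀ u, (S u).Bd π.P) (hI : Inst M π.G S t H) (ht : t < π.P) :
    ∀ u ≤ H, (tr M S u).Bd π.P := by
  have hP := hF.P
  have hle := hI.le
  intro u
  induction u using Nat.strong_induction_on with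
  | _ u ih =>
    intro hu
    cases u with
    | zero => exact hS 0
    | succ u =>
      have hp := ih u (by omega) (by omega)
      have hy : ∀ σ, (tp (tr M S) (st M S u σ)).Bd π.P := fun σ => by
        cases e : st M S u σ with
        | nil => exact nil_bd (by omega)
        | cons p L =>
          have := (mem_st (e ▸ List.mem_cons_self : p ∈ st M S u σ)).2.1
          exact ih p (by omega) (by omega)
      have he := hS (u + 1)
      rw [tr_succ, nxt]
      by_cases h1 : (S (u + 1)).nv = true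
      · rw [if_pos h1]
        refine ⟨by dsimp only; omega, he.act, he.qb, he.qa, ?_, he.pk, he.gen, he.md⟩
        dsimp only
        split_ifs
        exacts [(hy _).tm, he.m]
      rw [if_neg h1]
      by_cases h2 : (tr M S u).md = 0
      · rw [if_pos h2]
        refine ⟨?_, ?_, ?_, ?_, ?_, ?_, ?_, ?_⟩ <;> dsimp only [vd] <;> omega
      rw [if_neg h2]
      have hg := (hI.gd u (by omega)).gen (md_nv (hI.gd 0 hI.pos).1 h2)
      refine ⟨?_, ?_, hp.qa, ?_, ?_, ?_, ?_, hp.md⟩ <;> dsimp only [mk]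
      · omega
      · unfold opA
        split_ifs
        exacts [hF.act _, by omega]
      · split_ifs
        exacts [hF.δ _ _, hF.δ _ _, hp.qa]
      · split_ifs
        exacts [(hy _).tm, by dsimp only [nil]; omega]
      · split_ifs <;> omega
      · generalize (if opA M (tr M S u) = 2 then tp (tr M S) (st M S u (opS M (tr M S u)))
          else nil) = y
        split_ifs <;> omega

/-- The list holds the record of time `u` and the two stacks. -/
def Iv (π : Pm) (M : Mc) (S : ℕ → Rec) (u : ℕ) (A : List ℕ) : Prop :=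
  gt A 0 < π.β ∧ dec π.P (gt A 0) = tr M S u ∧ ∀ s i, gt A (1 + 2 * i + bn s) =
    ((st M S u s).map fun p => enc π.P (tr M S p)).getD i 0

theorem bn_inj {s s' : Bool} : bn s = bn s' ↔ s' = s := by
  cases s <;> cases s' <;> simp [bn]

theorem step {l A : List ℕ} {u : ℕ} (hF : π.Fit M D) (hI : Inst M π.G (π.scr l) t H)
    (ht : t < π.P) (hz : sz M (π.scr l) H ≤ 64 * π.b₀) (hu : u < H) (h : Iv π M (π.scr l) u A) :
    Iv π M (π.scr l) (u + 1) (π.bs1 M l u A) := by
  have hP := hF.P
  have hK := hF.K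
  have hb := bd (S := π.scr l) hF (fun u => dec_bd (by omega) _) hI ht
  obtain ⟨-, h1, h2⟩ := h
  have hr : π.nxE M l A (u + 1) = enc π.P (tr M (π.scr l) (u + 1)) := by
    rw [Pm.nxE, h1, tr_succ]
    refine congrArg (fun y => enc π.P (nxt M _ _ _ y)) (funext fun σ => ?_)
    have e0 := h2 σ 0
    rw [Nat.mul_zero, Nat.add_zero] at e0
    rw [e0]
    cases e : st M (π.scr l) u σ with
    | nil => exact dec_zero _
    | cons p L =>
      have := (mem_st (e ▸ List.mem_cons_self : p ∈ st M (π.scr l) u σ)).2.1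
      exact dec_enc (hb p (by omega))
  have hd := dec_enc (hb (u + 1) hu)
  have hl := enc_lt (hb (u + 1) hu)
  rw [Pm.bs1, h1, if_neg (hI.gd u hu).go, hr]
  have g0 : gt (π.bs0 A (enc π.P (tr M (π.scr l) (u + 1)))) 0 =
      enc π.P (tr M (π.scr l) (u + 1)) := by rw [Pm.bs0, gt_tab _ (by omega), if_pos rfl]
  have g1 := (Pm.gt_trn _ (by omega : 0 < π.K) (g0.trans_lt hl).le).trans g0
  refine ⟨g1.trans_lt hl, by rw [g1, hd], fun s i => ?_⟩
  have hs := bn_le s
  rcases lt_or_ge (1 + 2 * i + bn s) π.K with hi | hi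
  · have g2 : gt (π.bs0 A (enc π.P (tr M (π.scr l) (u + 1)))) (1 + 2 * i + bn s) =
        ((st M (π.scr l) (u + 1) s).map fun p => enc π.P (tr M (π.scr l) p)).getD i 0 := by
      rw [Pm.bs0, gt_tab _ hi, if_neg (by omega), hd, st_succ, upd,
        show (1 + 2 * i + bn s + 1) % 2 = bn s by omega]
      simp only [bn_inj]
      split_ifs with a b c d
      · rw [show i = 0 by omega]; rfl
      · obtain ⟨j, rfl⟩ : ∃ j, i = j + 1 := ⟨i - 1, by omega⟩
        rw [show 1 + 2 * (j + 1) + bn s - 2 = 1 + 2 * j + bn s by omega, h2]; rfl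
      · rw [show 1 + 2 * i + bn s + 2 = 1 + 2 * (i + 1) + bn s by omega, h2]
        cases st M (π.scr l) u s <;> rfl
      · exact h2 s i
      · exact h2 s i
    rw [Pm.gt_trn _ hi, g2]
    rw [g2, List.getD_eq_getElem?_getD, List.getElem?_map]
    cases e : (st M (π.scr l) (u + 1) s)[i]? with
    | none => exact Nat.zero_le _
    | some p =>
      have := (mem_st (List.mem_of_getElem? e)).2.1
      exact (enc_lt (hb p (by omega))).le
  · have := (st_len M (π.scr l) (u + 1) s).trans ((sz_mono M _ hu).trans hz)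
    rw [Pm.trn, gt_tab' _ hi, List.getD_eq_default _ _ (by rw [List.length_map]; omega)]

end Bas

theorem baseS : BaseS := by
  intro π M D g hF l k H hR _ _ h0 hI hz ht
  rw [pow_zero, mul_one] at h0
  rw [zero_mul, add_zero] at ht
  rw [h0] at hz
  have hP := hF.P
  have hK := hF.K
  have h1 : ∀ u ≤ H, Bas.Iv π M (π.scr l) u
      (itr (π.bs1 M l) (tab π.K fun e => if e = 0 then π.lk l 0 else 0) u) := fun u hu => by
    induction u with
    | zero =>
      have e : gt (tab π.K fun e => if e = 0 then π.lk l 0 else 0) 0 = π.lk l 0 := by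
        rw [gt_tab _ (by omega), if_pos rfl]
      refine ⟨e.trans_lt (Pm.lk_lt (by omega) hR 0), congrArg _ e, fun s i => ?_⟩
      show gt (tab π.K fun e => if e = 0 then π.lk l 0 else 0) (1 + 2 * i + bn s) = 0
      rcases lt_or_ge (1 + 2 * i + bn s) π.K with hi | hi
      · rw [gt_tab _ hi, if_neg (by omega)]
      · exact gt_tab' _ hi
    | succ u ih => exact Bas.step hF hI ht hz hu (ih (by omega))
  have h2 : π.base M l < π.β ∧ dec π.P (π.base M l) = tr M (π.scr l) H := by
    rcases hI.fin with e | e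
    · exact ⟨(h1 _ e.ge).1, e ▸ (h1 _ e.ge).2.1⟩
    · unfold Pm.base
      refine Nat.le_induction ⟨(h1 H le_rfl).1, (h1 H le_rfl).2.1⟩ (fun u _ ih => ?_) _ hI.le
      show gt (π.bs1 M l u _) 0 < _ ∧ dec π.P (gt (π.bs1 M l u _) 0) = _
      rw [Pm.bs1, ih.2, if_pos e, Pm.gt_trn _ (by omega) ih.1.le]
      exact ih
  rw [Pm.F, if_pos h0.le, min_eq_left h2.1.le]
  exact ⟨h2.2, h2.1⟩

end Pool.Agent.MP_1a6d78_lc.CR
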