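import Pool.Agent.MP_1a6d78_lc.CR.Spec

/-! PROJECT CR, row CLO: a dead gap is closed. -/

namespace Pool.Agent.MP_1a6d78_lc.CR

open Classical ED PR SC Function

namespace Clo

variable {T : ℕ → Rec} {σ : Bool} {a a' u : ℕ}

theorem inn_iff : (clo σ a' a).inn T u ↔ ¬(rs T σ a' u ∧ ¬rs T σ a u) := by
  cases σ
  · change (rt T a' true u && !rt T a true u) = false ↔
      ¬(rt T a' true u = true ∧ ¬rt T a true u = true)
    cases rt T a' true u <;> cases rt T a true u <;> simp
  · change (rt T a false u && !rt T a' false u) = false ↔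
      ¬(rt T a' false u = false ∧ ¬rt T a false u = false)
    cases rt T a' false u <;> cases rt T a false u <;> simp

theorem K_iff : (clo σ a' a).K T u ↔ On T a u ∨ On T a' u := by
  cases σ
  exacts [or_comm, Iff.rfl]

theorem eq_iff : (u = (clo σ a' a).s₁ ∨ u = (clo σ a' a).s₂) ↔ u = a ∨ u = a' := by
  cases σ
  exacts [or_comm, Iff.rfl]

theorem w_eq : (clo σ a' a).w = false := by cases σ <;> rfl

theorem both {P : ℕ → Prop} (h : P a) (h' : P a') : P (clo σ a' a).s₁ ∧ P (clo σ a' a).s₂ := by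
  cases σ
  exacts [⟨h', h⟩, ⟨h, h'⟩]

theorem inn_le (h : a ≤ u) : (clo σ a' a).inn T u := inn_iff.2 fun k => k.2 (rs_le T σ h)

theorem kp_of (h : u ≠ a → u ≠ a' → (clo σ a' a).inn T u) : (clo σ a' a).kp T u := by
  refine .inr ?_
  split_ifs with c
  · exact w_eq
  · rw [eq_iff, not_or] at c
    exact h c.1 c.2

end Clo

open Clo in
theorem cloS (hG : GeoS) (hR : ResS) (hK : KeptS) : CloS := by
  intro M G S t H h σ a a' hI hH hn ha ha' lt gap xa xa' S' hS
  have g := hG M G S H hI.gd
  have ah : a ≤ h := ha.elim le_of_eq fun k => (mem_st k).2.1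
  obtain ⟨l₁, l₂⟩ := both (σ := σ) (a := a) (a' := a') (P := (· < H)) (by omega) (by omega)
  obtain ⟨x₁, x₂⟩ := both (σ := σ) (P := Expl M S) xa xa'
  have nK : ∀ u, h < u → ¬(clo σ a' a).K (tr M S) u := fun u hu k => by
    rcases K_iff.1 k with e | e
    · have := (on_spec hI.gd (by omega) xa.nv e).1
      omega
    · have := (on_spec hI.gd (by omega) xa'.nv e).1
      omega
  have kp : ∀ u τ p, h ≤ u → p ∈ st M S u τ → (clo σ a' a).kp (tr M S) p := fun u τ p hu hp => by
    refine kp_of fun n1 n2 => ?_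
    rcases le_or_gt a p with c | c
    · exact inn_le c
    have hp' := st_back hp (c.le.trans ah) hu
    rw [inn_iff]
    by_cases e : τ = σ
    · subst e
      have c1 : p < a' := by
        have := gap p hp'
        omega
      have := g.q a' p τ (!τ) (by omega) xa'.nv (st_back hp' c1.le (by omega)) c1
      exact fun k => absurd (this.symm.trans k.1) (by simp)
    · have := g.q a p τ (!σ) (by omega) xa.nv (st_back hp' c.le ah) c
      exact fun k => k.2 (this.trans (Bool.eq_not_of_ne e))
  have hyp : RHyp M G S H (clo σ a' a) H := by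
    refine ⟨hI.gd, l₁, l₂, x₁, x₂, le_rfl, fun c hc n act k => ?_⟩
    cases c with
    | zero => exact absurd (K_iff.2 (.inl (on_zero hI.gd (by omega) xa.nv))) k
    | succ c =>
      have hm : (tr M S (c + 1)).m ∈ st M S c (tr M S (c + 1)).sd := by
        simp [pop_cons n act (hI.gd _ hc).go]
      rcases le_or_gt h c with e | e
      · exact iff_of_true (inn_le (by omega)) (kp c _ _ e hm)
      have m0 := mem_st hm
      have gone := pop_gone n act (Nat.succ_le_of_lt e) σ
      have n1 : ¬((tr M S (c + 1)).m = a ∨ (tr M S (c + 1)).m = a') := by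
        rintro (e1 | e1)
        · rcases ha with e2 | e2
          · omega
          · exact gone (e1 ▸ e2)
        · rcases ha' with e2 | e2
          · omega
          · exact gone (e1 ▸ e2)
      rw [Cut.kp_pop hI.gd l₁ l₂ x₁ x₂ hc n act k, if_neg (mt eq_iff.1 n1), inn_iff, inn_iff]
      rw [K_iff, not_or] at k
      have r1 := g.p a (!σ) (c + 1) (by omega) hc xa.nv n act k.1 (by
        have : c + 1 ≠ a := fun e1 => k.1 (e1 ▸ On.refl _ _)
        rcases lt_or_ge (c + 1) a with e1 | e1
        · exact .inl e1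
        · rw [Bool.not_not]
          exact .inr (.inr (st_back (ha.resolve_left (by omega)) e1 e)))
      have r2 := g.p a' (!σ) (c + 1) (by omega) hc xa'.nv n act k.2 (by
        rcases lt_or_ge (c + 1) a' with e1 | e1
        · exact .inl e1
        · rw [Bool.not_not]
          exact .inr (ha'.imp_right fun e2 => st_back e2 e1 e))
      unfold rs
      rw [r1, r2]
  have R := hR M G S H _ H hyp
  have K := hK M G S H _ H hyp
  rw [← hS] at R K
  have hst : ∀ u < H, h ≤ u → st M S' u = st M S u := fun u hu e => funext fun τ => by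
    rw [R.st' u hu τ, List.filter_eq_self]
    exact fun p hp => decide_eq_true (kp u τ p e hp)
  have htr : ∀ u ≤ H, h < u → tr M S' u = tr M S u := fun u hu e => by
    have i1 : (clo σ a' a).inn (tr M S) u := inn_le (by omega)
    rcases hu.lt_or_eq with c | rfl
    · rw [R.tr' u c, Cut.img, if_neg (nK u e), if_pos i1]
    · obtain ⟨v, rfl⟩ := Nat.exists_eq_succ_of_ne_zero hI.pos.ne'
      exact (R.nx v rfl (nK _ e) i1).2.2.2 fun _ => by rw [hst v (by omega) (by omega)]
  refine ⟨⟨hI.pos, hI.le, R.gd, htr H le_rfl hH ▸ hI.fin⟩, hst h hH le_rfl, htr,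
    fun u hu n => ?_, fun s hs => ?_⟩
  · rw [← or_assoc, ← K_iff (σ := σ), ← inn_iff]
    rcases le_or_gt u h with e | e
    · rw [R.tr' u (by omega), Cut.img] at n
      split_ifs at n with c1 c2 c3 c4 c5
      exacts [⟨n, .inl c1⟩, ⟨n, .inl c1⟩, ⟨n, .inl c1⟩, ⟨n, .inl c1⟩, ⟨n, .inr c5⟩,
        absurd n Bool.false_ne_true]
    · exact ⟨htr u hu e ▸ n, .inr (inn_le (by omega))⟩
  · have k : s < H ∧ (tr M S s).nv = true ∧
        ((clo σ a' a).K (tr M S) s ∨ (clo σ a' a).inn (tr M S) s) := by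
      rcases hs with rfl | rfl | ⟨τ, e⟩
      · exact ⟨hI.pos, (hI.gd 0 hI.pos).1, .inl (K_iff.2 (.inl (on_zero hI.gd (by omega) xa.nv)))⟩
      · exact ⟨hH, hn, .inr (inn_le ah)⟩
      · exact ⟨(mem_st e).2.1.trans_lt hH, (mem_st e).2.2.1, Cut.kp_kept (kp h τ s le_rfl e)⟩
    obtain ⟨k1, -, -, k2⟩ := K s k.1 k.2.1 k.2.2
    refine ⟨k1, ?_, k2⟩
    rw [R.tr' s k.1, Cut.img]
    by_cases c : (clo σ a' a).K (tr M S) s
    · rw [if_pos c]
    · rw [if_neg c, if_pos (k.2.2.resolve_left c)]

end Pool.Agent.MP_1a6d78_lc.CR
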