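import Pool.Agent.MP_1a6d78_lc.CR.Spec

/-! PROJECT CR: closing a dead gap keeps the invariant and lowers the potential. -/

namespace Pool.Agent.MP_1a6d78_lc.CR

open Classical ED PR SC Function

namespace Close

theorem cnt_two {n m l i : ℕ} {P Q R W : ℕ → Prop} (h1 : ∀ u < n, P u → u < l ∧ R u)
    (h2 : ∀ u < m, Q u → u < l ∧ R u) (h3 : ∀ u < n, P u → Q u → u < i ∧ W u) :
    PR.cnt n P + PR.cnt m Q ≤ PR.cnt l R + PR.cnt i W := by
  unfold PR.cnt
  rw [← Finset.card_union_add_card_inter]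
  refine add_le_add (Finset.card_le_card fun u hu => ?_) (Finset.card_le_card fun u hu => ?_)
  · rcases Finset.mem_union.1 hu with k | k
    exacts [mem_cnt.2 (h1 u (mem_cnt.1 k).1 (mem_cnt.1 k).2),
      mem_cnt.2 (h2 u (mem_cnt.1 k).1 (mem_cnt.1 k).2)]
  · obtain ⟨k, k'⟩ := Finset.mem_inter.1 hu
    exact mem_cnt.2 (h3 u (mem_cnt.1 k).1 (mem_cnt.1 k).2 (mem_cnt.1 k').2)

end Close

theorem close (hC : CloS) (hP : PslS) : CloseS := by
  intro M G b t H r S Z h k hb σ z j hT x₁ x₂ hw S' hS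
  have hz : z = 0 ∨ z ∈ st M S h σ := hT.1.elim .inl fun e => (k.mrk σ z e).imp_right And.left
  obtain ⟨p1, p2, p3, p4, -⟩ := hP M S h σ z j hz
  have p5 : pS M S h σ z j = h ∨ pS M S h σ z j = z ∨ pS M S h σ z j ∈ st M S h σ := by
    cases j with
    | zero => exact .inl rfl
    | succ j => exact .inr (hP M S h σ z j hz).2.2.1
  generalize pS M S h σ z j = a at *
  generalize pS M S h σ z (j + 1) = a' at *
  have lt : a' < a := lt_of_le_of_ne p2 fun e => by rw [e] at hw; omega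
  have ha : a = h ∨ a ∈ st M S h σ := p5.imp_right fun e => e.elim (fun e => by omega) id
  have ha' : a' = 0 ∨ a' ∈ st M S h σ := p3.elim (fun e => e ▸ hz) .inr
  obtain ⟨i1, i2, i3, i4, i5⟩ := hC M G S t H h σ a a' k.inst k.lt k.ex.nv ha ha' lt p4 x₁ x₂ S' hS
  have hH := k.lt
  have lv : ∀ τ y, y = 0 ∨ Z τ y → y = 0 ∨ y = h ∨ ∃ τ, y ∈ st M S h τ := fun τ y e =>
    e.elim .inl fun e => (k.mrk τ y e).imp_right fun e => .inr ⟨τ, e.1⟩
  have drop : ∀ τ x y, (x = 0 ∨ x = h ∨ ∃ τ, x ∈ st M S h τ) →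
      (y = 0 ∨ y = h ∨ ∃ τ, y ∈ st M S h τ) → ws (tr M S') τ x y ≤ ws (tr M S) τ x y := by
    intro τ x y hx hy
    have : y ≤ h := by
      rcases hy with e | e | ⟨τ, e⟩
      exacts [by omega, e.le, (mem_st e).2.1]
    refine cnt_le fun u hu e => ⟨hu, (i4 u (by omega) e.1).1, ?_⟩
    have e2 := e.2
    unfold rs at e2 ⊢
    rwa [(i5 x hx).1, (i5 y hy).1] at e2
  refine ⟨⟨i1, (i3 H le_rfl hH).trans k.ans, hH, (i5 h (.inr (.inl rfl))).2.2 k.ex,
    fun τ y e => (k.mrk τ y e).imp_right fun e' =>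
      ⟨i2 ▸ e'.1, (i5 y (lv τ y (.inr e))).2.2 e'.2⟩, fun τ y e => ?_⟩, ?_⟩
  · rcases k.grp τ y e with e' | ⟨z', e1, e2, e3⟩
    · exact .inl ((drop τ y h (lv τ y e) (.inr (.inl rfl))).trans e')
    · exact .inr ⟨z', e1, e2, (drop τ y z' (lv τ y e) (lv τ z' (.inr e1))).trans e3⟩
  have q1 : Phi M G S' H h ≤ Phi M G S H h := by
    refine Finset.card_le_card fun x hx => ?_
    obtain ⟨e0, e1, e2, e3⟩ := Finset.mem_filter.1 hx
    have e4 := e0
    simp only [Finset.mem_product, Finset.mem_range] at e4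
    refine Finset.mem_filter.2 ⟨e0, (i4 _ (by omega) e1).1, (i4 _ (by omega) e2).1,
      e3.imp_right (Or.imp_right ?_)⟩
    rintro ⟨s, e, o1, o2, o3⟩
    have o4 : Obj M S h s e := by unfold Obj at o1 ⊢; rwa [i2] at o1
    have o5 := i5 s (.inr (o4.imp_right fun o => ⟨_, o⟩))
    exact ⟨s, e, o4, o5.2.1 ▸ o2, by rwa [o5.1, o5.1] at o3⟩
  have q2 : fu M S' h H ≤ fu M S h H :=
    cnt_le fun u hu e => ⟨hu, e.1, (i4 u (by omega) e.2).1⟩
  have aH : a < H := by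
    rcases ha with e | e
    exacts [e ▸ hH, (mem_st e).2.1.trans_lt hH]
  have q3 : sz M S' H + ws (tr M S) σ a' a ≤
      sz M S H + PR.cnt (H + 1) fun u => On (tr M S) a u ∨ On (tr M S) a' u :=
    Close.cnt_two (fun u hu e => ⟨hu, (i4 u (by omega) e).1⟩) (fun u hu e => ⟨by omega, e.1⟩)
      fun u hu e e' => ⟨hu, (i4 u (by omega) e).2.imp_right fun o => o.resolve_right fun o' =>
        o' e'.2⟩
  have q4 : (PR.cnt (H + 1) fun u => On (tr M S) a u ∨ On (tr M S) a' u) ≤ (G + 2) + (G + 2) :=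
    (cnt_le_add fun u hu e => e.imp (fun o => ⟨hu, o⟩) fun o => ⟨hu, o⟩).trans
      (add_le_add (cnt_on k.inst.gd aH x₁.nv (H + 1)) (cnt_on k.inst.gd (lt.trans aH) x₂.nv (H + 1)))
  have q5 := ws_tri (tr M S) σ a' a h
  have q6 := Nat.mul_le_mul_left b (show sz M S' H + b ≤ sz M S H by omega)
  have q7 := Nat.mul_le_mul_left b q2
  rw [Nat.mul_add] at q6
  unfold Psi
  omega

end Pool.Agent.MP_1a6d78_lc.CR
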