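import Pool.Agent.MP_1a6d78_lc.CR.Spec

/-! PROJECT CR, row CMP: steps without stack operation are skipped. -/

namespace Pool.Agent.MP_1a6d78_lc.CR

open Classical ED PR SC Function

namespace Cmp

variable {M : Mc} {T q₀ H G q : ℕ}

theorem run_succ (M : Mc) (f q₀ u : ℕ) : M.run f q₀ (u + 1) = M.step f (M.run f q₀ u) :=
  iterate_succ_apply' _ _ _

theorem it_eq (n : ℕ) (f : ℕ → ℕ) (t d : ℕ) : it n f t d = (fun a => min (f a) n)^[t] d := by
  induction t with
  | zero => rfl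
  | succ t ih => rw [iterate_succ_apply', ← ih]; rfl

theorem cl_le (M : Mc) {T : ℕ} (h : 0 < T) (q : ℕ) : M.cl T q ≤ T := by
  obtain ⟨n, rfl⟩ : ∃ n, T = n + 1 := ⟨T - 1, by omega⟩
  exact min_le_right _ _

theorem skip {c : Cf} (h : ¬(M.act c.q = 1 ∨ M.act c.q = 2)) :
    M.step 0 c = ⟨M.δ c.q 0, if M.root c.q then 0 else c.g + 0, c.st⟩ := by
  rw [Mc.step, if_neg fun e => h (.inl e), if_neg fun e => h (.inr e)]

theorem lt (hδ : ∀ y z, M.δ y z < T) (h0 : q₀ < T) (u : ℕ) : (M.run 0 q₀ u).q < T := by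
  induction u with
  | zero => exact h0
  | succ u ih =>
    rw [run_succ, Mc.step]
    split_ifs
    any_goals exact hδ _ _
    all_goals
      split
      exacts [ih, hδ _ _]

theorem fix {y : ℕ} (hy : y < T) (h : M.act y = 1 ∨ M.act y = 2) (n : ℕ) :
    (fun a => min (if M.act a = 1 ∨ M.act a = 2 then a else M.δ a 0) T)^[n] y = y :=
  iterate_fixed (by rw [if_pos h, min_eq_left hy.le]) n

theorem lim (hδ : ∀ y z, M.δ y z < T) (h0 : q₀ < T) (hR : M.Run 0 q₀ H G q) (j : ℕ) :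
    ∀ u, u + j = H → ∃ y, ∀ n, j ≤ n →
      (fun a => min (if M.act a = 1 ∨ M.act a = 2 then a else M.δ a 0) T)^[n]
        (M.run 0 q₀ u).q = y := by
  induction j with
  | zero => rintro u rfl; exact ⟨_, fun n _ => fix (lt hδ h0 _) (.inr hR.stop.1) n⟩
  | succ j ih =>
    intro u hu
    by_cases h : M.act (M.run 0 q₀ u).q = 1 ∨ M.act (M.run 0 q₀ u).q = 2
    · exact ⟨_, fun n _ => fix (lt hδ h0 _) h n⟩
    · obtain ⟨y, hy⟩ := ih (u + 1) (by omega)
      refine ⟨y, fun n hn => ?_⟩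
      obtain ⟨n, rfl⟩ : ∃ m, n = m + 1 := ⟨n - 1, by omega⟩
      rw [iterate_succ_apply, if_neg h, min_eq_left (hδ _ _).le, ← hy n (by omega), run_succ,
        skip h]

theorem same {a b : Cf} (hq : b.q = a.q) (hs : b.st = a.st) (h : M.act a.q = 1 ∨ M.act a.q = 2)
    (hn : ¬M.stop a) (hg : b.g = a.g ∨ M.root a.q = true) :
    ((M.cmp T).step 1 b).q = M.cl T (M.step 0 a).q ∧ ((M.cmp T).step 1 b).st = (M.step 0 a).st ∧
      ((M.cmp T).step 1 b).g = (M.step 0 a).g := by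
  have e1 : (if M.root a.q = true then 0 else b.g + 1) =
      if M.root a.q = true then 0 else a.g + 1 := by
    rcases hg with e | e <;> simp [e]
  have e2 : ∀ z, (if M.root a.q = true then 0 else min b.g z + 1) =
      if M.root a.q = true then 0 else min a.g z + 1 := fun z => by
    rcases hg with e | e <;> simp [e]
  unfold Mc.step Mc.cmp
  dsimp only
  rw [hq, hs]
  by_cases h1 : M.act a.q = 1
  · rw [if_pos h1, if_pos h1, e1]
    exact ⟨rfl, rfl, rfl⟩
  · have h2 := h.resolve_left h1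
    rw [if_neg h1, if_neg h1, if_pos h2, if_pos h2]
    cases e : a.st (M.sd a.q) with
    | nil => exact absurd ⟨h2, e⟩ hn
    | cons y l => exact ⟨rfl, rfl, e2 _⟩

end Cmp

theorem cmpS : CmpS := by
  intro M T q₀ H G q hδ hH hR hr h0
  have k1 : ∀ u, M.act (M.run 0 q₀ u).q = 1 ∨ M.act (M.run 0 q₀ u).q = 2 →
      M.cl T (M.run 0 q₀ u).q = (M.run 0 q₀ u).q := fun u h => by
    rw [Mc.cl, Cmp.it_eq, Cmp.fix (Cmp.lt hδ h0 u) h]
  have key : ∀ u ≤ H, ∃ v ≤ u, ((M.cmp T).run 1 (M.cl T q₀) v).q = M.cl T (M.run 0 q₀ u).q ∧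
      ((M.cmp T).run 1 (M.cl T q₀) v).st = (M.run 0 q₀ u).st ∧
      (((M.cmp T).run 1 (M.cl T q₀) v).g = (M.run 0 q₀ u).g ∨
        ((M.run 0 q₀ u).st true = [] ∧ ((M.cmp T).run 1 (M.cl T q₀) v).g ≤ G)) ∧
      ∀ w < v, ¬(M.cmp T).stop ((M.cmp T).run 1 (M.cl T q₀) w) ∧
        (M.root ((M.cmp T).run 1 (M.cl T q₀) w).q = true →
          ((M.cmp T).run 1 (M.cl T q₀) w).st true = []) ∧
        ((M.cmp T).run 1 (M.cl T q₀) w).g ≤ G := fun u hu => by
    induction u with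
    | zero => exact ⟨0, le_rfl, rfl, rfl, .inl rfl, fun w hw => absurd hw (Nat.not_lt_zero w)⟩
    | succ u ih =>
      obtain ⟨v, hv, h1, h2, h3, h4⟩ := ih (by omega)
      have h5 : ((M.cmp T).run 1 (M.cl T q₀) v).g ≤ G :=
        h3.elim (fun e => e ▸ hR.dep u (by omega)) And.right
      by_cases h : M.act (M.run 0 q₀ u).q = 1 ∨ M.act (M.run 0 q₀ u).q = 2
      · rw [k1 u h] at h1
        obtain ⟨e1, e2, e3⟩ := Cmp.same (T := T) h1 h2 h (hR.go u hu)
          (h3.imp_right fun e => hr u hu e.1)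
        rw [← Cmp.run_succ, ← Cmp.run_succ] at e1 e2 e3
        refine ⟨v + 1, by omega, e1, e2, .inl e3, fun w hw => ?_⟩
        rcases (Nat.le_of_lt_succ hw).eq_or_lt with rfl | hw
        · refine ⟨fun e => hR.go u hu ?_, by rw [h1, h2]; exact hR.root u hu, h5⟩
          unfold Mc.stop at e ⊢
          rwa [h1, h2] at e
        · exact h4 w hw
      · refine ⟨v, by omega, h1.trans ?_, by rw [h2, Cmp.run_succ, Cmp.skip h], ?_, h4⟩
        · obtain ⟨y, hy⟩ := Cmp.lim hδ h0 hR (H - (u + 1)) (u + 1) (by omega)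
          obtain ⟨n, rfl⟩ : ∃ n, T = n + 1 := ⟨T - 1, by omega⟩
          rw [Mc.cl, Mc.cl, Cmp.it_eq, Cmp.it_eq, hy _ (by omega), iterate_succ_apply, if_neg h,
            min_eq_left (hδ _ _).le, ← hy n (by omega), Cmp.run_succ, Cmp.skip h]
        · rw [Cmp.run_succ, Cmp.skip h]
          by_cases e : M.root (M.run 0 q₀ u).q = true
          · exact .inr ⟨hR.root u hu e, h5⟩
          · simpa only [if_neg e, Nat.add_zero] using h3
  obtain ⟨v, hv, h1, h2, h3, h4⟩ := key H le_rfl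
  rw [k1 H (.inr hR.stop.1)] at h1
  refine ⟨v, hv, fun w hw => (h4 w hw).1, fun w hw => (h4 w hw).2.1, fun w hw => ?_, ?_,
    h1.trans hR.last⟩
  · rcases hw.eq_or_lt with rfl | hw
    · exact h3.elim (fun e => e ▸ hR.dep H le_rfl) And.right
    · exact (h4 w hw).2.2
  · unfold Mc.stop
    rw [h1, h2]
    exact hR.stop

theorem core0 (hC : CmpS) (h : Core 1) : Core 0 := by
  intro M q₀ acc a hM hq hacc hact hδ h0
  have hT : ∀ κ, Cn κ fun x _ => (x.length + 2) ^ a := fun κ =>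
    K.pow a (K.add (kitB κ).len (K.c 2))
  have hcl : ∀ κ {d : NF}, Cn κ d → Cn κ fun x ρ => (M x).cl ((x.length + 2) ^ a) (d x ρ) :=
    fun κ d hd => K.it (f := fun x _ y => if (M x).act y = 1 ∨ (M x).act y = 2 then y
        else (M x).δ y 0) (hT κ)
      (K.ite (K.or (K.eq (hM κ).act (K.c 1)) (K.eq (hM κ).act (K.c 2))) (K.v 0)
        (K.app (f := fun x ρ z => (M x).δ (ED.hd (ρ 0)) z)
          (K.app (f := fun x ρ z => (M x).δ z (ED.hd (ρ 0))) (hM κ).δ (K.v 1)) (K.c 0))) (hT κ) hd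
  have hlt : ∀ (x : List Bool) y, (M x).cl ((x.length + 2) ^ a) y < (x.length + 2) ^ (a + 1) :=
    fun x y => (Cmp.cl_le _ (by positivity) y).trans_lt
      (Nat.pow_lt_pow_right (by omega) a.lt_succ_self)
  obtain ⟨N, c, hN⟩ := h (fun x => (M x).cmp ((x.length + 2) ^ a))
    (fun x => (M x).cl ((x.length + 2) ^ a) (q₀ x)) acc (a + 1)
    (fun κ => ⟨(hM κ).act, (hM κ).sd, (hM κ).root, hcl κ (hM κ).δ⟩) (fun κ => hcl κ (hq κ)) hacc
    hact (fun x _ _ => hlt x _) fun x => hlt x _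
  refine ⟨N, c, fun x H q hH hR hr => ?_⟩
  obtain ⟨H', h1, h2⟩ := hC (M x) _ _ H _ q (hδ x) hH hR (hr rfl) (h0 x)
  exact hN x H' q (h1.trans (hH.trans (Nat.pow_le_pow_right (by omega) a.le_succ)))
    (h2.mono (Nat.pow_le_pow_right (by omega) a.le_succ)) fun e => absurd e one_ne_zero

end Pool.Agent.MP_1a6d78_lc.CR
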