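import Pool.Agent.MP_1a6d78_lc.CR.Spec

/-! PROJECT CR, row COD: decoding and finitely many cases. -/

namespace Pool.Agent.MP_1a6d78_lc.CR

open Classical ED PR SC Function

namespace Cod

variable (A : PD)

theorem eQ_lt (q : A.Q) : A.eQ q < A.nQ := Fin.is_lt _

theorem eG_lt (y : Option A.Γ) : A.eG y < A.nG := Fin.is_lt _

theorem dQ_eQ (q : A.Q) : A.dQ (A.eQ q) = q := by
  have h : ∃ p, A.eQ p = A.eQ q := ⟨q, rfl⟩
  rw [PD.dQ, dif_pos h]
  exact (Equiv.injective _) (Fin.ext h.choose_spec)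

theorem dG_eG (y : Option A.Γ) : A.dG (A.eG y) = y := by
  have h : ∃ p, A.eG p = A.eG y := ⟨y, rfl⟩
  rw [PD.dG, dif_pos h]
  exact (Equiv.injective _) (Fin.ext h.choose_spec)

theorem pw (c n : ℕ) : c ≤ (n + 2) ^ c :=
  Nat.lt_two_pow_self.le.trans (Nat.pow_le_pow_left (by omega) c)

theorem sum {κ : List Bool → ℕ} {X : Type} (s : Finset X) (f : X → NF) (h : ∀ v, Cn κ (f v)) :
    Cn κ fun x ρ => ∑ v ∈ s, f v x ρ := by
  induction s using Finset.induction_on with
  | empty => exact K.cg (K.c 0) fun _ _ => Finset.sum_empty.symm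
  | insert a s ha ih => exact K.cg (K.add (h a) ih) fun _ _ => by rw [Finset.sum_insert ha]

end Cod

open Cod

theorem codS : CodS := by
  intro A n q s h hn
  let g : Fin A.k → Fin (n + 1) := fun i => ⟨h i, Nat.lt_succ_of_le (hn i)⟩
  have e : ∑ i, h i * (n + 1) ^ (i : ℕ) = (finFunctionFinEquiv g : ℕ) :=
    (finFunctionFinEquiv_apply g).symm
  have a := eQ_lt A q
  have b := eG_lt A (s false)
  have c := eG_lt A (s true)
  unfold PD.cq PD.ct PD.ch PD.code
  rw [e, (dig _ a).1, (dig _ a).2, (dig _ b).1, (dig _ b).2, (dig _ c).1, (dig _ c).2]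
  refine ⟨dQ_eQ A q, funext fun σ => ?_, funext fun i => ?_, ?_⟩
  · cases σ
    · rw [if_neg Bool.false_ne_true, dG_eG]
    · rw [if_pos rfl, dG_eG]
  · rw [← finFunctionFinEquiv_symm_apply_val, Equiv.symm_apply_apply]
  · refine (dig_lt a (dig_lt b (dig_lt c (finFunctionFinEquiv g).2))).trans_le ?_
    rw [two_mul, add_assoc, add_assoc, pow_add, pow_add, pow_add]
    exact Nat.mul_le_mul (pw _ n) (Nat.mul_le_mul (pw _ n) (Nat.mul_le_mul (pw _ n)
      (Nat.pow_le_pow_left (by omega) _)))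

theorem finS : FinS := fun κ => by
  refine ⟨fun {X} _ φ f h1 h2 => ?_, fun {X} _ P h => ?_, fun f h => Cod.sum _ f h⟩
  · have := Fintype.ofFinite X
    exact K.cg (Cod.sum Finset.univ (fun v x ρ => if φ x ρ = v then f v x ρ else 0)
      fun v => K.ite (h1 v) (h2 v) (K.c 0)) fun x ρ => by simp
  · have := Fintype.ofFinite X
    refine K.cg (K.eq (Cod.sum Finset.univ (fun v x ρ => if P v x ρ then 0 else 1)
      fun v => K.ite (h v) (K.c 0) (K.c 1)) (K.c 0)) fun x ρ => ?_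
    simp [Finset.sum_eq_zero_iff]

end Pool.Agent.MP_1a6d78_lc.CR
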