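import Pool.Agent.MP_1a6d78_lc.CR.Spec

/-! PROJECT CR: a stack is emptied. -/

namespace Pool.Agent.MP_1a6d78_lc.CR

open Classical ED PR SC Function

namespace Dmp

variable {M : Mc} {G : ℕ} {S : ℕ → Rec} {h : ℕ} {σ : Bool}

theorem cf_congr (M : Mc) {S S' : ℕ → Rec} (u : ℕ) (e : ∀ v ≤ u, S v = S' v) :
    cf M S u = cf M S' u := by
  induction u with
  | zero => simp only [cf, e 0 le_rfl]
  | succ u ih => simp only [cf, e _ le_rfl, ih fun v hv => e v (by omega)]

theorem cf_lt {u : ℕ} (k : u < h) : cf M (dmp S h σ) u = cf M S u :=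
  cf_congr M u fun v _ => if_pos (by omega)

theorem tr_lt {u : ℕ} (k : u < h) : tr M (dmp S h σ) u = tr M S u := by
  unfold tr; rw [cf_lt k]

theorem dmp_self : dmp S h σ h = { S h with md := if σ = true then 3 else 2 } := by
  simp [dmp]

theorem tr_self (k : (S h).nv = true) :
    tr M (dmp S h σ) h = { tr M S h with md := if σ = true then 3 else 2 } := by
  cases h with
  | zero => exact dmp_self (S := S) (h := 0) (σ := σ)
  | succ v =>
    simp only [tr, cf, update_self, cf_lt v.lt_succ_self, dmp_self, nxt, k, if_true]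

theorem tr_le (k : (S h).nv = true) {u : ℕ} (hu : u ≤ h) :
    ∃ d, tr M (dmp S h σ) u = { tr M S u with md := d } := by
  rcases hu.eq_or_lt with rfl | e
  exacts [⟨_, tr_self k⟩, ⟨_, tr_lt e⟩]

theorem st_le (k : (S h).nv = true) {u : ℕ} (hu : u ≤ h) : st M (dmp S h σ) u = st M S u := by
  induction u with
  | zero => rfl
  | succ u ih =>
    obtain ⟨d, e⟩ := tr_le (M := M) (σ := σ) k hu
    rw [st_succ, st_succ, ih (by omega), e]
    rfl

theorem ok_le (hG : Gd M G S (h + 1)) (k : (S h).nv = true) {u : ℕ} (hu : u ≤ h) :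
    Ok M G (dmp S h σ) u := by
  have o := hG u (by omega)
  obtain ⟨d, e⟩ := tr_le (M := M) (σ := σ) k hu
  cases u with
  | zero =>
    rw [tr_zero] at e
    unfold Ok
    rw [e]
    exact o
  | succ u =>
    obtain ⟨o1, o2, o3⟩ := o
    refine ⟨by rw [e]; exact o1, fun n => ?_, ?_⟩
    · rcases hu.eq_or_lt with rfl | l
      · rw [tr_self k, dmp_self, o2 k]
      · rw [tr_lt l]
        rw [show dmp S h σ (u + 1) = S (u + 1) from if_pos l] at n ⊢
        exact o2 n
    · rw [e, tr_lt (u := u) (by omega), st_le k (u := u) (by omega)]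
      refine fun n => ⟨(o3 n).1, fun p => ⟨((o3 n).2.1 p).1, ?_⟩, (o3 n).2.2⟩
      have := mem_st (M := M) (S := S) (u := u) (p := (tr M S (u + 1)).m)
        (σ := (tr M S (u + 1)).sd) (by simp [pop_cons n ((o3 n).2.1 p).1 o1])
      rw [tr_lt (u := (tr M S (u + 1)).m) (by omega)]
      exact ((o3 n).2.1 p).2

theorem step {u : ℕ} (n : ¬(S (u + 1)).nv = true)
    (e : (tr M S u).md = if σ = true then 3 else 2) :
    tr M S (u + 1) = mk M (u + 1) (tr M S u) 2 σ (tp (tr M S) (st M S u σ)) := by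
  rw [tr_succ, nxt, if_neg n]
  cases σ <;> simp [opA, opS, e]

theorem free {u : ℕ} (k : h ≤ u) : ¬(dmp S h σ (u + 1)).nv = true := by
  rw [dmp, if_neg (by omega), if_neg (by omega)]
  exact Bool.false_ne_true

theorem inv (hG : Gd M G S (h + 1)) (k : (S h).nv = true) (i : ℕ) (hi : i ≤ (st M S h σ).length) :
    ((tr M (dmp S h σ) (h + i)).md = if σ = true then 3 else 2) ∧
      (tr M (dmp S h σ) (h + i)).nv = true ∧ Ok M G (dmp S h σ) (h + i) ∧
      st M (dmp S h σ) (h + i) σ = (st M S h σ).drop i := by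
  induction i with
  | zero =>
    exact ⟨by rw [Nat.add_zero, tr_self k], by rw [Nat.add_zero, tr_self k]; exact (tr_scr k).1,
      ok_le hG k le_rfl, by rw [Nat.add_zero, st_le k le_rfl]; rfl⟩
  | succ i ih =>
    obtain ⟨a1, a2, a3, a4⟩ := ih (by omega)
    have e := step (free (Nat.le_add_right h i)) a1
    rw [a4, List.drop_eq_getElem_cons hi, tp] at e
    obtain ⟨p1, p2, p3, p4, -⟩ := mem_st (List.getElem_mem hi)
    generalize (st M S h σ)[i] = p at e p1 p2 p3 p4
    have g1 : (tr M (dmp S h σ) p).gen + 1 ≤ G := by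
      obtain ⟨d, e'⟩ := tr_le (M := M) (σ := σ) k p2
      obtain ⟨q, rfl⟩ := Nat.exists_eq_succ_of_ne_zero p1.ne'
      have := ((hG (q + 1) (by omega)).2.2 p3).2.2.2
      rw [if_pos p4] at this
      rw [e']
      exact this
    have g2 := tr_tm M (dmp S h σ) p1
    have g3 : (tr M (dmp S h σ) (h + i)).md ≠ 1 := by rw [a1]; split_ifs <;> omega
    rw [← Nat.add_assoc]
    refine ⟨by rw [e]; exact a1, by rw [e]; rfl, ⟨fun s => ?_, fun n => absurd n (free (by omega)),
      fun _ => ?_⟩, ?_⟩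
    · have := s.2.2
      rw [e] at this
      exact p1.ne' (g2.symm.trans this)
    · rw [e]
      by_cases c : (tr M (dmp S h σ) p).gen < (tr M (dmp S h σ) (h + i)).gen
      · simp [mk, g3, g2, p1.ne', c, g1]
      · simp [mk, g3, g2, c, a2]
        omega
    · rw [st_succ, e]
      simp [upd, mk, a4]

theorem sz_le (k : (S h).nv = true) {u : ℕ} (hu : u ≤ h) : sz M (dmp S h σ) u ≤ sz M S h :=
  cnt_le fun v hv n => ⟨by omega, by
    obtain ⟨d, e⟩ := tr_le (M := M) (σ := σ) k (show v ≤ h by omega)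
    rwa [e] at n⟩

theorem sz_add (M : Mc) (S : ℕ → Rec) (h i : ℕ) : sz M S (h + i) ≤ sz M S h + i := by
  induction i with
  | zero => exact le_rfl
  | succ i ih =>
    simp only [sz, cnt, ← Nat.add_assoc, Finset.card_filter, Finset.sum_range_succ] at ih ⊢
    split_ifs at ih ⊢ <;> omega

end Dmp

open Dmp in
theorem dmpS : DmpS := by
  intro M G S h σ hG k
  refine ⟨fun u hu => tr_lt hu, fun u hu h0 => ⟨⟨h0, le_rfl, fun v hv => ok_le hG k (by omega),
    .inl rfl⟩, sz_le k hu.le⟩, fun j hj => ?_⟩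
  obtain ⟨j, rfl⟩ := Nat.exists_eq_succ_of_ne_zero hj.ne'
  obtain ⟨a1, -, -, a4⟩ := inv (σ := σ) hG k (min j (st M S h σ).length) (min_le_right _ _)
  have e := step (free (Nat.le_add_right h _)) a1
  have em : (tr M (dmp S h σ) (h + min j (st M S h σ).length + 1)).m = (st M S h σ).getD j 0 := by
    rw [e]
    refine (tp_tm _ _ _ _).trans ?_
    rw [a4]
    rcases lt_or_ge j (st M S h σ).length with c | c
    · rw [min_eq_left c.le, List.drop_eq_getElem_cons c]
      simp [hd, c]
    · rw [min_eq_right c]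
      simp [hd, c]
  refine ⟨h + min j (st M S h σ).length + 1, ⟨by omega, by omega, fun u hu => ?_, ?_⟩, em, ?_⟩
  · rcases le_total u h with c | c
    · exact ok_le hG k c
    · obtain ⟨i, rfl⟩ := Nat.exists_eq_add_of_le c
      exact (inv hG k i (by omega)).2.2.1
  · rcases le_total j (st M S h σ).length with c | c
    · exact .inl (by omega)
    · refine .inr ⟨by rw [e]; rfl, by rw [e]; rfl, ?_⟩
      rw [em]
      simp [c]
  · have := sz_add M (dmp S h σ) h (min j (st M S h σ).length + 1)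
    have := sz_le (M := M) (σ := σ) k le_rfl
    have := st_len M S h σ
    rw [Nat.add_assoc]
    omega

end Pool.Agent.MP_1a6d78_lc.CR
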