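import Pool.Agent.MP_1a6d78_lc.CR.Spec

/-! PROJECT CR, row ENCC: the machine of an automaton is computed. -/

namespace Pool.Agent.MP_1a6d78_lc.CR

open Classical ED PR SC Function

namespace Encc

variable {κ : List Bool → ℕ} {y : NF}

theorem cst (p : Prop) : Cp κ fun _ _ => p := K.c _

theorem small (hy : Cn κ y) (R : ℕ → Prop) (m : ℕ) : Cp κ fun x ρ => y x ρ < m ∧ R (y x ρ) := by
  induction m with
  | zero => exact K.cgP (cst False) fun _ _ => by simp
  | succ m ih =>
    refine K.cgP (K.or ih (K.and (K.eq hy (K.c m)) (cst (R m)))) fun x ρ => ?_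
    rw [Nat.lt_succ_iff_lt_or_eq, or_and_right]
    exact or_congr_right (and_congr_right fun e => by rw [e])

theorem modP (hy : Cn κ y) (R : ℕ → Prop) {m : ℕ} (hm : 0 < m) : Cp κ fun x ρ => R (y x ρ % m) :=
  K.cgP (small (K.mod hy (K.c m)) R m) fun _ _ => and_iff_right (Nat.mod_lt _ hm)

theorem nQ_pos (A : PD) : 0 < A.nQ :=
  haveI := A.finQ
  haveI : Nonempty A.Q := ⟨A.start⟩
  Nat.card_pos

theorem nG_pos (A : PD) : 0 < A.nG :=
  haveI := A.finΓ
  Nat.card_pos

theorem cqP (A : PD) (hy : Cn κ y) (R : A.Q → Prop) : Cp κ fun x ρ => R (A.cq (y x ρ)) :=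
  modP hy (fun m => R (A.dQ m)) (nQ_pos A)

theorem ctP (hF : FinK κ) (A : PD) (hy : Cn κ y) (s : Bool → Option A.Γ) :
    Cp κ fun x ρ => A.ct (y x ρ) = s := by
  refine K.cgP (hF.all (fun σ x ρ => A.ct (y x ρ) σ = s σ) fun σ => ?_) fun _ _ => funext_iff.symm
  cases σ
  · exact modP (K.div hy (K.c A.nQ)) (fun m => A.dG m = s false) (nG_pos A)
  · exact modP (K.div (K.div hy (K.c A.nQ)) (K.c A.nG)) (fun m => A.dG m = s true) (nG_pos A)

theorem len1 (n : ℕ) : Cn κ fun x _ => x.length + n := K.add (kitOne κ).len (K.c n)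

theorem chN (A : PD) (hy : Cn κ y) (i : Fin A.k) : Cn κ fun x ρ => A.ch x.length (y x ρ) i :=
  K.mod (K.div (K.div (K.div (K.div hy (K.c _)) (K.c _)) (K.c _)) (K.pow _ (len1 1))) (len1 1)

theorem symP (hy : Cn κ y) (o : Option Bool) : Cp κ fun x ρ => x[y x ρ]? = o := by
  have h1 : Cp κ fun x ρ => x[y x ρ]? = none :=
    K.cgP (K.le (kitOne κ).len hy) fun _ _ => List.getElem?_eq_none_iff.symm
  have h2 : Cp κ fun x ρ => x[y x ρ]? = some true :=
    K.cg ((kitOne κ).bit hy) fun x ρ => by unfold bit; congr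
  rcases o with _ | _ | _
  · exact h1
  · refine K.cgP (K.and (K.not h1) (K.not h2)) fun x ρ => ?_
    rcases x[y x ρ]? with _ | _ | _ <;> simp
  · exact h2

theorem viewP (hy : Cn κ y) (v : Bool × Option Bool) :
    Cp κ fun x ρ => (decide (y x ρ = 0), x[y x ρ]?) = v := by
  obtain ⟨b, o⟩ := v
  cases b
  · exact K.cgP (K.and (K.ne hy (K.c 0)) (symP hy o)) fun _ _ => by simp
  · exact K.cgP (K.and (K.eq hy (K.c 0)) (symP hy o)) fun _ _ => by simp

theorem moveN (hy : Cn κ y) (d : SignType) : Cn κ fun x ρ => move (y x ρ) d := by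
  cases d
  · exact K.cg hy fun _ _ => by simp [move]
  · exact K.cg (K.sub hy (K.c 1)) fun _ _ => by simp [move]; omega
  · exact K.cg (K.add hy (K.c 1)) fun _ _ => by simp [move]

abbrev X (A : PD) : Type := A.Q × (Fin A.k → Bool × Option Bool) × (Bool → Option A.Γ)

/-- What the transition function sees. -/
noncomputable def φ (A : PD) (x : List Bool) (y : ℕ) : X A :=
  (A.cq y, fun i => (decide (A.ch x.length y i = 0), x[A.ch x.length y i]?), A.ct y)

theorem φP (hF : FinK κ) (A : PD) (hy : Cn κ y) (v : X A) : Cp κ fun x ρ => φ A x (y x ρ) = v :=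
  K.cgP (K.and (cqP A hy (· = v.1)) (K.and (hF.all _ fun i => viewP (chN A hy i) (v.2.1 i))
    (ctP hF A hy v.2.2))) fun _ _ => by simp only [φ, Prod.ext_iff (x := (_, _)) (y := v),
      Prod.ext_iff (x := (_, _)) (y := v.2), funext_iff]

end Encc

open Encc in
theorem encC (hF : FinS) : EncC := by
  intro A a κ
  have hF := hF κ
  haveI := A.finQ
  haveI := A.finΓ
  have h0 := φP hF A (K.v (κ := κ) 0)
  have hP : ∀ R : X A → Prop, Cp κ fun x ρ => R (φ A x (hd (ρ 0))) := fun R =>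
    hF.cases _ (fun v _ _ => if R v then 1 else 0) h0 fun _ => K.c _
  refine ⟨⟨?_, ?_, ?_, ?_⟩, cqP A (K.v 0) fun q => A.out q = some true⟩
  · exact hF.cases _ (fun v _ _ => if (A.out v.1).isSome = true then 2 else
      A.opA v.2.2 (A.δ v.1 v.2.1 v.2.2).2.2) h0 fun _ => K.c _
  · exact hP fun v => (if (A.out v.1).isSome = true then false else
      A.opS (A.δ v.1 v.2.1 v.2.2).2.2) = true
  · exact K.cgP (hP fun v => v.2.2 true = none) fun _ _ => by simp [PD.mc, φ]
  · refine hF.cases (fun x ρ => (φ A x (hd (ρ 0)), A.ct (hd (ρ 1))))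
      (fun v x ρ => (if (A.out v.1.1).isSome = true then hd (ρ 0) else
        A.code x.length (A.δ v.1.1 v.1.2.1 v.1.2.2).1
          (A.opT v.1.2.2 v.2 (A.δ v.1.1 v.1.2.1 v.1.2.2).2.2) fun i =>
            min (move (A.ch x.length (hd (ρ 0)) i) ((A.δ v.1.1 v.1.2.1 v.1.2.2).2.1 i)) x.length) %
              (x.length + 2) ^ a)
      (fun v => K.cgP (K.and (h0 v.1) (ctP hF A (K.v 1) v.2)) fun _ _ =>
        (Prod.ext_iff (x := (_, _)) (y := v)).symm)
      fun v => K.mod (K.ite (cst _) (K.v 0) ?_) (K.pow a (len1 2))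
    exact K.add (K.c _) (K.mul (K.c _) (K.add (K.c _) (K.mul (K.c _) (K.add (K.c _) (K.mul (K.c _)
      (hF.sum _ fun i => K.mul (K.min (moveN (chN A (K.v 0) i) _) (kitOne κ).len)
        (K.pow _ (len1 1))))))))

end Pool.Agent.MP_1a6d78_lc.CR
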