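import Pool.Agent.MP_1a6d78_lc.CR.Spec

/-! PROJECT CR, row ENCS: the machine on numbers follows the automaton. -/

namespace Pool.Agent.MP_1a6d78_lc.CR

open Classical ED PR SC Function

namespace Encs

/-- The stacks correspond. -/
def R (A : PD) (G : ℕ) (s : Bool) : List (ℕ × ℕ) → List (A.Γ × ℕ) → Prop
  | [], [] => True
  | y :: l, b :: l' => y.2 = b.2 ∧ y.2 ≤ G ∧ A.ct y.1 s = l'.head?.map Prod.fst ∧ R A G s l l'
  | _, _ => False

theorem R_nil {A : PD} {G s} : ∀ {l l'}, R A G s l l' → (l = [] ↔ l' = [])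
  | [], [], _ => by simp
  | _ :: _, _ :: _, _ => by simp
  | [], _ :: _, h => h.elim
  | _ :: _, [], h => h.elim

theorem R_le {A : PD} {G s} : ∀ {l l'}, R A G s l l' → ∀ y ∈ l, y.2 ≤ G
  | [], [], _ => by simp
  | _ :: _, _ :: _, h => by
    intro y hy
    rcases List.mem_cons.1 hy with rfl | hy
    exacts [h.2.1, R_le h.2.2.2 y hy]
  | [], _ :: _, h => h.elim
  | _ :: _, [], h => h.elim

def tops (A : PD) (c : A.Cfg) (s : Bool) : Option A.Γ := (c.st s).head?.map Prod.fst

theorem tops_none {A : PD} {c : A.Cfg} {s} : tops A c s = none ↔ c.st s = [] := by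
  simp [tops]

structure Sim (A : PD) (x : List Bool) (G : ℕ) (c : A.Cfg) (m : Cf) : Prop where
  hd : ∀ i, c.head i ≤ x.length
  q : m.q = A.code x.length c.q (tops A c) c.head
  g : m.g = c.d
  st : ∀ s, R A G s (m.st s) (c.st s)

variable {A : PD} {x : List Bool} {T G : ℕ}

theorem Sim.root (hC : CodS) {c m} (h : Sim A x G c m) :
    (A.mc x T).root m.q = true ↔ c.st true = [] := by
  simp only [PD.mc, h.q, (hC A _ _ _ _ h.hd).2.1, decide_eq_true_eq, tops_none]

theorem Sim.step (hC : CodS) (hT : (x.length + 2) ^ (A.nQ + 2 * A.nG + A.k) ≤ T) {c m}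
    (h : Sim A x G c m) (hn : ¬(A.out c.q).isSome = true) (hd : (A.step x c).d ≤ G) :
    Sim A x G (A.step x c) ((A.mc x T).step 0 m) ∧ ¬(A.mc x T).stop m ∧
      (((A.mc x T).step 0 m).st false).length ≤ (m.st false).length + 1 := by
  obtain ⟨hq, ht, hh, -⟩ := hC A _ c.q (tops A c) c.head h.hd
  rw [← h.q] at hq ht hh
  have hr := h.root (T := T) hC
  obtain ⟨a, ha⟩ : ∃ a, a = A.ca x m.q := ⟨_, rfl⟩
  have hs : A.step x c = ⟨a.1, fun i => min (move (c.head i) (a.2.1 i)) x.length, A.depth c a.2.2,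
      match a.2.2 with
      | none => c.st
      | some (s, some b) => update c.st s ((b, A.depth c a.2.2) :: c.st s)
      | some (s, none) => update c.st s (c.st s).tail⟩ := by
    rw [PD.step, if_neg hn, ha, PD.ca, hq, ht, hh]; rfl
  have h1 : (A.mc x T).act m.q = A.opA (tops A c) a.2.2 := by
    simp only [PD.mc, hq, if_neg hn, ht, ha]
  have h2 : (A.mc x T).sd m.q = A.opS a.2.2 := by simp only [PD.mc, hq, if_neg hn, ha]
  have h3 : ∀ z, (A.mc x T).δ m.q z = A.code x.length a.1 (A.opT (tops A c) (A.ct z) a.2.2)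
      fun i => min (move (c.head i) (a.2.1 i)) x.length := fun z => by
    simp only [PD.mc, hq, if_neg hn, ht, hh, ← ha]
    exact Nat.mod_eq_of_lt ((hC A _ _ _ _ fun i => min_le_right _ _).2.2.2.trans_le hT)
  have h4 : ∀ u v : ℕ, (if (A.mc x T).root m.q = true then u else v) =
      if c.st true = [] then u else v := fun u v => by simp only [hr]
  rw [hs] at hd ⊢
  obtain ⟨q', mv, o⟩ := a
  simp only [Mc.stop, Mc.step, h1, h2, h3, h4] at hd ⊢
  rcases o with _ | ⟨σ, _ | b⟩
  · simp only [PD.opA, PD.opT]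
    refine ⟨⟨fun i => min_le_right _ _, rfl, ?_, h.st⟩, by simp, by simp⟩
    simp [PD.depth, h.g]
  · rcases e : c.st σ with _ | ⟨b, l'⟩
    · have e' := tops_none.2 e
      have e'' : update c.st σ [] = c.st := by rw [← e, update_eq_self]
      simp only [PD.opA, PD.opT, e', e, List.tail_nil, e'', if_true]
      refine ⟨⟨fun i => min_le_right _ _, rfl, ?_, h.st⟩, by simp, by simp⟩
      simp [PD.depth, h.g, e]
    · have e' : ¬tops A c σ = none := by simp [tops_none, e]
      have k := h.st σ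
      rcases e2 : m.st σ with _ | ⟨y, l⟩
      · rw [e, e2] at k; exact k.elim
      rw [e, e2] at k
      simp only [PD.opA, PD.opT, PD.opS, e', if_false, e, e2, List.tail_cons, if_true,
        show ¬(2 = 1) by decide]
      refine ⟨⟨fun i => min_le_right _ _, ?_, ?_, fun s => ?_⟩, by simp, ?_⟩
      · show A.code _ _ _ _ = A.code _ _ _ _
        congr 1
        funext s
        by_cases es : s = σ
        · subst es; simp [tops, k.2.2.1]
        · simp [tops, update_of_ne es]
      · simp [PD.depth, h.g, e, k.1]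
      · by_cases es : s = σ
        · subst es; simpa using k.2.2.2
        · simpa [update_of_ne es] using h.st s
      · cases σ
        · simp [e2]; omega
        · simp
  · simp only [PD.opA, PD.opT, PD.opS, if_true]
    have hg : (if c.st true = [] then 0 else m.g + 1) = A.depth c (some (σ, some b)) := by
      simp [PD.depth, h.g]
    refine ⟨⟨fun i => min_le_right _ _, ?_, hg, fun s => ?_⟩, by simp, ?_⟩
    · show A.code _ _ _ _ = A.code _ _ _ _
      congr 1
      funext s
      by_cases es : s = σ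
      · subst es; simp [tops]
      · simp [tops, update_of_ne es]
    · by_cases es : s = σ
      · subst es
        simp only [update_self]
        exact ⟨hg, hg ▸ hd, congrFun ht s, h.st s⟩
      · simpa [update_of_ne es] using h.st s
    · cases σ <;> simp

theorem run_succ (A : PD) (x : List Bool) (u : ℕ) : A.run x (u + 1) = A.step x (A.run x u) :=
  iterate_succ_apply' _ _ _

theorem mrun_succ (M : Mc) (q u : ℕ) : M.run 0 q (u + 1) = M.step 0 (M.run 0 q u) :=
  iterate_succ_apply' _ _ _

theorem halt {t : ℕ} (h : (A.out (A.run x t).q).isSome = true) (j : ℕ) :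
    A.run x (t + j) = A.run x t := by
  induction j with
  | zero => rfl
  | succ j ih => rw [← add_assoc, run_succ, ih, PD.step, if_pos h]

/-- After the halt the left stack is popped. -/
theorem pop {m : Cf} (h : (A.out (A.cq m.q)).isSome = true) (hT : m.q < T) (hg : m.g ≤ G + 1)
    (hs : ∀ y ∈ m.st false, y.2 ≤ G) (j : ℕ) :
    (((A.mc x T).step 0)^[j] m).q = m.q ∧ (((A.mc x T).step 0)^[j] m).g ≤ G + 1 ∧
      (((A.mc x T).step 0)^[j] m).st true = m.st true ∧
      (((A.mc x T).step 0)^[j] m).st false = (m.st false).drop j := by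
  induction j with
  | zero => exact ⟨rfl, hg, rfl, rfl⟩
  | succ j ih =>
    rw [iterate_succ_apply']
    generalize ((A.mc x T).step 0)^[j] m = c at ih
    obtain ⟨h1, h2, h3, h4⟩ := ih
    have k1 : (A.mc x T).act c.q = 2 := by simp only [PD.mc, h1, if_pos h]
    have k2 : (A.mc x T).sd c.q = false := by simp only [PD.mc, h1, if_pos h]
    have k3 : ∀ z, (A.mc x T).δ c.q z = m.q := fun z => by
      simp only [PD.mc, h1, if_pos h, Nat.mod_eq_of_lt hT]
    have k4 : (m.st false).drop (j + 1) = (c.st false).tail := by rw [h4, List.tail_drop]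
    simp only [Mc.step, k1, k2, k3, k4, if_true, show ¬(2 = 1) by decide, if_false]
    rcases e : c.st false with _ | ⟨y, l⟩
    · exact ⟨h1, h2, h3, e⟩
    · have := hs y (List.mem_of_mem_drop (h4 ▸ e ▸ List.mem_cons_self))
      refine ⟨rfl, ?_, by simpa using h3, by simp⟩
      dsimp only
      split_ifs <;> omega

end Encs

open Encs in
theorem encS (hC : CodS) : EncS := by
  intro A x T t G hT ht hG q₀ hq
  have ex : ∃ t, (A.out (A.run x t).q).isSome = true := ⟨t, ht⟩
  have h0 := Nat.find_spec ex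
  have h1 : Nat.find ex ≤ t := Nat.find_min' ex ht
  have h2 : ∀ u < Nat.find ex, ¬(A.out (A.run x u).q).isSome = true := fun u => Nat.find_min ex
  generalize Nat.find ex = t₀ at h0 h1 h2
  have sim : ∀ u ≤ t₀, Sim A x G (A.run x u) ((A.mc x T).run 0 q₀ u) ∧
      (((A.mc x T).run 0 q₀ u).st false).length ≤ u := by
    intro u hu
    induction u with
    | zero => exact ⟨⟨fun _ => Nat.zero_le _, hq, rfl, fun _ => trivial⟩, le_rfl⟩
    | succ u ih =>
      obtain ⟨i1, i2⟩ := ih (by omega)
      have := i1.step hC hT (h2 u hu) (run_succ A x u ▸ hG (u + 1))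
      rw [run_succ, mrun_succ]
      exact ⟨this.1, by omega⟩
  obtain ⟨s, sl⟩ := sim t₀ le_rfl
  obtain ⟨c1, -, -, c2⟩ := hC A _ (A.run x t₀).q (tops A (A.run x t₀)) _ s.hd
  rw [← s.q] at c1 c2
  have pp := fun j => pop (x := x) (c1 ▸ h0) (c2.trans_le hT) (s.g ▸ (hG t₀).trans (Nat.le_succ G))
    (R_le (s.st false)) j
  have ad : ∀ j, ((A.mc x T).step 0)^[j] ((A.mc x T).run 0 q₀ t₀) = (A.mc x T).run 0 q₀ (t₀ + j) :=
    fun j => by rw [Mc.run, Mc.run, add_comm, iterate_add_apply]
  simp only [ad] at pp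
  have rt : ∀ u, (A.mc x T).root ((A.mc x T).run 0 q₀ u).q = true ↔
      ((A.mc x T).run 0 q₀ u).st true = [] := fun u => by
    rcases le_total u t₀ with hu | hu
    · exact ((sim u hu).1.root hC).trans (R_nil ((sim u hu).1.st true)).symm
    · obtain ⟨j, rfl⟩ := Nat.exists_eq_add_of_le hu
      rw [(pp j).1, (pp j).2.2.1]
      exact (s.root hC).trans (R_nil (s.st true)).symm
  have sp : ∀ j, (A.mc x T).stop ((A.mc x T).run 0 q₀ (t₀ + j)) ↔
      (((A.mc x T).run 0 q₀ t₀).st false).length ≤ j := fun j => by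
    rw [← List.drop_eq_nil_iff, ← (pp j).2.2.2, Mc.stop, (pp j).1]
    have k := c1 ▸ h0
    rw [show (A.mc x T).act _ = 2 from if_pos k, show (A.mc x T).sd _ = false from if_pos k]
    exact and_iff_right rfl
  refine ⟨t₀ + (((A.mc x T).run 0 q₀ t₀).st false).length, by omega, _,
    ⟨fun u hu => ?_, fun u _ => (rt u).1, fun u _ => ?_, (sp _).2 le_rfl, rfl⟩, ?_,
    fun u _ => (rt u).2⟩
  · rcases lt_or_ge u t₀ with k | k
    · exact ((sim u k.le).1.step hC hT (h2 u k) (run_succ A x u ▸ hG (u + 1))).2.1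
    · obtain ⟨j, rfl⟩ := Nat.exists_eq_add_of_le k
      rw [sp]; omega
  · rcases le_total u t₀ with k | k
    · rw [(sim u k).1.g]; exact (hG u).trans (Nat.le_succ G)
    · obtain ⟨j, rfl⟩ := Nat.exists_eq_add_of_le k
      exact (pp j).2.1
  · obtain ⟨j, rfl⟩ := Nat.exists_eq_add_of_le h1
    rw [(pp _).1, c1, halt h0]

end Pool.Agent.MP_1a6d78_lc.CR
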