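import Pool.Agent.MP_1a6d78_lc.CR.Spec

/-! PROJECT CR: a path is made explicit. -/

namespace Pool.Agent.MP_1a6d78_lc.CR

open Classical ED PR SC Function

namespace ExplA

/-- The invariant after `i` rounds. -/
structure Iv (π : Pm) (M : Mc) (Y : List ℕ) (n s i : ℕ) (A : List ℕ) : Prop where
  rep : π.Rep A (n + i)
  ext : Ext M (π.scr Y) (π.scr A)
  pos : gt A 2 = (pt (tr M (π.scr Y)))^[i] s
  done : ∀ j < i, (π.scr A ((pt (tr M (π.scr Y)))^[j] s)).nv = true
  mrk : π.Mk A = π.Mk Y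
  g0 : gt A 0 = gt Y 0
  g1 : gt A 1 = gt Y 1

variable {π : Pm} {M : Mc} {A : List ℕ} {k c a : ℕ}

/-- One new entry. -/
theorem ins_ext (h : π.Rep A k) (hk : k < π.K) (h0 : 0 < c) (hn : (tr M (π.scr A) c).nv = true)
    (hc : ¬(π.scr A c).nv = true) (ha : dec π.P a = tr M (π.scr A) c) :
    Ext M (π.scr A) (π.scr (π.ins a A)) ∧ (π.scr (π.ins a A) c).nv = true ∧
      π.Mk (π.ins a A) = π.Mk A := by
  have e : π.scr (π.ins a A) = update (π.scr A) c (tr M (π.scr A) c) := by
    funext u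
    rw [Pm.scr_ins h hk, ha, tr_tm M _ h0]
    by_cases e : u = c
    · rw [e, update_self, if_pos ⟨hn, rfl⟩]
    · rw [update_of_ne e, if_neg fun n => e n.2.symm]
  refine ⟨e ▸ ext_one hn hc h0, by rwa [e, update_self], ?_⟩
  funext σ z
  refine propext ((Pm.Mk_ins h hk a σ z).trans (or_iff_left fun n => ?_))
  rw [← ha, n, mkE_nv] at hn
  exact Bool.false_ne_true hn

end ExplA

open ExplA in
theorem explS : ExplS := by
  intro π M g b W Y n H s hY hK gd hH hs nv b0 b1 hg
  have h3 := hY.1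
  have hP : 0 < π.P := by omega
  have key : ∀ i ≤ π.G + 2, Iv π M Y n s i (itr (fun _ => π.ex1 g b W) (π.seth Y 2 s) i) := by
    intro i
    induction i with
    | zero =>
      intro _
      exact ⟨hY.seth hP s (by omega), by rw [itr, Pm.scr_seth Y s (by omega)]; exact Ext.refl M _,
        (Pm.gt_seth Y 2 s (by omega)).trans (if_pos rfl), fun j hj => by omega,
        Pm.Mk_seth Y s (by omega), (Pm.gt_seth Y 2 s (by omega)).trans (if_neg (by omega)),
        (Pm.gt_seth Y 2 s (by omega)).trans (if_neg (by omega))⟩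
    | succ i ih =>
      intro hi
      have v := ih (by omega)
      change Iv π M Y n s (i + 1) (π.ex1 g b W _)
      generalize itr (fun _ => π.ex1 g b W) (π.seth Y 2 s) i = A at v ⊢
      have hon : On (tr M (π.scr Y)) s (gt A 2) := ⟨i, v.pos.symm⟩
      have sp := on_spec gd hs nv hon
      have sp' := on_spec gd hs nv hon.step
      have w : π.Rep (π.ex0 g b W A) (n + (i + 1)) ∧ Ext M (π.scr A) (π.scr (π.ex0 g b W A)) ∧
          (π.scr (π.ex0 g b W A) (gt A 2)).nv = true ∧ π.Mk (π.ex0 g b W A) = π.Mk A ∧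
          gt (π.ex0 g b W A) 0 = gt A 0 ∧ gt (π.ex0 g b W A) 1 = gt A 1 := by
        unfold Pm.ex0
        split_ifs with c
        · exact ⟨v.rep.mono (by omega), Ext.refl M _, c, rfl, rfl, rfl⟩
        · have c' : ¬(π.scr Y (gt A 2)).nv = true := fun e => c (v.ext.nv e)
          have c0 : 0 < gt A 2 := Nat.pos_of_ne_zero fun e => c' (e ▸ (gd 0 (by omega)).1)
          obtain ⟨q1, q2⟩ := hg _ hon c'
          obtain ⟨q3, q4, q5⟩ := ins_ext (M := M) v.rep (by omega) c0 (v.ext.1 ▸ sp.2) c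
            (v.ext.1 ▸ q1)
          exact ⟨v.rep.ins q2, q3, q4, q5, (Pm.gt_ins _ A (by omega)).trans (if_pos (by omega)),
            (Pm.gt_ins _ A (by omega)).trans (if_pos (by omega))⟩
      unfold Pm.ex1
      generalize π.ex0 g b W A = B at w ⊢
      obtain ⟨w1, w2, w3, w4, w5, w6⟩ := w
      have x := v.ext.trans w2
      have e : pt (π.scr B) (gt A 2) = pt (tr M (π.scr Y)) (gt A 2) := by
        have := (x.ok (gd (gt A 2) (by omega))).scr w3
        unfold pt
        rw [this, x.1]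
      rw [e]
      have r := w1.seth hP (pt (tr M (π.scr Y)) (gt A 2)) (i := 2) (by omega)
      have sc := (Pm.scr_trn r).trans (Pm.scr_seth B _ (by omega))
      have gg : ∀ j < 3, (if j = 2 then pt (tr M (π.scr Y)) (gt A 2) else gt B j) ≤ π.β →
          gt (π.trn (π.seth B 2 (pt (tr M (π.scr Y)) (gt A 2)))) j =
            if j = 2 then pt (tr M (π.scr Y)) (gt A 2) else gt B j := fun j hj k => by
        have e := Pm.gt_seth (π := π) B 2 (pt (tr M (π.scr Y)) (gt A 2)) (e := j) (by omega)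
        rw [Pm.gt_trn _ (by omega) (e ▸ k), e]
      have hβ := P_le π
      refine ⟨r.trn hP, sc ▸ x, ?_, fun j hj => ?_,
        ((Pm.Mk_trn r).trans (Pm.Mk_seth B _ (by omega))).trans (w4.trans v.mrk), ?_, ?_⟩
      · rw [gg 2 (by omega) (by rw [if_pos rfl]; omega), if_pos rfl, iterate_succ_apply', v.pos]
      · rw [sc]
        rcases Nat.lt_succ_iff_lt_or_eq.1 hj with k | k
        · exact w2.nv (v.done j k)
        · rwa [k, ← v.pos]
      · rw [gg 0 (by omega) (by rwa [if_neg (by omega), w5, v.g0]), if_neg (by omega), w5, v.g0]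
      · rw [gg 1 (by omega) (by rwa [if_neg (by omega), w6, v.g1]), if_neg (by omega), w6, v.g1]
  have v := key _ le_rfl
  refine ⟨v.ext, fun c hc => ?_, v.rep, v.mrk, v.g0, v.g1,
    v.pos.trans (path_end gd hs nv (by omega))⟩
  obtain ⟨i, hi, e⟩ := on_short gd hs nv (v.ext.1 ▸ hc)
  exact e ▸ v.done i hi

end Pool.Agent.MP_1a6d78_lc.CR
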