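import Pool.Agent.MP_1a6d78_lc.CR.Spec

/-! PROJECT CR, row FJ: the probes compute the symbols and the weights. -/

namespace Pool.Agent.MP_1a6d78_lc.CR

open Classical ED PR SC Function

theorem fjS (hP : ProbeS) (hR : RstS) (hL : LstS) (hE : ExplS) (hS : PslS) : FjS := by
  intro π M g d b t H r Y n cx li hn σ W hW
  have inv := li.inv
  have gd := inv.inst.gd
  have l1 := inv.lt
  have l2 := inv.inst.le
  have l3 := cx.ht
  have l4 := cx.hK
  have l5 := cx.hJ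
  have l6 := P_le π
  have hT : ∀ τ, Top (π.Mk Y) τ (π.top Y τ) := fun τ =>
    (hL π Y n li.rep (by omega) (by omega)).2.2 τ fun z hz => by
      rcases inv.mrk τ z hz with e | e
      · omega
      · have := (mem_st e.1).2.1
        omega
  have hz : ∀ τ, π.top Y τ = 0 ∨
      (π.top Y τ ∈ st M (π.scr Y) (gt Y 0) τ ∧ Expl M (π.scr Y) (π.top Y τ)) := fun τ =>
    (hT τ).1.elim .inl (inv.mrk τ _)
  have hz' : ∀ τ, π.top Y τ ≤ gt Y 0 ∧ Expl M (π.scr Y) (π.top Y τ) := fun τ => by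
    rcases hz τ with e | e
    · rw [e]
      exact ⟨Nat.zero_le _, expl_zero (gd 0 inv.inst.pos)⟩
    · exact ⟨(mem_st e.1).2.1, e.2⟩
  have rk := hR π M Y n H li.rep (by omega) gd inv.inst.pos (by omega)
  have e1 := rk.rst (win (π.top Y)) ((hz' false).1.trans_lt l1) ((hz' true).1.trans_lt l1)
    (hz' false).2 (hz' true).2
  obtain ⟨p1, p2, p3, p4⟩ := hP M π.G b t H r _ _ _ inv cx.hb (π.top Y) σ hT _ rfl
  obtain ⟨e2, rW, mW⟩ := (hL π _ n (rk.rep (win (π.top Y))).1 (by omega) (by omega)).1 (gt Y 0) σ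
    (by rw [e1]; exact p1)
  rw [← hW] at e2 rW mW
  rw [e1] at e2
  rw [← e2] at p3 p4
  refine ⟨hT σ, by omega, fun j hj => ?_⟩
  have hs : pS M (π.scr Y) (gt Y 0) σ (π.top Y σ) j ≤ gt Y 0 ∧
      (tr M (π.scr Y) (pS M (π.scr Y) (gt Y 0) σ (π.top Y σ) j)).nv = true := by
    cases j with
    | zero => exact ⟨le_rfl, inv.ex.nv⟩
    | succ j =>
      rcases (hS M (π.scr Y) (gt Y 0) σ (π.top Y σ) j ((hz σ).imp_right And.left)).2.2.1 with e | e
      · rw [e]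
        exact ⟨(hz' σ).1, (hz' σ).2.nv⟩
      · exact ⟨(mem_st e).2.1, (mem_st e).2.2.1⟩
  have a1 : π.pj g b W (gt Y 0) (π.top Y σ) j = pS M (π.scr Y) (gt Y 0) σ (π.top Y σ) j := by
    rcases Nat.eq_zero_or_pos j with e | e
    · rw [e]
      rfl
    · obtain ⟨H', q1, q2, q3⟩ := p4 j e
      rw [Pm.pj, if_neg e.ne', (cx.qry W n _ H' rW (by omega) mW (by omega) q1 q2).1, q3]
  have a3 : ∀ c, On (tr M (π.scr Y)) (pS M (π.scr Y) (gt Y 0) σ (π.top Y σ) j) c →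
      ¬(π.scr Y c).nv = true →
        dec π.P (g (π.qry b c W)) = tr M (π.scr Y) c ∧ g (π.qry b c W) < π.β := fun c hc hn' => by
    obtain ⟨q1, q2, q3⟩ := p3 j c hc hn'
    have := (on_spec gd (hs.1.trans_lt l1) hs.2 hc).1
    have := hs.1
    rw [← q2]
    exact cx.qry W n c c rW (by omega) mW (by omega) q1 q3
  refine ⟨a1, ?_, a3⟩
  obtain ⟨x1, x2, x3, -⟩ := hE π M g b W Y n H _ li.rep (by omega) gd (by omega) (hs.1.trans_lt l1)
    hs.2 (by omega) (by rw [li.res]; exact Nat.zero_le _) a3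
  rw [Pm.fj, a1, (hR π M _ _ H x3 (by omega) (fun u hu => x1.ok (gd u hu)) inv.inst.pos
    (by omega)).ws σ _ _ (hs.1.trans_lt l1) l1 x2 (x1.expl inv.ex), x1.1]

end Pool.Agent.MP_1a6d78_lc.CR
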