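import Pool.Agent.MP_1a6d78_lc.CR.Spec

/-! PROJECT CR, row GEO: sides of symbols and nested cuts. -/

namespace Pool.Agent.MP_1a6d78_lc.CR

open Classical ED PR SC Function

namespace Geo

variable {M : Mc} {G H : ℕ} {S : ℕ → Rec}

/-- The popped symbol is the top of its stack. -/
theorem top {u : ℕ} (h : Ok M G S (u + 1)) (k : (tr M S (u + 1)).nv = true)
    (a : (tr M S (u + 1)).act = 2) : (tr M S (u + 1)).m ∈ st M S u (tr M S (u + 1)).sd ∧
      ∀ p ∈ st M S (u + 1) (tr M S (u + 1)).sd, p < (tr M S (u + 1)).m := by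
  have e := pop_cons k a h.1
  have s := st_sorted M S u (tr M S (u + 1)).sd
  rw [e] at s
  exact ⟨by simp [e], fun p hp => List.rel_of_pairwise_cons s hp⟩

/-- The three kinds of parents. -/
theorem three {u : ℕ} (h : Ok M G S (u + 1)) (k : (tr M S (u + 1)).nv = true) :
    (pt (tr M S) (u + 1) = u ∧ pe (tr M S) (u + 1) = (tr M S u).sd) ∨
    (pt (tr M S) (u + 1) ∈ st M S u (!pe (tr M S) (u + 1)) ∧
      ∀ p ∈ st M S (u + 1) (!pe (tr M S) (u + 1)), p < pt (tr M S) (u + 1)) ∨
    (pt (tr M S) (u + 1) = 0 ∧ pe (tr M S) (u + 1) = false ∧ st M S u true = []) := by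
  obtain ⟨-, k2, k3, -⟩ := h.2.2 k
  unfold pt pe
  split_ifs with e1 e2
  · exact .inl ⟨rfl, rfl⟩
  · rw [Bool.not_not]
    exact .inr (.inl (top h k (k2 e2).1))
  · exact .inr (.inr ⟨rfl, rfl, k3 e1 e2⟩)

theorem side {σ τ : Bool} (h : σ ≠ !τ) : τ = σ := by
  cases σ <;> cases τ <;> simp_all

theorem gq (h : Gd M G S H) (p : ℕ) (σ : Bool) (s : ℕ) : ∀ e, s < H → (tr M S s).nv = true →
    p ∈ st M S s σ → p < s → rt (tr M S) s e p = σ := by
  induction s using Nat.strong_induction_on with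
  | _ s ih =>
    intro e hs k hp l
    obtain ⟨k1, k2, -⟩ := pt_spec h hs (by omega) k
    rw [rt_step e l k1]
    by_cases c : p < pt (tr M S) s
    · exact ih _ k1 _ (by omega) k2 (st_back hp c.le k1.le) c
    rw [rt_le _ _ (by omega)]
    obtain ⟨u, rfl⟩ : ∃ u, s = u + 1 := ⟨s - 1, by omega⟩
    rcases three (h _ hs) k with ⟨a, b⟩ | ⟨-, b⟩ | ⟨-, a, b⟩
    · rw [b, show u = p by omega]
      exact (mem_st hp).2.2.2.2
    · exact side fun q => c (b p (q ▸ hp))
    · rw [a]
      cases σ with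
      | false => rfl
      | true => exact absurd (b ▸ st_back hp (by omega) u.le_succ) List.not_mem_nil

theorem gn (h : Gd M G S H) (u s : ℕ) : ∀ p σ, s < H → (tr M S s).nv = true → p ∈ st M S s σ →
    rs (tr M S) σ s u → rs (tr M S) σ p u := by
  induction s using Nat.strong_induction_on with
  | _ s ih =>
    intro p σ hs k hp r
    by_cases l : p ≤ u
    · exact rs_le _ _ l
    obtain ⟨p0, p1, p2, -⟩ := mem_st hp
    rcases p1.eq_or_lt with rfl | l1
    · exact r
    obtain ⟨k1, k2, -⟩ := pt_spec h hs (by omega) k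
    rw [rs, rt_step _ (by omega) k1] at r
    by_cases c : p ≤ pt (tr M S) s
    · exact ih _ k1 p σ (by omega) k2 (st_back hp c k1.le)
        ((rt_ext _ _ _ (by omega)).trans r)
    obtain ⟨v, rfl⟩ : ∃ v, s = v + 1 := ⟨s - 1, by omega⟩
    rcases three (h _ hs) k with ⟨a, -⟩ | ⟨a, b⟩ | ⟨a, b, d⟩
    · omega
    · have e : pe (tr M S) (v + 1) = σ := side fun q => c (b p (q ▸ hp)).le
      rw [e] at a r
      by_contra n
      have := ih p l1 _ (!σ) (by omega) p2 (st_back a (by omega) (by omega))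
        ((rs_not _ _ (by omega)).2 n)
      rw [rs, Bool.not_not, r] at this
      cases σ <;> exact absurd this (by decide)
    · rw [a, b, rt_le _ _ u.zero_le] at r
      cases σ with
      | false => exact absurd r (by decide)
      | true => exact absurd (d ▸ st_back hp (by omega) v.le_succ) List.not_mem_nil

theorem gp (h : Gd M G S H) {c : ℕ} (hc : c < H) (kc : (tr M S c).nv = true)
    (a : (tr M S c).act = 2) (s : ℕ) : ∀ e, s < H → (tr M S s).nv = true → ¬On (tr M S) s c →
      (c < s ∨ s = 0 ∨ s ∈ st M S c (!e)) → rt (tr M S) s e (tr M S c).m = rt (tr M S) s e c := by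
  cases c with
  | zero => have := (h 0 hc).2.2.1; rw [tr_zero] at a; omega
  | succ w =>
  obtain ⟨t1, t2⟩ := top (h _ hc) kc a
  have t3 := (mem_st t1).2.1
  induction s using Nat.strong_induction_on with
  | _ s ih =>
    intro e hs k o r
    by_cases l : s ≤ (tr M S (w + 1)).m
    · rw [rt_le _ _ l, rt_le _ _ (by omega)]
    have n : s ≠ w + 1 := fun q => o (q ▸ On.refl _ _)
    by_cases l1 : s ≤ w
    · rw [rt_le _ _ (show s ≤ w + 1 by omega),
        gq h _ _ s e hs k (st_back t1 (by omega) l1) (by omega)]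
      have r1 := (r.resolve_left (by omega)).resolve_left (by omega)
      exact (side (τ := e) fun q => l (t2 s (by rw [q]; exact r1)).le).symm
    obtain ⟨k1, k2, -⟩ := pt_spec h hs (by omega) k
    rw [rt_step e (by omega) k1, rt_step e (by omega) k1]
    have o1 : ¬On (tr M S) (pt (tr M S) s) (w + 1) := fun q => o (on_iff.2 (.inr q))
    refine ih _ k1 _ (by omega) k2 o1 ?_
    have n1 : pt (tr M S) s ≠ w + 1 := fun q => o1 (q ▸ On.refl _ _)
    obtain ⟨v, rfl⟩ : ∃ v, s = v + 1 := ⟨s - 1, by omega⟩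
    rcases three (h _ hs) k with ⟨b, -⟩ | ⟨b, -⟩ | ⟨b, -⟩
    · exact .inl (by omega)
    · by_cases q : w + 1 < pt (tr M S) (v + 1)
      exacts [.inl q, .inr (.inr (st_back b (by omega) (by omega)))]
    · exact .inr (.inl b)

end Geo

theorem geo : GeoS := fun _ _ _ _ h =>
  ⟨fun s p σ => Geo.gq h p σ s, fun s p σ u => Geo.gn h u s p σ,
    fun s e _ hs hc k kc a => Geo.gp h hc kc a s e hs k⟩

end Pool.Agent.MP_1a6d78_lc.CR
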