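import Pool.Agent.MP_1a6d78_lc.CR.Spec

/-! PROJECT CR, row KEPT: the cut of a step that is kept does not change. -/

namespace Pool.Agent.MP_1a6d78_lc.CR

open Classical ED PR SC Function

namespace Kept

theorem img {k : Cut} {T : ℕ → Rec} {u : ℕ} (h : k.K T u ∨ k.inn T u) (r z : Rec) :
    (k.img T u r z).pk = r.pk ∧ (k.img T u r z).m = r.m ∧ (k.img T u r z).sd = r.sd ∧
      (k.img T u r z).nv = r.nv := by
  unfold Cut.img
  by_cases e : k.K T u
  · rw [if_pos e]
    exact ⟨rfl, rfl, rfl, rfl⟩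
  · rw [if_neg e, if_pos (h.resolve_left e)]
    exact ⟨rfl, rfl, rfl, rfl⟩

theorem par {M : Mc} {G H H' s : ℕ} {S : ℕ → Rec} {k : Cut} (h : RHyp M G S H k H') (hs : s < H')
    (h0 : 0 < s) (n : (tr M S s).nv = true) (e : k.K (tr M S) s ∨ k.inn (tr M S) s) :
    k.K (tr M S) (pt (tr M S) s) ∨ k.inn (tr M S) (pt (tr M S) s) := by
  by_cases e1 : k.K (tr M S) s
  · exact .inl (e1.imp On.step On.step)
  · have e2 := e.resolve_left e1
    have l := h.le
    unfold pt
    split_ifs with p1 p2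
    · obtain ⟨u, rfl⟩ := Nat.exists_eq_succ_of_ne_zero h0.ne'
      unfold Cut.inn at e2 ⊢
      rw [rt_succ h.gd h.l₁ h.x₁.nv fun a => e1 (.inl a),
        rt_succ h.gd h.l₂ h.x₂.nv fun a => e1 (.inr a)] at e2
      exact .inr e2
    · exact Cut.kp_kept ((h.c s hs n
        ((h.gd 0 (by omega)).pk2 (h.gd s (by omega)) n p2).2 e1).1 e2)
    · exact .inl (.inl (on_zero h.gd h.l₁ h.x₁.nv))

theorem fix {T : ℕ → Rec} {c : ℕ} (h : pt T 0 = 0) : On T 0 c ↔ c = 0 :=
  ⟨fun ⟨i, e⟩ => by rw [← e, iterate_fixed h], fun e => e ▸ On.refl T 0⟩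

end Kept

theorem kept (hR : ResS) : KeptS := by
  intro M G S H k H' h
  have r := (hR M G S H k H' h).tr'
  have l := h.le
  have key : ∀ s < H', (tr M S s).nv = true → (k.K (tr M S) s ∨ k.inn (tr M S) s) →
      (∀ e v, rt (tr M (restr k (tr M S) S)) s e v = rt (tr M S) s e v) ∧
      (∀ c, On (tr M (restr k (tr M S) S)) s c ↔ On (tr M S) s c) ∧
      ∀ c, On (tr M S) s c → k.K (tr M S) c ∨ k.inn (tr M S) c := by
    intro s
    induction s using Nat.strong_induction_on with
    | _ s ih =>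
      intro hs n e
      obtain ⟨i1, i2, i3, -⟩ := Kept.img e (tr M S s) (vd s)
      rw [← r s hs] at i1 i2 i3
      have p1 : pt (tr M (restr k (tr M S) S)) s = pt (tr M S) s := by unfold pt; rw [i1, i2]
      rcases s.eq_zero_or_pos with rfl | h0
      · have z := pt_zero (h.gd 0 (by omega))
        exact ⟨fun e v => by rw [rt_le _ _ v.zero_le, rt_le _ _ v.zero_le],
          fun c => (Kept.fix (p1.trans z)).trans (Kept.fix z).symm,
          fun c hc => (Kept.fix z).1 hc ▸ e⟩
      · obtain ⟨q1, q2, -⟩ := pt_spec h.gd (by omega) h0 n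
        have q3 := Kept.par h hs h0 n e
        obtain ⟨j1, j2, j3⟩ := ih _ q1 (by omega) q2 q3
        have p2 : pe (tr M (restr k (tr M S) S)) s = pe (tr M S) s := by
          unfold pe
          rw [i1, i3]
          split_ifs with a
          · rw [pt, if_pos a] at q3
            rw [r _ (by omega), (Kept.img q3 _ _).2.2.1]
          all_goals rfl
        refine ⟨fun e v => ?_, fun c => by rw [on_iff, p1, j2, ← on_iff],
          fun c hc => (on_iff.1 hc).elim (fun a => a ▸ e) (j3 c)⟩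
        rcases le_or_gt s v with a | a
        · rw [rt_le _ _ a, rt_le _ _ a]
        · rw [rt_step e a (p1 ▸ q1), rt_step e a q1, p1, p2, j1]
  intro s hs n e
  obtain ⟨j1, j2, j3⟩ := key s hs n e
  refine ⟨j1, j2, j3, fun x c hc => ?_⟩
  have a := x c ((j2 c).1 hc)
  rw [restr, if_pos a, (Kept.img (j3 c ((j2 c).1 hc)) _ _).2.2.2, a]

end Pool.Agent.MP_1a6d78_lc.CR
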