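import Pool.Agent.MP_1a6d78_lc.CR.Spec

/-! PROJECT CR, row LEV: one level of the recursion. -/

namespace Pool.Agent.MP_1a6d78_lc.CR

open Classical ED PR SC Function

namespace Lev

variable {π : Pm} {M : Mc} {g : Orc} {d b t H : ℕ} {r : Rec} {Y : List ℕ} {n : ℕ}

theorem phi_le (M : Mc) (G : ℕ) (S : ℕ → Rec) (H h : ℕ) :
    Phi M G S H h ≤ sz M S H * (sz M S H * (G + 1)) := by
  unfold Phi sz cnt
  rw [← Finset.card_range (G + 1), ← Finset.card_product, ← Finset.card_product,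
    Finset.card_range (G + 1)]
  refine Finset.card_le_card fun x hx => ?_
  obtain ⟨h1, h2, h3, -⟩ := Finset.mem_filter.1 hx
  obtain ⟨k1, k2⟩ := Finset.mem_product.1 h1
  obtain ⟨k2, k3⟩ := Finset.mem_product.1 k2
  exact Finset.mem_product.2 ⟨mem_cnt.2 ⟨Finset.mem_range.1 k1, h2⟩,
    Finset.mem_product.2 ⟨mem_cnt.2 ⟨Finset.mem_range.1 k2, h3⟩, k3⟩⟩

theorem fu_le (M : Mc) (S : ℕ → Rec) (h H : ℕ) : fu M S h H ≤ sz M S H :=
  cnt_le fun _ hu k => ⟨hu, k.2⟩

/-- The potential of a list. -/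
noncomputable def pot (π : Pm) (M : Mc) (b H : ℕ) (Y : List ℕ) : ℕ :=
  Psi M π.G b (π.scr Y) H (gt Y 0)

/-- The answer has been found. -/
def Done (π : Pm) (r : Rec) (Y : List ℕ) : Prop := ∃ e < π.β, dec π.P e = r ∧ gt Y 1 = e + 1

theorem li_mono {n' : ℕ} (h : LI π M b t H r Y n) (e : n ≤ n') : LI π M b t H r Y n' :=
  ⟨h.rep.mono e, h.inv, h.res⟩

theorem done_trn (c : CxK π M g d b t) (h : Done π r Y) : Done π r (π.trn Y) := by
  obtain ⟨e, h1, h2, h3⟩ := h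
  have := c.hK
  exact ⟨e, h1, h2, (Pm.gt_trn Y (by omega) (by omega)).trans h3⟩

theorem li_trn (c : CxK π M g d b t) (h : LI π M b t H r Y n) :
    LI π M b t H r (π.trn Y) n ∧ pot π M b H (π.trn Y) = pot π M b H Y := by
  have h1 := c.hK
  have h2 := c.ht
  have h3 := h.inv.lt
  have h4 := h.inv.inst.le
  have h5 := P_le π
  have h6 := h.res
  have e0 : gt (π.trn Y) 0 = gt Y 0 := Pm.gt_trn Y (by omega) (by omega)
  have e1 : gt (π.trn Y) 1 = gt Y 1 := Pm.gt_trn Y (by omega) (by omega)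
  refine ⟨⟨h.rep.trn (by omega), ?_, e1.trans h6⟩, ?_⟩
  · rw [Pm.scr_trn h.rep, Pm.Mk_trn h.rep, e0]; exact h.inv
  · rw [pot, Pm.scr_trn h.rep, e0]; rfl

theorem li_seth (c : CxK π M g d b t) (h : LI π M b t H r Y n) :
    LI π M b t H r (π.seth Y 2 0) n ∧ pot π M b H (π.seth Y 2 0) = pot π M b H Y ∧
      gt (π.seth Y 2 0) 2 = 0 := by
  have h1 := c.hK
  have h2 := c.ht
  have e0 : gt (π.seth Y 2 0) 0 = gt Y 0 := by rw [Pm.gt_seth Y 2 0 (by omega), if_neg (by omega)]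
  have e1 : gt (π.seth Y 2 0) 1 = gt Y 1 := by rw [Pm.gt_seth Y 2 0 (by omega), if_neg (by omega)]
  refine ⟨⟨h.rep.seth (by omega) 0 (by omega), ?_, e1.trans h.res⟩, ?_, ?_⟩
  · rw [Pm.scr_seth Y 0 (by omega), Pm.Mk_seth Y 0 (by omega), e0]; exact h.inv
  · rw [pot, Pm.scr_seth Y 0 (by omega), e0]; rfl
  · rw [Pm.gt_seth Y 2 0 (by omega), if_pos rfl]

theorem mid (hN : NormS) (hR : RuncS) (c : CxK π M g d b t) (h : LI π M b t H r Y n)
    (hk : n + (5 * (π.G + 2) + 2) + d * π.E ≤ π.K) (h2 : gt Y 2 = 0) :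
    Done π r (π.mc1 g b t (π.norm g b Y false)) ∨
      (LI π M b t H r (π.mc1 g b t (π.norm g b Y false)) (n + (5 * (π.G + 2) + 2)) ∧
        pot π M b H (π.mc1 g b t (π.norm g b Y false)) + b * b ≤ pot π M b H Y) := by
  have a := hN π M g d b t H r Y n c h (by omega) h2 false
  generalize π.norm g b Y false = Y₂ at a ⊢
  unfold Pm.mc1
  split_ifs with k
  · exact .inr ⟨li_mono a.li (by omega), by rw [pot, a.hd]; exact a.cl k⟩
  have k := not_not.1 k
  obtain ⟨a1, a2, -⟩ := a.op k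
  have a' := hN π M g d b t H r Y₂ _ c a.li (by omega) k true
  generalize π.norm g b Y₂ true = Y₃ at a' ⊢
  have a0 := a.hd
  unfold Pm.mc2
  split_ifs with k'
  · refine .inr ⟨li_mono a'.li (by omega), ?_⟩
    have := a'.cl k'
    rw [pot, pot, a'.hd, ← a1, ← a0]
    exact this
  obtain ⟨b1, b2, b3⟩ := a'.op (not_not.1 k')
  have b4 := b3 (a0 ▸ a2)
  rcases hR π M g d b t H r Y₃ _ c a'.li (by omega) (fun σ => by
    rw [a'.hd]; cases σ; exacts [b4, b2]) with e | ⟨e1, e2⟩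
  · exact .inl e
  · refine .inr ⟨li_mono e1 (by omega), ?_⟩
    rw [a'.hd, b1, a0, a1] at e2
    exact e2

theorem step (hN : NormS) (hR : RuncS) (c : CxK π M g d b t) (h : LI π M b t H r Y n)
    (hk : n + (5 * (π.G + 2) + 2) + d * π.E ≤ π.K) :
    Done π r (π.mac g b t Y) ∨ (LI π M b t H r (π.mac g b t Y) (n + (5 * (π.G + 2) + 2)) ∧
      pot π M b H (π.mac g b t Y) + b * b ≤ pot π M b H Y) := by
  obtain ⟨s1, s2, s3⟩ := li_seth c h
  unfold Pm.mac
  rw [if_neg (not_not.2 h.res)]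
  rcases mid hN hR c s1 hk s3 with e | ⟨e1, e2⟩
  · exact .inl (done_trn c e)
  · obtain ⟨t1, t2⟩ := li_trn c e1
    exact .inr ⟨t1, by rw [t2, ← s2]; exact e2⟩

theorem step_done (c : CxK π M g d b t) (h : Done π r Y) : Done π r (π.mac g b t Y) := by
  unfold Pm.mac
  obtain ⟨e, h1, h2, h3⟩ := h
  rw [if_pos (by omega)]
  exact done_trn c ⟨e, h1, h2, h3⟩

theorem loop (hN : NormS) (hR : RuncS) (c : CxK π M g d b t) (h : LI π M b t H r Y n)
    (hk : n + (d + 1) * π.E ≤ π.K) (i : ℕ) (hi : i ≤ π.N) :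
    Done π r (itr (fun _ => π.mac g b t) Y i) ∨
      (LI π M b t H r (itr (fun _ => π.mac g b t) Y i) (n + i * (5 * (π.G + 2) + 2)) ∧
        pot π M b H (itr (fun _ => π.mac g b t) Y i) + i * (b * b) ≤ pot π M b H Y) := by
  induction i with
  | zero => exact .inr ⟨by simpa [itr] using h, by simp [itr]⟩
  | succ i ih =>
    rw [itr]
    rcases ih (by omega) with e | ⟨e1, e2⟩
    · exact .inl (step_done c e)
    have k : (i + 1) * (5 * (π.G + 2) + 2) ≤ π.E := Nat.mul_le_mul_right _ hi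
    rw [add_mul, one_mul] at hk k
    rcases step hN hR c e1 (by omega) with e | ⟨e3, e4⟩
    · exact .inl e
    · refine .inr ⟨li_mono e3 ?_, ?_⟩ <;> rw [add_mul, one_mul] <;> omega

end Lev

open Lev in
theorem lev (hN : NormS) (hR : RuncS) : LevS := by
  intro π M D g d hF hd hA l k H h1 h2 h3 h4 h5 h6 h7
  have hl := hF.lam
  have hb := hF.b₀
  have hK := hF.K
  have hP := hF.P
  have c : CxK π M g d (π.b₀ * π.lam ^ d) (gt l 1) := Cx.k ⟨hF, hd, rfl, hA, h7⟩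
  have e : gt l 0 / π.lam = π.b₀ * π.lam ^ d := by
    rw [h4, pow_succ, ← mul_assoc, Nat.mul_div_cancel _ (by omega)]
  have big : ¬gt l 0 ≤ π.b₀ := by
    have : 1 < π.lam ^ (d + 1) := Nat.one_lt_pow (by omega) (by omega)
    rw [h4]
    exact not_le.2 (lt_mul_of_one_lt_right (by omega) this)
  have es : π.scr (π.seth (π.seth l 0 0) 1 0) = π.scr l := by
    rw [Pm.scr_seth _ _ (by omega), Pm.scr_seth _ _ (by omega)]
  have em : π.Mk (π.seth (π.seth l 0 0) 1 0) = π.Mk l := by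
    rw [Pm.Mk_seth _ _ (by omega), Pm.Mk_seth _ _ (by omega)]
  have e0 : gt (π.seth (π.seth l 0 0) 1 0) 0 = 0 := by
    rw [Pm.gt_seth _ _ _ (by omega), if_neg (by omega), Pm.gt_seth _ _ _ (by omega), if_pos rfl]
  have li : LI π M (π.b₀ * π.lam ^ d) (gt l 1) H (tr M (π.scr l) H) (π.seth (π.seth l 0 0) 1 0) k := by
    refine ⟨(h1.seth (by omega) 0 (by omega)).seth (by omega) 0 (by omega), ?_,
      by rw [Pm.gt_seth _ _ _ (by omega), if_pos rfl]⟩
    rw [es, em, e0]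
    refine ⟨h5, rfl, h5.pos, expl_zero (h5.gd 0 h5.pos), fun σ z hz => absurd hz (h3 σ z),
      fun σ z hz => .inl ?_⟩
    rw [hz.resolve_right (h3 σ z), ws_self]
    exact Nat.zero_le _
  have hb' := c.hb
  rcases loop hN hR c li h2 π.N le_rfl with ⟨x, x1, x2, x3⟩ | ⟨-, x⟩
  · have : π.F g M l = x := by
      rw [Pm.F, if_neg big, Pm.lev, e, x3, Nat.add_sub_cancel, min_eq_left x1.le]
    rw [this]
    exact ⟨x2, x1⟩
  · exfalso
    rw [h4, pow_succ, ← mul_assoc π.b₀] at h6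
    generalize π.b₀ * π.lam ^ d = b at x h6 hb'
    have p1 := phi_le M π.G (π.scr l) H 0
    have p2 := fu_le M (π.scr l) 0 H
    have p3 : pot π M b H (π.seth (π.seth l 0 0) 1 0) =
        Phi M π.G (π.scr l) H 0 + b * sz M (π.scr l) H + b * fu M (π.scr l) 0 H := by
      rw [pot, es, e0]; rfl
    have p4 := Nat.mul_le_mul h6 (Nat.mul_le_mul_right (π.G + 1) h6)
    have p5 := Nat.mul_le_mul_left b h6
    have p6 := Nat.mul_le_mul_left b p2
    have p7 := Nat.mul_lt_mul_of_lt_of_le hF.N (le_refl (b * b)) (Nat.mul_pos (by omega) (by omega))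
    have p8 : ((64 * π.lam) ^ 2 * (π.G + 1) + 2 * (64 * π.lam)) * (b * b) =
        64 * (b * π.lam) * (64 * (b * π.lam) * (π.G + 1)) + 2 * (b * (64 * (b * π.lam))) := by ring
    omega

end Pool.Agent.MP_1a6d78_lc.CR
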