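import Pool.Agent.MP_1a6d78_lc.CR.Spec

/-! PROJECT CR, row LST: list operations and the binary search. -/

namespace Pool.Agent.MP_1a6d78_lc.CR

open Classical ED PR SC Function

namespace Lst

variable {π : Pm} {l : List ℕ} {n : ℕ}

/-- The change of one entry in `dmpC`. -/
def fD (P h : ℕ) (σ : Bool) (e : ℕ) : ℕ :=
  if (dec P e).nv = true ∧ (dec P e).tm ≤ h then
    (if (dec P e).tm = h then sam e (dec P e).act (2 + bn σ) else e)
  else 0

theorem act_lt (P e : ℕ) : (dec P e).act < 3 := Nat.mod_lt _ (by omega)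

theorem md_lt (σ : Bool) : 2 + bn σ < 4 := by have := bn_le σ; omega

theorem fD_keep (P h : ℕ) (σ : Bool) (e : ℕ) (h1 : (dec P e).nv = true) (h2 : (dec P e).tm ≤ h) :
    (dec P (fD P h σ e)).nv = true ∧ (dec P (fD P h σ e)).tm = (dec P e).tm := by
  rw [fD, if_pos ⟨h1, h2⟩]
  split_ifs
  · rw [dec_sam _ _ (act_lt P e) (md_lt σ)]
    exact ⟨h1, rfl⟩
  · exact ⟨h1, rfl⟩

theorem dmp_ent (h : ℕ) (σ : Bool) : ∀ i < π.K, 3 ≤ i →
    gt (π.dmpC l h σ) i = fD π.P h σ (gt l i) := fun i hi k => by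
  rw [Pm.dmpC, gt_tab _ hi, if_neg (by omega), fD]

theorem dmp_scr (h : ℕ) (σ : Bool) (k : (π.scr l h).nv = true) :
    π.scr (π.dmpC l h σ) = dmp (π.scr l) h σ := by
  funext u
  have e := Pm.lk_map (π := π) (l := l) (fD π.P h σ) (fun u => u ≤ h) (dmp_ent h σ)
    (fD_keep π.P h σ)
    (fun e ne => by rw [fD, if_neg ne, dec_zero]; exact Bool.false_ne_true) u
  rw [Pm.scr, e, dmp]
  rcases lt_trichotomy u h with c | rfl | c
  · rw [if_pos c]
    by_cases m : (π.scr l u).nv = true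
    · have t : (dec π.P (π.lk l u)).tm = u := Pm.scr_tm m
      rw [if_pos ⟨m, c.le⟩, fD, if_pos ⟨m, by omega⟩, if_neg (by omega)]
      rfl
    · rw [if_neg fun a => m a.1, dec_zero, Pm.scr_nil m]
  · have t : (dec π.P (π.lk l u)).tm = u := Pm.scr_tm k
    rw [if_neg (lt_irrefl u), if_pos rfl, if_pos ⟨k, le_rfl⟩, fD, if_pos ⟨k, t.le⟩, if_pos t,
      dec_sam _ _ (act_lt _ _) (md_lt σ)]
    cases σ <;> rfl
  · rw [if_neg fun a => absurd a.2 (by omega), if_neg (by omega), if_neg (by omega), dec_zero]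

theorem dmp_rep (hl : π.Rep l n) (hP : 0 < π.P) (h : ℕ) (σ : Bool) : π.Rep (π.dmpC l h σ) n :=
  hl.tab hP _ (fun i hi k => by
      rw [if_neg (by omega)]
      split_ifs
      exacts [sam_lt k (act_lt _ _) (md_lt σ), k, hP.trans_le (P_le π)])
    fun i hi k => by
      rw [if_neg (by omega), k, dec_zero, if_neg fun a => Bool.false_ne_true a.1]

theorem dmp_mk (h : ℕ) (σ τ : Bool) (z : ℕ) : ¬π.Mk (π.dmpC l h σ) τ z := by
  rintro ⟨i, hi, k1, k2⟩
  rw [dmp_ent h σ i hi k1] at k2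
  by_cases c : (dec π.P (gt l i)).nv = true ∧ (dec π.P (gt l i)).tm ≤ h
  · have := (fD_keep π.P h σ _ c.1 c.2).1
    rw [k2, mkE_nv] at this
    exact Bool.false_ne_true this
  · rw [fD, if_neg c] at k2
    exact mkE_ne τ z k2.symm

/-- The change of one entry in `prune`. -/
def fP (σ : Bool) (z e : ℕ) : ℕ := if e % 144 = 4 + 2 * bn σ ∧ z < e / 144 then 0 else e

theorem pr_ent (σ : Bool) (z : ℕ) : ∀ i < π.K, 3 ≤ i →
    gt (π.prune l σ z) i = fP σ z (gt l i) := fun i hi k => by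
  rw [Pm.prune, gt_tab _ hi, fP]
  simp only [k, true_and]

theorem fP_nv (P : ℕ) (σ : Bool) (z e : ℕ) (h : (dec P e).nv = true) : fP σ z e = e := by
  have : e % 2 = 1 := of_decide_eq_true h
  rw [fP, if_neg (by omega)]

theorem pr_scr (σ : Bool) (z : ℕ) : π.scr (π.prune l σ z) = π.scr l := by
  funext u
  have e := Pm.lk_map (π := π) (l := l) (fP σ z) (fun _ => True) (pr_ent σ z)
    (fun e k _ => by rw [fP_nv π.P σ z e k]; exact ⟨k, rfl⟩)
    (fun e k => by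
      unfold fP
      split_ifs
      · rw [dec_zero]; exact Bool.false_ne_true
      · exact fun m => k ⟨m, trivial⟩) u
  by_cases m : (π.scr l u).nv = true
  · rw [Pm.scr, e, if_pos ⟨m, trivial⟩, fP_nv π.P σ z _ m]; rfl
  · rw [Pm.scr, e, if_neg fun a => m a.1, dec_zero, Pm.scr_nil m]

theorem fP_mk (σ τ : Bool) (z y e : ℕ) :
    fP σ z e = mkE τ y ↔ e = mkE τ y ∧ (τ = σ → y ≤ z) := by
  unfold fP mkE
  split_ifs with c <;> cases σ <;> cases τ <;> simp [bn] at c ⊢ <;> omega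

theorem pr_mk (σ τ : Bool) (z y : ℕ) :
    π.Mk (π.prune l σ z) τ y ↔ π.Mk l τ y ∧ (τ = σ → y ≤ z) := by
  constructor
  · rintro ⟨i, hi, k1, k2⟩
    rw [pr_ent σ z i hi k1, fP_mk] at k2
    exact ⟨⟨i, hi, k1, k2.1⟩, k2.2⟩
  · rintro ⟨⟨i, hi, k1, k2⟩, k3⟩
    exact ⟨i, hi, k1, by rw [pr_ent σ z i hi k1, fP_mk]; exact ⟨k2, k3⟩⟩

theorem half (r i : ℕ) (h : i ≤ r) : it (2 ^ r) (· / 2) i (2 ^ r) = 2 ^ (r - i) := by
  induction i with
  | zero => rfl
  | succ i ih =>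
    have e : it (2 ^ r) (· / 2) (i + 1) (2 ^ r) =
      min (it (2 ^ r) (· / 2) i (2 ^ r) / 2) (2 ^ r) := rfl
    have e2 : r - i = r - (i + 1) + 1 := by omega
    rw [e, ih (by omega), e2, pow_succ, Nat.mul_div_cancel _ (by omega)]
    exact min_eq_left (Nat.pow_le_pow_right (by omega) (by omega))

/-- The search after `i` rounds. -/
def bi (J : ℕ) (f : ℕ → ℕ) (θ i : ℕ) : ℕ :=
  itr (fun i j => if f (j + it J (· / 2) (i + 1) J) < θ
    then min (j + it J (· / 2) (i + 1) J) J else j) 0 i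

theorem bi_inv (r : ℕ) (f : ℕ → ℕ) (θ : ℕ) (h0 : f 0 < θ) (h1 : θ ≤ f (2 ^ r)) (i : ℕ) :
    i ≤ r → bi (2 ^ r) f θ i + 2 ^ (r - i) ≤ 2 ^ r ∧ f (bi (2 ^ r) f θ i) < θ ∧
      θ ≤ f (bi (2 ^ r) f θ i + 2 ^ (r - i)) ∧
      ∀ f' : ℕ → ℕ, (∀ j ≤ 2 ^ r, f' j = f j) → bi (2 ^ r) f' θ i = bi (2 ^ r) f θ i := by
  induction i with
  | zero =>
    intro _
    have e : ∀ f, bi (2 ^ r) f θ 0 = 0 := fun _ => rfl
    simp only [e, zero_add, Nat.sub_zero]
    exact ⟨le_rfl, h0, h1, fun _ _ => trivial⟩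
  | succ i ih =>
    intro hi
    obtain ⟨a1, a2, a3, a4⟩ := ih (by omega)
    have e : ∀ f, bi (2 ^ r) f θ (i + 1) =
        if f (bi (2 ^ r) f θ i + 2 ^ (r - (i + 1))) < θ
        then min (bi (2 ^ r) f θ i + 2 ^ (r - (i + 1))) (2 ^ r) else bi (2 ^ r) f θ i := fun f => by
      rw [← half r (i + 1) hi]
      rfl
    have e2 : 2 ^ (r - i) = 2 ^ (r - (i + 1)) + 2 ^ (r - (i + 1)) := by
      rw [show r - i = r - (i + 1) + 1 by omega, pow_succ, mul_two]
    rw [e2] at a1 a3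
    generalize 2 ^ (r - (i + 1)) = w at e a1 a3 ⊢
    refine ⟨?_, ?_, ?_, fun f' hf => ?_⟩
    · rw [e]
      split_ifs
      · rw [min_eq_left (by omega)]; omega
      · omega
    · rw [e]
      split_ifs with c
      · rwa [min_eq_left (by omega)]
      · exact a2
    · rw [e]
      split_ifs with c
      · rwa [min_eq_left (by omega), add_assoc]
      · omega
    · rw [e, e, a4 f' hf, hf _ (by omega)]

end Lst

open Lst in
theorem lstS : LstS := fun π l n hl hK hP =>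
  ⟨fun h σ k => ⟨dmp_scr h σ k, dmp_rep hl hP h σ, dmp_mk h σ⟩,
    fun σ z => ⟨pr_scr σ z,
      hl.tab hP _ (fun i _ k => by
          split_ifs
          exacts [hP.trans_le (P_le π), k])
        (fun i _ k => by rw [k, ite_self]),
      fun i hi => by rw [Pm.prune, gt_tab _ (by omega), if_neg fun a => absurd a.1 (by omega)],
      fun τ y => pr_mk σ τ z y⟩,
    fun σ h => ⟨(gr_spec π.P (π.Mk l σ)).2.1,
      fun z hz => (gr_spec π.P (π.Mk l σ)).2.2 z (h z hz) hz⟩⟩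

theorem bsS : BsS := by
  intro π f θ hJ h0 h1
  have e : ∀ f, π.bs f θ = Lst.bi (2 ^ π.r) f θ π.r := fun f => by rw [← hJ]; rfl
  rw [hJ] at h1 ⊢
  have := Lst.bi_inv π.r f θ h0 h1 π.r le_rfl
  rw [Nat.sub_self, pow_zero] at this
  simp only [e]
  exact this

end Pool.Agent.MP_1a6d78_lc.CR
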