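import Pool.Agent.MP_1a6d78_lc.CR.Spec

/-! PROJECT CR, row MA: records and lists are computable. -/

namespace Pool.Agent.MP_1a6d78_lc.CR

open Classical ED PR SC Function

namespace Ma

variable {κ : List Bool → ℕ} {π : List Bool → Pm}

theorem beta (h : PmC κ π) : Cn κ fun x _ => (π x).β := K.mul (K.c 144) (K.pow 5 h.P)

section
variable {e : NF}

theorem nv (he : Cn κ e) : Cp κ fun x ρ => (dec (π x).P (e x ρ)).nv = true :=
  K.cgP (K.eq (K.mod he (K.c 2)) (K.c 1)) fun _ _ => by simp [dec]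

theorem sd (he : Cn κ e) : Cp κ fun x ρ => (dec (π x).P (e x ρ)).sd = true :=
  K.cgP (K.eq (K.mod (K.div he (K.c 2)) (K.c 2)) (K.c 1)) fun _ _ => by simp [dec]

theorem tm (h : PmC κ π) (he : Cn κ e) : Cn κ fun x ρ => (dec (π x).P (e x ρ)).tm :=
  K.mod (K.div he (K.c 144)) h.P

theorem act (he : Cn κ e) : Cn κ fun x ρ => (dec (π x).P (e x ρ)).act :=
  K.mod (K.div he (K.c 4)) (K.c 3)

theorem qb (h : PmC κ π) (he : Cn κ e) : Cn κ fun x ρ => (dec (π x).P (e x ρ)).qb :=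
  K.mod (K.div (K.div (K.div (K.div he (K.c 144)) h.P) h.P) h.P) h.P

theorem qa (h : PmC κ π) (he : Cn κ e) : Cn κ fun x ρ => (dec (π x).P (e x ρ)).qa :=
  K.mod (K.div (K.div (K.div (K.div (K.div he (K.c 144)) h.P) h.P) h.P) h.P) h.P

theorem m (h : PmC κ π) (he : Cn κ e) : Cn κ fun x ρ => (dec (π x).P (e x ρ)).m :=
  K.mod (K.div (K.div he (K.c 144)) h.P) h.P

theorem pk (he : Cn κ e) : Cn κ fun x ρ => (dec (π x).P (e x ρ)).pk :=
  K.mod (K.div he (K.c 12)) (K.c 3)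

theorem gen (h : PmC κ π) (he : Cn κ e) : Cn κ fun x ρ => (dec (π x).P (e x ρ)).gen :=
  K.mod (K.div (K.div (K.div he (K.c 144)) h.P) h.P) h.P

theorem md (he : Cn κ e) : Cn κ fun x ρ => (dec (π x).P (e x ρ)).md :=
  K.mod (K.div he (K.c 36)) (K.c 4)

theorem stop (h : PmC κ π) (he : Cn κ e) : Cp κ fun x ρ => Stop (dec (π x).P (e x ρ)) :=
  K.and (nv he) (K.and (K.eq (act he) (K.c 2)) (K.eq (m h he) (K.c 0)))

theorem mkE' (σ : Bool) (he : Cn κ e) : Cn κ fun x ρ => mkE σ (e x ρ) :=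
  K.add (K.c (4 + 2 * bn σ)) (K.mul (K.c 144) he)

theorem sam' {a d : NF} (he : Cn κ e) (ha : Cn κ a) (hd : Cn κ d) :
    Cn κ fun x ρ => sam (e x ρ) (a x ρ) (d x ρ) :=
  K.add (K.add (K.add (K.add (K.mod he (K.c 4)) (K.mul (K.c 4) ha))
    (K.mul (K.c 12) (K.mod (K.div he (K.c 12)) (K.c 3)))) (K.mul (K.c 36) hd))
    (K.mul (K.c 144) (K.div he (K.c 144)))

theorem gr' {Q : List Bool → Env → ℕ → Prop} (he : Cn κ e) (hQ : P1 κ Q) :
    Cn κ fun x ρ => gr (e x ρ) (Q x ρ) :=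
  K.sub he (K.lst (P := fun x ρ k => k = e x ρ ∨ Q x ρ (e x ρ - k)) (K.add he (K.c 1))
    (K.or (K.eq (K.v 0) (K.w he)) (K.appP (K.wP1 hQ) (K.sub (K.w he) (K.v 0)))))

end

section
variable {l : LF} {u : NF}

theorem is (h : PmC κ π) (hl : Cm κ l) (hu : Cn κ u) :
    P1 κ fun x ρ i => (π x).Is (l x ρ) (u x ρ) i :=
  K.and (K.le (K.c 3) (K.v 0)) (K.and (nv (π := π) (K.gt (K.wL hl) (K.v 0)))
    (K.eq (tm h (K.gt (K.wL hl) (K.v 0))) (K.w hu)))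

theorem lk (h : PmC κ π) (hl : Cm κ l) (hu : Cn κ u) :
    Cn κ fun x ρ => (π x).lk (l x ρ) (u x ρ) :=
  K.ite (K.ex h.K (is h hl hu)) (K.gt hl (K.lst h.K (is h hl hu))) (K.c 0)

theorem mrk (h : PmC κ π) (σ : Bool) (hl : Cm κ l) (hu : Cn κ u) :
    Cp κ fun x ρ => (π x).Mk (l x ρ) σ (u x ρ) :=
  K.ex (P := fun x ρ i => 3 ≤ i ∧ gt (l x ρ) i = mkE σ (u x ρ)) h.K
    (K.and (K.le (K.c 3) (K.v 0)) (K.eq (K.gt (K.wL hl) (K.v 0)) (mkE' σ (K.w hu))))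

theorem seth (h : PmC κ π) (i : ℕ) (hl : Cm κ l) (hu : Cn κ u) :
    Cm κ fun x ρ => (π x).seth (l x ρ) i (u x ρ) :=
  (kitOne κ).tab (fun x ρ e => if e = i then u x ρ else gt (l x ρ) e) h.le h.K
    (K.ite (K.eq (K.v 0) (K.c i)) (K.w hu) (K.gt (K.wL hl) (K.v 0)))

theorem ins (h : PmC κ π) (hu : Cn κ u) (hl : Cm κ l) :
    Cm κ fun x ρ => (π x).ins (u x ρ) (l x ρ) :=
  (kitOne κ).tab (fun x ρ e => if e < 3 then gt (l x ρ) e else
      if e = 3 then u x ρ else gt (l x ρ) (e - 1)) h.le h.K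
    (K.ite (K.lt (K.v 0) (K.c 3)) (K.gt (K.wL hl) (K.v 0))
      (K.ite (K.eq (K.v 0) (K.c 3)) (K.w hu) (K.gt (K.wL hl) (K.sub (K.v 0) (K.c 1)))))

theorem trn (h : PmC κ π) (hl : Cm κ l) : Cm κ fun x ρ => (π x).trn (l x ρ) :=
  (kitOne κ).tab (fun x ρ e => min (gt (l x ρ) e) (π x).β) h.le h.K
    (K.min (K.gt (K.wL hl) (K.v 0)) (beta h))

theorem qry (h : PmC κ π) {t : NF} (hu : Cn κ u) (ht : Cn κ t) (hl : Cm κ l) :
    Cm κ fun x ρ => (π x).qry (u x ρ) (t x ρ) (l x ρ) :=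
  (kitOne κ).tab (fun x ρ e => min (if e = 0 then u x ρ else
      if e = 1 then t x ρ else gt (l x ρ) e) (π x).β) h.le h.K
    (K.min (K.ite (K.eq (K.v 0) (K.c 0)) (K.w hu)
      (K.ite (K.eq (K.v 0) (K.c 1)) (K.w ht) (K.gt (K.wL hl) (K.v 0)))) (beta h))

theorem pt' (h : PmC κ π) (hl : Cm κ l) (hu : Cn κ u) :
    Cn κ fun x ρ => pt ((π x).scr (l x ρ)) (u x ρ) :=
  K.ite (K.eq (pk (π := π) (lk h hl hu)) (K.c 1)) (K.sub hu (K.c 1))
    (K.ite (K.eq (pk (π := π) (lk h hl hu)) (K.c 2)) (m h (lk h hl hu)) (K.c 0))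

theorem nvS' (h : PmC κ π) (hl : Cm κ l) (hu : Cn κ u) :
    Cp κ fun x ρ => nvS ((π x).scr (l x ρ)) (u x ρ) :=
  K.or (nv (π := π) (lk h hl hu))
    (K.ex (P := fun x ρ v => ((π x).scr (l x ρ) v).nv = true ∧ ((π x).scr (l x ρ) v).md ≠ 0 ∧
        ∀ w < u x ρ, v < w → ¬((π x).scr (l x ρ) w).nv = true) hu
      (K.and (nv (π := π) (lk h (K.wL hl) (K.v 0)))
        (K.and (K.ne (md (π := π) (lk h (K.wL hl) (K.v 0))) (K.c 0))
          (K.all (P := fun x ρ w => hd (ρ 0) < w → ¬((π x).scr (l x (tl ρ)) w).nv = true) (K.w hu)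
            (K.imp (K.lt (K.v 1) (K.v 0))
              (K.not (nv (π := π) (lk h (K.wL (K.wL hl)) (K.v 0)))))))))

theorem top (h : PmC κ π) (σ : Bool) (hl : Cm κ l) : Cn κ fun x ρ => (π x).top (l x ρ) σ :=
  gr' (Q := fun x ρ z => (π x).Mk (l x ρ) σ z) h.P (mrk h σ (K.wL hl) (K.v 0))

end

end Ma

theorem maS : MaS := fun _ _ h =>
  { β := Ma.beta h
    nv := Ma.nv
    sd := Ma.sd
    tm := Ma.tm h
    act := Ma.act
    qb := Ma.qb h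
    qa := Ma.qa h
    m := Ma.m h
    pk := Ma.pk
    gen := Ma.gen h
    md := Ma.md
    stop := Ma.stop h
    sam := Ma.sam'
    mkE := fun σ => Ma.mkE' σ
    gr := Ma.gr'
    lk := Ma.lk h
    mrk := fun σ => Ma.mrk h σ
    seth := fun i => Ma.seth h i
    ins := Ma.ins h
    trn := Ma.trn h
    qry := Ma.qry h
    pt := Ma.pt' h
    nvS := Ma.nvS' h
    top := fun σ => Ma.top h σ }

end Pool.Agent.MP_1a6d78_lc.CR
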