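import Pool.Agent.MP_1a6d78_lc.CR.Spec

/-! PROJECT CR: the cuts are computed. -/

namespace Pool.Agent.MP_1a6d78_lc.CR

open Classical ED PR SC Function

namespace Mb

variable {κ : List Bool → ℕ} {π : List Bool → Pm} {l : LF} {a b s c u : NF}
  {P Q R : List Bool → Env → Prop}

theorem cst (p : Prop) : Cp κ fun _ _ => p := K.c _

theorem iff (hP : Cp κ P) (hQ : Cp κ Q) : Cp κ fun x ρ => P x ρ ↔ Q x ρ :=
  K.cgP (K.and (K.imp hP hQ) (K.imp hQ hP)) fun _ _ => iff_def.symm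

theorem iteP {i : ∀ x ρ, Decidable (P x ρ)} (hP : Cp κ P) (hQ : Cp κ Q) (hR : Cp κ R) :
    Cp κ fun x ρ => @ite _ (P x ρ) (i x ρ) (Q x ρ) (R x ρ) :=
  K.cgP (K.or (K.and hP hQ) (K.and (K.not hP) hR)) fun x ρ => by by_cases h : P x ρ <;> simp [h]

theorem peC (A : MaK κ π) (hl : Cm κ l) (hs : Cn κ s) :
    Cp κ fun x ρ => pe ((π x).scr (l x ρ)) (s x ρ) = true :=
  K.cgP (iteP (i := fun _ _ => propDecidable _) (K.eq (A.pk (A.lk hl hs)) (K.c 1))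
    (A.sd (A.lk hl (K.sub hs (K.c 1))))
    (K.and (K.eq (A.pk (A.lk hl hs)) (K.c 2)) (K.not (A.sd (A.lk hl hs))))) fun x ρ => by
      unfold pe Pm.scr
      split_ifs with h1 h2 <;> simp [*]

theorem pth (C : PmC κ π) (A : MaK κ π) (hl : Cm κ l) (hs : Cn κ s) (ha : Cn κ a) :
    Cn κ fun x ρ => (π x).pth (l x ρ) (s x ρ) (a x ρ) :=
  K.it (f := fun x ρ => pt ((π x).scr (l x ρ))) C.P (A.pt (K.wL hl) (K.v 0)) ha hs

theorem onC (C : PmC κ π) (A : MaK κ π) (hl : Cm κ l) (hs : Cn κ s) (hc : Cn κ c) :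
    Cp κ fun x ρ => (π x).onC (l x ρ) (s x ρ) (c x ρ) :=
  K.ex (P := fun x ρ k => (π x).pth (l x ρ) (s x ρ) k = c x ρ) (K.add C.G (K.c 2))
    (K.eq (pth C A (K.wL hl) (K.w hs) (K.v 0)) (K.w hc))

theorem rtC (C : PmC κ π) (A : MaK κ π) (e : Bool) (hl : Cm κ l) (hs : Cn κ s) (hu : Cn κ u) :
    Cp κ fun x ρ => (π x).rtC (l x ρ) (s x ρ) e (u x ρ) :=
  iteP (K.le hs hu) (cst _) (peC A hl (pth C A hl hs (K.sub
    (K.lst (P := fun x ρ k => (π x).pth (l x ρ) (s x ρ) k ≤ u x ρ) (K.add C.G (K.c 2))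
      (K.le (pth C A (K.wL hl) (K.w hs) (K.v 0)) (K.w hu))) (K.c 1))))

section
variable (C : PmC κ π) (A : MaK κ π) (e e' w : Bool) (hl : Cm κ l) (ha : Cn κ a) (hb : Cn κ b)
include C A hl ha hb

theorem innC (hu : Cn κ u) :
    Cp κ fun x ρ => (π x).innC (l x ρ) ⟨a x ρ, e, b x ρ, e', w⟩ (u x ρ) :=
  iff (K.and (rtC C A e hl ha hu) (K.not (rtC C A e' hl hb hu))) (cst (w = true))

theorem kpC (hu : Cn κ u) :
    Cp κ fun x ρ => (π x).kpC (l x ρ) ⟨a x ρ, e, b x ρ, e', w⟩ (u x ρ) :=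
  K.or (K.ex (P := fun x ρ c => ((π x).onC (l x ρ) (a x ρ) c ∨ (π x).onC (l x ρ) (b x ρ) c) ∧
      ((π x).scr (l x ρ) c).pk = 2 ∧ ((π x).scr (l x ρ) c).m = u x ρ) C.P
      (K.and (K.or (onC C A (K.wL hl) (K.w ha) (K.v 0)) (onC C A (K.wL hl) (K.w hb) (K.v 0)))
        (K.and (K.eq (A.pk (A.lk (K.wL hl) (K.v 0))) (K.c 2))
          (K.eq (A.m (A.lk (K.wL hl) (K.v 0))) (K.w hu)))))
    (iteP (K.or (K.eq hu ha) (K.eq hu hb)) (cst (w = false)) (innC C A e e' w hl ha hb hu))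

theorem rstE (hu : Cn κ u) :
    Cn κ fun x ρ => (π x).rstE (l x ρ) ⟨a x ρ, e, b x ρ, e', w⟩ (u x ρ) :=
  have hi := innC C A e e' w hl ha hb (A.tm hu)
  K.ite (A.nv hu)
    (K.ite (K.or (onC C A hl ha (A.tm hu)) (onC C A hl hb (A.tm hu)))
      (A.sam hu (K.ite (K.or
          (K.and (K.eq (A.act hu) (K.c 1)) (K.not (kpC C A e e' w hl ha hb (A.tm hu))))
          (K.and (K.eq (A.act hu) (K.c 2)) (K.not (kpC C A e e' w hl ha hb (A.m hu)))))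
        (K.c 0) (A.act hu)) (K.ite hi (A.md hu) (K.c 0)))
      (K.ite hi hu (K.c 0)))
    (K.ite (cst (w = true)) (K.c 0) hu)

theorem rst : Cm κ fun x ρ => (π x).rst (l x ρ) ⟨a x ρ, e, b x ρ, e', w⟩ :=
  have g := K.gt (K.wL hl) (K.v 0)
  (kitOne κ).tab (fun x ρ i => if i < 3 then gt (l x ρ) i else
      (π x).rstE (l x ρ) ⟨a x ρ, e, b x ρ, e', w⟩ (gt (l x ρ) i)) C.le C.K
    (K.ite (K.lt (K.v 0) (K.c 3)) g (rstE C A e e' w (K.wL hl) (K.w ha) (K.w hb) g))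

theorem wsC : Cn κ fun x ρ => (π x).wsC (l x ρ) e (a x ρ) (b x ρ) :=
  K.cnt (P := fun x ρ u => nvS ((π x).scr (l x ρ)) u ∧
      ((π x).rtC (l x ρ) (a x ρ) (!e) u ↔ e = false) ∧
      ¬((π x).rtC (l x ρ) (b x ρ) (!e) u ↔ e = false)) hb
    (K.and (A.nvS (K.wL hl) (K.v 0))
      (K.and (iff (rtC C A _ (K.wL hl) (K.w ha) (K.v 0)) (cst _))
        (K.not (iff (rtC C A _ (K.wL hl) (K.w hb) (K.v 0)) (cst _)))))

end

end Mb

open Mb in
theorem mbS (hA : MaS) : MbS := fun κ π C =>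
  have A := hA κ π C
  { ws := fun σ _ _ _ hl ha hb => wsC C A σ hl ha hb
    win := fun hl => rst C A true false true hl (A.top false hl) (A.top true hl)
    clo := fun σ _ _ _ hl ha hb => by
      cases σ
      exacts [rst C A true true false hl ha hb, rst C A false false false hl hb ha]
    dmp := fun σ l h hl hh =>
      have g := K.gt (K.wL hl) (K.v 0)
      (kitOne κ).tab (fun x ρ i => if i < 3 then gt (l x ρ) i else
          if (dec (π x).P (gt (l x ρ) i)).nv = true ∧ (dec (π x).P (gt (l x ρ) i)).tm ≤ h x ρ then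
            (if (dec (π x).P (gt (l x ρ) i)).tm = h x ρ then
              sam (gt (l x ρ) i) (dec (π x).P (gt (l x ρ) i)).act (2 + bn σ) else gt (l x ρ) i)
          else 0) C.le C.K
        (K.ite (K.lt (K.v 0) (K.c 3)) g (K.ite (K.and (A.nv g) (K.le (A.tm g) (K.w hh)))
          (K.ite (K.eq (A.tm g) (K.w hh)) (A.sam g (A.act g) (K.c _)) g) (K.c 0)))
    prune := fun σ l z hl hz =>
      have g := K.gt (K.wL hl) (K.v 0)
      (kitOne κ).tab (fun x ρ i => if 3 ≤ i ∧ gt (l x ρ) i % 144 = 4 + 2 * bn σ ∧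
          z x ρ < gt (l x ρ) i / 144 then 0 else gt (l x ρ) i) C.le C.K
        (K.ite (K.and (K.le (K.c 3) (K.v 0)) (K.and (K.eq (K.mod g (K.c 144)) (K.c _))
          (K.lt (K.w hz) (K.div g (K.c 144))))) (K.c 0) g)
    zz := fun σ b l hb hl =>
      A.gr (Q := fun x ρ z => (π x).Mk (l x ρ) σ z ∧
          4 * b x ρ ≤ (π x).wsC (l x ρ) σ z (gt (l x ρ) 0)) (K.gt hl (K.c 0))
        (K.and (A.mrk σ (K.wL hl) (K.v 0)) (K.le (K.mul (K.c 4) (K.w hb))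
          (wsC C A σ (K.wL hl) (K.v 0) (K.gt (K.wL hl) (K.c 0)))))
    tt := fun {b t l} hb ht hl =>
      have g := K.add (K.gt hl (K.c 0)) (K.c 1)
      K.add g (K.lst (P := fun x ρ k => gt (l x ρ) 0 + 1 + k = t x ρ ∨
          b x ρ ≤ cnt (k + 1) fun i => nvS ((π x).scr (l x ρ)) (gt (l x ρ) 0 + 1 + i))
        (K.sub ht (K.gt hl (K.c 0)))
        (K.or (K.eq (K.add (K.w g) (K.v 0)) (K.w ht)) (K.le (K.w hb)
          (K.cnt (P := fun x ρ i => nvS ((π x).scr (l x (tl ρ))) (gt (l x (tl ρ)) 0 + 1 + i))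
            (K.add (K.v 0) (K.c 1))
            (A.nvS (K.wL (K.wL hl)) (K.add (K.w (K.w g)) (K.v 0))))))) }

end Pool.Agent.MP_1a6d78_lc.CR
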