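import Pool.Agent.MP_1a6d78_lc.CR.Spec

/-! PROJECT CR, row MC: the direct simulation is computable. -/

namespace Pool.Agent.MP_1a6d78_lc.CR

open Classical ED PR SC Function

namespace Mcb

variable {κ : List Bool → ℕ}

/-- All fields of the record are computable. -/
structure RC (κ : List Bool → ℕ) (r : List Bool → Env → Rec) : Prop where
  nv : Cp κ fun x ρ => (r x ρ).nv = true
  sd : Cp κ fun x ρ => (r x ρ).sd = true
  tm : Cn κ fun x ρ => (r x ρ).tm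
  act : Cn κ fun x ρ => (r x ρ).act
  qb : Cn κ fun x ρ => (r x ρ).qb
  qa : Cn κ fun x ρ => (r x ρ).qa
  m : Cn κ fun x ρ => (r x ρ).m
  pk : Cn κ fun x ρ => (r x ρ).pk
  gen : Cn κ fun x ρ => (r x ρ).gen
  md : Cn κ fun x ρ => (r x ρ).md

theorem iteP {P Q R : List Bool → Env → Prop} {i : ∀ x ρ, Decidable (P x ρ)} (hP : Cp κ P)
    (hQ : Cp κ Q) (hR : Cp κ R) : Cp κ fun x ρ => @ite _ (P x ρ) (i x ρ) (Q x ρ) (R x ρ) :=
  K.cgP (K.or (K.and hP hQ) (K.and (K.not hP) hR)) fun x ρ => by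
    by_cases h : P x ρ <;> simp [h]

theorem iteL {P : List Bool → Env → Prop} {i : ∀ x ρ, Decidable (P x ρ)} {a b : LF} (hP : Cp κ P)
    (ha : Cm κ a) (hb : Cm κ b) : Cm κ fun x ρ => @ite _ (P x ρ) (i x ρ) (a x ρ) (b x ρ) := by
  have h := (kitA κ).bind _ _ hP ((kitA κ).ifz _ _ (K.wL hb) (K.wL ha))
  convert h using 3 with x ρ
  by_cases k : P x ρ <;> simp [k, cons, hd] <;> rfl

theorem fls : Cp κ fun _ _ => false = true := K.cgP (K.eq (K.c 0) (K.c 1)) fun _ _ => by simp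

theorem tru : Cp κ fun _ _ => true = true := K.cgP (K.eq (K.c 0) (K.c 0)) fun _ _ => by simp

theorem RC.ite {P : List Bool → Env → Prop} {i : ∀ x ρ, Decidable (P x ρ)}
    {r s : List Bool → Env → Rec} (hP : Cp κ P) (h : RC κ r) (k : RC κ s) :
    RC κ fun x ρ => @ite _ (P x ρ) (i x ρ) (r x ρ) (s x ρ) :=
  ⟨K.cgP (iteP (i := i) hP h.nv k.nv) fun _ _ => by split_ifs <;> rfl,
    K.cgP (iteP (i := i) hP h.sd k.sd) fun _ _ => by split_ifs <;> rfl,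
    K.cg (K.ite (i := i) hP h.tm k.tm) fun _ _ => by split_ifs <;> rfl,
    K.cg (K.ite (i := i) hP h.act k.act) fun _ _ => by split_ifs <;> rfl,
    K.cg (K.ite (i := i) hP h.qb k.qb) fun _ _ => by split_ifs <;> rfl,
    K.cg (K.ite (i := i) hP h.qa k.qa) fun _ _ => by split_ifs <;> rfl,
    K.cg (K.ite (i := i) hP h.m k.m) fun _ _ => by split_ifs <;> rfl,
    K.cg (K.ite (i := i) hP h.pk k.pk) fun _ _ => by split_ifs <;> rfl,
    K.cg (K.ite (i := i) hP h.gen k.gen) fun _ _ => by split_ifs <;> rfl,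
    K.cg (K.ite (i := i) hP h.md k.md) fun _ _ => by split_ifs <;> rfl⟩

theorem rcVd {u : NF} (hu : Cn κ u) : RC κ fun x ρ => vd (u x ρ) :=
  ⟨fls, fls, hu, K.c 0, K.c 0, K.c 0, K.c 0, K.c 0, K.c 0, K.c 0⟩

theorem rcDec {π : List Bool → Pm} (A : MaK κ π) {e : NF} (h : Cn κ e) :
    RC κ fun x ρ => dec (π x).P (e x ρ) :=
  ⟨A.nv h, A.sd h, A.tm h, A.act h, A.qb h, A.qa h, A.m h, A.pk h, A.gen h, A.md h⟩

theorem bnC {s : List Bool → Env → Bool} (h : Cp κ fun x ρ => s x ρ = true) :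
    Cn κ fun x ρ => bn (s x ρ) := K.ite h (K.c 1) (K.c 0)

theorem RC.enc {P : NF} {r : List Bool → Env → Rec} (hP : Cn κ P) (h : RC κ r) :
    Cn κ fun x ρ => enc (P x ρ) (r x ρ) :=
  K.add (K.add (K.add (K.add (K.add (bnC h.nv) (K.mul (K.c 2) (bnC h.sd))) (K.mul (K.c 4) h.act))
    (K.mul (K.c 12) h.pk)) (K.mul (K.c 36) h.md)) (K.mul (K.c 144) (K.add h.tm (K.mul hP
      (K.add h.m (K.mul hP (K.add h.gen (K.mul hP (K.add h.qb (K.mul hP h.qa)))))))))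

variable {M : List Bool → Mc}

theorem actC (C : McC κ M) {a : NF} (h : Cn κ a) : Cn κ fun x ρ => (M x).act (a x ρ) :=
  K.app (f := fun x _ y => (M x).act y) C.act h

theorem sdC (C : McC κ M) {a : NF} (h : Cn κ a) : Cp κ fun x ρ => (M x).sd (a x ρ) = true :=
  K.appP (P := fun x _ y => (M x).sd y = true) C.sd h

theorem rootC (C : McC κ M) {a : NF} (h : Cn κ a) : Cp κ fun x ρ => (M x).root (a x ρ) = true :=
  K.appP (P := fun x _ y => (M x).root y = true) C.root h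

theorem delC (C : McC κ M) {a b : NF} (h : Cn κ a) (k : Cn κ b) :
    Cn κ fun x ρ => (M x).δ (a x ρ) (b x ρ) :=
  (kitA κ).bind _ _ k ((kitA κ).bind _ _ (K.w h) C.δ)

theorem rcMk (C : McC κ M) {u a : NF} {s : List Bool → Env → Bool} {p y : List Bool → Env → Rec}
    (hu : Cn κ u) (hp : RC κ p) (ha : Cn κ a) (hs : Cp κ fun x ρ => s x ρ = true) (hy : RC κ y) :
    RC κ fun x ρ => mk (M x) (u x ρ) (p x ρ) (a x ρ) (s x ρ) (y x ρ) :=
  have c1 := K.eq hp.md (K.c 1)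
  have c2 := K.and c1 (rootC C hp.qa)
  have c3 := K.and (K.ne hy.tm (K.c 0)) (K.lt hy.gen hp.gen)
  ⟨tru, hs, hu, ha, hp.qa, K.ite c1 (delC C hp.qa hy.qb) hp.qa, hy.tm,
    K.ite c2 (K.c 0) (K.ite c3 (K.c 2) (K.c 1)),
    K.ite c2 (K.c 0) (K.ite c3 (K.add hy.gen (K.c 1)) (K.add hp.gen (K.c 1))), hp.md⟩

theorem rcNxt (C : McC κ M) {u : NF} {e p : List Bool → Env → Rec}
    {y : List Bool → Env → Bool → Rec} (he : RC κ e) (hu : Cn κ u) (hp : RC κ p)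
    (hy : ∀ s : List Bool → Env → Bool, (Cp κ fun x ρ => s x ρ = true) →
      RC κ fun x ρ => y x ρ (s x ρ)) :
    RC κ fun x ρ => nxt (M x) (e x ρ) (u x ρ) (p x ρ) (y x ρ) :=
  have c1 := K.eq hp.md (K.c 1)
  have a : Cn κ fun x ρ => opA (M x) (p x ρ) := K.ite c1 (actC C hp.qa) (K.c 2)
  have s : Cp κ fun x ρ => opS (M x) (p x ρ) = true :=
    K.cgP (iteP (i := fun _ _ => propDecidable _) c1 (sdC C hp.qa) (K.eq hp.md (K.c 3)))
      fun _ _ => by unfold opS; split_ifs <;> simp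
  RC.ite he.nv ⟨he.nv, he.sd, hu, he.act, he.qb, he.qa,
      K.ite (K.eq he.act (K.c 2)) (hy _ he.sd).tm he.m, he.pk, he.gen, he.md⟩
    (RC.ite (K.eq hp.md (K.c 0)) (rcVd hu)
      (rcMk C hu hp a s (RC.ite (K.eq a (K.c 2)) (hy _ s) (rcVd (K.c 0)))))

variable {π : List Bool → Pm}

theorem nxEC (B : PmC κ π) (A : MaK κ π) (C : McC κ M) {l a : LF} {u : NF} (hl : Cm κ l)
    (ha : Cm κ a) (hu : Cn κ u) : Cn κ fun x ρ => (π x).nxE (M x) (l x ρ) (a x ρ) (u x ρ) :=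
  RC.enc B.P (rcNxt C (y := fun x ρ σ => dec (π x).P (gt (a x ρ) (1 + bn σ)))
    (rcDec A (A.lk hl hu)) hu (rcDec A (K.gt ha (K.c 0)))
    fun _ hs => rcDec A (K.gt ha (K.add (K.c 1) (bnC hs))))

theorem bs0C (B : PmC κ π) (A : MaK κ π) {a : LF} {r : NF} (ha : Cm κ a) (hr : Cn κ r) :
    Cm κ fun x ρ => (π x).bs0 (a x ρ) (r x ρ) :=
  have r' := K.w hr
  have a' := K.wL ha
  (kitOne κ).tab (fun x ρ e => if e = 0 then r x ρ else
      if (dec (π x).P (r x ρ)).nv = true ∧ (e + 1) % 2 = bn (dec (π x).P (r x ρ)).sd then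
        (if (dec (π x).P (r x ρ)).act = 1 then (if e < 3 then r x ρ else gt (a x ρ) (e - 2))
          else if (dec (π x).P (r x ρ)).act = 2 then gt (a x ρ) (e + 2) else gt (a x ρ) e)
      else gt (a x ρ) e) B.le B.K
    (K.ite (K.eq (K.v 0) (K.c 0)) r'
      (K.ite (K.and (A.nv r') (K.eq (K.mod (K.add (K.v 0) (K.c 1)) (K.c 2)) (bnC (A.sd r'))))
        (K.ite (K.eq (A.act r') (K.c 1))
          (K.ite (K.lt (K.v 0) (K.c 3)) r' (K.gt a' (K.sub (K.v 0) (K.c 2))))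
          (K.ite (K.eq (A.act r') (K.c 2)) (K.gt a' (K.add (K.v 0) (K.c 2))) (K.gt a' (K.v 0))))
        (K.gt a' (K.v 0))))

end Mcb

open Mcb in
theorem mcS (hA : MaS) : McS := by
  intro κ π M B C
  have A := hA κ π B
  have h0 : Cm κ fun x ρ => tab (π x).K fun e => if e = 0 then (π x).lk (ρ 0) 0 else 0 :=
    (kitOne κ).tab (fun x ρ e => if e = 0 then (π x).lk (ρ 0) 0 else 0) B.le B.K
      (K.ite (K.eq (K.v 0) (K.c 0)) (A.lk (K.vL 1) (K.c 0)) (K.c 0))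
  have h1 : Cm κ fun x ρ => (π x).bs1 (M x) (ρ 2) (hd (ρ 1)) (ρ 0) :=
    A.trn (iteL (A.stop (K.gt (K.vL 0) (K.c 0))) (K.vL 0)
      ((kitA κ).bind _ _ (nxEC B A C (K.vL 2) (K.vL 0) (K.add (K.v 1) (K.c 1)))
        (bs0C B A (K.vL 1) (K.v 0))))
  exact K.gt ((kitOne κ).foldL (fun x ρ => (π x).bs1 (M x) (ρ 0)) (fun x _ _ => (π x).β)
    (K.gt (K.vL 0) (K.c 1)) h0 h1 A.β
    fun x _ _ _ _ _ h a ha => (Pm.trn_le _ a ha).trans h) (K.c 0)

end Pool.Agent.MP_1a6d78_lc.CR
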