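import Pool.Agent.MP_1a6d78_lc.CR.Spec

/-! PROJECT CR: explicit paths and probes in the calculus with few calls. -/

namespace Pool.Agent.MP_1a6d78_lc.CR

open Classical ED PR SC Function

namespace Md

variable {κ q β : List Bool → ℕ} {π : List Bool → Pm} {a b t s h z j : NQ} {l W Y : LQ}

theorem opP {P : List Bool → List ℕ → Prop} (hP : Cp κ fun x ρ => P x (ρ 0)) (hl : Lq κ q β l) :
    Pq κ q β fun x g ρ => P x (l x g ρ) := M.bind _ _ hl (M.lift _ hP)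

theorem opA (φ : List Bool → List ℕ → ℕ → List ℕ) (hφ : Cm κ fun x ρ => φ x (ρ 0) (hd (ρ 1)))
    (hl : Lq κ q β l) (ha : Nq κ q β a) : Lq κ q β fun x g ρ => φ x (l x g ρ) (a x g ρ) :=
  M.bind _ _ ha (M.bind _ _ (Q.wL hl) (M.lift _ hφ))

theorem opB (φ : List Bool → List ℕ → ℕ → ℕ → List ℕ)
    (hφ : Cm κ fun x ρ => φ x (ρ 0) (hd (ρ 1)) (hd (ρ 2))) (hl : Lq κ q β l) (ha : Nq κ q β a)
    (hb : Nq κ q β b) : Lq κ q β fun x g ρ => φ x (l x g ρ) (a x g ρ) (b x g ρ) :=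
  M.bind _ _ hb (M.bind _ _ (Q.wL ha) (M.bind _ _ (Q.wL (Q.wL hl)) (M.lift _ hφ)))

theorem qry (A : MaK κ π) (hb : Nq κ q (fun x => (π x).β) b) (ht : Nq κ q (fun x => (π x).β) t)
    (hW : Lq κ q (fun x => (π x).β) W) :
    Nq κ q (fun x => (π x).β) fun x g ρ => g ((π x).qry (b x g ρ) (t x g ρ) (W x g ρ)) :=
  Q.call (opB (fun x l b t => (π x).qry b t l) (A.qry (K.v 1) (K.v 2) (K.vL 0)) hW hb ht)
    fun _ _ _ => Pm.qry_le _ _ _

theorem ex0 (A : MaK κ π) (hb : Nq κ q (fun x => (π x).β) b) (hW : Lq κ q (fun x => (π x).β) W)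
    (hY : Lq κ q (fun x => (π x).β) Y) :
    Lq κ q (fun x => (π x).β) fun x g ρ => (π x).ex0 g (b x g ρ) (W x g ρ) (Y x g ρ) :=
  Q.iteL (opP (P := fun x l => ((π x).scr l (gt l 2)).nv = true)
      (A.nv (A.lk (K.vL 0) (K.gt (K.vL 0) (K.c 2)))) hY) hY
    (opA (fun x l a => (π x).ins a l) (A.ins (K.v 1) (K.vL 0)) hY
      (qry A hb (Q.gt hY (Q.c 2)) hW))

theorem ex1 (A : MaK κ π) (hb : Nq κ q (fun x => (π x).β) b) (hW : Lq κ q (fun x => (π x).β) W)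
    (hY : Lq κ q (fun x => (π x).β) Y) :
    Lq κ q (fun x => (π x).β) fun x g ρ => (π x).ex1 g (b x g ρ) (W x g ρ) (Y x g ρ) :=
  opA (fun x l a => (π x).trn ((π x).seth l 2 (pt ((π x).scr l) a)))
    (A.trn (A.seth 2 (K.vL 0) (A.pt (K.vL 0) (K.v 1)))) (ex0 A hb hW hY) (Q.gt hY (Q.c 2))

theorem expl (C : PmC κ π) (F : Few q π) (A : MaK κ π) (hb : Nq κ q (fun x => (π x).β) b)
    (hs : Nq κ q (fun x => (π x).β) s) (hW : Lq κ q (fun x => (π x).β) W)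
    (hY : Lq κ q (fun x => (π x).β) Y) : Lq κ q (fun x => (π x).β) fun x g ρ =>
      (π x).expl g (b x g ρ) (W x g ρ) (s x g ρ) (Y x g ρ) :=
  Q.foldL (fun x g ρ _ acc => (π x).ex1 g (b x g ρ) (W x g ρ) acc) (fun x _ _ _ => (π x).β)
    (Q.lift (K.add C.G (K.c 2))) (fun x _ _ => (F x).1)
    (opA (fun x l a => (π x).seth l 2 a) (A.seth 2 (K.vL 0) (K.v 1)) hY hs)
    (ex1 A (Q.w (Q.w hb)) (Q.wL (Q.wL hW)) (Q.vL 0)) (Q.lift A.β)
    fun _ _ _ _ _ _ _ k a ha => (Pm.trn_le _ a ha).trans k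

theorem pj (A : MaK κ π) (hb : Nq κ q (fun x => (π x).β) b) (hh : Nq κ q (fun x => (π x).β) h)
    (hz : Nq κ q (fun x => (π x).β) z) (hj : Nq κ q (fun x => (π x).β) j)
    (hW : Lq κ q (fun x => (π x).β) W) : Nq κ q (fun x => (π x).β) fun x g ρ =>
      (π x).pj g (b x g ρ) (W x g ρ) (h x g ρ) (z x g ρ) (j x g ρ) :=
  have m := Q.op1 (fun x e => (dec (π x).P e).m) (A.m (K.v 0)) (qry A hb (Q.add hh hj) hW)
  Q.ite (Q.eq hj (Q.c 0)) hh (Q.ite (Q.eq m (Q.c 0)) hz m)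

theorem bs {f : List Bool → Orc → Env → ℕ → ℕ} (C : PmC κ π) (F : Few q π) (ht : Nq κ q β t)
    (hf : Fq κ q β f) : Nq κ q β fun x g ρ => (π x).bs (f x g ρ) (t x g ρ) :=
  have u : Nq κ q β fun x _ ρ => hd (ρ 0) + it (π x).J (· / 2) (hd (ρ 1) + 1) (π x).J :=
    Q.lift (K.add (K.v 0) (K.it (f := fun _ _ a => a / 2) C.J (K.div (K.v 0) (K.c 2))
      (K.add (K.v 1) (K.c 1)) C.J))
  Q.fold (fun x g ρ i j => if f x g ρ (j + it (π x).J (· / 2) (i + 1) (π x).J) < t x g ρ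
      then min (j + it (π x).J (· / 2) (i + 1) (π x).J) (π x).J else j) (fun x _ _ _ => (π x).J)
    (Q.lift C.r) (fun x _ _ => (F x).2.1) (Q.c 0)
    (Q.ite (Q.lt (Q.app (Q.wF (Q.wF hf)) u) (Q.w (Q.w ht))) (Q.min u (Q.lift C.J)) (Q.v 0))
    (Q.lift C.J) fun _ _ _ _ _ _ k1 k2 => by
      split_ifs
      exacts [(min_le_right _ _).trans k2, k1]

end Md

theorem mdS (hA : MaS) (hB : MbS) : MdS := fun κ _ π C F =>
  have A := hA κ π C
  { expl := Md.expl C F A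
    pj := Md.pj A
    fj := fun σ _ _ _ _ _ _ hb hh hz hj hW hY =>
      Md.opB (fun x l a b => [(π x).wsC l σ a b]) ((hB κ π C).ws σ (K.vL 0) (K.v 1) (K.v 2))
        (Md.expl C F A hb (Md.pj A hb hh hz hj hW) hW hY) (Md.pj A hb hh hz hj hW) hh
    pick := fun hb hf =>
      Q.ite (Q.le (Q.add (Q.app hf (Md.bs C F hb hf)) (Q.mul (Q.c 2) hb))
        (Q.app hf (Q.add (Md.bs C F hb hf) (Q.c 1)))) (Md.bs C F hb hf)
        (Md.bs C F (Q.mul (Q.c 4) hb) hf) }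

end Pool.Agent.MP_1a6d78_lc.CR
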