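import Pool.Agent.MP_1a6d78_lc.CR.Spec

/-! PROJECT CR: the normalisation in the calculus with few calls. -/

namespace Pool.Agent.MP_1a6d78_lc.CR

open Classical ED PR SC Function

namespace Me

variable {κ q β : List Bool → ℕ} {π : List Bool → Pm} {a a' b z j : NQ} {l W Y : LQ}

theorem opA (φ : List Bool → List ℕ → ℕ → List ℕ) (hφ : Cm κ fun x ρ => φ x (ρ 0) (hd (ρ 1)))
    (hl : Lq κ q β l) (ha : Nq κ q β a) : Lq κ q β fun x g ρ => φ x (l x g ρ) (a x g ρ) :=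
  M.bind _ _ ha (M.bind _ _ (Q.wL hl) (M.lift _ hφ))

theorem opB (φ : List Bool → List ℕ → ℕ → ℕ → List ℕ)
    (hφ : Cm κ fun x ρ => φ x (ρ 0) (hd (ρ 1)) (hd (ρ 2))) (hl : Lq κ q β l) (ha : Nq κ q β a)
    (hb : Nq κ q β b) : Lq κ q β fun x g ρ => φ x (l x g ρ) (a x g ρ) (b x g ρ) :=
  M.bind _ _ hb (M.bind _ _ (Q.wL ha) (M.bind _ _ (Q.wL (Q.wL hl)) (M.lift _ hφ)))

variable (A : MaK κ π) (B : MbK κ π) (D : MdK κ q π) (σ : Bool)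
  (hb : Nq κ q (fun x => (π x).β) b) (hY : Lq κ q (fun x => (π x).β) Y)

include A B D hb hY

theorem fin {c : List Bool → Orc → Env → Prop} (hW : Lq κ q (fun x => (π x).β) W)
    (ha : Nq κ q (fun x => (π x).β) a) (ha' : Nq κ q (fun x => (π x).β) a')
    (hc : Pq κ q (fun x => (π x).β) c) : Lq κ q (fun x => (π x).β) fun x g ρ =>
      (π x).fin g (b x g ρ) (W x g ρ) (Y x g ρ) σ (a x g ρ) (a' x g ρ) (c x g ρ) :=
  have E := D.expl hb ha' hW (D.expl hb ha hW hY)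
  Q.iteL hc
    (opB (fun x l a b => (π x).seth ((π x).rst l (clo σ a b)) 2 1)
      (A.seth 2 (B.clo σ (K.vL 0) (K.v 1) (K.v 2)) (K.c 1)) E ha' ha)
    (opA (fun x l a => (π x).ins (mkE σ a) l) (A.ins (A.mkE σ (K.v 1)) (K.vL 0)) E ha')

theorem nm2 (hW : Lq κ q (fun x => (π x).β) W) (hz : Nq κ q (fun x => (π x).β) z)
    (hj : Nq κ q (fun x => (π x).β) j) : Lq κ q (fun x => (π x).β) fun x g ρ =>
      (π x).nm2 g (b x g ρ) (W x g ρ) (Y x g ρ) σ (z x g ρ) (j x g ρ) :=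
  have h := Q.gt hY (Q.c 0)
  have k := Q.add hj (Q.c 1)
  fin A B D σ hb hY hW (D.pj hb h hz hj hW) (D.pj hb h hz k hW)
    (Q.le (Q.add (D.fj σ hb h hz hj hW hY) (Q.mul (Q.c 2) hb)) (D.fj σ hb h hz k hW hY))

theorem nm1 (hW : Lq κ q (fun x => (π x).β) W) (hz : Nq κ q (fun x => (π x).β) z) :
    Lq κ q (fun x => (π x).β) fun x g ρ =>
      (π x).nm1 g (b x g ρ) (W x g ρ) (Y x g ρ) σ (z x g ρ) :=
  nm2 A B D σ hb hY hW hz (D.pick (f := fun x g ρ =>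
      (π x).fj g (b x g ρ) (W x g ρ) (Y x g ρ) σ (gt (Y x g ρ) 0) (z x g ρ)) hb
    (D.fj σ (Q.w hb) (Q.w (Q.gt hY (Q.c 0))) (Q.w hz) (Q.v 0) (Q.wL hW) (Q.wL hY)))

theorem nm0 (hz : Nq κ q (fun x => (π x).β) z) :
    Lq κ q (fun x => (π x).β) fun x g ρ => (π x).nm0 g (b x g ρ) (Y x g ρ) σ (z x g ρ) :=
  Q.iteL (Q.lt (opB (fun x l a b => [(π x).wsC l σ a b]) (B.ws σ (K.vL 0) (K.v 1) (K.v 2)) hY hz
      (Q.gt hY (Q.c 0))) (Q.mul (Q.c 4) hb)) hY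
    (nm1 A B D σ hb hY (opA (fun x l a => (π x).dmpC ((π x).rst l (win ((π x).top l))) a σ)
      (B.dmp σ (B.win (K.vL 0)) (K.v 1)) hY (Q.gt hY (Q.c 0))) hz)

end Me

theorem meS (hA : MaS) (hB : MbS) (hD : MdS) : MeS := fun κ q π C F σ =>
  have B := hB κ π C
  Me.nm0 (hA κ π C) B (hD κ q π C F) σ (Q.v 1)
    (Q.liftL (B.prune σ (K.vL 0) (B.zz σ (K.v 1) (K.vL 0)))) (Q.lift (B.zz σ (K.v 1) (K.vL 0)))

end Pool.Agent.MP_1a6d78_lc.CR
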