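import Pool.Agent.MP_1a6d78_lc.CR.Spec

/-! PROJECT CR: the body of the recursion in the calculus with few calls. -/

namespace Pool.Agent.MP_1a6d78_lc.CR

open Classical ED PR SC Function

namespace Mf

variable {κ q β : List Bool → ℕ} {π : List Bool → Pm} {b t : NQ} {Y : LQ}

/-- Programs of a list, a block length and a time. -/
def T3 (κ q β : List Bool → ℕ) (f : List Bool → Orc → ℕ → ℕ → List ℕ → List ℕ) : Prop :=
  Lq κ q β fun x g ρ => f x g (hd (ρ 1)) (hd (ρ 2)) (ρ 0)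

theorem T3.app {f : List Bool → Orc → ℕ → ℕ → List ℕ → List ℕ} (h : T3 κ q β f) (hb : Nq κ q β b)
    (ht : Nq κ q β t) (hY : Lq κ q β Y) :
    Lq κ q β fun x g ρ => f x g (b x g ρ) (t x g ρ) (Y x g ρ) :=
  M.bind _ _ ht (M.bind _ _ (Q.wL hb) (M.bind _ _ (Q.wL (Q.wL hY)) h))

theorem seth (A : MaK κ π) (i : ℕ) (hY : Lq κ q β Y) (hb : Nq κ q β b) :
    Lq κ q β fun x g ρ => (π x).seth (Y x g ρ) i (b x g ρ) :=
  T3.app (f := fun x _ b _ Y => (π x).seth Y i b) (M.lift _ (A.seth i (K.vL 0) (K.v 1))) hb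
    (Q.c 0) hY

theorem rn1 (A : MaK κ π) (D : MdK κ q π) : Lq κ q (fun x => (π x).β) fun x g ρ =>
    (π x).rn1 g (hd (ρ 3)) (hd (ρ 4)) (ρ 1) (ρ 2) (hd (ρ 0)) :=
  have u : Nq κ q (fun x => (π x).β) fun x _ ρ =>
      gr ((dec (π x).P (hd (ρ 0))).tm - 1) (nvS ((π x).scr (ρ 2))) :=
    Q.lift (A.gr (Q := fun x ρ => nvS ((π x).scr (ρ 2))) (K.sub (A.tm (K.v 0)) (K.c 1))
      (A.nvS (K.vL 3) (K.v 0)))
  have v : Cn κ fun x ρ => (π x).top (ρ 2) (dec (π x).P (hd (ρ 0))).sd :=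
    K.cg (K.ite (i := fun _ _ => propDecidable _) (A.sd (K.v 0)) (A.top true (K.vL 2))
      (A.top false (K.vL 2))) fun x ρ => by cases (dec (π x).P (hd (ρ 0))).sd <;> simp
  Q.iteL (Q.liftP (K.and (A.stop (K.v 0)) (K.ne v (K.c 0))))
    (seth A 0 (D.expl (Q.v 3) u (Q.vL 1) (Q.vL 2)) u)
    (Q.iteL (Q.liftP (K.or (A.stop (K.v 0)) (K.eq (A.tm (K.v 0)) (K.v 4))))
      (Q.liftL (A.seth 1 (K.vL 2) (K.add (K.v 0) (K.c 1))))
      (seth A 0 (D.expl (Q.v 3) (Q.lift (A.tm (K.v 0))) (Q.vL 1) (Q.vL 2))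
        (Q.lift (A.tm (K.v 0)))))

theorem run (A : MaK κ π) (B : MbK κ π) (D : MdK κ q π) :
    T3 κ q (fun x => (π x).β) fun x g b t Y => (π x).run g b t Y :=
  M.bind _ _ (M.lift _ (B.win (K.vL 0))) (M.bind _ _
    (Q.call (Q.liftL (A.qry (K.v 2) (B.tt (K.v 2) (K.v 3) (K.vL 1)) (K.vL 0)))
      fun _ _ _ => Pm.qry_le _ _ _) (rn1 A D))

theorem skip (i : ℕ) {Z : LQ} (h : Lq κ q β Z) :
    Lq κ q β fun x g ρ => if gt (ρ 0) i ≠ 0 then ρ 0 else Z x g ρ :=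
  Q.iteL (Q.liftP (K.ne (K.gt (K.vL 0) (K.c i)) (K.c 0))) (Q.vL 0) h

theorem mac (A : MaK κ π) (B : MbK κ π) (D : MdK κ q π)
    (E : ∀ σ, T3 κ q (fun x => (π x).β) fun x g b _ Y => (π x).norm g b Y σ) :
    T3 κ q (fun x => (π x).β) fun x g b t Y => (π x).mac g b t Y :=
  have m2 : T3 κ q (fun x => (π x).β) fun x g b t Y => (π x).mc2 g b t Y := skip 2 (run A B D)
  have m1 : T3 κ q (fun x => (π x).β) fun x g b t Y => (π x).mc1 g b t Y :=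
    skip 2 (m2.app (Q.v 1) (Q.v 2) (E true))
  M.bind _ _ (skip 1 (m1.app (Q.v 1) (Q.v 2) ((E false).app (Q.v 1) (Q.v 2)
    (Q.liftL (A.seth 2 (K.vL 0) (K.c 0)))))) (M.lift _ (A.trn (K.vL 0)))

end Mf

theorem mfS (hA : MaS) (hB : MbS) (hC : McS) (hD : MdS) (hE : MeS) : MfS :=
  fun κ q π M C CM F =>
  have A := hA κ π C
  Q.min (Q.ite (Q.liftP (K.le (K.gt (K.vL 0) (K.c 0)) C.b₀)) (Q.lift (hC κ π M C CM))
    (Q.sub (Q.gt (Q.foldL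
      (fun x g ρ _ acc => (π x).mac g (gt (ρ 0) 0 / (π x).lam) (gt (ρ 0) 1) acc)
      (fun x _ _ _ => (π x).β) (Q.lift C.N) (fun x _ _ => (F x).2.2)
      (Q.liftL (A.seth 1 (A.seth 0 (K.vL 0) (K.c 0)) (K.c 0)))
      ((Mf.mac A (hB κ π C) (hD κ q π C F) (hE κ q π C F)).app
        (Q.lift (K.div (K.gt (K.vL 2) (K.c 0)) C.lam)) (Q.lift (K.gt (K.vL 2) (K.c 1))) (Q.vL 0))
      (Q.lift A.β) fun _ _ _ _ _ _ _ k a ha => (Pm.trn_le _ a ha).trans k) (Q.c 1)) (Q.c 1)))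
    (Q.lift A.β)

end Pool.Agent.MP_1a6d78_lc.CR
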