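import Pool.Agent.MP_1a6d78_lc.CR.Spec

/-! PROJECT CR, row NM1: search, then close a gap or set a mark. -/

namespace Pool.Agent.MP_1a6d78_lc.CR

open Classical ED PR SC Function

namespace Nm1

variable {π : Pm} {M : Mc} {g : Orc} {d b t H n : ℕ} {r : Rec} {Y : List ℕ}

theorem ps_ok (hP : PslS) {G : ℕ} {S : ℕ → Rec} {Z : Bool → ℕ → Prop} {h : ℕ}
    (k : Inv M G b t H r S Z h) {σ : Bool} {z : ℕ} (hz : z = 0 ∨ z ∈ st M S h σ) (j : ℕ) :
    pS M S h σ z j < H ∧ (tr M S (pS M S h σ z j)).nv = true := by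
  have h1 := k.lt
  have h2 : ∀ p ∈ st M S h σ, p < H ∧ (tr M S p).nv = true := fun p hp =>
    ⟨(mem_st hp).2.1.trans_lt h1, (mem_st hp).2.2.1⟩
  cases j with
  | zero => exact ⟨h1, k.ex.nv⟩
  | succ j =>
    rcases (hP M S h σ z j hz).2.2.1 with e | e
    · rw [e]
      rcases hz with rfl | hz
      exacts [⟨k.inst.pos, (k.inst.gd 0 k.inst.pos).1⟩, h2 z hz]
    · exact h2 _ e

/-- Two paths are made explicit. -/
theorem two (hE : ExplS) (hc : CxK π M g d b t) (hl : LI π M b t H r Y n)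
    (hK : n + (2 * (π.G + 2) + 1) ≤ π.K) (W : List ℕ) {a a' : ℕ} (h1 : a < H) (h2 : a' < H)
    (n1 : (tr M (π.scr Y) a).nv = true) (n2 : (tr M (π.scr Y) a').nv = true)
    (o : ∀ s, s = a ∨ s = a' → ∀ c, On (tr M (π.scr Y)) s c → ¬(π.scr Y c).nv = true →
      dec π.P (g (π.qry b c W)) = tr M (π.scr Y) c ∧ g (π.qry b c W) < π.β)
    {Y' : List ℕ} (e : Y' = π.expl g b W a' (π.expl g b W a Y)) :
    Ext M (π.scr Y) (π.scr Y') ∧ Expl M (π.scr Y') a ∧ Expl M (π.scr Y') a' ∧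
      π.Rep Y' (n + 2 * (π.G + 2)) ∧ π.Mk Y' = π.Mk Y ∧ gt Y' 0 = gt Y 0 ∧ gt Y' 1 = 0 ∧
      gt Y' 2 = 0 := by
  have k1 := hl.inv.inst.le
  have k2 := hl.inv.lt
  have k3 := hc.ht
  have k4 := P_le π
  have k5 := hl.res
  obtain ⟨a1, a2, a3, a4, a5, a6, -⟩ := hE π M g b W Y n H a hl.rep (by omega) hl.inv.inst.gd
    (by omega) h1 n1 (by omega) (by omega) (o a (.inl rfl))
  obtain ⟨b1, b2, b3, b4, b5, b6, b7⟩ := hE π M g b W _ _ H a' a3 (by omega)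
    (a1.inst hl.inv.inst).gd (by omega) h2 (a1.1 ▸ n2) (by omega) (by omega) fun c k k' => by
      rw [a1.1] at k ⊢
      exact o a' (.inr rfl) c k fun q => k' (a1.nv q)
  subst e
  exact ⟨a1.trans b1, b1.expl a2, b2, b3.mono (by omega), b4.trans a4, b5.trans a5,
    b6.trans (a6.trans k5), b7⟩

end Nm1

theorem nm1S (hF : FjS) (hB : BsS) (hE : ExplS) (hC : CloseS) (hl : FlagS) (hR : RstS)
    (hP : PslS) : Nm1S := by
  intro π M g d b t H r Y n hc li hK σ h4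
  obtain ⟨W, hW⟩ : ∃ W, W = π.dmpC (π.rst Y (win (π.top Y))) (gt Y 0) σ := ⟨_, rfl⟩
  obtain ⟨tp, len, fj⟩ := hF π M g d b t H r Y n hc li (by omega) σ W hW
  rw [← hW]
  clear hW
  generalize π.top Y σ = z at *
  obtain ⟨f, hf⟩ : ∃ f, f = π.fj g b W Y σ (gt Y 0) z := ⟨_, rfl⟩
  have hz : z = 0 ∨ z ∈ st M (π.scr Y) (gt Y 0) σ :=
    tp.1.elim .inl fun e => (li.inv.mrk σ z e).imp_right And.left
  have hb := hc.hb
  have k1 := li.inv.inst.le
  have k2 := li.inv.lt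
  have k3 := hc.ht
  have k4 := hc.hK
  have fe : ∀ j ≤ π.J, f j = ws (tr M (π.scr Y)) σ (pS M (π.scr Y) (gt Y 0) σ z j) (gt Y 0) :=
    fun j hj => hf ▸ (fj j hj).2.1
  have f0 : f 0 = 0 := (fe 0 (Nat.zero_le _)).trans (ws_self _ _ _)
  have fJ : 4 * b ≤ f π.J := by
    have := (hP M _ _ σ z (π.J - 1) hz).2.2.2.2 (by omega)
    rw [show π.J - 1 + 1 = π.J by omega] at this
    rwa [fe _ le_rfl, this]
  obtain ⟨i1, i2, i3, -⟩ := hB π f b hc.pw (by omega) (by omega)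
  obtain ⟨j1, j2, j3, -⟩ := hB π f (4 * b) hc.pw (by omega) fJ
  obtain ⟨j, hj⟩ : ∃ j, j = π.pick b f := ⟨_, rfl⟩
  have hJ : j + 1 ≤ π.J := by rw [hj, Pm.pick]; split_ifs <;> assumption
  rw [Pm.nm1, ← hf, ← hj, Pm.nm2, ← hf, (fj j (by omega)).1, (fj _ hJ).1, Pm.fin]
  have p1 := Nm1.ps_ok hP li.inv hz j
  have p2 := Nm1.ps_ok hP li.inv hz (j + 1)
  obtain ⟨Y', hY⟩ : ∃ Y', Y' = π.expl g b W (pS M (π.scr Y) (gt Y 0) σ z (j + 1))
    (π.expl g b W (pS M (π.scr Y) (gt Y 0) σ z j) Y) := ⟨_, rfl⟩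
  obtain ⟨a1, a2, a3, a4, a5, a6, a7, a8⟩ := Nm1.two hE hc li (by omega) W p1.1 p2.1 p1.2 p2.2
    (by rintro _ (rfl | rfl); exacts [(fj j (by omega)).2.2, (fj _ hJ).2.2]) hY
  rw [← hY]
  clear hY
  have ps : pS M (π.scr Y') (gt Y 0) σ z = pS M (π.scr Y) (gt Y 0) σ z := by
    funext i; unfold pS; rw [a1.2.1]
  have iv := a1.inv li.inv
  split_ifs with c
  · obtain ⟨c1, c2⟩ := hC M π.G b t H r _ _ _ iv hb σ z j tp (ps ▸ a2) (ps ▸ a3)
      (by rw [ps, a1.1, ← fe j (by omega), ← fe _ hJ]; exact c) _ rfl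
    rw [ps] at c1 c2
    have rk := hR π M Y' _ H a4 (by omega) iv.inst.gd iv.inst.pos (by omega)
    generalize pS M (π.scr Y) (gt Y 0) σ z j = a at *
    generalize pS M (π.scr Y) (gt Y 0) σ z (j + 1) = a' at *
    obtain ⟨r1, r2, r3⟩ := rk.rep (clo σ a' a)
    have e1 : π.scr (π.seth (π.rst Y' (clo σ a' a)) 2 1) =
        restr (clo σ a' a) (tr M (π.scr Y')) (π.scr Y') := by
      rw [Pm.scr_seth _ _ (by omega)]
      cases σ
      exacts [rk.rst _ p2.1 p1.1 a3 a2, rk.rst _ p1.1 p2.1 a2 a3]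
    have e2 : π.Mk (π.seth (π.rst Y' (clo σ a' a)) 2 1) = π.Mk Y := by
      rw [Pm.Mk_seth _ _ (by omega), ← a5]
      funext τ y
      exact propext ((r3 τ y).trans (and_iff_left (by cases σ <;> rfl)))
    have e3 : gt (π.seth (π.rst Y' (clo σ a' a)) 2 1) 0 = gt Y 0 := by
      rw [Pm.gt_seth _ _ _ (by omega), if_neg (by omega), r2 0 (by omega), a6]
    refine ⟨⟨(r1.seth (by omega) _ (by omega)).mono (by omega), by rwa [e1, e2, e3], ?_⟩, e3,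
      fun _ => by rwa [e1, ← a1.psi], fun e => ?_⟩
    · rw [Pm.gt_seth _ _ _ (by omega), if_neg (by omega), r2 1 (by omega), a7]
    · rw [Pm.gt_seth _ _ _ (by omega), if_pos rfl] at e
      omega
  · have c' : ¬f (π.bs f b) + 2 * b ≤ f (π.bs f b + 1) := fun q => c (by
      rw [hj, Pm.pick, if_pos q]; exact q)
    rw [Pm.pick, if_neg c'] at hj
    rw [← hj] at j2 j3
    have e1 : π.scr (π.ins (mkE σ (pS M (π.scr Y) (gt Y 0) σ z (j + 1))) Y') = π.scr Y' := by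
      funext u
      rw [Pm.scr_ins a4 (by omega), if_neg fun q => by rw [mkE_nv] at q; exact absurd q.1 (by simp)]
    obtain ⟨c1, c2, c3⟩ := hl M π.G b t H r _ _ _ iv σ z (π.bs f b) j
      (π.Mk (π.ins (mkE σ (pS M (π.scr Y) (gt Y 0) σ z (j + 1))) Y')) tp
      (by rwa [ps, a1.1, ← fe _ i1]) (by rw [ps, a1.1, ← fe _ i1]; omega)
      (by rwa [ps, a1.1, ← fe _ hJ]) (by rw [ps, a1.1, ← fe _ hJ]; omega) (ps ▸ a3) fun τ y => by
        rw [Pm.Mk_ins a4 (by omega), a5, ps]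
        exact or_congr_right ⟨fun q => ⟨(mkE_inj q).1.symm, (mkE_inj q).2.symm⟩,
          fun q => by rw [q.1, q.2]⟩
    have e3 : ∀ i < 3, gt (π.ins (mkE σ (pS M (π.scr Y) (gt Y 0) σ z (j + 1))) Y') i = gt Y' i :=
      fun i hi => by rw [Pm.gt_ins _ _ (by omega), if_pos hi]
    refine ⟨⟨a4.ins (mkE_lt σ (by omega)), by rwa [e1, e3 0 (by omega), a6],
      (e3 1 (by omega)).trans a7⟩, (e3 0 (by omega)).trans a6,
      fun e => absurd ((e3 2 (by omega)).trans a8) e, fun _ => ?_⟩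
    rw [e1]
    exact ⟨a1.psi _ _ _ _, c2, fun q => c3 (a1.nrm q)⟩

end Pool.Agent.MP_1a6d78_lc.CR
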