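import Pool.Agent.MP_1a6d78_lc.CR.Spec

/-! PROJECT CR, row PAR: the parameters. -/

namespace Pool.Agent.MP_1a6d78_lc.CR

open Classical ED PR SC Function

namespace Par

theorem it_pow {n b : ℕ} (hn : 1 ≤ n) (hb : 1 ≤ b) (t : ℕ) :
    it n (fun a => a * b) t 1 = min (b ^ t) n := by
  induction t with
  | zero => simp [it, itr, hn]
  | succ t ih =>
    unfold it at ih ⊢
    simp only [itr, ih]
    rcases le_total (b ^ t) n with h | h
    · rw [min_eq_left h, pow_succ]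
    · have h1 : n ≤ n * b := Nat.le_mul_of_pos_right n hb
      have h2 : n ≤ b ^ (t + 1) := h.trans (Nat.pow_le_pow_right hb (Nat.le_succ t))
      rw [min_eq_right h, min_eq_right h1, min_eq_right h2]

theorem pow_clog_le {b T : ℕ} (hb : 2 ≤ b) (hT : 1 ≤ T) : b ^ Nat.clog b T ≤ b * T := by
  rcases Nat.eq_zero_or_pos (Nat.clog b T) with h | h
  · rw [h, pow_zero]
    exact Nat.mul_pos (by omega) hT
  · have h1 : 1 < T := by
      by_contra h2
      have : T = 1 := by omega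
      rw [this, Nat.clog_one_right] at h
      omega
    have h2 := Nat.pow_pred_clog_lt_self (b := b) hb h1
    obtain ⟨k, hk⟩ : ∃ k, Nat.clog b T = k + 1 := ⟨Nat.clog b T - 1, by omega⟩
    rw [hk] at h2 ⊢
    rw [pow_succ, mul_comm]
    exact Nat.mul_le_mul_left b h2.le

theorem clog_eq {b T : ℕ} (hb : 2 ≤ b) (hT : 1 ≤ T) :
    lst T (fun d => T ≤ it T (fun a => a * b) d 1) = Nat.clog b T := by
  have h0 : ∀ d, T ≤ it T (fun a => a * b) d 1 ↔ Nat.clog b T ≤ d := fun d => by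
    rw [it_pow hT (by omega), le_min_iff, Nat.clog_le_iff_le_pow hb]
    simp
  have h1 : Nat.clog b T < T := by
    have h2 : T - 1 < 2 ^ (T - 1) := Nat.lt_two_pow_self
    have h3 : 2 ^ (T - 1) ≤ b ^ (T - 1) := Nat.pow_le_pow_left hb _
    have h4 : Nat.clog b T ≤ T - 1 := (Nat.clog_le_iff_le_pow hb).2 (by omega)
    omega
  have h5 : Nat.clog b T ∈ {d | d < T ∧ T ≤ it T (fun a => a * b) d 1} := ⟨h1, (h0 _).2 le_rfl⟩
  exact le_antisymm (Nat.sInf_le h5) ((h0 _).1 (Nat.sInf_mem ⟨_, h5⟩).2)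

variable {κ b T f g B : List Bool → ℕ}

theorem clogC (hb : Cn κ fun x _ => b x) (hT : Cn κ fun x _ => T x) (h2 : ∀ x, 2 ≤ b x)
    (h1 : ∀ x, 1 ≤ T x) : Cn κ fun x _ => Nat.clog (b x) (T x) :=
  K.cg (K.lst (P := fun x _ d => T x ≤ it (T x) (fun a => a * b x) d 1) hT
    (K.le hT (K.it (f := fun x _ a => a * b x) hT (K.mul (K.v 0) hb) (K.v 0) (K.c 1))))
    fun x _ => clog_eq (h2 x) (h1 x)

theorem powC (hb : Cn κ fun x _ => b x) (hT : Cn κ fun x _ => T x) (h2 : ∀ x, 2 ≤ b x)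
    (h1 : ∀ x, 1 ≤ T x) : Cn κ fun x _ => b x ^ Nat.clog (b x) (T x) :=
  K.cg (K.it (f := fun x _ a => a * b x) (K.mul hb hT) (K.mul (K.v 0) hb) (clogC hb hT h2 h1)
    (K.c 1)) fun x _ => by
      have := h2 x
      rw [it_pow (Nat.mul_pos (by omega) (h1 x)) (by omega),
        min_eq_left (pow_clog_le (h2 x) (h1 x))]

/-- `f` is bounded by a power of `B`. -/
def Le (B f : List Bool → ℕ) : Prop := ∃ e : ℕ, ∀ x, f x ≤ B x ^ e

theorem Le.mono (h : Le B g) (k : ∀ x, f x ≤ g x) : Le B f :=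
  h.imp fun _ he x => (k x).trans (he x)

theorem Le.self : Le B B := ⟨1, fun _ => (pow_one _).ge⟩

theorem Le.c (hB : ∀ x, 2 ≤ B x) (n : ℕ) : Le B fun _ => n :=
  ⟨n, fun x => (Nat.lt_two_pow_self (n := n)).le.trans (Nat.pow_le_pow_left (hB x) n)⟩

theorem Le.mul (hf : Le B f) (hg : Le B g) : Le B fun x => f x * g x := by
  obtain ⟨a, ha⟩ := hf
  obtain ⟨c, hc⟩ := hg
  exact ⟨a + c, fun x => by rw [pow_add]; exact Nat.mul_le_mul (ha x) (hc x)⟩

theorem Le.add (hB : ∀ x, 2 ≤ B x) (hf : Le B f) (hg : Le B g) : Le B fun x => f x + g x := by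
  obtain ⟨a, ha⟩ := hf
  obtain ⟨c, hc⟩ := hg
  refine ⟨a + c + 1, fun x => ?_⟩
  have h0 := hB x
  have h1 := (ha x).trans (Nat.pow_le_pow_right (by omega) (Nat.le_add_right a c))
  have h2 := (hc x).trans (Nat.pow_le_pow_right (by omega) (Nat.le_add_left c a))
  have h3 := Nat.mul_le_mul_left (B x ^ (a + c)) h0
  show f x + g x ≤ _
  rw [pow_succ]
  omega

theorem Le.pow (hf : Le B f) (n : ℕ) : Le B fun x => f x ^ n := by
  obtain ⟨a, ha⟩ := hf
  exact ⟨a * n, fun x => by rw [pow_mul]; exact Nat.pow_le_pow_left (ha x) n⟩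

def L (x : List Bool) : ℕ := Nat.log 2 x.length + 2

def M (x : List Bool) : ℕ := x.length + 2

theorem L2 (x : List Bool) : 2 ≤ L x := Nat.le_add_left _ _

theorem M2 (x : List Bool) : 2 ≤ M x := Nat.le_add_left _ _

theorem LM (x : List Bool) : L x ≤ M x := Nat.add_le_add_right (Nat.log_le_self _ _) 2

theorem ML (x : List Bool) : M x ≤ 2 ^ L x := by
  have h := Nat.lt_pow_succ_log_self (b := 2) (by omega) x.length
  have h1 : 0 < 2 ^ Nat.log 2 x.length := by positivity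
  unfold M L
  rw [pow_succ] at h
  rw [pow_add]
  omega

theorem Le.up (hf : Le L f) : Le M f :=
  hf.imp fun e he x => (he x).trans (Nat.pow_le_pow_left (LM x) e)

theorem Le.clog (hf : Le M f) (h2 : ∀ x, 2 ≤ b x) : Le L fun x => Nat.clog (b x) (f x) := by
  obtain ⟨e, he⟩ := hf
  refine (Le.self.mul (Le.c L2 e)).mono fun x => (Nat.clog_le_iff_le_pow (h2 x)).2 ?_
  refine (he x).trans ((Nat.pow_le_pow_left (ML x) e).trans ?_)
  rw [← pow_mul]
  exact Nat.pow_le_pow_left (h2 x) _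

theorem LC : Cn κ fun x _ => L x := K.cg (K.add (lgC κ) (K.c 1)) fun _ _ => rfl

theorem MC : Cn κ fun x _ => M x := K.add (kitOne κ).len (K.c 2)

variable (a : ℕ)

def pT (x : List Bool) : ℕ := M x ^ a + 2

def pG (x : List Bool) : ℕ := L x ^ a + 1

def pb (x : List Bool) : ℕ := 2 * (pG a x + 2)

def pD (x : List Bool) : ℕ := Nat.clog (L x) (pT a x)

def pW (x : List Bool) : ℕ := 64 * (pb a x * L x ^ pD a x)

def pr (x : List Bool) : ℕ := Nat.clog 2 (pW a x)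

def pN (x : List Bool) : ℕ := (64 * L x) ^ 2 * (pG a x + 1) + 2 * (64 * L x) + 1

def pK (x : List Bool) : ℕ := 128 * pb a x + 4 + pD a x * (pN a x * (5 * (pG a x + 2) + 2))

def pP (x : List Bool) : ℕ := pT a x + (pD a x * 2 ^ pr a x + 2 ^ pr a x) + pG a x + 2

def pq (x : List Bool) : ℕ := pG a x + 2 + pr a x + pN a x

def pm (x : List Bool) : Pm :=
  ⟨pK a x, pP a x, pG a x, pb a x, L x, 2 ^ pr a x, pr a x, pN a x⟩

theorem T1 (x : List Bool) : 1 ≤ pT a x := by unfold pT; omega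

theorem b1 (x : List Bool) : 1 ≤ pb a x := by unfold pb; omega

theorem W1 (x : List Bool) : 1 ≤ pW a x :=
  Nat.mul_pos (by omega) (Nat.mul_pos (b1 a x) (Nat.pow_pos (by have := L2 x; omega)))

theorem TC : Cn κ fun x _ => pT a x := K.add (K.pow a MC) (K.c 2)

theorem GC : Cn κ fun x _ => pG a x := K.add (K.pow a LC) (K.c 1)

theorem bC : Cn κ fun x _ => pb a x := K.mul (K.c 2) (K.add (GC a) (K.c 2))

theorem DC : Cn κ fun x _ => pD a x := clogC LC (TC a) L2 (T1 a)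

theorem LDC : Cn κ fun x _ => L x ^ pD a x := powC LC (TC a) L2 (T1 a)

theorem WC : Cn κ fun x _ => pW a x := K.mul (K.c 64) (K.mul (bC a) (LDC a))

theorem rC : Cn κ fun x _ => pr a x := clogC (K.c 2) (WC a) (fun _ => le_rfl) (W1 a)

theorem JC : Cn κ fun x _ => 2 ^ pr a x := powC (K.c 2) (WC a) (fun _ => le_rfl) (W1 a)

theorem NC : Cn κ fun x _ => pN a x :=
  K.add (K.add (K.mul (K.pow 2 (K.mul (K.c 64) LC)) (K.add (GC a) (K.c 1)))
    (K.mul (K.c 2) (K.mul (K.c 64) LC))) (K.c 1)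

theorem KC : Cn κ fun x _ => pK a x :=
  K.add (K.add (K.mul (K.c 128) (bC a)) (K.c 4)) (K.mul (DC a) (K.mul (NC a)
    (K.add (K.mul (K.c 5) (K.add (GC a) (K.c 2))) (K.c 2))))

theorem PC : Cn κ fun x _ => pP a x :=
  K.add (K.add (K.add (TC a) (K.add (K.mul (DC a) (JC a)) (JC a))) (GC a)) (K.c 2)

theorem Tb : Le M (pT a) := .add M2 (Le.self.pow a) (.c M2 2)

theorem Gb : Le L (pG a) := .add L2 (Le.self.pow a) (.c L2 1)

theorem bb : Le L (pb a) := .mul (.c L2 2) (.add L2 (Gb a) (.c L2 2))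

theorem Db : Le L (pD a) := (Tb a).clog L2

theorem LDb : Le M fun x => L x ^ pD a x :=
  (Le.self.up.mul (Tb a)).mono fun x => pow_clog_le (L2 x) (T1 a x)

theorem Wb : Le M (pW a) := .mul (.c M2 64) ((bb a).up.mul (LDb a))

theorem rb : Le L (pr a) := (Wb a).clog fun _ => le_rfl

theorem Jb : Le M fun x => 2 ^ pr a x :=
  ((Le.c M2 2).mul (Wb a)).mono fun x => pow_clog_le le_rfl (W1 a x)

theorem Nb : Le L (pN a) :=
  .add L2 (.add L2 (.mul (((Le.c L2 64).mul .self).pow 2) (.add L2 (Gb a) (.c L2 1)))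
    (.mul (.c L2 2) (.mul (.c L2 64) .self))) (.c L2 1)

theorem Kb : Le L (pK a) :=
  .add L2 (.add L2 (.mul (.c L2 128) (bb a)) (.c L2 4)) (.mul (Db a) (.mul (Nb a)
    (.add L2 (.mul (.c L2 5) (.add L2 (Gb a) (.c L2 2))) (.c L2 2))))

theorem Pb : Le M (pP a) :=
  .add M2 (.add M2 (.add M2 (Tb a) (.add M2 ((Db a).up.mul (Jb a)) (Jb a))) (Gb a).up) (.c M2 2)

theorem qb : Le L (pq a) := .add L2 (.add L2 (.add L2 (Gb a) (.c L2 2)) (rb a)) (Nb a)

end Par

open Par in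
theorem parS : ParS := fun a => by
  obtain ⟨e, he⟩ : Le M fun x => 144 * pP a x ^ 5 + L x ^ pD a x * L x :=
    .add M2 (.mul (.c M2 144) ((Pb a).pow 5)) ((LDb a).mul Le.self.up)
  obtain ⟨e', he'⟩ : Le L fun x => pK a x + (pq a x + 2) + (pD a x + 2) :=
    .add L2 (.add L2 (Kb a) (.add L2 (qb a) (.c L2 2))) (.add L2 (Db a) (.c L2 2))
  refine ⟨pm a, pD a, pq a, e + e', ⟨KC a, PC a, GC a, bC a, LC, JC a, rC a, NC a,
    fun _ => le_rfl⟩, fun x => ?_, DC a, LDC a, fun x => ?_⟩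
  · simp only [pm, pq]
    omega
  have h1 := (he x).trans (Nat.pow_le_pow_right (by have := M2 x; omega) (Nat.le_add_right e e'))
  have h2 := (he' x).trans (Nat.pow_le_pow_right (by have := L2 x; omega) (Nat.le_add_left e' e))
  beta_reduce at h1 h2
  have h3 : pT a x ≤ L x ^ pD a x := Nat.le_pow_clog (L2 x) _
  have h4 : pW a x ≤ 2 ^ pr a x := Nat.le_pow_clog Nat.one_lt_two _
  have h5 : pP a x = M x ^ a + 2 + (pD a x * 2 ^ pr a x + 2 ^ pr a x) + pG a x + 2 := rfl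
  have h6 : pK a x = 128 * pb a x + 4 + pD a x * (pm a x).E := rfl
  refine ⟨rfl, rfl, fun Q hQ hδ => ⟨L2 x, le_rfl, rfl, h4, Nat.lt_succ_self _, ?_, ?_, ?_, hQ,
    fun y z => (hδ y z).trans_le ?_⟩, ?_, ?_, ?_, ?_, ?_, ?_, ?_, ?_⟩
  · show 128 * pb a x + 4 ≤ pK a x
    omega
  · show pG a x + 2 < pP a x
    omega
  · show 2 ^ pr a x < pP a x
    omega
  · show M x ^ a ≤ pP a x
    omega
  · exact h3.trans (Nat.le_mul_of_pos_left _ (b1 a x))
  · show 4 + pD a x * (pm a x).E ≤ pK a x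
    omega
  · show M x ^ a + 1 + pD a x * 2 ^ pr a x < pP a x
    omega
  · exact (Nat.le_add_right _ _).trans h1
  · show pK a x ≤ L x ^ (e + e')
    omega
  · show pq a x + 2 ≤ L x ^ (e + e')
    omega
  · show pD a x + 2 ≤ L x ^ (e + e')
    omega
  · show L x ^ (pD a x + 1) ≤ M x ^ (e + e')
    rw [pow_succ]
    omega

end Pool.Agent.MP_1a6d78_lc.CR
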