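import Pool.Agent.MP_1a6d78_lc.CR.Spec

/-! PROJECT CR, row POT: the potential along the run. -/

namespace Pool.Agent.MP_1a6d78_lc.CR

open Classical ED PR SC Function

namespace Pot

variable {M : Mc} {G : ℕ} {S : ℕ → Rec}

/-- A later cut that separates two old times comes from an object of smaller depth. -/
theorem path {H h u v : ℕ} (g : Gd M G S H) (hu : u < h) (hv : v < h) (s : ℕ) :
    ∀ e, h < s → s < H → (tr M S s).nv = true → rt (tr M S) s e u ≠ rt (tr M S) s e v →
      ∃ s' e', Obj M S h s' e' ∧ (tr M S s').gen < (tr M S s).gen ∧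
        rt (tr M S) s' e' u ≠ rt (tr M S) s' e' v := by
  induction s using Nat.strong_induction_on with
  | _ s ih =>
    intro e h1 h2 n d
    obtain ⟨k1, k2, -⟩ := pt_spec g h2 (by omega) n
    rw [rt_step e (by omega) k1, rt_step e (by omega) k1] at d
    obtain ⟨w, rfl⟩ : ∃ w, s = w + 1 := ⟨s - 1, by omega⟩
    obtain ⟨o0, -, o⟩ := g _ h2
    obtain ⟨o1, o2, -⟩ := o n
    have key : (tr M S (pt (tr M S) (w + 1))).gen < (tr M S (w + 1)).gen ∧
        (pt (tr M S) (w + 1) ≤ h → Obj M S h (pt (tr M S) (w + 1)) (pe (tr M S) (w + 1))) := by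
      by_cases e1 : (tr M S (w + 1)).pk = 1
      · have p1 : pt (tr M S) (w + 1) = w := by simp [pt, e1]
        rw [p1]
        exact ⟨(o1 e1).2, fun l => .inl (by omega)⟩
      · by_cases e2 : (tr M S (w + 1)).pk = 2
        · have p1 : pt (tr M S) (w + 1) = (tr M S (w + 1)).m := by simp [pt, e2]
          have p2 : pe (tr M S) (w + 1) = !(tr M S (w + 1)).sd := by simp [pe, e2]
          rw [p1, p2]
          refine ⟨(o2 e2).2, fun l => .inr ?_⟩
          rw [Bool.not_not]
          exact st_back (u := w) (by simp [pop_cons n (o2 e2).1 o0]) l (by omega)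
        · have p1 : pt (tr M S) (w + 1) = 0 := by simp [pt, e1, e2]
          rw [p1, rt_le _ _ (Nat.zero_le _), rt_le _ _ (Nat.zero_le _)] at d
          exact absurd rfl d
    by_cases l : pt (tr M S) (w + 1) ≤ h
    · exact ⟨_, _, key.2 l, key.1, d⟩
    · obtain ⟨s', e', a1, a2, a3⟩ := ih _ k1 _ (by omega) (by omega) k2 d
      exact ⟨s', e', a1, a2.trans key.1, a3⟩

theorem obj_spec {h s : ℕ} {e : Bool} (n : (tr M S h).nv = true) (o : Obj M S h s e) :
    s ≤ h ∧ (tr M S s).nv = true := by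
  rcases o with rfl | o
  exacts [⟨le_rfl, n⟩, ⟨(mem_st o).2.1, (mem_st o).2.2.1⟩]

theorem mono {H h h' γ u v : ℕ} (g : Gd M G S H) (l : h ≤ h') (l' : h' < H)
    (n : (tr M S h').nv = true) (d : Sep M S h' γ u v) : Sep M S h γ u v := by
  by_cases hu : h ≤ u
  · exact .inl hu
  by_cases hv : h ≤ v
  · exact .inr (.inl hv)
  rcases d with d | d | ⟨s, e, o, d1, d2⟩
  · omega
  · omega
  refine .inr (.inr ?_)
  obtain ⟨k1, k2⟩ := obj_spec n o
  by_cases c : h < s
  · obtain ⟨s', e', a1, a2, a3⟩ := path g (by omega) (by omega) s e c (by omega) k2 d2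
    exact ⟨s', e', a1, by omega, a3⟩
  · refine ⟨s, e, ?_, d1, d2⟩
    rcases o with o | o
    · exact .inl (by omega)
    · exact .inr (st_back o (by omega) l)

theorem le_hd {u p : ℕ} {σ : Bool} (h : p ∈ st M S u σ) : p ≤ hd (st M S u σ) := by
  have k := st_sorted M S u σ
  cases e : st M S u σ with
  | nil => rw [e] at h; exact absurd h List.not_mem_nil
  | cons a l =>
    rw [e] at h k
    rcases List.mem_cons.1 h with c | c
    · exact c.le
    · exact (List.rel_of_pairwise_cons k c).le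

theorem strict {H h h' u v z a : ℕ} {σ : Bool} (K : GeoK M S H) (g : Gd M G S H) (l : h ≤ h')
    (l' : h' < H) (n : (tr M S h).nv = true) (n' : (tr M S h').nv = true) (hz : z ∈ st M S h σ)
    (ha : a ∈ st M S h σ) (za : z < a) (top : hd (st M S h' σ) = z) (hu : u < a)
    (u1 : rs (tr M S) σ z u) (u2 : ¬rs (tr M S) σ a u) (hv : v < h) (v1 : rs (tr M S) σ a v)
    (v2 : ¬rs (tr M S) σ h v) : ∃ γ ≤ G, Sep M S h γ u v ∧ ¬Sep M S h' γ u v := by
  have ma := mem_st ha
  have mz := mem_st hz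
  have ex : Sep M S h G u v := .inr (.inr ⟨a, !σ, .inr (by rwa [Bool.not_not]),
    (g a (by omega)).gen ma.2.2.1, fun c => u2 (c.trans v1)⟩)
  have ex' : ∃ γ, Sep M S h γ u v := ⟨G, ex⟩
  refine ⟨Nat.find ex', Nat.find_min' ex' ex, Nat.find_spec ex', ?_⟩
  have lt : h < h' := by
    refine lt_of_le_of_ne l fun c => ?_
    subst c
    have := le_hd ha
    omega
  rintro (d | d | ⟨s, e, o, d1, d2⟩)
  · omega
  · omega
  obtain ⟨k1, k2⟩ := obj_spec n' o
  by_cases c : h < s
  · obtain ⟨s', e', a1, a2, a3⟩ := path g (by omega) hv s e c (by omega) k2 d2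
    exact Nat.find_min ex' (a2.trans_le d1) (.inr (.inr ⟨s', e', a1, le_rfl, a3⟩))
  · have o' : s ∈ st M S h' (!e) := o.resolve_left (by omega)
    have o1 : s ∈ st M S h (!e) := st_back o' (by omega) l
    by_cases t : e = σ
    · subst t
      have b1 := K.n h s (!e) v (by omega) n o1 ((rs_not _ _ hv).2 v2)
      have b2 := K.n h s (!e) u (by omega) n o1
        ((rs_not _ _ (by omega)).2 fun c => u2 (K.n h a e u (by omega) n ha c))
      unfold rs at b1 b2
      rw [Bool.not_not] at b1 b2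
      exact d2 (b2.trans b1.symm)
    · have t' : e = !σ := by cases e <;> cases σ <;> simp at t ⊢
      subst t'
      rw [Bool.not_not] at o' o1
      have c1 : s ≤ z := top ▸ le_hd o'
      have b1 := K.n a s σ v (by omega) ma.2.2.1 (st_back o1 (by omega) ma.2.1) v1
      have b2 := K.n z s σ u (by omega) mz.2.2.1 (st_back o1 c1 mz.2.1) u1
      exact d2 (Eq.trans b2 (Eq.symm b1))

theorem count {A C : Finset ℕ} {F F' : Finset (ℕ × ℕ × ℕ)} (h1 : F' ⊆ F)
    (h2 : ∀ u ∈ A, ∀ v ∈ C, ∃ γ : ℕ, (u, v, γ) ∈ F ∧ (u, v, γ) ∉ F') :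
    F'.card + A.card * C.card ≤ F.card := by
  choose! f f1 f2 using h2
  have i : Injective fun x : ℕ × ℕ => (x.1, x.2, f x.1 x.2) := fun x y e =>
    Prod.ext (Prod.mk.inj e).1 (Prod.mk.inj (Prod.mk.inj e).2).1
  rw [← Finset.card_product, ← Finset.card_image_of_injective _ i,
    ← Finset.card_union_of_disjoint]
  · refine Finset.card_le_card (Finset.union_subset h1 fun x hx => ?_)
    obtain ⟨y, hy, rfl⟩ := Finset.mem_image.1 hx
    exact f1 _ (Finset.mem_product.1 hy).1 _ (Finset.mem_product.1 hy).2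
  · refine Finset.disjoint_right.2 fun x hx => ?_
    obtain ⟨y, hy, rfl⟩ := Finset.mem_image.1 hx
    exact f2 _ (Finset.mem_product.1 hy).1 _ (Finset.mem_product.1 hy).2

end Pot

theorem pot (hG : GeoS) : PotS := by
  intro M G S H h h' g l l' n n'
  have sub : ((Finset.range (H + 1) ×ˢ Finset.range (H + 1) ×ˢ Finset.range (G + 1)).filter
      fun x => (tr M S x.1).nv = true ∧ (tr M S x.2.1).nv = true ∧ Sep M S h' x.2.2 x.1 x.2.1) ⊆
      (Finset.range (H + 1) ×ˢ Finset.range (H + 1) ×ˢ Finset.range (G + 1)).filter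
      fun x => (tr M S x.1).nv = true ∧ (tr M S x.2.1).nv = true ∧ Sep M S h x.2.2 x.1 x.2.1 :=
    fun x hx => by
      have k := Finset.mem_filter.1 hx
      exact Finset.mem_filter.2 ⟨k.1, k.2.1, k.2.2.1, Pot.mono g l l' n' k.2.2.2⟩
  refine ⟨Finset.card_le_card sub, fun σ z a hz ha za top => ?_⟩
  unfold Phi ws PR.cnt
  refine Pot.count sub fun u hu v hv => ?_
  obtain ⟨u0, u1, u2, u3⟩ := mem_cnt.1 hu
  obtain ⟨v0, v1, v2, v3⟩ := mem_cnt.1 hv
  obtain ⟨γ, c1, c2, c3⟩ := Pot.strict (hG M G S H g) g l l' n n' hz ha za top u0 u2 u3 v0 v2 v3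
  have := (mem_st ha).2.1
  refine ⟨γ, Finset.mem_filter.2 ⟨?_, u1, v1, c2⟩, fun c => c3 (Finset.mem_filter.1 c).2.2.2⟩
  simp only [Finset.mem_product, Finset.mem_range]
  omega

end Pool.Agent.MP_1a6d78_lc.CR
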