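import Pool.Agent.MP_1a6d78_lc.CR.Spec

/-! PROJECT CR, row PROBE: the window with an emptied stack answers the probes. -/

namespace Pool.Agent.MP_1a6d78_lc.CR

open Classical ED PR SC Function

namespace Probe

theorem getD_pos {L : List ℕ} (h : ∀ p ∈ L, 0 < p) (i z : ℕ) :
    (if L.getD i 0 = 0 then z else L.getD i 0) = L.getD i z := by
  by_cases k : i < L.length
  · rw [List.getD_eq_getElem _ _ k, List.getD_eq_getElem _ _ k,
      if_neg (h _ (List.getElem_mem k)).ne']
  · rw [List.getD_eq_default _ _ (not_lt.1 k), List.getD_eq_default _ _ (not_lt.1 k), if_pos rfl]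

end Probe

theorem probe (hD : DmpS) (hA : WinAS) (hP : PslS) : ProbeS := by
  intro M G b t H r S Z h hI hb z σ hT D eD
  have mk : ∀ τ, z τ = 0 ∨ (z τ ∈ st M S h τ ∧ Expl M S (z τ)) := fun τ =>
    (hT τ).1.elim .inl (hI.mrk τ _)
  have w : ∀ τ, ws (tr M S) τ (z τ) h ≤ 14 * b := fun τ => by
    rcases hI.grp τ (z τ) (hT τ).1 with k | ⟨z', k1, k2, -⟩
    · exact k
    · exact absurd ((hT τ).2 z' k1) (by omega)
  obtain ⟨a1, a2, a3, a4, a5⟩ := hA M G S t H h z ⟨hI.inst, hI.lt, hI.ex, mk⟩ _ rfl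
  obtain ⟨d1, d2, d3⟩ := hD M G _ h σ a1 a2
  rw [← eD] at d1 d2 d3
  have w0 := w false
  have w1 := w true
  have l := st_len M (restr (win z) (tr M S) S) h σ
  rw [a3] at l
  have gd := hI.inst.gd
  have lt := hI.lt
  have ok := gd 0 (by omega)
  refine ⟨a2, by omega, fun j c hc hn => ?_, fun j hj => ?_⟩
  · cases j with
    | zero => exact absurd (hI.ex c (by simpa [pS] using hc)) hn
    | succ j =>
      obtain ⟨p1, -, p2, -⟩ := hP M S h σ (z σ) j ((mk σ).imp_right And.left)
      have ne : pS M S h σ (z σ) (j + 1) ≠ z σ := fun e => by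
        rw [e] at hc
        rcases mk σ with k | k
        · rw [k] at hc
          exact hn (expl_zero ok c hc)
        · exact hn (k.2 c hc)
      have m := p2.resolve_left ne
      have m1 := mem_st m
      have c1 := (on_spec gd (by omega) m1.2.2.1 hc).1
      have c2 : c ≠ h := fun e => hn (e ▸ hI.ex h (On.refl _ _))
      have c3 : c ≠ 0 := fun e => hn (e ▸ ok.1)
      obtain ⟨i1, i2⟩ := d2 c (by omega) (by omega)
      exact ⟨i1, (d1 c (by omega)).trans
        (a5 _ (.inr ⟨σ, .inr ⟨m, by omega⟩⟩) c hc hn), by omega⟩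
  · obtain ⟨H', i1, i2, i3⟩ := d3 j hj
    refine ⟨H', i1, by omega, ?_⟩
    rw [i2, a3, pS, if_neg hj.ne']
    exact Probe.getD_pos (fun p hp => (mem_st (List.mem_filter.1 hp).1).1) _ _

end Pool.Agent.MP_1a6d78_lc.CR
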