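import Pool.Agent.MP_1a6d78_lc.CR.Spec

/-! PROJECT CR, row PSL: the list of probes and the pruning of marks. -/

namespace Pool.Agent.MP_1a6d78_lc.CR

open Classical ED PR SC Function

namespace Psl

theorem mem (z : ℕ) (F : List ℕ) (j : ℕ) : F.getD j z = z ∨ F.getD j z ∈ F := by
  induction F generalizing j with
  | nil => exact .inl rfl
  | cons a l ih =>
    cases j with
    | zero => exact .inr (by simp)
    | succ j => exact (ih j).imp id fun k => List.mem_cons_of_mem _ k

theorem key (z : ℕ) (F : List ℕ) (h1 : F.Pairwise (· > ·)) (h2 : ∀ p ∈ F, z < p) (j : ℕ) :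
    F.getD (j + 1) z ≤ F.getD j z ∧ (∀ p ∈ F, p ≤ F.getD 0 z) ∧
      ∀ p ∈ F, p ≤ F.getD (j + 1) z ∨ F.getD j z ≤ p := by
  induction F generalizing j with
  | nil => simp
  | cons a l ih =>
    have k1 := List.pairwise_cons.1 h1
    have k2 : ∀ p ∈ l, z < p := fun p hp => h2 p (List.mem_cons_of_mem _ hp)
    have k3 : ∀ i, l.getD i z ≤ a := fun i => by
      rcases mem z l i with e | e
      · rw [e]; exact (h2 a (by simp)).le
      · exact (k1.1 _ e).le
    have k4 : ∀ p ∈ a :: l, p ≤ a := fun p hp => by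
      rcases List.mem_cons.1 hp with e | e
      exacts [e.le, (k1.1 _ e).le]
    cases j with
    | zero =>
      refine ⟨k3 0, k4, fun p hp => ?_⟩
      rcases List.mem_cons.1 hp with e | e
      exacts [.inr e.ge, .inl ((ih k1.2 k2 0).2.1 p e)]
    | succ j =>
      refine ⟨(ih k1.2 k2 j).1, k4, fun p hp => ?_⟩
      rcases List.mem_cons.1 hp with e | e
      exacts [.inr (e ▸ k3 j), (ih k1.2 k2 j).2.2 p e]

end Psl

theorem psl : PslS := by
  intro M S h σ z j hz
  have e1 : pS M S h σ z (j + 1) = ((st M S h σ).filter (z < ·)).getD j z := by simp [pS]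
  set F := (st M S h σ).filter (z < ·) with hF
  have m : ∀ p, p ∈ F ↔ p ∈ st M S h σ ∧ z < p := fun p => by simp [hF]
  have h1 : F.Pairwise (· > ·) := (st_sorted M S h σ).filter _
  have h2 : ∀ p ∈ F, z < p := fun p hp => ((m p).1 hp).2
  have h3 : ∀ i, z ≤ F.getD i z := fun i => by
    rcases Psl.mem z F i with e | e
    exacts [e.ge, (h2 _ e).le]
  have h4 : z ≤ h := by
    rcases hz with e | e
    exacts [e ▸ Nat.zero_le _, (mem_st e).2.1]
  rw [e1]
  refine ⟨h3 j, ?_, (Psl.mem z F j).imp id fun k => ((m _).1 k).1, fun p hp => ?_,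
    fun k => List.getD_eq_default _ _ k⟩
  · cases j with
    | zero =>
      change _ ≤ h
      rcases Psl.mem z F 0 with e | e
      exacts [e.le.trans h4, (mem_st ((m _).1 e).1).2.1]
    | succ j =>
      have e2 : pS M S h σ z (j + 1) = F.getD j z := by simp [pS, hF]
      rw [e2]
      exact (Psl.key z F h1 h2 j).1
  · by_cases k : z < p
    · cases j with
      | zero => exact .inl ((Psl.key z F h1 h2 0).2.1 p ((m p).2 ⟨hp, k⟩))
      | succ j =>
        have e2 : pS M S h σ z (j + 1) = F.getD j z := by simp [pS, hF]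
        rw [e2]
        exact (Psl.key z F h1 h2 j).2.2 p ((m p).2 ⟨hp, k⟩)
    · exact .inl ((not_lt.1 k).trans (h3 j))

theorem pruneS : PruneS := by
  intro M G b t H r S Z h I σ z Z' hz hm hZ
  have top : Top Z' σ z :=
    ⟨hz.imp id fun k => (hZ σ z).2 ⟨k.1, fun _ => le_rfl⟩, fun y hy => ((hZ σ y).1 hy).2 rfl⟩
  refine ⟨⟨I.inst, I.ans, I.lt, I.ex, fun τ y hy => I.mrk τ y ((hZ τ y).1 hy).1, fun τ y hy => ?_⟩,
    top, fun k y hy => ?_, fun k y hy => ?_⟩
  · rcases I.grp τ y (hy.imp id fun k => ((hZ τ y).1 k).1) with k | ⟨w, k1, k2, k3⟩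
    · exact .inl k
    · by_cases q : τ = σ → w ≤ z
      · exact .inr ⟨w, (hZ τ w).2 ⟨k1, q⟩, k2, k3⟩
      · obtain ⟨rfl, q'⟩ := Classical.not_imp.1 q
        have := mt (hm w k1) q'
        have := ws_tri (tr M S) τ y w h
        exact .inl (by omega)
  · obtain rfl := top.uniq hy
    have e : z = 0 := hz.resolve_right fun q => by omega
    exact ⟨by omega, fun y _ q => by omega, fun q => absurd e q⟩
  · have e : ∀ w, Z' (!σ) w ↔ Z (!σ) w := fun w => by
      rw [hZ]
      exact and_iff_left fun q => absurd q (by cases σ <;> simp)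
    have := k y ⟨hy.1.imp id (e y).1, fun w q => hy.2 w ((e w).2 q)⟩
    simpa only [e] using this

end Pool.Agent.MP_1a6d78_lc.CR
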