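import Pool.Agent.MP_1a6d78_lc.CR.Spec

/-! PROJECT CR, row RES: the run of the restricted script. -/

namespace Pool.Agent.MP_1a6d78_lc.CR

open Classical ED PR SC Function

namespace Res

variable {M : Mc} {G H H' : ℕ} {S : ℕ → Rec} {k : Cut}

theorem img_kept {T : ℕ → Rec} {u : ℕ} (h : k.K T u ∨ k.inn T u) (r z : Rec) :
    (k.img T u r z).nv = r.nv ∧ (k.img T u r z).tm = r.tm ∧ (k.img T u r z).sd = r.sd ∧
      (k.img T u r z).qb = r.qb ∧ (k.img T u r z).qa = r.qa ∧ (k.img T u r z).m = r.m ∧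
      (k.img T u r z).pk = r.pk ∧ (k.img T u r z).gen = r.gen ∧
      ((k.img T u r z).act = r.act ∨ (k.img T u r z).act = 0) := by
  unfold Cut.img
  by_cases c : k.K T u
  · rw [if_pos c]
    refine ⟨rfl, rfl, rfl, rfl, rfl, rfl, rfl, rfl, ?_⟩
    dsimp only
    split_ifs
    exacts [.inr rfl, .inl rfl]
  · rw [if_neg c, if_pos (h.resolve_left c)]
    exact ⟨rfl, rfl, rfl, rfl, rfl, rfl, rfl, rfl, .inl rfl⟩

theorem img_md (T : ℕ → Rec) (u : ℕ) (r : Rec) :
    (k.img T u r (vd u)).md = if k.inn T u then r.md else 0 := by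
  unfold Cut.img
  split_ifs <;> rfl

theorem img_in {T : ℕ → Rec} {u : ℕ} (h : ¬k.K T u) (h' : k.inn T u) (r z : Rec) :
    k.img T u r z = r := by rw [Cut.img, if_neg h, if_pos h']

theorem img_out {T : ℕ → Rec} {u : ℕ} (h : ¬k.K T u) (h' : ¬k.inn T u) (r z : Rec) :
    k.img T u r z = z := by rw [Cut.img, if_neg h, if_neg h']

theorem img_z {T : ℕ → Rec} {u : ℕ} (h : k.K T u ∨ k.inn T u) (r z z' : Rec) :
    k.img T u r z = k.img T u r z' := by
  by_cases c : k.K T u
  · rw [Cut.img, Cut.img, if_pos c, if_pos c]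
  · rw [img_in c (h.resolve_left c), img_in c (h.resolve_left c)]

theorem img_nv {T : ℕ → Rec} {u : ℕ} {r z : Rec} (hz : z.nv = false)
    (h : (k.img T u r z).nv = true) : k.K T u ∨ k.inn T u := by
  by_contra c
  rw [img_out (fun e => c (.inl e)) (fun e => c (.inr e)), hz] at h
  exact Bool.false_ne_true h

theorem img_act {T : ℕ → Rec} {u : ℕ} (h : k.K T u) (r z : Rec) :
    ((k.img T u r z).act = 1 ↔ r.act = 1 ∧ k.kp T u) ∧
      ((k.img T u r z).act = 2 ↔ r.act = 2 ∧ k.kp T r.m) := by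
  rw [Cut.img, if_pos h]
  dsimp only
  split_ifs with c
  · rcases c with c | c
    · exact ⟨iff_of_false (by simp) fun e => c.2 e.2, iff_of_false (by simp) fun e => by omega⟩
    · exact ⟨iff_of_false (by simp) fun e => by omega, iff_of_false (by simp) fun e => c.2 e.2⟩
  · exact ⟨⟨fun e => ⟨e, not_not.1 fun n => c (.inl ⟨e, n⟩)⟩, fun e => e.1⟩,
      ⟨fun e => ⟨e, not_not.1 fun n => c (.inr ⟨e, n⟩)⟩, fun e => e.1⟩⟩

theorem inn_succ (h : RHyp M G S H k H') {u : ℕ} (c : ¬k.K (tr M S) (u + 1)) :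
    k.inn (tr M S) (u + 1) ↔ k.inn (tr M S) u := by
  unfold Cut.inn
  rw [rt_succ h.gd h.l₁ h.x₁.nv fun e => c (.inl e), rt_succ h.gd h.l₂ h.x₂.nv fun e => c (.inr e)]

theorem K_scr (h : RHyp M G S H k H') {u : ℕ} (c : k.K (tr M S) u) :
    (tr M S u).nv = true ∧ restr k (tr M S) S u = k.img (tr M S) u (tr M S u) (vd u) := by
  obtain ⟨k1, k2, k3⟩ := Cut.K_spec h.gd h.l₁ h.l₂ h.x₁ h.x₂ c
  have := h.l₁
  have := h.l₂
  exact ⟨k2, by rw [restr, if_pos k3, (h.gd u (by omega)).scr k3, img_z (.inl c)]⟩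

theorem mk_congr (u a : ℕ) (s : Bool) {p p' y y' : Rec} (p1 : p'.qa = p.qa) (p2 : p'.gen = p.gen)
    (p3 : p'.md = p.md) (y1 : y'.tm = y.tm) (y2 : y'.qb = y.qb) (y3 : y'.gen = y.gen) :
    mk M u p' a s y' = mk M u p a s y := by
  rw [mk, mk, p1, p2, p3, y1, y2, y3]

/-- The claim at time `u`. -/
def A (M : Mc) (S : ℕ → Rec) (k : Cut) (u : ℕ) : Prop :=
  tr M (restr k (tr M S) S) u = k.img (tr M S) u (tr M S u) (vd u) ∧
    ∀ σ, st M (restr k (tr M S) S) u σ = (st M S u σ).filter fun p => decide (k.kp (tr M S) p)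

theorem step (h : RHyp M G S H k H') {u : ℕ} (ih : ∀ v ≤ u, A M S k v)
    (c : ¬k.K (tr M S) (u + 1)) (i : k.inn (tr M S) (u + 1)) :
    (tr M (restr k (tr M S) S) (u + 1)).nv = (tr M S (u + 1)).nv ∧
      (tr M (restr k (tr M S) S) (u + 1)).act = (tr M S (u + 1)).act ∧
      (tr M (restr k (tr M S) S) (u + 1)).sd = (tr M S (u + 1)).sd ∧
      (((tr M S (u + 1)).act = 2 → hd (st M (restr k (tr M S) S) u (tr M S (u + 1)).sd) =
        hd (st M S u (tr M S (u + 1)).sd)) →
        tr M (restr k (tr M S) S) (u + 1) = tr M S (u + 1)) := by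
  by_cases e : (S (u + 1)).nv = true
  · have e1 : restr k (tr M S) S (u + 1) = S (u + 1) := by rw [restr, if_pos e, img_in c i]
    rw [tr_succ M (restr k (tr M S) S), e1, tr_succ M S, nxt, nxt, if_pos e, if_pos e]
    refine ⟨rfl, rfl, rfl, fun a => Rec.ext rfl rfl rfl rfl rfl rfl ?_ rfl rfl rfl⟩
    dsimp only at a ⊢
    split_ifs with b
    · rw [tp_tm, tp_tm, a b]
    · rfl
  · have e1 : restr k (tr M S) S (u + 1) = nil := by rw [restr, if_neg e]
    have i' := (inn_succ h c).1 i
    obtain ⟨-, -, -, -, p1, -, -, p2, -⟩ := img_kept (.inr i') (tr M S u) (vd u)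
    have p3 := img_md (k := k) (tr M S) u (tr M S u)
    rw [if_pos i'] at p3
    rw [← (ih u le_rfl).1] at p1 p2 p3
    have p4 : opA M (tr M (restr k (tr M S) S) u) = opA M (tr M S u) := by rw [opA, opA, p1, p3]
    have p5 : opS M (tr M (restr k (tr M S) S) u) = opS M (tr M S u) := by rw [opS, opS, p1, p3]
    rw [tr_succ M (restr k (tr M S) S), e1, tr_succ M S, nxt, nxt, if_neg e,
      if_neg (show ¬nil.nv = true from Bool.false_ne_true), p3, p4, p5]
    by_cases z : (tr M S u).md = 0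
    · rw [if_pos z, if_pos z]
      exact ⟨rfl, rfl, rfl, fun _ => rfl⟩
    rw [if_neg z, if_neg z]
    refine ⟨rfl, rfl, rfl, fun a => ?_⟩
    by_cases b : opA M (tr M S u) = 2
    · rw [if_pos b, if_pos b]
      have a := a b
      change hd (st M _ u (opS M (tr M S u))) = hd (st M S u (opS M (tr M S u))) at a
      have q := (ih u le_rfl).2 (opS M (tr M S u))
      cases f : st M S u (opS M (tr M S u)) with
      | nil =>
        rw [f] at q
        rw [q]
        exact mk_congr _ _ _ p1 p2 p3 rfl rfl rfl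
      | cons p l =>
        have m := mem_st (M := M) (S := S) (u := u) (p := p) (σ := opS M (tr M S u)) (by simp [f])
        cases f' : st M (restr k (tr M S) S) u (opS M (tr M S u)) with
        | nil => rw [f, f'] at a; simp [hd] at a; omega
        | cons p' l' =>
          rw [f, f'] at a
          obtain rfl : p' = p := a
          have : p' ∈ st M (restr k (tr M S) S) u (opS M (tr M S u)) := by simp [f']
          rw [q] at this
          obtain ⟨-, y1, -, y2, -, -, -, y3, -⟩ := img_kept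
            (Cut.kp_kept (of_decide_eq_true (List.mem_filter.1 this).2)) (tr M S p') (vd p')
          rw [← (ih p' m.2.1).1] at y1 y2 y3
          exact mk_congr _ _ _ p1 p2 p3 y1 y2 y3
    · rw [if_neg b, if_neg b]
      exact mk_congr _ _ _ p1 p2 p3 rfl rfl rfl

/-- The stacks after a step. -/
theorem stk {u : ℕ} {S' : ℕ → Rec} {P : ℕ → Prop} (g : ¬Stop (tr M S (u + 1)))
    (ih : ∀ σ, st M S' u σ = (st M S u σ).filter fun p => decide (P p))
    (h0 : (tr M S' (u + 1)).nv = true →
      (tr M S (u + 1)).nv = true ∧ (tr M S' (u + 1)).sd = (tr M S (u + 1)).sd)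
    (h1 : (tr M S (u + 1)).nv = true → ((tr M S' (u + 1)).nv = true ∧ (tr M S' (u + 1)).act = 1 ↔
      (tr M S (u + 1)).act = 1 ∧ P (u + 1)))
    (h2 : (tr M S (u + 1)).nv = true → ((tr M S' (u + 1)).nv = true ∧ (tr M S' (u + 1)).act = 2 ↔
      (tr M S (u + 1)).act = 2 ∧ P (tr M S (u + 1)).m)) (σ : Bool) :
    st M S' (u + 1) σ = (st M S (u + 1) σ).filter fun p => decide (P p) := by
  by_cases c : (tr M S (u + 1)).nv = true ∧ (tr M S (u + 1)).sd = σ ∧
    ((tr M S (u + 1)).act = 1 ∨ (tr M S (u + 1)).act = 2)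
  · obtain ⟨n, rfl, a | a⟩ := c
    · rw [st_push n a]
      by_cases p : P (u + 1)
      · have e := (h1 n).2 ⟨a, p⟩
        rw [← (h0 e.1).2, st_push e.1 e.2, ih, List.filter_cons_of_pos (by simpa using p)]
      · rw [st_same, ih, List.filter_cons_of_neg (by simpa using p)]
        rintro ⟨e1, -, e | e⟩
        · exact p ((h1 n).1 ⟨e1, e⟩).2
        · have := ((h2 n).1 ⟨e1, e⟩).1; omega
    · have f := pop_cons n a g
      by_cases p : P (tr M S (u + 1)).m
      · have e := (h2 n).2 ⟨a, p⟩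
        have e' := st_pop e.1 e.2
        rw [(h0 e.1).2] at e'
        rw [e', ih, f, List.filter_cons_of_pos (by simpa using p), List.tail_cons]
      · rw [st_same, ih, f, List.filter_cons_of_neg (by simpa using p)]
        rintro ⟨e1, -, e | e⟩
        · have := ((h1 n).1 ⟨e1, e⟩).1; omega
        · exact p ((h2 n).1 ⟨e1, e⟩).2
  · rw [st_same c, st_same, ih]
    rintro ⟨e1, e2, e⟩
    have n := h0 e1
    exact c ⟨n.1, n.2 ▸ e2, e.imp (fun e => ((h1 n.1).1 ⟨e1, e⟩).1) fun e => ((h2 n.1).1 ⟨e1, e⟩).1⟩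

theorem main (h : RHyp M G S H k H') (u : ℕ) (hu : u < H') : A M S k u := by
  induction u using Nat.strong_induction_on with
  | _ u ih =>
  cases u with
  | zero => exact ⟨(K_scr h (.inl (on_zero h.gd h.l₁ h.x₁.nv))).2, fun _ => rfl⟩
  | succ u =>
    have ih' : ∀ v ≤ u, A M S k v := fun v hv => ih v (by omega) (by omega)
    have g := (h.gd (u + 1) (hu.trans_le h.le)).go
    have top : (tr M S (u + 1)).nv = true → (tr M S (u + 1)).act = 2 →
        k.kp (tr M S) (tr M S (u + 1)).m →
        hd (st M (restr k (tr M S) S) u (tr M S (u + 1)).sd) = (tr M S (u + 1)).m := fun n a p => by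
      rw [(ih' u le_rfl).2, pop_cons n a g, List.filter_cons_of_pos (by simpa using p)]
      rfl
    by_cases c : k.K (tr M S) (u + 1)
    · obtain ⟨n, e⟩ := K_scr h c
      obtain ⟨y1, y2, y3, -, -, y4, -⟩ := img_kept (.inl c) (tr M S (u + 1)) (vd (u + 1))
      obtain ⟨a1, a2⟩ := img_act c (tr M S (u + 1)) (vd (u + 1))
      have t : tr M (restr k (tr M S) S) (u + 1) =
          k.img (tr M S) (u + 1) (tr M S (u + 1)) (vd (u + 1)) := by
        rw [tr_succ, e, nxt, if_pos (y1.trans n)]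
        refine Rec.ext rfl (y2.trans (tr_tm M S u.succ_pos)).symm rfl rfl rfl rfl ?_ rfl rfl rfl
        dsimp only
        split_ifs with a
        · rw [tp_tm, y3, y4, top n (a2.1 a).1 (a2.1 a).2]
        · rfl
      refine ⟨t, stk g (ih' u le_rfl).2 (fun _ => ⟨n, t ▸ y3⟩) (fun _ => ?_) fun _ => ?_⟩
      · rw [t, y1, a1]; simp [n]
      · rw [t, y1, a2]; simp [n]
    · by_cases i : k.inn (tr M S) (u + 1)
      · have t : tr M (restr k (tr M S) S) (u + 1) = tr M S (u + 1) :=
          (step h ih' c i).2.2.2 fun a => by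
            have n : (tr M S (u + 1)).nv = true := by
              by_contra n
              rw [tr_void n] at a
              exact absurd a (by simp [vd])
            rw [top n a ((h.c _ hu n a c).1 i), pop_m n a]
        refine ⟨by rw [t, img_in c i], stk g (ih' u le_rfl).2 (fun n => ⟨t ▸ n, t ▸ rfl⟩)
          (fun n => ?_) fun n => ?_⟩
        · rw [t]
          refine ⟨fun e => ⟨e.2, .inr ?_⟩, fun e => ⟨n, e.1⟩⟩
          rw [if_neg]
          · exact i
          · rintro (e | e)
            exacts [c (.inl (e ▸ On.refl _ _)), c (.inr (e ▸ On.refl _ _))]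
        · rw [t]
          exact ⟨fun e => ⟨e.2, (h.c _ hu n e.2 c).1 i⟩, fun e => ⟨n, e.1⟩⟩
      · have e1 : restr k (tr M S) S (u + 1) = nil := by
          rw [restr, img_out c i, ite_self]
        have t : tr M (restr k (tr M S) S) (u + 1) = vd (u + 1) := by
          rw [tr_succ, e1, nxt, if_neg (show ¬nil.nv = true from Bool.false_ne_true), if_pos]
          rw [(ih' u le_rfl).1, img_md, if_neg fun e => i ((inn_succ h c).2 e)]
        have v : ¬(tr M (restr k (tr M S) S) (u + 1)).nv = true := by rw [t]; simp [vd]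
        exact ⟨by rw [t, img_out c i], stk g (ih' u le_rfl).2 (fun n => absurd n v)
          (fun _ => iff_of_false (fun e => v e.1) fun e => (Cut.kp_kept e.2).elim c i)
          fun n => iff_of_false (fun e => v e.1) fun e => i ((h.c _ hu n e.1 c).2 e.2)⟩

theorem ok (h : RHyp M G S H k H') (u : ℕ) (hu : u < H') : Ok M G (restr k (tr M S) S) u := by
  have o := h.gd u (hu.trans_le h.le)
  cases u with
  | zero =>
    have c : k.K (tr M S) 0 := .inl (on_zero h.gd h.l₁ h.x₁.nv)
    obtain ⟨y1, y2, -, -, -, -, y3, y4, y5⟩ := img_kept (.inl c) (tr M S 0) (vd 0)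
    rw [← (K_scr h c).2, tr_zero] at y1 y2 y3 y4 y5
    exact ⟨y1.trans o.1, y2.trans o.2.1, y5.elim (fun e => e.trans o.2.2.1) id, y3.trans o.2.2.2.1,
      y4.trans_le o.2.2.2.2⟩
  | succ u =>
    have t := (main h _ hu).1
    have key : (tr M (restr k (tr M S) S) (u + 1)).nv = true →
        k.K (tr M S) (u + 1) ∨ k.inn (tr M S) (u + 1) := fun n => img_nv (z := vd (u + 1)) rfl (t ▸ n)
    refine ⟨fun s => ?_, fun n => ?_, fun n => ?_⟩
    · obtain ⟨y1, -, -, -, -, y2, -, -, y3⟩ := img_kept (key s.1) (tr M S (u + 1)) (vd (u + 1))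
      rw [← t] at y1 y2 y3
      have := s.2.1
      exact o.1 ⟨y1 ▸ s.1, by omega, y2 ▸ s.2.2⟩
    · by_cases e : (S (u + 1)).nv = true
      · rw [restr, if_pos e] at n ⊢
        rw [t, o.2.1 e, img_z (img_nv (z := nil) rfl n)]
      · rw [restr, if_neg e] at n
        exact absurd n Bool.false_ne_true
    · have c := key n
      obtain ⟨y1, -, -, -, -, y2, y3, y4, y5⟩ := img_kept c (tr M S (u + 1)) (vd (u + 1))
      rw [← t] at y1 y2 y3 y4 y5
      have n' : (tr M S (u + 1)).nv = true := y1 ▸ n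
      obtain ⟨o1, o2, o3, o4⟩ := o.2.2 n'
      rw [y2, y3, y4]
      refine ⟨fun e => ?_, fun e => ?_, fun e e' => ?_, ?_⟩
      · have c' : k.K (tr M S) u ∨ k.inn (tr M S) u := by
          by_cases d : k.K (tr M S) (u + 1)
          · have p : pt (tr M S) (u + 1) = u := by simp [pt, e]
            exact .inl (p ▸ d.imp On.step On.step)
          · exact .inr ((inn_succ h d).1 (c.resolve_left d))
        obtain ⟨z1, -, -, -, -, -, -, z2, -⟩ := img_kept c' (tr M S u) (vd u)
        rw [(main h u (by omega)).1, z1, z2]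
        exact o1 e
      · have a := (o2 e).1
        have p : k.kp (tr M S) (tr M S (u + 1)).m ∧ (tr M (restr k (tr M S) S) (u + 1)).act = 2 := by
          by_cases d : k.K (tr M S) (u + 1)
          · have p : k.kp (tr M S) (tr M S (u + 1)).m := .inl ⟨_, d, e, rfl⟩
            exact ⟨p, t ▸ (img_act d _ _).2.2 ⟨a, p⟩⟩
          · have i := c.resolve_left d
            exact ⟨(h.c _ hu n' a d).1 i, by rw [t, img_in d i, a]⟩
        have m := mem_st (M := M) (S := S) (u := u) (p := (tr M S (u + 1)).m)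
          (σ := (tr M S (u + 1)).sd) (by simp [pop_cons n' a o.1])
        obtain ⟨-, -, -, -, -, -, -, z, -⟩ := img_kept (Cut.kp_kept p.1)
          (tr M S (tr M S (u + 1)).m) (vd (tr M S (u + 1)).m)
        rw [(main h (tr M S (u + 1)).m (by omega)).1, z]
        exact ⟨p.2, (o2 e).2⟩
      · rw [(main h u (by omega)).2, o3 e e', List.filter_nil]
      · rcases y5 with e | e <;> rw [e]
        · exact o4
        · exact (Nat.le_add_right _ _).trans o4

end Res

theorem res : ResS := fun _ _ _ _ _ _ h =>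
  ⟨fun u hu => (Res.main h u hu).1, fun u hu => (Res.main h u hu).2, Res.ok h, fun u e c i => by
    subst e
    exact Res.step h (fun v hv => Res.main h v (by omega)) c i⟩

end Pool.Agent.MP_1a6d78_lc.CR
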