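import Pool.Agent.MP_1a6d78_lc.CR.Spec

/-! PROJECT CR, row RST: restriction of lists. -/

namespace Pool.Agent.MP_1a6d78_lc.CR

open Classical ED PR SC Function

namespace Rst

variable {π : Pm} {l : List ℕ} {k : Cut} {e : ℕ}

theorem on_eq (hP : 0 < π.P) (h : (dec π.P e).nv = true)
    (o : π.onC l k.s₁ (dec π.P e).tm ∨ π.onC l k.s₂ (dec π.P e).tm) :
    dec π.P (π.rstE l k e) = { dec π.P e with
      act := if ((dec π.P e).act = 1 ∧ ¬π.kpC l k (dec π.P e).tm) ∨
          ((dec π.P e).act = 2 ∧ ¬π.kpC l k (dec π.P e).m) then 0 else (dec π.P e).act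
      md := if π.innC l k (dec π.P e).tm then (dec π.P e).md else 0 } := by
  have b := dec_bd hP e
  rw [Pm.rstE, if_pos h, if_pos o, dec_sam]
  · split_ifs
    exacts [by omega, b.act]
  · split_ifs
    exacts [b.md, by omega]

theorem lt (hP : 0 < π.P) (h : e < π.β) : π.rstE l k e < π.β := by
  have b := dec_bd hP e
  have z : 0 < π.β := hP.trans_le (P_le π)
  have := b.act
  have := b.md
  unfold Pm.rstE
  split_ifs <;> first | assumption | exact sam_lt h (by omega) (by omega)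

theorem mk_iff (hP : 0 < π.P) (σ : Bool) (z : ℕ) :
    π.rstE l k e = mkE σ z ↔ e = mkE σ z ∧ k.w = false := by
  have n := mkE_nv π.P σ z
  have n0 := mkE_ne σ z
  by_cases h : (dec π.P e).nv = true
  · refine iff_of_false (fun c => ?_) fun c => by rw [c.1, n] at h; exact Bool.false_ne_true h
    by_cases o : π.onC l k.s₁ (dec π.P e).tm ∨ π.onC l k.s₂ (dec π.P e).tm
    · rw [← c, on_eq hP h o] at n
      exact Bool.false_ne_true (n.symm.trans h)
    · rw [Pm.rstE, if_pos h, if_neg o] at c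
      split_ifs at c
      · rw [c, n] at h; exact Bool.false_ne_true h
      · exact n0 c.symm
  · rw [Pm.rstE, if_neg h]
    split_ifs with w
    · exact iff_of_false n0.symm fun c => by rw [c.2] at w; exact Bool.false_ne_true w
    · exact (and_iff_left (by simpa using w)).symm

end Rst

open Rst in
theorem rstS (h : RtcS) : RstS := by
  intro π M l n H hr hK hG h0 hH
  have hP : 0 < π.P := h0.trans_le hH
  have ent : ∀ k, ∀ i < π.K, 3 ≤ i → gt (π.rst l k) i = π.rstE l k (gt l i) := fun k i hi c => by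
    rw [Pm.rst, gt_tab _ hi, if_neg (by omega)]
  refine ⟨fun σ a b ha hb xa xb => ?_, fun k l₁ l₂ x₁ x₂ => ?_, fun k => ⟨?_, fun i hi => ?_, ?_⟩⟩
  · unfold Pm.wsC ws
    congr 1
    funext u
    rw [(h π M l H a hG hH ha xa).2, (h π M l H b hG hH hb xb).2, ← nv_iff (M := M) (hG 0 h0).1,
      rs, rs]
    cases σ <;> simp
  · obtain ⟨o₁, r₁⟩ := h π M l H _ hG hH l₁ x₁
    obtain ⟨o₂, r₂⟩ := h π M l H _ hG hH l₂ x₂
    have eK : ∀ c, (π.onC l k.s₁ c ∨ π.onC l k.s₂ c) ↔ k.K (tr M (π.scr l)) c :=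
      fun c => or_congr (o₁ c) (o₂ c)
    have eI : ∀ c, π.innC l k c ↔ k.inn (tr M (π.scr l)) c := fun c => by
      rw [Pm.innC, Cut.inn, r₁, r₂]
      cases rt (tr M (π.scr l)) k.s₁ k.e₁ c <;> cases rt (tr M (π.scr l)) k.s₂ k.e₂ c <;>
        cases k.w <;> simp
    have eP : ∀ p, π.kpC l k p ↔ k.kp (tr M (π.scr l)) p := fun p => by
      have key : ∀ c, k.K (tr M (π.scr l)) c → c < π.P ∧ π.scr l c = tr M (π.scr l) c :=
        fun c hc => by
          obtain ⟨k1, -, k3⟩ := Cut.K_spec hG l₁ l₂ x₁ x₂ hc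
          exact ⟨by omega, (hG c (by omega)).scr k3⟩
      refine or_congr ⟨?_, ?_⟩ (by rw [eI])
      · rintro ⟨c, -, k1, k2⟩
        exact ⟨c, (eK c).1 k1, (key c ((eK c).1 k1)).2 ▸ k2⟩
      · rintro ⟨c, k1, k2⟩
        exact ⟨c, (key c k1).1, (eK c).2 k1, (key c k1).2 ▸ k2⟩
    funext u
    have m := Pm.lk_map (π := π) (l := l) (π.rstE l k)
      (fun u => (π.onC l k.s₁ u ∨ π.onC l k.s₂ u) ∨ π.innC l k u) (ent k)
      (fun e k1 k2 => by
        by_cases o : π.onC l k.s₁ (dec π.P e).tm ∨ π.onC l k.s₂ (dec π.P e).tm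
        · rw [on_eq hP k1 o]; exact ⟨k1, rfl⟩
        · rw [Pm.rstE, if_pos k1, if_neg o, if_pos (k2.resolve_left o)]; exact ⟨k1, rfl⟩)
      (fun e k1 => by
        by_cases c : (dec π.P e).nv = true
        · rw [Pm.rstE, if_pos c, if_neg fun o => k1 ⟨c, .inl o⟩, if_neg fun o => k1 ⟨c, .inr o⟩,
            dec_zero]
          exact Bool.false_ne_true
        · rw [Pm.rstE, if_neg c]
          split_ifs
          · rw [dec_zero]; exact Bool.false_ne_true
          · exact c) u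
    rw [Pm.scr, m, restr]
    by_cases c : (π.scr l u).nv = true
    · have t : (dec π.P (π.lk l u)).tm = u := Pm.scr_tm c
      rw [if_pos c, Cut.img]
      by_cases o : k.K (tr M (π.scr l)) u
      · rw [if_pos ⟨c, .inl ((eK u).2 o)⟩, if_pos o, on_eq hP c (t.symm ▸ (eK u).2 o), t]
        simp only [eI, eP]
        rfl
      · rw [if_neg o]
        by_cases i : k.inn (tr M (π.scr l)) u
        · rw [if_pos ⟨c, .inr ((eI u).2 i)⟩, if_pos i, Pm.rstE,
            if_pos (show (dec π.P (π.lk l u)).nv = true from c), t,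
            if_neg fun x => o ((eK u).1 x), if_pos ((eI u).2 i)]
          rfl
        · rw [if_neg fun x => x.2.elim (fun y => o ((eK u).1 y)) fun y => i ((eI u).1 y), if_neg i,
            dec_zero]
    · rw [if_neg fun x => c x.1, if_neg c, dec_zero]
  · exact hr.tab hP _ (fun i hi c => by rw [if_neg (by omega)]; exact lt hP c) fun i hi c => by
      rw [if_neg (by omega), c, Pm.rstE, dec_zero, if_neg (by simp [nil]), ite_self]
  · rw [Pm.rst, gt_tab _ (by omega), if_pos hi]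
  · intro σ z
    constructor
    · rintro ⟨i, hi, k1, k2⟩
      rw [ent k i hi k1, mk_iff hP] at k2
      exact ⟨⟨i, hi, k1, k2.1⟩, k2.2⟩
    · rintro ⟨⟨i, hi, k1, k2⟩, k3⟩
      exact ⟨i, hi, k1, by rw [ent k i hi k1, mk_iff hP]; exact ⟨k2, k3⟩⟩

end Pool.Agent.MP_1a6d78_lc.CR
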