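import Pool.Agent.MP_1a6d78_lc.CR.Spec

/-! PROJECT CR, row RTC: explicit paths are read off the list. -/

namespace Pool.Agent.MP_1a6d78_lc.CR

open Classical ED PR SC Function

namespace Rtc

variable {M : Mc} {G H : ℕ} {S : ℕ → Rec}

theorem on_eq {s c : ℕ} (h : Gd M G S H) (hs : s < H) (x : Expl M S s) (hc : On (tr M S) s c) :
    S c = tr M S c :=
  (h c (lt_of_le_of_lt (on_spec h hs x.nv hc).1 hs)).scr (x c hc)

theorem pt_eq {s c : ℕ} (h : Gd M G S H) (hs : s < H) (x : Expl M S s) (hc : On (tr M S) s c) :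
    pt S c = pt (tr M S) c := by
  unfold pt
  rw [on_eq h hs x hc]

theorem pe_eq {s c : ℕ} (h : Gd M G S H) (hs : s < H) (x : Expl M S s) (hc : On (tr M S) s c) :
    pe S c = pe (tr M S) c := by
  have k := on_eq h hs x hc.step
  unfold pe
  rw [on_eq h hs x hc]
  split_ifs with e
  · rw [pt, if_pos e] at k
    rw [k]
  · rfl
  · rfl

theorem rt_eq (h : Gd M G S H) (u k : ℕ) : ∀ s e, s < H → (tr M S s).nv = true →
    (∀ j < k + 1, u < (pt (tr M S))^[j] s) → (pt (tr M S))^[k + 1] s ≤ u →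
      rt (tr M S) s e u = pe (tr M S) ((pt (tr M S))^[k] s) := by
  induction k with
  | zero =>
    intro s e _ _ h1 h2
    have h3 : u < s := h1 0 Nat.one_pos
    have h4 : pt (tr M S) s ≤ u := h2
    rw [rt_step e h3 (by omega), rt_le _ _ h4]
    rfl
  | succ k ih =>
    intro s e hs n h1 h2
    have h3 : u < s := h1 0 (Nat.succ_pos _)
    obtain ⟨h4, h5, -⟩ := pt_spec h hs (by omega) n
    rw [rt_step e h3 h4]
    exact ih _ _ (by omega) h5 (fun j hj => h1 (j + 1) (by omega)) h2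

end Rtc

open Rtc in
theorem rtc : RtcS := by
  intro π M l H s h hP hs x
  have key : ∀ k, π.pth l s k = (pt (tr M (π.scr l)))^[k] s := fun k => by
    induction k with
    | zero => rfl
    | succ k ih =>
      have o : On (tr M (π.scr l)) s (π.pth l s k) := ⟨k, ih.symm⟩
      have e : π.pth l s (k + 1) = min (pt (π.scr l) (π.pth l s k)) π.P := rfl
      have := (on_spec h hs x.nv o.step).1
      rw [e, pt_eq h hs x o, min_eq_left (by omega), ih, iterate_succ_apply']
  refine ⟨fun c => ⟨fun ⟨k, _, e⟩ => ⟨k, key k ▸ e⟩, fun hc => ?_⟩, fun e u => ?_⟩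
  · obtain ⟨i, hi, e⟩ := on_short h hs x.nv hc
    exact ⟨i, hi, (key i).trans e⟩
  · unfold Pm.rtC
    split_ifs with c
    · rw [rt_le _ _ c]
    · have a : lst (π.G + 2) (fun k => π.pth l s k ≤ u) ∈
          {m | m < π.G + 2 ∧ π.pth l s m ≤ u} := Nat.sInf_mem ⟨π.G + 1, by omega, by
        rw [key, path_end h hs x.nv le_rfl]; exact Nat.zero_le u⟩
      have b : ∀ j < lst (π.G + 2) (fun k => π.pth l s k ≤ u), u < π.pth l s j := fun j hj =>
        lt_of_not_ge fun k => Nat.notMem_of_lt_sInf hj ⟨hj.trans a.1, k⟩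
      generalize lst (π.G + 2) (fun k => π.pth l s k ≤ u) = k at a b
      cases k with
      | zero => exact absurd a.2 c
      | succ k =>
        rw [Nat.add_sub_cancel, key, pe_eq h hs x ⟨k, rfl⟩,
          rt_eq h u k s e hs x.nv (fun j hj => key j ▸ b j hj) (key (k + 1) ▸ a.2)]

end Pool.Agent.MP_1a6d78_lc.CR
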