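import Pool.Agent.MP_1a6d78_lc.CR.Spec

/-! PROJECT CR: one block of the run. -/

namespace Pool.Agent.MP_1a6d78_lc.CR

open Classical ED PR SC Function

namespace Run

variable {M : Mc} {G : ℕ} {S : ℕ → Rec}

theorem cnt_one (n h : ℕ) : cnt n (fun u => u = h) ≤ 1 :=
  Finset.card_le_one.2 fun _ ha _ hb => (mem_cnt.1 ha).2.trans (mem_cnt.1 hb).2.symm

theorem fu_add {h t H : ℕ} (h1 : h ≤ t) (h2 : t ≤ H) : fu M S h t + fu M S t H ≤ fu M S h H := by
  unfold fu cnt
  rw [← Finset.card_union_of_disjoint]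
  · refine Finset.card_le_card fun u hu => ?_
    rcases Finset.mem_union.1 hu with k | k
    · have := mem_cnt.1 k
      exact mem_cnt.2 ⟨by omega, this.2⟩
    · have := mem_cnt.1 k
      exact mem_cnt.2 ⟨this.1, by omega, this.2.2⟩
  · refine Finset.disjoint_left.2 fun u k k' => ?_
    have := mem_cnt.1 k
    have := mem_cnt.1 k'
    omega

theorem st_void {a n : ℕ} (h : ∀ v < n, (tr M S v).nv = true → v ≤ a) (σ : Bool) {k : ℕ}
    (h1 : a ≤ k) (h2 : k < n) : st M S k σ = st M S a σ := by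
  induction k, h1 using Nat.le_induction with
  | base => rfl
  | succ k hk ih =>
    rw [st_same fun e => by have := h _ h2 e.1; omega]
    exact ih (by omega)

/-- The new weight of a last mark. -/
theorem ws_new {H h h' t' : ℕ} (g : GeoK M S H) (l : h' < H) (n : (tr M S h').nv = true)
    (l' : h' ≤ t') (σ : Bool) (y z : ℕ) (hz : z = 0 ∨ z ∈ st M S h' (!σ)) :
    ws (tr M S) σ y h' ≤ ws (tr M S) σ y h + ws (tr M S) (!σ) z h + (1 + fu M S h t') := by
  have a1 : ws (tr M S) σ y h' ≤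
      cnt h (fun u => ((tr M S u).nv = true ∧ rs (tr M S) σ y u ∧ ¬rs (tr M S) σ h u) ∨
        ((tr M S u).nv = true ∧ rs (tr M S) (!σ) z u ∧ ¬rs (tr M S) (!σ) h u)) +
      cnt (t' + 1) (fun u => u = h ∨ (h < u ∧ (tr M S u).nv = true)) := by
    refine cnt_le_add fun u hu k => ?_
    rcases Nat.lt_or_ge u h with c | c
    · refine .inl ⟨c, ?_⟩
      by_cases e : rs (tr M S) σ h u
      · refine .inr ⟨k.1, ?_, fun e' => (rs_not _ σ c).1 e' e⟩
        rcases hz with e0 | e0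
        · exact rs_le _ _ (by omega)
        · exact g.n h' z _ u l n e0 ((rs_not _ σ hu).2 k.2.2)
      · exact .inl ⟨k.1, k.2.1, e⟩
    · exact .inr ⟨by omega, (Nat.eq_or_lt_of_le c).imp Eq.symm fun e => ⟨e, k.1⟩⟩
  have a2 : cnt h (fun u => ((tr M S u).nv = true ∧ rs (tr M S) σ y u ∧ ¬rs (tr M S) σ h u) ∨
        ((tr M S u).nv = true ∧ rs (tr M S) (!σ) z u ∧ ¬rs (tr M S) (!σ) h u)) ≤
      ws (tr M S) σ y h + ws (tr M S) (!σ) z h :=
    cnt_le_add fun u hu k => k.imp (fun e => ⟨hu, e⟩) fun e => ⟨hu, e⟩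
  have a3 : cnt (t' + 1) (fun u => u = h ∨ (h < u ∧ (tr M S u).nv = true)) ≤
      cnt (t' + 1) (fun u => u = h) + fu M S h t' :=
    cnt_le_add fun u hu k => k.imp (fun e => ⟨hu, e⟩) fun e => ⟨hu, e⟩
  have a4 := cnt_one (t' + 1) h
  omega

end Run

open Run in
theorem runS (hG : GeoS) (hA : WinAS) (hB : WinBS) (hP : PotS) : RunS := by
  intro M G b t H r S Z h hI hb hN z hT t' l1 l2 hf hf' W hW
  have hw : WHyp M G S t H h z := ⟨hI.inst, hI.lt, hI.ex, fun σ =>
    (hT σ).1.elim .inl (hI.mrk σ _)⟩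
  obtain ⟨-, -, -, A4, -⟩ := hA M G S t H h z hw W hW
  obtain ⟨H', B1, B2, B3, B4, B5, B6, B7⟩ := hB M G S t H h z hw W hW t' l1 l2
  have N1 : ∀ σ, ws (tr M S) σ (z σ) h ≤ 6 * b := fun σ => (hN σ _ (hT σ)).1
  have gd := hI.inst.gd
  have hh := hI.ex.nv
  have B3' := B3.le
  have hs : sz M W H' ≤ 64 * b := by
    have := N1 false
    have := N1 true
    omega
  refine ⟨H', B1, B3, hs, fun k1 k2 => ?_, fun h' k => ?_⟩
  · rcases B7 with e | e
    · exact absurd ⟨e.1, e.2.1⟩ k1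
    · have : H = H' := hI.inst.uniq ⟨by omega, by omega, gd.mono B2, by
        rw [← e.1]; exact k2.symm⟩
      rw [e.1, ← this, hI.ans]
  have key : h ≤ h' ∧ h' < H ∧ (tr M S h').nv = true ∧ h' ≤ H' ∧
      (h' = H' → ¬Stop (tr M W H')) ∧ (∀ σ, z σ = 0 ∨ z σ ∈ st M S h' σ) ∧
      Psi M G b S H h' + b * b ≤ Psi M G b S H h := by
    rcases k with ⟨k1, k2, k3, k4, k5⟩ | ⟨k1, k2, rfl⟩
    · have c1 := k5 h B1 hh
      refine ⟨c1, by omega, k4, k3.le, fun e => by omega, B5 h' k3 c1, ?_⟩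
      rcases B7 with e | e
      · obtain ⟨a, a1, a2, a3, a4⟩ := (hN _ _ (hT _)).2.2 k2
        have c2 := e.2.2 (H' - 1) (by omega)
        rw [st_void k5 _ (show h' ≤ H' - 1 by omega) (by omega)] at c2
        have c3 := (hP M G S H h h' gd c1 (by omega) hh k4).2 _ _ a
          ((hw.mrk _).resolve_left k2).1 a1 a2 c2
        have c4 := Nat.mul_le_mul a3 a4
        have c5 : fu M S h' H ≤ fu M S h H := cnt_le fun u hu k => ⟨hu, by omega, k.2⟩
        have c6 := Nat.mul_le_mul_left b c5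
        unfold Psi
        omega
      · rw [e.1] at k1 k2
        exact absurd (e.2.1 k1) k2
    · have c1 : h' = t' := B3.fin.resolve_right k1
      have e := B7.resolve_left fun e => k1 e.1
      subst c1
      have c2 := hf' (by omega)
      have c3 : h' < H := by
        rcases Nat.eq_or_lt_of_le B2 with c | c
        · rcases hI.inst.fin with d | d
          · omega
          · rw [← c, ← e.1] at d
            exact absurd d k1
        · exact c
      refine ⟨l1.le, c3, c2.1, le_rfl, fun _ => k1, e.2.2, ?_⟩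
      have c4 := (hP M G S H h h' gd l1.le c3 hh c2.1).1
      have c5 := fu_add (M := M) (S := S) l1.le B2
      have c6 : b * (b + fu M S h' H) ≤ b * fu M S h H := Nat.mul_le_mul_left b (by omega)
      rw [mul_add] at c6
      unfold Psi
      omega
  obtain ⟨c1, c2, c3, c4, c5, c6, c7⟩ := key
  refine ⟨c2, c3, fun c hc hn => ?_, fun S' hE hx => ⟨⟨hE.inst hI.inst, hE.1 ▸ hI.ans, c2, hx,
    fun σ y hy => ?_, fun σ y hy => ?_⟩, by rw [hE.psi]; exact c7⟩⟩
  · have d1 := (on_spec gd c2 c3 hc).1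
    have d2 : 0 < c := Nat.pos_of_ne_zero fun e => hn (e ▸ (gd 0 (by omega)).1)
    exact ⟨⟨d2, le_rfl, B3.gd.mono (by omega), .inl rfl⟩, B6 h' c4 c1 c2 c5 c3 c hc hn,
      (sz_mono M W (by omega)).trans hs⟩
  · refine (hI.mrk σ y hy).imp_right fun e => ⟨?_, hE.expl e.2⟩
    have d1 := (hT σ).2 y hy
    have d2 : z σ ≠ 0 := by have := (mem_st e.1).1; omega
    rw [hE.2.1]
    exact st_below e.1 ((hw.mrk σ).resolve_left d2).1 d1 c1 ((c6 σ).resolve_left d2)
  · rw [hE.1]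
    have d1 : y ≤ z σ := hy.elim (fun e => e ▸ Nat.zero_le _) ((hT σ).2 y)
    rcases Nat.eq_or_lt_of_le d1 with d | d
    · have d2 := ws_new (h := h) (hG M G S H gd) c2 c3 (c4.trans B3') σ y _ (c6 (!σ))
      have d3 := N1 σ
      have d4 := N1 (!σ)
      rw [← d] at d3
      exact .inl (by omega)
    · exact .inr ((hN σ _ (hT σ)).2.1 y hy d)

end Pool.Agent.MP_1a6d78_lc.CR
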