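import Pool.Agent.MP_1a6d78_lc.CR.Spec

/-! PROJECT CR, row RUNC: the program runs one block. -/

namespace Pool.Agent.MP_1a6d78_lc.CR

open Classical ED PR SC Function

namespace Runc

theorem cnt_succ (n : ℕ) (P : ℕ → Prop) : cnt (n + 1) P = cnt n P + if P n then 1 else 0 := by
  simp only [cnt, Finset.card_filter, Finset.sum_range_succ]

theorem fu_eq {M : Mc} {S : ℕ → Rec} (h0 : (S 0).nv = true) (h k : ℕ) :
    fu M S h (h + k) = cnt k fun i => nvS S (h + 1 + i) := by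
  induction k with
  | zero =>
    exact Nat.le_antisymm (cnt_le fun u hu e => absurd e.1 (by omega))
      (cnt_le fun u hu => absurd hu (by omega))
  | succ k ih =>
    rw [cnt_succ, ← ih, fu, fu, ← add_assoc, cnt_succ (h + k + 1), add_right_comm h 1 k]
    congr 2
    exact propext ((and_iff_right (by omega)).trans (nv_iff h0 _))

theorem tt_spec (π : Pm) (M : Mc) {b t : ℕ} {Y : List ℕ} (h0 : (π.scr Y 0).nv = true) (hb : 0 < b)
    (ht : gt Y 0 < t) : gt Y 0 < π.tt b t Y ∧ π.tt b t Y ≤ t ∧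
      fu M (π.scr Y) (gt Y 0) (π.tt b t Y) ≤ b ∧ (π.tt b t Y < t →
        (tr M (π.scr Y) (π.tt b t Y)).nv = true ∧ b ≤ fu M (π.scr Y) (gt Y 0) (π.tt b t Y)) := by
  unfold Pm.tt
  generalize gt Y 0 = h at ht ⊢
  obtain ⟨k, hk⟩ : ∃ k, k = lst (t - h) fun k => h + 1 + k = t ∨
    b ≤ cnt (k + 1) fun i => nvS (π.scr Y) (h + 1 + i) := ⟨_, rfl⟩
  have k1 : k ∈ {m | m < t - h ∧ (h + 1 + m = t ∨
      b ≤ cnt (m + 1) fun i => nvS (π.scr Y) (h + 1 + i))} :=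
    hk ▸ Nat.sInf_mem ⟨t - h - 1, by omega, .inl (by omega)⟩
  have k2 : cnt k (fun i => nvS (π.scr Y) (h + 1 + i)) < b := by
    cases k with
    | zero => exact hb
    | succ j =>
      exact lt_of_not_ge fun e => Nat.notMem_of_lt_sInf (j.lt_succ_self.trans_eq hk)
        ⟨j.lt_succ_self.trans k1.1, .inr e⟩
  have k3 := fu_eq (M := M) h0 h (k + 1)
  have k4 := k1.1
  have k5 := k1.2
  rw [← k3] at k5
  rw [cnt_succ, ← nv_iff (M := M) h0] at k3
  rw [← hk, add_assoc, add_comm 1 k] at *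
  refine ⟨by omega, by omega, by split_ifs at k3 <;> omega, fun e => ⟨?_, by omega⟩⟩
  by_contra n
  rw [if_neg n] at k3
  omega

end Runc

theorem runc (hU : RunS) (hR : RstS) (hL : LstS) (hE : ExplS) : RuncS := by
  intro π M g d b t H r Y n c l hn hN
  have i := l.inv
  have gd := i.inst.gd
  have p1 := i.inst.pos
  have p2 := i.inst.le
  have p3 := i.lt
  have p4 := c.ht
  have p5 := c.hK
  have p6 := c.hb
  have p7 := P_le π
  have h0 : (π.scr Y 0).nv = true := (gd 0 p1).1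
  have mk : ∀ σ z, z = 0 ∨ π.Mk Y σ z → z < H ∧ Expl M (π.scr Y) z := fun σ z e =>
    (e.elim Or.inl (i.mrk σ z)).elim (fun a => a ▸ ⟨p1, expl_zero (gd 0 p1)⟩)
      fun a => ⟨(mem_st a.1).2.1.trans_lt p3, a.2⟩
  have tp : ∀ σ, Top (π.Mk Y) σ (π.top Y σ) := fun σ =>
    (hL π Y n l.rep (by omega) (by omega)).2.2 σ fun z e => by have := (mk σ z (.inr e)).1; omega
  have R := hR π M Y n H l.rep (by omega) gd p1 (by omega)
  have eW := R.rst (win (π.top Y)) (mk _ _ (tp false).1).1 (mk _ _ (tp true).1).1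
    (mk _ _ (tp false).1).2 (mk _ _ (tp true).1).2
  obtain ⟨w1, -, w2⟩ := R.rep (win (π.top Y))
  obtain ⟨t1, t2, t3, t4⟩ := Runc.tt_spec π M h0 (show 0 < b by omega) (show gt Y 0 < t by omega)
  obtain ⟨H', a1, a2, a3, a4, a5⟩ := hU M π.G b t H r _ _ _ i p6 hN _ tp _ t1 t2 t3 t4 _ eW
  unfold Pm.run Pm.rn0
  generalize π.rst Y (win (π.top Y)) = W at *
  have q := fun t' H' => c.qry W n t' H' w1 (by omega)
    fun σ z e => Bool.noConfusion ((w2 σ z).1 e).2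
  obtain ⟨q1, q2⟩ := q _ H' (by omega) a2 a3
  generalize g (π.qry b (π.tt b t Y) W) = e at *
  have q3 : (dec π.P e).tm = H' := q1 ▸ tr_tm M _ (by omega)
  rw [← q1] at a4 a5
  have fin : ∀ h', (Stop (dec π.P e) ∧ π.top Y (dec π.P e).sd ≠ 0 ∧ h' < H' ∧
      (tr M (π.scr Y) h').nv = true ∧ ∀ v < H', (tr M (π.scr Y) v).nv = true → v ≤ h') ∨
      (¬Stop (dec π.P e) ∧ H' ≠ t ∧ h' = H') → ∀ Y', Y' = π.seth (π.expl g b W h' Y) 0 h' →
      LI π M b t H r Y' (n + (π.G + 2)) ∧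
        Psi M π.G b (π.scr Y') H (gt Y' 0) + b * b ≤ Psi M π.G b (π.scr Y) H (gt Y 0) := by
    rintro h' hh Y' rfl
    obtain ⟨b1, b2, b3, b4⟩ := a5 h' hh
    obtain ⟨x1, x2, x3, x4, -, x5, -⟩ := hE π M g b W Y n H h' l.rep (by omega) gd (by omega) b1 b2
      (by omega) (l.res ▸ Nat.zero_le _) fun u hu hv => by
        obtain ⟨s1, s2, s3⟩ := b3 u hu hv
        have := (on_spec gd b1 b2 hu).1
        exact s2 ▸ q u u (by omega) s1 s3
    obtain ⟨y1, y2⟩ := b4 _ x1 x2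
    have e0 : gt (π.seth (π.expl g b W h' Y) 0 h') 0 = h' := by
      rw [Pm.gt_seth _ _ _ (by omega), if_pos rfl]
    refine ⟨⟨x3.seth (by omega) _ (by omega), ?_, ?_⟩, ?_⟩
    · rwa [e0, Pm.scr_seth _ _ (by omega), Pm.Mk_seth _ _ (by omega), x4]
    · rw [Pm.gt_seth _ _ _ (by omega), if_neg one_ne_zero, x5, l.res]
    · rwa [e0, Pm.scr_seth _ _ (by omega)]
  unfold Pm.rn1
  rw [q3]
  split_ifs with c1 c2
  · obtain ⟨g1, g2, g3⟩ := gr_spec (H' - 1) (nvS (π.scr Y))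
    exact .inr (fin _ (.inl ⟨c1.1, c1.2, by omega,
      g2.elim (fun a => a ▸ h0) (nv_iff h0 _).2, fun v hv a => g3 v (by omega) ((nv_iff h0 v).1 a)⟩)
      _ rfl)
  · exact .inl ⟨e, q2, a4 c1 c2, by rw [Pm.gt_seth _ _ _ (by omega), if_pos rfl]⟩
  · exact .inr (fin _ (.inr ⟨fun a => c2 (.inl a), fun a => c2 (.inr a), rfl⟩) _ rfl)

end Pool.Agent.MP_1a6d78_lc.CR
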