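import Pool.Agent.MP_1a6d78_lc.CR.Spec

/-! PROJECT CR, row SIM: the first script follows the run, and the recursion answers it. -/

namespace Pool.Agent.MP_1a6d78_lc.CR

open Classical ED PR SC Function

namespace Sim

variable {M : Mc} {q₀ H G q : ℕ}

/-- The virtual run agrees with the run at time `u`. -/
structure Lk (M : Mc) (q₀ u : ℕ) : Prop where
  nv : (tr M (S₀ q₀) u).nv = true
  md : (tr M (S₀ q₀) u).md = 1
  qa : (tr M (S₀ q₀) u).qa = (M.run 1 q₀ u).q
  gen : (tr M (S₀ q₀) u).gen = (M.run 1 q₀ u).g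
  stk : ∀ s, (st M (S₀ q₀) u s).map (fun p => ((tr M (S₀ q₀) p).qb, (tr M (S₀ q₀) p).gen)) =
    (M.run 1 q₀ u).st s

theorem S_succ (q₀ u : ℕ) : S₀ q₀ (u + 1) = nil := if_neg (Nat.succ_ne_zero u)

theorem tr_eq {u : ℕ} (h : Lk M q₀ u) : tr M (S₀ q₀) (u + 1) =
    mk M (u + 1) (tr M (S₀ q₀) u) (M.act (M.run 1 q₀ u).q) (M.sd (M.run 1 q₀ u).q)
      (if M.act (M.run 1 q₀ u).q = 2 then
        tp (tr M (S₀ q₀)) (st M (S₀ q₀) u (M.sd (M.run 1 q₀ u).q)) else nil) := by
  rw [tr_succ, nxt, S_succ, if_neg (by simp [nil]), if_neg (by rw [h.md]; omega)]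
  simp only [opA, opS, h.md, h.qa, if_true]

theorem run_succ (M : Mc) (q₀ u : ℕ) : M.run 1 q₀ (u + 1) = M.step 1 (M.run 1 q₀ u) :=
  iterate_succ_apply' _ _ _

theorem lk_succ {u : ℕ} (h : Lk M q₀ u) (hs : ¬M.stop (M.run 1 q₀ u)) : Lk M q₀ (u + 1) := by
  have e := tr_eq h
  have e0 : (tr M (S₀ q₀) (u + 1)).nv = true := by rw [e]; rfl
  have e1 : (tr M (S₀ q₀) (u + 1)).act = M.act (M.run 1 q₀ u).q := by rw [e]; rfl
  have e2 : (tr M (S₀ q₀) (u + 1)).sd = M.sd (M.run 1 q₀ u).q := by rw [e]; rfl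
  have e3 : (tr M (S₀ q₀) (u + 1)).qb = (M.run 1 q₀ u).q := by rw [e]; exact h.qa
  have e4 : (tr M (S₀ q₀) (u + 1)).md = 1 := by rw [e]; exact h.md
  by_cases a1 : M.act (M.run 1 q₀ u).q = 1
  · have r : M.run 1 q₀ (u + 1) = _ := (run_succ M q₀ u).trans (if_pos a1)
    have g : (tr M (S₀ q₀) (u + 1)).gen = (M.run 1 q₀ (u + 1)).g := by
      rw [e, r, if_neg (by omega)]; simp [mk, nil, h.md, h.qa, h.gen]
    refine ⟨e0, e4, by rw [e, r, if_neg (by omega)]; simp [mk, nil, h.md, h.qa], g, fun s => ?_⟩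
    by_cases k : M.sd (M.run 1 q₀ u).q = s
    · have := st_push e0 (e1.trans a1)
      rw [e2, k] at this
      rw [this, List.map_cons, h.stk, e3, g, r, k]
      simp
    · rw [st_same fun n => k (e2 ▸ n.2.1), h.stk, r]
      exact (update_of_ne (Ne.symm k) _ _).symm
  · by_cases a2 : M.act (M.run 1 q₀ u).q = 2
    · have k1 := h.stk (M.sd (M.run 1 q₀ u).q)
      cases k0 : st M (S₀ q₀) u (M.sd (M.run 1 q₀ u).q) with
      | nil => exact absurd ⟨a2, by rw [← k1, k0]; rfl⟩ hs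
      | cons p l =>
        have hp := (mem_st (M := M) (S := S₀ q₀) (u := u) (p := p) (by rw [k0]; simp)).1
        have hp' := tr_tm M (S₀ q₀) hp
        rw [k0, List.map_cons] at k1
        have r : M.run 1 q₀ (u + 1) = ⟨M.δ (M.run 1 q₀ u).q (tr M (S₀ q₀) p).qb,
            if M.root (M.run 1 q₀ u).q then 0 else
              min (M.run 1 q₀ u).g (tr M (S₀ q₀) p).gen + 1,
            update (M.run 1 q₀ u).st (M.sd (M.run 1 q₀ u).q)
              (l.map fun p => ((tr M (S₀ q₀) p).qb, (tr M (S₀ q₀) p).gen))⟩ := by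
          rw [run_succ, Mc.step, if_neg a1, if_pos a2, ← k1]
        rw [if_pos a2, k0] at e
        refine ⟨e0, e4, by rw [e, r]; simp [mk, tp, h.md, h.qa], ?_, fun s => ?_⟩
        · rw [e, r]
          simp only [mk, tp, h.md, h.qa, h.gen, hp', true_and]
          split_ifs <;> omega
        · by_cases k : M.sd (M.run 1 q₀ u).q = s
          · have := st_pop e0 (e1.trans a2)
            rw [e2, k0, k] at this
            rw [this, r, k]
            simp
          · rw [st_same fun n => k (e2 ▸ n.2.1), h.stk, r]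
            exact (update_of_ne (Ne.symm k) _ _).symm
    · have r : M.run 1 q₀ (u + 1) = _ := (run_succ M q₀ u).trans ((if_neg a1).trans (if_neg a2))
      refine ⟨e0, e4, by rw [e, r, if_neg a2]; simp [mk, nil, h.md, h.qa],
        by rw [e, r, if_neg a2]; simp [mk, nil, h.md, h.qa, h.gen], fun s => ?_⟩
      rw [st_same fun n => by rw [e1] at n; tauto, h.stk, r]

theorem lk (h : M.Run 1 q₀ H G q) : ∀ u ≤ H, Lk M q₀ u := fun u => by
  induction u with
  | zero => exact fun _ => ⟨rfl, rfl, rfl, rfl, fun _ => rfl⟩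
  | succ u ih => exact fun hu => lk_succ (ih (by omega)) (h.go u hu)

theorem stop_eq {u : ℕ} (h : Lk M q₀ u) :
    Stop (tr M (S₀ q₀) (u + 1)) ↔ M.stop (M.run 1 q₀ u) := by
  have e := tr_eq h
  have e0 : (tr M (S₀ q₀) (u + 1)).nv = true := by rw [e]; rfl
  have e1 : (tr M (S₀ q₀) (u + 1)).act = M.act (M.run 1 q₀ u).q := by rw [e]; rfl
  have e2 : (tr M (S₀ q₀) (u + 1)).sd = M.sd (M.run 1 q₀ u).q := by rw [e]; rfl
  rw [stop_iff, e1, e2, Mc.stop, ← h.stk, List.map_eq_nil_iff]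
  exact and_iff_right e0

theorem ok (h : M.Run 1 q₀ H G q) : ∀ u ≤ H, Ok M (G + 1) (S₀ q₀) u
  | 0, _ => ⟨rfl, rfl, rfl, rfl, Nat.zero_le _⟩
  | u + 1, hu => by
    have k := lk h u (by omega)
    have k' := lk h _ hu
    have e := tr_eq k
    refine ⟨fun n => h.go u hu ((stop_eq k).1 n), fun n => ?_, fun _ => ⟨fun n => ⟨k.nv, ?_⟩,
      fun n => ?_, fun n n' => ?_, ?_⟩⟩
    · rw [S_succ] at n; exact absurd n Bool.false_ne_true
    · rw [e] at n ⊢
      simp only [mk] at n ⊢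
      split_ifs at n ⊢ <;> omega
    · by_cases a2 : M.act (M.run 1 q₀ u).q = 2
      · rw [if_pos a2] at e
        cases k0 : st M (S₀ q₀) u (M.sd (M.run 1 q₀ u).q) with
        | nil => exact absurd ⟨a2, by rw [← k.stk, k0]; rfl⟩ (h.go u hu)
        | cons p l =>
          have hp := (mem_st (M := M) (S := S₀ q₀) (u := u) (p := p) (by rw [k0]; simp)).1
          have hp' := tr_tm M (S₀ q₀) hp
          rw [k0] at e
          have m : (tr M (S₀ q₀) (u + 1)).m = p := by rw [e]; exact hp'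
          rw [m]
          refine ⟨by rw [e]; exact a2, ?_⟩
          rw [e] at n ⊢
          simp only [mk, tp] at n ⊢
          split_ifs at n ⊢ <;> omega
      · rw [e, if_neg a2] at n
        simp only [mk, nil] at n
        split_ifs at n <;> omega
    · rw [e] at n n'
      simp only [mk] at n n'
      have : M.root (M.run 1 q₀ u).q = true := by
        by_contra c
        rw [k.qa, if_neg (fun x => c x.2)] at n n'
        split_ifs at n n' <;> omega
      have := h.root u hu this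
      rwa [← k.stk, List.map_eq_nil_iff] at this
    · have := h.dep _ hu
      rw [k'.gen]
      split_ifs <;> omega

end Sim

theorem lnk : LnkS := fun M q₀ H G q t h ht => by
  have k := Sim.lk h H le_rfl
  refine ⟨⟨by omega, ht, fun u hu => Sim.ok h u (by omega), .inr ((Sim.stop_eq k).2 h.stop)⟩, ?_⟩
  rw [Sim.tr_eq k]
  exact k.qa.trans h.last

theorem sim (hL : LevS) (hB : BaseS) (hK : LnkS) : SimS := by
  intro π M D q₀ H G q t hf hr hG ht hb hk hP hq
  have hA : ∀ d ≤ D, π.Ans M (rc (fun g => π.F g M) (d + 1)) d := fun d => by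
    induction d with
    | zero => exact fun _ => hB π M D _ hf
    | succ d ih => exact fun hd => hL π M D _ d hf hd (ih (by omega))
  obtain ⟨h1, h2⟩ := hK M q₀ H G q t hr ht
  have p0 : 0 < π.P := by omega
  have bd : Rec.Bd π.P ⟨true, 0, 0, false, q₀, q₀, 0, 0, 0, 1⟩ :=
    ⟨p0, by simp, hq, hq, p0, by simp, p0, by simp⟩
  have hβ := P_le π
  have hJ := hf.JP
  have hbig := hf.big
  obtain ⟨T, hT⟩ : ∃ T, T = tab π.K fun e =>
    if e = 3 then enc π.P ⟨true, 0, 0, false, q₀, q₀, 0, 0, 0, 1⟩ else 0 := ⟨_, rfl⟩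
  have t3 : gt T 3 = enc π.P ⟨true, 0, 0, false, q₀, q₀, 0, 0, 0, 1⟩ := by
    rw [hT, gt_tab _ (by omega), if_pos rfl]
  have t0 : ∀ i, i ≠ 3 → gt T i = 0 := fun i hi => by
    rcases lt_or_ge i π.K with e | e
    · rw [hT, gt_tab _ e, if_neg hi]
    · rw [hT, gt_tab' _ e]
  have rT : π.Rep T 4 := ⟨by omega, fun i _ => by
    by_cases e : i = 3
    · rw [e, t3]; exact enc_lt bd
    · rw [t0 i e]; omega, fun i hi => t0 i (by omega)⟩
  have i3 : ∀ u i, π.Is T u i → i = 3 ∧ u = 0 := fun u i hi => by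
    by_cases e : i = 3
    · have := hi.2.2
      rw [e, t3, dec_enc bd] at this
      exact ⟨e, this.symm⟩
    · have := hi.2.1
      rw [t0 i e, dec_zero] at this
      exact absurd this Bool.false_ne_true
  have sT : π.scr T = S₀ q₀ := by
    funext u
    by_cases e : u = 0
    · have : π.Is T 0 3 := ⟨le_rfl, by rw [t3, dec_enc bd], by rw [t3, dec_enc bd]⟩
      rw [e, Pm.scr, Pm.lk_first (by omega) this fun j hj n => by have := (i3 _ _ n).1; omega,
        t3, dec_enc bd]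
      rfl
    · rw [Pm.scr, Pm.lk_none fun i _ n => e (i3 _ _ n).2, dec_zero, S₀, if_neg e]
  have mT : ∀ σ z, ¬π.Mk T σ z := fun σ z ⟨i, _, _, n⟩ => by
    by_cases e : i = 3
    · have := mkE_nv π.P σ z
      rw [← n, e, t3, dec_enc bd] at this
      exact absurd this (by simp)
    · exact mkE_ne σ z (n.symm.trans (t0 i e))
  have e0 := Pm.qry_zero (π := π) T (b := π.b₀ * π.lam ^ D) t (by omega) (by omega)
  have e1 := Pm.qry_one (π := π) T (π.b₀ * π.lam ^ D) (t := t) (by omega) (by omega)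
  have e2 := (Pm.scr_congr (Pm.qry_ent rT (π.b₀ * π.lam ^ D) t)).trans sT
  have sz1 : sz M (S₀ q₀) (H + 1) ≤ H + 1 + 1 :=
    (@Finset.card_filter_le _ _ _ fun _ => propDecidable _).trans (Finset.card_range _).le
  have := (hA D le_rfl _ 4 (H + 1) (rT.qry p0 (π.b₀ * π.lam ^ D) t) hk
    (Pm.Mk_congr (Pm.qry_ent rT _ t) ▸ mT) e0 (by rwa [e1, e2, hG]) (by rw [e0, e2]; omega)
    (by omega)).1
  rw [Pm.l₀, ← hT, this, e2, h2]

end Pool.Agent.MP_1a6d78_lc.CR
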