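import Pool.Agent.MP_1a6d78_lc.CR.Spec

/-! PROJECT CR, row TOP: from the recursion to a machine. -/

namespace Pool.Agent.MP_1a6d78_lc.CR

open Classical ED PR SC Function

namespace TopR

theorem le_pw_self {L : ℕ} (hL : 2 ≤ L) (c : ℕ) : c ≤ L ^ c :=
  Nat.lt_two_pow_self.le.trans (Nat.pow_le_pow_left hL c)

theorem two_mul_le {L : ℕ} (hL : 2 ≤ L) (c : ℕ) : 2 * L ^ c ≤ L ^ (c + 1) := by
  rw [pow_succ, mul_comm]
  exact Nat.mul_le_mul_left _ hL

theorem log_le (n e : ℕ) : Nat.log 2 ((n + 2) ^ e) ≤ e * (Nat.log 2 n + 2) := by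
  have u : n + 2 ≤ 2 ^ (Nat.log 2 n + 2) := by
    have h1 := Nat.lt_pow_succ_log_self (b := 2) (by omega) n
    have h2 : 1 ≤ 2 ^ Nat.log 2 n := Nat.one_le_two_pow
    rw [Nat.succ_eq_add_one, pow_succ] at h1
    rw [pow_add]
    omega
  have := Nat.log_mono_right (b := 2) (Nat.pow_le_pow_left u e)
  rwa [← pow_mul, Nat.log_pow (by omega), mul_comm] at this

theorem space {L c e K D q y : ℕ} (hL : 2 ≤ L) (hK : K ≤ L ^ e) (hD : D + 2 ≤ L ^ e)
    (hq : q + 2 ≤ L ^ e) (hy : y ≤ (e + 2) * L) :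
    c * (K + 1) * (D + 1 + 1) * (y + (D + 1) * Nat.log 2 (q + 2) + 1) ≤ L ^ (c + 4 * e + 6) := by
  have h0 : ∀ k, 1 ≤ L ^ k := fun k => Nat.one_le_pow _ _ (by omega)
  have h1 : K + 1 ≤ L ^ (e + 1) := by have := two_mul_le hL e; have := h0 e; omega
  have h2 : y ≤ L ^ (2 * e + 3) :=
    (hy.trans (Nat.mul_le_mul_right _ (le_pw_self hL _))).trans
      ((pow_succ _ _).ge.trans (Nat.pow_le_pow_right (by omega) (by omega)))
  have h3 : (D + 1) * Nat.log 2 (q + 2) ≤ L ^ (2 * e + 3) :=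
    (Nat.mul_le_mul (by omega : D + 1 ≤ L ^ e) ((Nat.log_le_self _ _).trans hq)).trans
      ((pow_add _ _ _).ge.trans (Nat.pow_le_pow_right (by omega) (by omega)))
  have h4 : y + (D + 1) * Nat.log 2 (q + 2) + 1 ≤ L ^ (2 * e + 3 + 1 + 1) := by
    have := two_mul_le hL (2 * e + 3)
    have := two_mul_le hL (2 * e + 3 + 1)
    have := h0 (2 * e + 3)
    omega
  calc _ ≤ L ^ c * L ^ (e + 1) * L ^ e * L ^ (2 * e + 3 + 1 + 1) :=
        Nat.mul_le_mul (Nat.mul_le_mul (Nat.mul_le_mul (le_pw_self hL c) h1) hD) h4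
    _ = _ := by rw [← pow_add, ← pow_add, ← pow_add]; congr 1; omega

theorem time {n L c e D q : ℕ} (hq : q + 2 ≤ L ^ e) (hD : L ^ (D + 1) ≤ (n + 2) ^ e)
    {B : ℕ} (hB : B + 2 ≤ (n + 2) ^ (e + 2)) :
    pw B c * pw q (c * (D + 1)) ≤ (n + 2) ^ ((e + 2) * c + e * (e * c)) := by
  rw [pow_add]
  refine Nat.mul_le_mul ((Nat.pow_le_pow_left hB c).trans (pow_mul _ _ _).ge) ?_
  calc _ ≤ (L ^ e) ^ (c * (D + 1)) := Nat.pow_le_pow_left hq _
    _ = (L ^ (D + 1)) ^ (e * c) := by rw [← pow_mul, ← pow_mul]; congr 1; ring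
    _ ≤ _ := (Nat.pow_le_pow_left hD _).trans (pow_mul _ _ _).ge

/-- The first query is computable. -/
theorem first {κ : List Bool → ℕ} {π : List Bool → Pm} (h : PmC κ π) (k : MaK κ π)
    {D q₀ t : List Bool → ℕ} (hD : Cn κ fun x _ => (π x).lam ^ D x) (hq : Cn κ fun x _ => q₀ x)
    (ht : Cn κ fun x _ => t x) : Cm κ fun x _ => (π x).l₀ (D x) (q₀ x) (t x) := by
  have e1 : Cn κ fun x _ => enc (π x).P ⟨true, 0, 0, false, q₀ x, q₀ x, 0, 0, 0, 1⟩ :=
    K.cg (K.add (K.c 37) (K.mul (K.c 144) (K.mul h.P (K.mul h.P (K.mul h.P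
      (K.add hq (K.mul h.P hq))))))) fun x _ => by simp [enc, bn]
  exact k.qry (K.mul h.b₀ hD) ht ((kitOne κ).tab
    (fun x _ e => if e = 3 then enc (π x).P ⟨true, 0, 0, false, q₀ x, q₀ x, 0, 0, 0, 1⟩ else 0)
    h.le h.K (K.ite (K.eq (K.v 0) (K.c 3)) e1 (K.c 0)))

end TopR

open TopR in
theorem core1 (hS : SimS) (hF : MfS) (hP : ParS) (hA : MaS) : Core 1 := by
  intro M q₀ acc a hM hq₀ hacc hact hδ hlt
  obtain ⟨π, D, q, e, hπ, hfew, hD, hLD, hx⟩ := hP a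
  have k := hA _ π hπ
  have hl : Cm (fun x => (π x).K) fun x _ => (π x).l₀ (D x) (q₀ x) ((x.length + 2) ^ a + 1) :=
    first hπ k (K.cg hLD fun x _ => by rw [(hx x).1]) (hq₀ _)
      (K.add (K.pow a (K.add (kitOne _).len (K.c 2))) (K.c 1))
  have hmain : Nq (fun x => (π x).K) q (fun x => (π x).β) fun x g _ =>
      if acc x (dec (π x).P (g ((π x).l₀ (D x) (q₀ x) ((x.length + 2) ^ a + 1)))).qb then 1 else 0 :=
    Q.op1 (fun x y => if acc x y then 1 else 0) (hacc _)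
      (Q.op1 (fun x y => (dec (π x).P y).qb) (k.qb (K.v 0))
        (Q.call (Q.liftL hl) fun x _ _ => Pm.qry_le _ _ _))
  obtain ⟨N, c, h⟩ := recQ (fun x => (π x).K) q q (fun x => (π x).β) (fun x => D x + 1)
    (fun x g l => (π x).F g (M x) l) _ (hF _ q π M hπ (hM _) hfew) hmain
    (fun x g l => min_le_right _ _) (K.add hD (K.c 1))
  refine ⟨N, (e + 2) * c + e * (e * c) + (c + 4 * e + 6), fun x H r hH hrun _ => ?_⟩
  obtain ⟨-, p2, p3, p4, p5, p6, p7, p8, p9, p10, p11⟩ := hx x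
  have hL : Nat.log 2 x.length + 2 ≤ x.length + 2 := Nat.add_le_add_right (Nat.log_le_self _ _) 2
  have b1 : (Nat.log 2 x.length + 2) ^ e ≤ (x.length + 2) ^ e := Nat.pow_le_pow_left hL e
  have b2 := two_mul_le (L := x.length + 2) (by omega) e
  have b3 := two_mul_le (L := x.length + 2) (by omega) (e + 1)
  have b4 : x.length + 2 ≤ (x.length + 2) ^ (e + 1) := Nat.le_self_pow (by omega) _
  have b5 : (x.length + 2) ^ (e + 1) + 2 ≤ (x.length + 2) ^ (e + 2) := by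
    change _ ≤ (x.length + 2) ^ (e + 1 + 1)
    omega
  obtain ⟨h1, h2⟩ := h x ((x.length + 2) ^ (e + 1)) (by omega) (by omega) (by omega) (by omega)
    (by omega) (by omega) (by omega)
  have hq := hlt x
  have s := hS (π x) (M x) (D x) (q₀ x) H _ r ((x.length + 2) ^ a + 1)
    (p3 (M x) (hact x) (hδ x)) hrun p2 (by omega) p4 p5 p6 (by omega)
  constructor
  · rw [Fn.halt N x h1 ((time p9 p11 b5).trans
      (Nat.pow_le_pow_right (by omega) (Nat.le_add_right _ _))), h1]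
    change some ((if acc x (dec (π x).P (rc (fun g => (π x).F g (M x)) (D x + 1)
      ((π x).l₀ (D x) (q₀ x) ((x.length + 2) ^ a + 1)))).qb then 1 else 0) != 0) = _
    rw [s]
    by_cases u : acc x r <;> simp [u]
  · intro t i
    exact (h2 t i).trans ((space (by omega) p8 p10 p9
      ((Nat.log_mono_right b5).trans (log_le _ _))).trans
        (Nat.pow_le_pow_right (by omega) (Nat.le_add_left _ _)))

end Pool.Agent.MP_1a6d78_lc.CR
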