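import Pool.Agent.MP_1a6d78_lc.CR.Spec

/-! PROJECT CR, row WINB: the future of a window. -/

namespace Pool.Agent.MP_1a6d78_lc.CR

open Classical ED PR SC Function

namespace WinB

variable {M : Mc} {G : ℕ} {S : ℕ → Rec}

theorem le_hd {u p : ℕ} {σ : Bool} (h : p ∈ st M S u σ) : p ≤ hd (st M S u σ) := by
  have s := st_sorted M S u σ
  cases e : st M S u σ with
  | nil => rw [e] at h; exact absurd h List.not_mem_nil
  | cons a l =>
    rw [e] at h s
    rcases List.mem_cons.1 h with k | k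
    · exact k.le
    · exact (List.rel_of_pairwise_cons s k).le

theorem hd_filter {l : List ℕ} {P : ℕ → Bool} (h : ∀ p ∈ l, p = hd l → P p = true) :
    hd (l.filter P) = hd l := by
  cases l with
  | nil => rfl
  | cons a l => rw [List.filter_cons_of_pos (h a (List.mem_cons_self ..) rfl)]; rfl

theorem kept (hR : ResS) (hK : KeptS) {H H' s c : ℕ} {k : Cut} (r : RHyp M G S H k H')
    (hs : s < H') (hi : k.inn (tr M S) s) (n : (tr M S s).nv = true) (o : On (tr M S) s c)
    (x : ¬(S c).nv = true) : tr M (restr k (tr M S) S) c = tr M S c := by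
  have nK : ¬k.K (tr M S) c := fun e => x (Cut.K_spec r.gd r.l₁ r.l₂ r.x₁ r.x₂ e).2.2
  have i := ((hK M G S H k H' r s hs n (.inr hi)).2.2.1 c o).resolve_left nK
  have l := (on_spec r.gd (hs.trans_le r.le) n o).1
  rw [(hR M G S H k H' r).tr' c (by omega), Cut.img, if_neg nK, if_pos i]

end WinB

open WinB in
theorem winB (hR : ResS) (hK : KeptS) (hW : WkpS) : WinBS := by
  intro M G S t H h z w W hWe t' h1 h2
  subst hWe
  obtain ⟨kI, kP, kQ, kR⟩ := hW M G S t H h z w
  have zh : ∀ σ, z σ ≤ h := fun σ =>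
    (w.mrk σ).elim (fun e => e ▸ Nat.zero_le _) fun e => (mem_st e.1).2.1
  have kp : ∀ u, h ≤ u → ∀ σ, ∀ p ∈ st M S u σ, (win z).kp (tr M S) p ↔ z σ < p :=
    fun u hu σ p hp => by
      rcases lt_or_ge h p with e | e
      · exact iff_of_true (kP p e) ((zh σ).trans_lt e)
      · exact kQ σ p (st_back hp e hu)
  let Tc : ℕ → Prop := fun u =>
    (tr M S u).nv = true ∧ (tr M S u).act = 2 ∧ (tr M S u).m = z (tr M S u).sd
  have ex : ∃ u, h < u ∧ (u = t' ∨ Tc u) := ⟨t', h1, .inl rfl⟩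
  obtain ⟨H', ⟨f1, f2⟩, f3⟩ : ∃ H', (h < H' ∧ (H' = t' ∨ Tc H')) ∧
      ∀ u < H', h < u → ¬(u = t' ∨ Tc u) :=
    ⟨Nat.find ex, Nat.find_spec ex, fun u hu k e => Nat.find_min ex hu ⟨k, e⟩⟩
  have f4 : H' ≤ t' := le_of_not_gt fun e => f3 t' e h1 (.inl rfl)
  have step : ∀ u σ, (z σ = 0 ∨ z σ ∈ st M S u σ) →
      (Tc (u + 1) → z (tr M S (u + 1)).sd = 0) → z σ = 0 ∨ z σ ∈ st M S (u + 1) σ :=
    fun u σ e n => by
      rcases e with e | e
      · exact .inl e
      · rcases st_stay e with k | ⟨k1, k2, k3, k4⟩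
        · exact .inr k
        · exact .inl (k3 ▸ n ⟨k1, k2, k3 ▸ k4⟩)
  have stay : ∀ u < H', h ≤ u → ∀ σ, z σ = 0 ∨ z σ ∈ st M S u σ := fun u hu k σ => by
    induction u, k using Nat.le_induction with
    | base => exact (w.mrk σ).imp_right And.left
    | succ u k ih =>
      exact step u σ (ih (by omega)) fun n => absurd (.inr n) (f3 _ hu (by omega))
  have emp : ∀ u < H', h ≤ u → Stop (tr M S (u + 1)) → z (tr M S (u + 1)).sd = 0 :=
    fun u hu k s => (stay u hu k _).resolve_right (by rw [(stop_iff.1 s).2.2]; exact List.not_mem_nil)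
  have f5 : H' ≤ H := le_of_not_gt fun e => by
    have l := w.lt
    have s := w.inst.fin.resolve_left (by omega)
    obtain ⟨u, rfl⟩ : ∃ u, H = u + 1 := ⟨H - 1, by omega⟩
    exact f3 _ e l (.inr ⟨s.1, s.2.1, s.2.2.trans (emp u (by omega) (by omega) s).symm⟩)
  have r := kR H' f5 stay
  have res := hR M G S H _ H' r
  have nK : ∀ c, h < c → ¬(win z).K (tr M S) c := fun c hc e => by
    have := (Cut.K_spec r.gd r.l₁ r.l₂ r.x₁ r.x₂ e).1
    have := zh false
    have := zh true
    simp only [win] at *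
    omega
  obtain ⟨u, rfl⟩ : ∃ u, H' = u + 1 := ⟨H' - 1, by omega⟩
  obtain ⟨n1, n2, n3, n4⟩ := res.nx u rfl (nK _ f1) (kI _ f1.le)
  have hu : h ≤ u := by omega
  have stW := res.st' u (Nat.lt_succ_self u) (tr M S (u + 1)).sd
  have tS : Tc (u + 1) → Stop (tr M (restr (win z) (tr M S) S) (u + 1)) := fun n =>
    stop_iff.2 ⟨n1.trans n.1, n2.trans n.2.1, by
      rw [n3, stW, List.filter_eq_nil_iff]
      intro p hp
      have := le_hd hp
      rw [← pop_m n.1 n.2.1, n.2.2] at this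
      rw [decide_eq_true_iff, kp u hu _ p hp]
      omega⟩
  have eqn : (Tc (u + 1) → z (tr M S (u + 1)).sd = 0) →
      tr M (restr (win z) (tr M S) S) (u + 1) = tr M S (u + 1) := fun n => n4 fun a => by
    have nv : (tr M S (u + 1)).nv = true := by
      by_contra k
      rw [tr_void k] at a
      exact absurd a (by simp [vd])
    rw [stW]
    refine hd_filter fun p hp e => ?_
    rw [decide_eq_true_iff, kp u hu _ p hp]
    have p0 := (mem_st hp).1
    rcases stay u (Nat.lt_succ_self u) hu (tr M S (u + 1)).sd with k | k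
    · omega
    · have := le_hd k
      have := (mem_st k).1
      have : ¬p = z (tr M S (u + 1)).sd := fun c => by
        have := n ⟨nv, a, by rw [pop_m nv a, ← e, c]⟩
        omega
      omega
  refine ⟨u + 1, f1, f5, ⟨Nat.succ_pos u, f4, res.gd, f2.imp_right tS⟩, ?_, stay, ?_, ?_⟩
  · refine cnt_le_add fun v hv k => ?_
    rcases lt_or_ge h v with e | e
    · refine .inr ⟨by omega, e, ?_⟩
      rcases Nat.lt_succ_iff_lt_or_eq.1 hv with c | c
      · rwa [res.tr' v c, Cut.img, if_neg (nK v e), if_pos (kI v e.le)] at k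
      · rw [c] at k ⊢
        exact n1 ▸ k
    · exact .inl ⟨by omega, k⟩
  · intro s k1 k2 k3 k4 k5 c o x
    rcases Nat.lt_or_eq_of_le k1 with e | e
    · exact kept hR hK r e (kI s k2) k5 o x
    · refine kept hR hK (kR (u + 2) (by omega) fun v hv k σ => ?_) (by omega) (kI s k2) k5 o x
      rcases Nat.lt_succ_iff_lt_or_eq.1 hv with c | c
      · exact stay v c k σ
      · exact c ▸ step u σ (stay u (Nat.lt_succ_self u) hu σ) fun n => absurd (tS n) (k4 e)
  · by_cases n : Tc (u + 1) → z (tr M S (u + 1)).sd = 0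
    · exact .inr ⟨eqn n, emp u (Nat.lt_succ_self u) hu, fun σ =>
        step u σ (stay u (Nat.lt_succ_self u) hu σ) n⟩
    · obtain ⟨c1, c2⟩ := Classical.not_imp.1 n
      refine .inl ⟨tS c1, n3 ▸ c2, fun v hv => ?_⟩
      obtain rfl : v = u := by omega
      rw [n3, ← pop_m c1.1 c1.2.1, c1.2.2]

end Pool.Agent.MP_1a6d78_lc.CR
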