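import Pool.Agent.MP_1a6d78_lc.CR.Spec

/-! PROJECT CR, row WKP: what a window keeps. -/

namespace Pool.Agent.MP_1a6d78_lc.CR

open Classical ED PR SC Function

namespace Wkp

theorem inn_iff (z : Bool → ℕ) (T : ℕ → Rec) (u : ℕ) :
    (win z).inn T u ↔ ∀ σ, rt T (z σ) (!σ) u = !σ := by
  simp [Cut.inn, win]

theorem mk_iff (z : Bool → ℕ) (p : ℕ) : (p = (win z).s₁ ∨ p = (win z).s₂) ↔ ∃ σ, p = z σ := by
  simp [win]

end Wkp

open Wkp in
theorem wkp (hG : GeoS) : WkpS := by
  intro M G S t H h z W
  have gd := W.inst.gd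
  have geo := hG M G S H gd
  have hH := W.lt
  have zl : ∀ σ, z σ ≤ h := fun σ =>
    (W.mrk σ).elim (fun e => e ▸ Nat.zero_le _) fun e => (mem_st e.1).2.1
  have zx : ∀ σ, Expl M S (z σ) := fun σ =>
    (W.mrk σ).elim (fun e => e ▸ expl_zero (gd 0 (by omega))) fun e => e.2
  have zH : ∀ σ, z σ < H := fun σ => (zl σ).trans_lt hH
  have c1 : ∀ u, h ≤ u → (win z).inn (tr M S) u := fun u hu =>
    (inn_iff z _ u).2 fun σ => rt_le _ _ ((zl σ).trans hu)
  refine ⟨c1, fun p hp => .inr ?_, fun σ p hp => ?_, fun H' hH' hz => ?_⟩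
  · rw [if_neg]
    · exact c1 p hp.le
    · rw [mk_iff]
      rintro ⟨σ, e⟩
      have := zl σ
      omega
  · have mp := mem_st hp
    have below : ∀ τ e, p < z τ → rt (tr M S) (z τ) e p = σ := fun τ e l =>
      geo.q _ _ _ _ (zH τ) (zx τ).nv (st_back hp l.le (zl τ)) l
    rw [Cut.kp_live (k := win z) gd (zH false) (zH true) (zx false) (zx true) (zl false)
      (zl true) hp]
    have same : ∀ τ, p = z τ → τ = σ := fun τ e => by
      rcases W.mrk τ with k | k
      · omega
      · have := (mem_st k.1).2.2.2.2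
        rw [← e, mp.2.2.2.2] at this
        exact this.symm
    split_ifs with c
    · obtain ⟨τ, e⟩ := (mk_iff z p).1 c
      have := same τ e
      subst this
      refine iff_of_false (by simp [win]) (by omega)
    · rw [mk_iff, not_exists] at c
      rw [inn_iff]
      constructor
      · intro k
        by_contra l
        have l' : p < z σ := by have := c σ; omega
        have := (below σ (!σ) l').symm.trans (k σ)
        cases σ <;> simp at this
      · intro l τ
        by_cases k : z τ ≤ p
        · exact rt_le _ _ k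
        · rw [below τ _ (by omega)]
          have : τ ≠ σ := by rintro rfl; omega
          cases τ <;> cases σ <;> simp_all
  · refine ⟨gd, zH false, zH true, zx false, zx true, hH', fun c hc n a hK => ?_⟩
    have cH : c < H := by omega
    have live : ∀ τ, z τ ≠ 0 → z τ ≤ c → z τ ∈ st M S c τ := fun τ k l => by
      by_cases e : h ≤ c
      · exact (hz c hc e τ).resolve_left k
      · exact st_back ((W.mrk τ).resolve_left k).1 l (by omega)
    have m0 : (tr M S c).m ≠ 0 := fun e => (gd c cH).go ⟨n, a, e⟩
    have nm : ¬∃ τ, (tr M S c).m = z τ := by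
      rintro ⟨τ, e⟩
      have k : z τ ≠ 0 := e ▸ m0
      cases c with
      | zero =>
        have := (gd 0 cH).2.2.1
        rw [tr_zero] at a
        omega
      | succ u =>
        by_cases l : h ≤ u + 1
        · exact pop_gone n a le_rfl τ (e ▸ (hz _ hc l τ).resolve_left k)
        · exact pop_gone n a (show u + 1 ≤ h by omega) τ (e ▸ ((W.mrk τ).resolve_left k).1)
    rw [Cut.kp_pop (k := win z) gd (zH false) (zH true) (zx false) (zx true) cH n a hK,
      if_neg (fun k => nm ((mk_iff z _).1 k)), inn_iff, inn_iff]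
    refine forall_congr' fun τ => ?_
    rw [geo.p (z τ) (!τ) c (zH τ) cH (zx τ).nv n a ?_ ?_]
    · intro k
      cases τ
      exacts [hK (.inl k), hK (.inr k)]
    · rw [Bool.not_not]
      by_cases k : z τ = 0
      · exact .inr (.inl k)
      · by_cases l : z τ ≤ c
        · exact .inr (.inr (live τ k l))
        · exact .inl (by omega)

end Pool.Agent.MP_1a6d78_lc.CR
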