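import Pool.Agent.MP_1a6d78_lc.CR.AuxP
import Pool.Agent.MP_1a6d78_lc.CR.Bas
import Pool.Agent.MP_1a6d78_lc.CR.Clo
import Pool.Agent.MP_1a6d78_lc.CR.Close
import Pool.Agent.MP_1a6d78_lc.CR.Cmp
import Pool.Agent.MP_1a6d78_lc.CR.Cod
import Pool.Agent.MP_1a6d78_lc.CR.Dmp
import Pool.Agent.MP_1a6d78_lc.CR.Encc
import Pool.Agent.MP_1a6d78_lc.CR.Encs
import Pool.Agent.MP_1a6d78_lc.CR.Expl
import Pool.Agent.MP_1a6d78_lc.CR.Fj
import Pool.Agent.MP_1a6d78_lc.CR.Flag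
import Pool.Agent.MP_1a6d78_lc.CR.Geo
import Pool.Agent.MP_1a6d78_lc.CR.Kept
import Pool.Agent.MP_1a6d78_lc.CR.Lev
import Pool.Agent.MP_1a6d78_lc.CR.Lst
import Pool.Agent.MP_1a6d78_lc.CR.Ma
import Pool.Agent.MP_1a6d78_lc.CR.Mb
import Pool.Agent.MP_1a6d78_lc.CR.Mcb
import Pool.Agent.MP_1a6d78_lc.CR.Md
import Pool.Agent.MP_1a6d78_lc.CR.Me
import Pool.Agent.MP_1a6d78_lc.CR.Mf
import Pool.Agent.MP_1a6d78_lc.CR.Nm1
import Pool.Agent.MP_1a6d78_lc.CR.Norm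
import Pool.Agent.MP_1a6d78_lc.CR.Par
import Pool.Agent.MP_1a6d78_lc.CR.Pot
import Pool.Agent.MP_1a6d78_lc.CR.Probe
import Pool.Agent.MP_1a6d78_lc.CR.Psl
import Pool.Agent.MP_1a6d78_lc.CR.Res
import Pool.Agent.MP_1a6d78_lc.CR.Rst
import Pool.Agent.MP_1a6d78_lc.CR.Rtc
import Pool.Agent.MP_1a6d78_lc.CR.Run
import Pool.Agent.MP_1a6d78_lc.CR.Runc
import Pool.Agent.MP_1a6d78_lc.CR.Sim
import Pool.Agent.MP_1a6d78_lc.CR.Top
import Pool.Agent.MP_1a6d78_lc.CR.WinA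
import Pool.Agent.MP_1a6d78_lc.CR.WinB
import Pool.Agent.MP_1a6d78_lc.CR.Wkp

/-! PROJECT CR: the simulation theorem. -/

namespace Pool.Agent.MP_1a6d78_lc.CR

theorem aux_main : AuxS := by
  have hK := kept res
  have hW := wkp geo
  have hA := winA res hK hW
  have hB := winB res hK hW
  have hR := rstS rtc
  have hF := fjS (probe dmpS hA psl) hR lstS explS psl
  have hN := nm1S hF bsS explS (close (cloS geo res hK) psl) (flag geo psl) hR psl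
  have hL := lev (normS hN pruneS hR lstS) (runc (runS geo hA hB (pot geo)) hR lstS explS)
  have mB := mbS maS
  have mD := mdS maS mB
  have mF := mfS maS mB (mcS maS) mD (meS maS mB mD)
  exact auxS (core0 cmpS (core1 (sim hL baseS lnk) mF parS maS)) codS (encS codS) (encC finS)

end Pool.Agent.MP_1a6d78_lc.CR
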