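import Pool.Agent.MP_1a6d78_lc.CR.Spec

/-! PROJECT CR, row AUX: from machines on numbers to automata. -/

namespace Pool.Agent.MP_1a6d78_lc.CR

open Classical ED PR SC Function

namespace AuxP

theorem opA_lt (A : PD) (s : Bool → Option A.Γ) (o : Option (Bool × Option A.Γ)) :
    A.opA s o < 3 := by
  rcases o with _ | ⟨σ, _ | b⟩ <;> simp only [PD.opA]
  · omega
  · split_ifs <;> omega
  · omega

theorem two_le (n a e : ℕ) : 2 * (n + 2) ^ a ≤ (n + 2) ^ (a + e + 1) :=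
  calc 2 * (n + 2) ^ a ≤ (n + 2) ^ a * (n + 2) := by
        rw [mul_comm]; exact Nat.mul_le_mul_left _ (by omega)
    _ = (n + 2) ^ (a + 1) := (pow_succ _ _).symm
    _ ≤ _ := Nat.pow_le_pow_right (by omega) (by omega)

end AuxP

open AuxP in
theorem auxS (h : Core 0) (hC : CodS) (hS : EncS) (hE : EncC) : AuxS := by
  intro A a hA
  have hT : ∀ n : ℕ, (n + 2) ^ (A.nQ + 2 * A.nG + A.k) ≤
      (n + 2) ^ (a + (A.nQ + 2 * A.nG + A.k) + 1) :=
    fun n => Nat.pow_le_pow_right (by omega) (by omega)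
  obtain ⟨N, c, hN⟩ := h (fun x => A.mc x ((x.length + 2) ^ (a + (A.nQ + 2 * A.nG + A.k) + 1)))
    (fun x => A.code x.length A.start (fun _ => none) fun _ => 0)
    (fun _ q => A.out (A.cq q) = some true) (a + (A.nQ + 2 * A.nG + A.k) + 1)
    (fun κ => (hE A _ κ).1)
    (fun κ => K.cg (K.c (A.code 0 A.start (fun _ => none) fun _ => 0)) fun x _ => by
      simp [PD.code])
    (fun κ => (hE A 0 κ).2)
    (fun x y => by
      have := opA_lt A (A.ct y) (A.ca x y).2.2
      simp only [PD.mc]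
      split_ifs <;> omega)
    (fun x y z => Nat.mod_lt _ (by positivity))
    (fun x => (hC A _ _ _ _ fun _ => Nat.zero_le _).2.2.2.trans_le (hT _))
  refine ⟨N, c, fun x => ?_⟩
  obtain ⟨H, h1, q, h2, h3, h4⟩ := hS A x _ _ _ (hT _) (hA x).1 (hA x).2 _ rfl
  have h5 := two_le (Nat.log 2 x.length) a (A.nQ + 2 * A.nG + A.k)
  have h6 : 0 < (Nat.log 2 x.length + 2) ^ a := by positivity
  obtain ⟨k1, k2⟩ := hN x H q (h1.trans (two_le _ _ _)) (h2.mono (by omega)) fun _ => h4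
  refine ⟨k1.trans ?_, k2⟩
  obtain ⟨r, hr⟩ := Option.isSome_iff_exists.1 (hA x).1
  simp only [h3, hr]
  cases r <;> simp

end Pool.Agent.MP_1a6d78_lc.CR
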