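import Pool.Agent.MP_1a6d78_lc.CR.Defs
import Pool.Agent.MP_1a6d78_lc.SC.OSub

/-! PROJECT CR: virtual runs of a two-stack machine, cuts, and the simulation. -/

namespace Pool.Agent.MP_1a6d78_lc.CR

open Classical ED PR Function

noncomputable section

/-! ### Machines on numbers -/

/-- `act`: 1 push, 2 pop, else nothing; `sd`: the stack; the pushed symbol is the state. -/
structure Mc where
  act : ℕ → ℕ
  sd : ℕ → Bool
  root : ℕ → Bool
  δ : ℕ → ℕ → ℕ

structure Cf where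
  q : ℕ
  g : ℕ
  st : Bool → List (ℕ × ℕ)

/-- One step; a step without stack operation adds `f` to the depth. -/
def Mc.step (M : Mc) (f : ℕ) (c : Cf) : Cf :=
  if M.act c.q = 1 then
    ⟨M.δ c.q 0, if M.root c.q then 0 else c.g + 1,
      update c.st (M.sd c.q) ((c.q, if M.root c.q then 0 else c.g + 1) :: c.st (M.sd c.q))⟩
  else if M.act c.q = 2 then
    match c.st (M.sd c.q) with
    | [] => c
    | y :: l => ⟨M.δ c.q y.1, if M.root c.q then 0 else min c.g y.2 + 1, update c.st (M.sd c.q) l⟩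
  else ⟨M.δ c.q 0, if M.root c.q then 0 else c.g + f, c.st⟩

def Mc.run (M : Mc) (f q₀ u : ℕ) : Cf := (M.step f)^[u] ⟨q₀, 0, fun _ => []⟩

def Mc.stop (M : Mc) (c : Cf) : Prop := M.act c.q = 2 ∧ c.st (M.sd c.q) = []

/-- The run stops first at time `H`, in state `q`, and has depth at most `G`. -/
structure Mc.Run (M : Mc) (f q₀ H G q : ℕ) : Prop where
  go : ∀ u < H, ¬M.stop (M.run f q₀ u)
  root : ∀ u < H, M.root (M.run f q₀ u).q = true → (M.run f q₀ u).st true = []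
  dep : ∀ u ≤ H, (M.run f q₀ u).g ≤ G
  stop : M.stop (M.run f q₀ H)
  last : (M.run f q₀ H).q = q

/-! ### Virtual runs -/

/-- `nv`: not void; `tm`: time; `act`, `sd`: operation; `qb`, `qa`: state before and after;
`m`: time of the matching push; `pk`: parent (1 the step before, 2 the matching push, else root);
`gen`: depth; `md`: mode after the step (0 void, 1 run, 2 pop the left, 3 pop the right stack). -/
@[ext] structure Rec where
  nv : Bool
  tm : ℕ
  act : ℕ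
  sd : Bool
  qb : ℕ
  qa : ℕ
  m : ℕ
  pk : ℕ
  gen : ℕ
  md : ℕ

def nil : Rec := ⟨false, 0, 0, false, 0, 0, 0, 0, 0, 0⟩

def vd (u : ℕ) : Rec := ⟨false, u, 0, false, 0, 0, 0, 0, 0, 0⟩

/-- A step that is not in the script: `p` is the step before, `a`, `s` the operation, `y` the
record of the popped symbol (`nil` if there is none). -/
def mk (M : Mc) (u : ℕ) (p : Rec) (a : ℕ) (s : Bool) (y : Rec) : Rec :=
  ⟨true, u, a, s, p.qa, if p.md = 1 then M.δ p.qa y.qb else p.qa, y.tm,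
    if p.md = 1 ∧ M.root p.qa = true then 0 else if y.tm ≠ 0 ∧ y.gen < p.gen then 2 else 1,
    if p.md = 1 ∧ M.root p.qa = true then 0 else
      if y.tm ≠ 0 ∧ y.gen < p.gen then y.gen + 1 else p.gen + 1, p.md⟩

def opA (M : Mc) (p : Rec) : ℕ := if p.md = 1 then M.act p.qa else 2

def opS (M : Mc) (p : Rec) : Bool := if p.md = 1 then M.sd p.qa else decide (p.md = 3)

/-- The record of time `u`: `e` is the script entry, `p` the record before, `y` the records of the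
top symbols. -/
def nxt (M : Mc) (e : Rec) (u : ℕ) (p : Rec) (y : Bool → Rec) : Rec :=
  if e.nv = true then { e with tm := u, m := if e.act = 2 then (y e.sd).tm else e.m }
  else if p.md = 0 then vd u
  else mk M u p (opA M p) (opS M p) (if opA M p = 2 then y (opS M p) else nil)

def upd (r : Rec) (u : ℕ) (L : Bool → List ℕ) (σ : Bool) : List ℕ :=
  if r.nv = true ∧ r.sd = σ then
    (if r.act = 1 then u :: L σ else if r.act = 2 then (L σ).tail else L σ)
  else L σ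

def tp (T : ℕ → Rec) : List ℕ → Rec
  | [] => nil
  | p :: _ => T p

def cf (M : Mc) (S : ℕ → Rec) : ℕ → (ℕ → Rec) × (Bool → List ℕ)
  | 0 => (fun _ => S 0, fun _ => [])
  | u + 1 =>
    (update (cf M S u).1 (u + 1)
      (nxt M (S (u + 1)) (u + 1) ((cf M S u).1 u) fun σ => tp (cf M S u).1 ((cf M S u).2 σ)),
    upd (nxt M (S (u + 1)) (u + 1) ((cf M S u).1 u) fun σ => tp (cf M S u).1 ((cf M S u).2 σ))
      (u + 1) (cf M S u).2)

/-- The record of time `u` in the virtual run of the script `S`. -/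
def tr (M : Mc) (S : ℕ → Rec) (u : ℕ) : Rec := (cf M S u).1 u

/-- The stacks after step `u` (times of the pushes, top first). -/
def st (M : Mc) (S : ℕ → Rec) (u : ℕ) : Bool → List ℕ := (cf M S u).2

def Stop (r : Rec) : Prop := r.nv = true ∧ r.act = 2 ∧ r.m = 0

/-- The step is well formed. -/
def Ok (M : Mc) (G : ℕ) (S : ℕ → Rec) : ℕ → Prop
  | 0 => (S 0).nv = true ∧ (S 0).tm = 0 ∧ (S 0).act = 0 ∧ (S 0).pk = 0 ∧ (S 0).gen ≤ G
  | u + 1 => ¬Stop (tr M S (u + 1)) ∧ ((S (u + 1)).nv = true → S (u + 1) = tr M S (u + 1)) ∧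
      ((tr M S (u + 1)).nv = true →
        ((tr M S (u + 1)).pk = 1 → (tr M S u).nv = true ∧ (tr M S u).gen < (tr M S (u + 1)).gen) ∧
        ((tr M S (u + 1)).pk = 2 → (tr M S (u + 1)).act = 2 ∧
          (tr M S (tr M S (u + 1)).m).gen < (tr M S (u + 1)).gen) ∧
        ((tr M S (u + 1)).pk ≠ 1 → (tr M S (u + 1)).pk ≠ 2 → st M S u true = []) ∧
        (tr M S (u + 1)).gen + (if (tr M S (u + 1)).act = 1 then 1 else 0) ≤ G)

def Gd (M : Mc) (G : ℕ) (S : ℕ → Rec) (H : ℕ) : Prop := ∀ u < H, Ok M G S u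

/-- The query `(S, t)` ends at time `H`; its answer is `tr M S H`. -/
structure Inst (M : Mc) (G : ℕ) (S : ℕ → Rec) (t H : ℕ) : Prop where
  pos : 0 < H
  le : H ≤ t
  gd : Gd M G S H
  fin : H = t ∨ Stop (tr M S H)

def sz (M : Mc) (S : ℕ → Rec) (H : ℕ) : ℕ := cnt (H + 1) fun u => (tr M S u).nv = true

/-- Void or not, read off the script. -/
def nvS (S : ℕ → Rec) (u : ℕ) : Prop :=
  (S u).nv = true ∨ ∃ v < u, (S v).nv = true ∧ (S v).md ≠ 0 ∧ ∀ w < u, v < w → ¬(S w).nv = true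

/-! ### Cuts -/

def pt (T : ℕ → Rec) (s : ℕ) : ℕ :=
  if (T s).pk = 1 then s - 1 else if (T s).pk = 2 then (T s).m else 0

def pe (T : ℕ → Rec) (s : ℕ) : Bool :=
  if (T s).pk = 1 then (T (s - 1)).sd else if (T s).pk = 2 then !(T s).sd else false

/-- Time `u` lies to the right of the cut that starts at `s`. -/
def rt (T : ℕ → Rec) (s : ℕ) (e : Bool) (u : ℕ) : Bool :=
  if s ≤ u then e else if pt T s < s then rt T (pt T s) (pe T s) u else false
termination_by s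

/-- `c` is on the path from `s`. -/
def On (T : ℕ → Rec) (s c : ℕ) : Prop := ∃ k, (pt T)^[k] s = c

/-- Time `u` lies on the inner side of the cut of the symbol `s` of stack `σ`. -/
def rs (T : ℕ → Rec) (σ : Bool) (s u : ℕ) : Prop := rt T s (!σ) u = !σ

/-- The weight between the cuts of `a` (deeper) and `b`. -/
def ws (T : ℕ → Rec) (σ : Bool) (a b : ℕ) : ℕ :=
  cnt b fun u => (T u).nv = true ∧ rs T σ a u ∧ ¬rs T σ b u

/-- The path of `s` is in the script. -/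
def Expl (M : Mc) (S : ℕ → Rec) (s : ℕ) : Prop := ∀ c, On (tr M S) s c → (S c).nv = true

/-- `S'` is `S` with more records of the run made explicit. -/
def Ext (M : Mc) (S S' : ℕ → Rec) : Prop :=
  tr M S' = tr M S ∧ st M S' = st M S ∧ (∀ u, (S u).nv = true → S' u = S u) ∧
    ∀ u, (S' u).nv = true → (S u).nv = true ∨ S' u = tr M S u

structure Cut where
  s₁ : ℕ
  e₁ : Bool
  s₂ : ℕ
  e₂ : Bool
  w : Bool

def Cut.inn (k : Cut) (T : ℕ → Rec) (u : ℕ) : Prop := (rt T k.s₁ k.e₁ u && !rt T k.s₂ k.e₂ u) = k.w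

def Cut.K (k : Cut) (T : ℕ → Rec) (c : ℕ) : Prop := On T k.s₁ c ∨ On T k.s₂ c

/-- The push at time `p` is kept. -/
def Cut.kp (k : Cut) (T : ℕ → Rec) (p : ℕ) : Prop :=
  (∃ c, k.K T c ∧ (T c).pk = 2 ∧ (T c).m = p) ∨
    (if p = k.s₁ ∨ p = k.s₂ then k.w = false else k.inn T p)

/-- The record `r` of time `u` after the restriction (`z` if it is dropped). -/
def Cut.img (k : Cut) (T : ℕ → Rec) (u : ℕ) (r z : Rec) : Rec :=
  if k.K T u then
    { r with
      act := if (r.act = 1 ∧ ¬k.kp T u) ∨ (r.act = 2 ∧ ¬k.kp T r.m) then 0 else r.act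
      md := if k.inn T u then r.md else 0 }
  else if k.inn T u then r else z

def restr (k : Cut) (T S : ℕ → Rec) (u : ℕ) : Rec :=
  if (S u).nv = true then k.img T u (S u) nil else nil

/-- The window between the marks `z false` and `z true`. -/
def win (z : Bool → ℕ) : Cut := ⟨z false, true, z true, false, true⟩

/-- The gap between `a` (deeper) and `b` is closed. -/
def clo (σ : Bool) (a b : ℕ) : Cut :=
  if σ = true then ⟨b, false, a, false, false⟩ else ⟨a, true, b, true, false⟩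

/-- After time `h` the stack `σ` is emptied. -/
def dmp (S : ℕ → Rec) (h : ℕ) (σ : Bool) (u : ℕ) : Rec :=
  if u < h then S u else if u = h then { S h with md := if σ = true then 3 else 2 } else nil

/-! ### Invariants and the potential -/

/-- The objects after step `h`: the head and the symbols. -/
def Obj (M : Mc) (S : ℕ → Rec) (h s : ℕ) (e : Bool) : Prop := s = h ∨ s ∈ st M S h (!e)

def Sep (M : Mc) (S : ℕ → Rec) (h γ u v : ℕ) : Prop :=
  h ≤ u ∨ h ≤ v ∨ ∃ s e, Obj M S h s e ∧ (tr M S s).gen ≤ γ ∧ rt (tr M S) s e u ≠ rt (tr M S) s e v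

def Phi (M : Mc) (G : ℕ) (S : ℕ → Rec) (H h : ℕ) : ℕ :=
  ((Finset.range (H + 1) ×ˢ Finset.range (H + 1) ×ˢ Finset.range (G + 1)).filter fun x =>
    (tr M S x.1).nv = true ∧ (tr M S x.2.1).nv = true ∧ Sep M S h x.2.2 x.1 x.2.1).card

/-- The number of steps in `(h, t]` that are not void. -/
def fu (M : Mc) (S : ℕ → Rec) (h t : ℕ) : ℕ := cnt (t + 1) fun u => h < u ∧ (tr M S u).nv = true

def Psi (M : Mc) (G b : ℕ) (S : ℕ → Rec) (H h : ℕ) : ℕ :=
  Phi M G S H h + b * sz M S H + b * fu M S h H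

structure Inv (M : Mc) (G b t H : ℕ) (r : Rec) (S : ℕ → Rec) (Z : Bool → ℕ → Prop) (h : ℕ) :
    Prop where
  inst : Inst M G S t H
  ans : tr M S H = r
  lt : h < H
  ex : Expl M S h
  mrk : ∀ σ z, Z σ z → z = 0 ∨ (z ∈ st M S h σ ∧ Expl M S z)
  grp : ∀ σ z, z = 0 ∨ Z σ z → ws (tr M S) σ z h ≤ 14 * b ∨
    ∃ z', Z σ z' ∧ z < z' ∧ ws (tr M S) σ z z' ≤ 10 * b

/-- `z` is the last mark of side `σ`. -/
def Top (Z : Bool → ℕ → Prop) (σ : Bool) (z : ℕ) : Prop := (z = 0 ∨ Z σ z) ∧ ∀ z', Z σ z' → z' ≤ z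

def Nrm (M : Mc) (b : ℕ) (S : ℕ → Rec) (Z : Bool → ℕ → Prop) (h : ℕ) (σ : Bool) : Prop :=
  ∀ z, Top Z σ z → ws (tr M S) σ z h ≤ 6 * b ∧
    (∀ y, y = 0 ∨ Z σ y → y < z → ∃ z', Z σ z' ∧ y < z' ∧ ws (tr M S) σ y z' ≤ 10 * b) ∧
    (z ≠ 0 → ∃ a ∈ st M S h σ, z < a ∧ b ≤ ws (tr M S) σ z a ∧ b ≤ ws (tr M S) σ a h)

/-- The head, the symbols above the mark `z`, then the mark. -/
def pS (M : Mc) (S : ℕ → Rec) (h : ℕ) (σ : Bool) (z j : ℕ) : ℕ :=
  if j = 0 then h else ((st M S h σ).filter (z < ·)).getD (j - 1) z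

/-- The script `W` answers the queries for the path of `s` and is small. -/
def Src (M : Mc) (G m : ℕ) (S W : ℕ → Rec) (s : ℕ) : Prop :=
  ∀ c, On (tr M S) s c → ¬(S c).nv = true →
    Inst M G W c c ∧ tr M W c = tr M S c ∧ sz M W c ≤ m

/-! ### The program -/

/-- List length, base, depth bound, least block, branching, search range `J = 2 ^ r`, rounds. -/
structure Pm where
  K : ℕ
  P : ℕ
  G : ℕ
  b₀ : ℕ
  lam : ℕ
  J : ℕ
  r : ℕ
  N : ℕ

def bn (s : Bool) : ℕ := if s = true then 1 else 0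

def dec (P e : ℕ) : Rec :=
  ⟨decide (e % 2 = 1), e / 144 % P, e / 4 % 3, decide (e / 2 % 2 = 1), e / 144 / P / P / P % P,
    e / 144 / P / P / P / P % P, e / 144 / P % P, e / 12 % 3, e / 144 / P / P % P, e / 36 % 4⟩

def enc (P : ℕ) (r : Rec) : ℕ :=
  bn r.nv + 2 * bn r.sd + 4 * r.act + 12 * r.pk + 36 * r.md +
    144 * (r.tm + P * (r.m + P * (r.gen + P * (r.qb + P * r.qa))))

/-- New operation and mode. -/
def sam (e a d : ℕ) : ℕ := e % 4 + 4 * a + 12 * (e / 12 % 3) + 36 * d + 144 * (e / 144)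

/-- The entry for a mark. -/
def mkE (σ : Bool) (z : ℕ) : ℕ := 4 + 2 * bn σ + 144 * z

/-- The greatest `z ≤ n` with `Q z` (0 if there is none). -/
def gr (n : ℕ) (Q : ℕ → Prop) : ℕ := n - lst (n + 1) fun k => k = n ∨ Q (n - k)

namespace Pm

variable (π : Pm)

def β : ℕ := 144 * π.P ^ 5

def E : ℕ := π.N * (5 * (π.G + 2) + 2)

def Is (l : List ℕ) (u i : ℕ) : Prop :=
  3 ≤ i ∧ (dec π.P (gt l i)).nv = true ∧ (dec π.P (gt l i)).tm = u

def lk (l : List ℕ) (u : ℕ) : ℕ := if ∃ i < π.K, π.Is l u i then gt l (lst π.K (π.Is l u)) else 0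

/-- The script of a list: the entries start at position 3, the first one counts. -/
def scr (l : List ℕ) (u : ℕ) : Rec := dec π.P (π.lk l u)

def Mk (l : List ℕ) (σ : Bool) (z : ℕ) : Prop := ∃ i < π.K, 3 ≤ i ∧ gt l i = mkE σ z

/-- Small entries, nothing from position `k` on. -/
def Rep (l : List ℕ) (k : ℕ) : Prop :=
  3 ≤ k ∧ (∀ i, 3 ≤ i → gt l i < π.β) ∧ ∀ i, k ≤ i → gt l i = 0

def seth (l : List ℕ) (i v : ℕ) : List ℕ := tab π.K fun e => if e = i then v else gt l e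

def ins (a : ℕ) (l : List ℕ) : List ℕ :=
  tab π.K fun e => if e < 3 then gt l e else if e = 3 then a else gt l (e - 1)

def trn (l : List ℕ) : List ℕ := tab π.K fun e => min (gt l e) π.β

def qry (b t : ℕ) (l : List ℕ) : List ℕ :=
  tab π.K fun e => min (if e = 0 then b else if e = 1 then t else gt l e) π.β

def pth (l : List ℕ) (s k : ℕ) : ℕ := it π.P (pt (π.scr l)) k s

def onC (l : List ℕ) (s c : ℕ) : Prop := ∃ k < π.G + 2, π.pth l s k = c

def rtC (l : List ℕ) (s : ℕ) (e : Bool) (u : ℕ) : Prop :=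
  if s ≤ u then e = true
  else pe (π.scr l) (π.pth l s (lst (π.G + 2) (fun k => π.pth l s k ≤ u) - 1)) = true

def innC (l : List ℕ) (k : Cut) (u : ℕ) : Prop :=
  (π.rtC l k.s₁ k.e₁ u ∧ ¬π.rtC l k.s₂ k.e₂ u) ↔ k.w = true

def kpC (l : List ℕ) (k : Cut) (p : ℕ) : Prop :=
  (∃ c < π.P, (π.onC l k.s₁ c ∨ π.onC l k.s₂ c) ∧ (π.scr l c).pk = 2 ∧ (π.scr l c).m = p) ∨
    (if p = k.s₁ ∨ p = k.s₂ then k.w = false else π.innC l k p)

def rstE (l : List ℕ) (k : Cut) (e : ℕ) : ℕ :=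
  if (dec π.P e).nv = true then
    if π.onC l k.s₁ (dec π.P e).tm ∨ π.onC l k.s₂ (dec π.P e).tm then
      sam e (if ((dec π.P e).act = 1 ∧ ¬π.kpC l k (dec π.P e).tm) ∨
          ((dec π.P e).act = 2 ∧ ¬π.kpC l k (dec π.P e).m) then 0 else (dec π.P e).act)
        (if π.innC l k (dec π.P e).tm then (dec π.P e).md else 0)
    else if π.innC l k (dec π.P e).tm then e else 0
  else if k.w = true then 0 else e

def rst (l : List ℕ) (k : Cut) : List ℕ :=
  tab π.K fun i => if i < 3 then gt l i else π.rstE l k (gt l i)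

def dmpC (l : List ℕ) (h : ℕ) (σ : Bool) : List ℕ :=
  tab π.K fun i => if i < 3 then gt l i else
    if (dec π.P (gt l i)).nv = true ∧ (dec π.P (gt l i)).tm ≤ h then
      (if (dec π.P (gt l i)).tm = h then sam (gt l i) (dec π.P (gt l i)).act (2 + bn σ) else gt l i)
    else 0

def wsC (l : List ℕ) (σ : Bool) (a b : ℕ) : ℕ :=
  cnt b fun u => nvS (π.scr l) u ∧ (π.rtC l a (!σ) u ↔ σ = false) ∧ ¬(π.rtC l b (!σ) u ↔ σ = false)

def top (l : List ℕ) (σ : Bool) : ℕ := gr π.P (π.Mk l σ)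

def prune (l : List ℕ) (σ : Bool) (z : ℕ) : List ℕ :=
  tab π.K fun i => if 3 ≤ i ∧ gt l i % 144 = 4 + 2 * bn σ ∧ z < gt l i / 144 then 0 else gt l i

variable (g : Orc) (b : ℕ)

def ex0 (W Y : List ℕ) : List ℕ :=
  if (π.scr Y (gt Y 2)).nv = true then Y else π.ins (g (π.qry b (gt Y 2) W)) Y

def ex1 (W Y : List ℕ) : List ℕ :=
  π.trn (π.seth (π.ex0 g b W Y) 2 (pt (π.scr (π.ex0 g b W Y)) (gt Y 2)))

/-- The path of `s` is made explicit in `Y`; position 2 is scratch. -/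
def expl (W : List ℕ) (s : ℕ) (Y : List ℕ) : List ℕ :=
  itr (fun _ => π.ex1 g b W) (π.seth Y 2 s) (π.G + 2)

def pj (W : List ℕ) (h z j : ℕ) : ℕ :=
  if j = 0 then h else
    if (dec π.P (g (π.qry b (h + j) W))).m = 0 then z else (dec π.P (g (π.qry b (h + j) W))).m

def fj (W Y : List ℕ) (σ : Bool) (h z j : ℕ) : ℕ :=
  π.wsC (π.expl g b W (π.pj g b W h z j) Y) σ (π.pj g b W h z j) h

/-- Binary search for `f j < θ ≤ f (j + 1)`. -/
def bs (f : ℕ → ℕ) (θ : ℕ) : ℕ :=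
  itr (fun i j => if f (j + it π.J (· / 2) (i + 1) π.J) < θ
    then min (j + it π.J (· / 2) (i + 1) π.J) π.J else j) 0 π.r

def pick (f : ℕ → ℕ) : ℕ :=
  if f (π.bs f b) + 2 * b ≤ f (π.bs f b + 1) then π.bs f b else π.bs f (4 * b)

/-- Close the gap `(a', a)` or mark `a'`. -/
def fin (W Y : List ℕ) (σ : Bool) (a a' : ℕ) (c : Prop) : List ℕ :=
  if c then π.seth (π.rst (π.expl g b W a' (π.expl g b W a Y)) (clo σ a' a)) 2 1
  else π.ins (mkE σ a') (π.expl g b W a' (π.expl g b W a Y))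

def nm2 (W Y : List ℕ) (σ : Bool) (z j : ℕ) : List ℕ :=
  π.fin g b W Y σ (π.pj g b W (gt Y 0) z j) (π.pj g b W (gt Y 0) z (j + 1))
    (π.fj g b W Y σ (gt Y 0) z j + 2 * b ≤ π.fj g b W Y σ (gt Y 0) z (j + 1))

def nm1 (W Y : List ℕ) (σ : Bool) (z : ℕ) : List ℕ :=
  π.nm2 g b W Y σ z (π.pick b (π.fj g b W Y σ (gt Y 0) z))

def nm0 (Y : List ℕ) (σ : Bool) (z : ℕ) : List ℕ :=
  if π.wsC Y σ z (gt Y 0) < 4 * b then Y
  else π.nm1 g b (π.dmpC (π.rst Y (win (π.top Y))) (gt Y 0) σ) Y σ z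

def zz (Y : List ℕ) (σ : Bool) : ℕ :=
  gr (gt Y 0) fun z => π.Mk Y σ z ∧ 4 * b ≤ π.wsC Y σ z (gt Y 0)

/-- Normalisation of side `σ`; position 2 tells whether a gap was closed. -/
def norm (Y : List ℕ) (σ : Bool) : List ℕ :=
  π.nm0 g b (π.prune Y σ (π.zz b Y σ)) σ (π.zz b Y σ)

def tt (t : ℕ) (Y : List ℕ) : ℕ :=
  gt Y 0 + 1 + lst (t - gt Y 0) fun k => gt Y 0 + 1 + k = t ∨
    b ≤ cnt (k + 1) fun i => nvS (π.scr Y) (gt Y 0 + 1 + i)

def rn1 (t : ℕ) (W Y : List ℕ) (e : ℕ) : List ℕ :=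
  if Stop (dec π.P e) ∧ π.top Y (dec π.P e).sd ≠ 0 then
    π.seth (π.expl g b W (gr ((dec π.P e).tm - 1) (nvS (π.scr Y))) Y) 0
      (gr ((dec π.P e).tm - 1) (nvS (π.scr Y)))
  else if Stop (dec π.P e) ∨ (dec π.P e).tm = t then π.seth Y 1 (e + 1)
  else π.seth (π.expl g b W (dec π.P e).tm Y) 0 (dec π.P e).tm

def rn0 (t : ℕ) (W Y : List ℕ) : List ℕ := π.rn1 g b t W Y (g (π.qry b (π.tt b t Y) W))

def run (t : ℕ) (Y : List ℕ) : List ℕ := π.rn0 g b t (π.rst Y (win (π.top Y))) Y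

def mc2 (t : ℕ) (Y : List ℕ) : List ℕ := if gt Y 2 ≠ 0 then Y else π.run g b t Y

def mc1 (t : ℕ) (Y : List ℕ) : List ℕ := if gt Y 2 ≠ 0 then Y else π.mc2 g b t (π.norm g b Y true)

/-- One round; position 0 is the head, position 1 the answer plus one. -/
def mac (t : ℕ) (Y : List ℕ) : List ℕ :=
  π.trn (if gt Y 1 ≠ 0 then Y else π.mc1 g b t (π.norm g b (π.seth Y 2 0) false))

def lev (l : List ℕ) : ℕ :=
  gt (itr (fun _ => π.mac g (gt l 0 / π.lam) (gt l 1)) (π.seth (π.seth l 0 0) 1 0) π.N) 1 - 1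

def nxE (M : Mc) (l A : List ℕ) (u : ℕ) : ℕ :=
  enc π.P (nxt M (π.scr l u) u (dec π.P (gt A 0)) fun σ => dec π.P (gt A (1 + bn σ)))

def bs0 (A : List ℕ) (r : ℕ) : List ℕ :=
  tab π.K fun e => if e = 0 then r else
    if (dec π.P r).nv = true ∧ (e + 1) % 2 = bn (dec π.P r).sd then
      (if (dec π.P r).act = 1 then (if e < 3 then r else gt A (e - 2))
        else if (dec π.P r).act = 2 then gt A (e + 2) else gt A e)
    else gt A e

/-- Direct simulation: position 0 is the last record, then the two stacks alternate. -/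
def bs1 (M : Mc) (l : List ℕ) (u : ℕ) (A : List ℕ) : List ℕ :=
  π.trn (if Stop (dec π.P (gt A 0)) then A else π.bs0 A (π.nxE M l A (u + 1)))

def base (M : Mc) (l : List ℕ) : ℕ :=
  gt (itr (π.bs1 M l) (tab π.K fun e => if e = 0 then π.lk l 0 else 0) (gt l 1)) 0

def F (M : Mc) (l : List ℕ) : ℕ := min (if gt l 0 ≤ π.b₀ then π.base M l else π.lev g l) π.β

/-- The first query. -/
def l₀ (D q₀ t : ℕ) : List ℕ :=
  π.qry (π.b₀ * π.lam ^ D) t
    (tab π.K fun e => if e = 3 then enc π.P ⟨true, 0, 0, false, q₀, q₀, 0, 0, 0, 1⟩ else 0)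

/-- The parameters fit, for depth `D`. -/
structure Fit (M : Mc) (D : ℕ) : Prop where
  lam : 2 ≤ π.lam
  b₀ : 2 * (π.G + 2) ≤ π.b₀
  J : π.J = 2 ^ π.r
  big : 64 * (π.b₀ * π.lam ^ D) ≤ π.J
  N : (64 * π.lam) ^ 2 * (π.G + 1) + 2 * (64 * π.lam) < π.N
  K : 128 * π.b₀ + 4 ≤ π.K
  P : π.G + 2 < π.P
  JP : π.J < π.P
  act : ∀ q, M.act q < 3
  δ : ∀ q a, M.δ q a < π.P

/-- The oracle answers the queries of level `d`. -/
def Ans (M : Mc) (g : Orc) (d : ℕ) : Prop :=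
  ∀ l k H, π.Rep l k → k + d * π.E ≤ π.K → (∀ σ z, ¬π.Mk l σ z) → gt l 0 = π.b₀ * π.lam ^ d →
    Inst M π.G (π.scr l) (gt l 1) H → sz M (π.scr l) H ≤ 64 * gt l 0 → gt l 1 + d * π.J < π.P →
      dec π.P (g l) = tr M (π.scr l) H ∧ g l < π.β

end Pm

end

end Pool.Agent.MP_1a6d78_lc.CR
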