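import Pool.Agent.MP_1a6d78_lc.CR.Base

/-! PROJECT CR: basic facts on virtual runs. -/

namespace Pool.Agent.MP_1a6d78_lc.CR

open Classical ED PR Function

variable {M : Mc} {G : ℕ} {S : ℕ → Rec}

theorem mem_cnt {n u : ℕ} {P : ℕ → Prop} :
    u ∈ @Finset.filter _ P (fun _ => propDecidable _) (Finset.range n) ↔ u < n ∧ P u := by simp

theorem cnt_le {n m : ℕ} {P Q : ℕ → Prop} (h : ∀ u < n, P u → u < m ∧ Q u) : cnt n P ≤ cnt m Q :=
  Finset.card_le_card fun u hu => by
    have k := Finset.mem_filter.1 hu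
    have := h u (Finset.mem_range.1 k.1) k.2
    exact Finset.mem_filter.2 ⟨Finset.mem_range.2 this.1, this.2⟩

theorem cnt_le_add {n m l : ℕ} {P Q R : ℕ → Prop}
    (h : ∀ u < n, P u → (u < m ∧ Q u) ∨ (u < l ∧ R u)) : cnt n P ≤ cnt m Q + cnt l R :=
  (Finset.card_le_card fun u hu => by
    have k := Finset.mem_filter.1 hu
    simpa using h u (Finset.mem_range.1 k.1) k.2).trans (Finset.card_union_le _ _)

theorem tr_zero (M : Mc) (S : ℕ → Rec) : tr M S 0 = S 0 := rfl

theorem st_zero (M : Mc) (S : ℕ → Rec) (σ : Bool) : st M S 0 σ = [] := rfl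

theorem st_succ (M : Mc) (S : ℕ → Rec) (u : ℕ) :
    st M S (u + 1) = upd (tr M S (u + 1)) (u + 1) (st M S u) := by
  simp only [st, tr, cf, update_self]

theorem cf_tab (M : Mc) (S : ℕ → Rec) (u p : ℕ) (h : p ≤ u) : (cf M S u).1 p = tr M S p := by
  induction u with
  | zero => rw [Nat.le_zero.1 h]; rfl
  | succ u ih =>
    rcases Nat.eq_or_lt_of_le h with k | k
    · rw [k]; rfl
    · simp only [cf]
      rw [update_of_ne (by omega)]
      exact ih (by omega)

theorem mem_upd {r : Rec} {u p : ℕ} {L : Bool → List ℕ} {σ : Bool} (h : p ∈ upd r u L σ) :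
    (p = u ∧ r.nv = true ∧ r.act = 1 ∧ r.sd = σ) ∨ p ∈ L σ := by
  unfold upd at h
  split_ifs at h with h1 h2 h3
  · rcases List.mem_cons.1 h with k | k
    exacts [.inl ⟨k, h1.1, h2, h1.2⟩, .inr k]
  exacts [.inr (List.mem_of_mem_tail h), .inr h, .inr h]

/-- The elements of a stack are times of pushes. -/
theorem mem_st {u p : ℕ} {σ : Bool} (h : p ∈ st M S u σ) :
    0 < p ∧ p ≤ u ∧ (tr M S p).nv = true ∧ (tr M S p).act = 1 ∧ (tr M S p).sd = σ := by
  induction u with
  | zero => exact absurd h List.not_mem_nil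
  | succ u ih =>
    rw [st_succ] at h
    rcases mem_upd h with ⟨rfl, k⟩ | k
    · exact ⟨Nat.succ_pos _, le_rfl, k⟩
    · have := ih k
      exact ⟨this.1, by omega, this.2.2⟩

theorem tr_succ (M : Mc) (S : ℕ → Rec) (u : ℕ) : tr M S (u + 1) =
    nxt M (S (u + 1)) (u + 1) (tr M S u) fun σ => tp (tr M S) (st M S u σ) := by
  have h : (fun σ => tp (cf M S u).1 ((cf M S u).2 σ)) = fun σ => tp (tr M S) (st M S u σ) := by
    funext σ
    have k : ∀ p ∈ st M S u σ, p ≤ u := fun p hp => (mem_st hp).2.1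
    unfold st at k ⊢
    cases e : (cf M S u).2 σ with
    | nil => rfl
    | cons p l => exact cf_tab M S u p (k p (by simp [e]))
  rw [← h]
  simp only [tr, cf, update_self]

theorem tr_tm (M : Mc) (S : ℕ → Rec) {u : ℕ} (h : 0 < u) : (tr M S u).tm = u := by
  obtain ⟨u, rfl⟩ := Nat.exists_eq_succ_of_ne_zero h.ne'
  rw [tr_succ, nxt]
  split_ifs <;> rfl

theorem tp_tm (M : Mc) (S : ℕ → Rec) (u : ℕ) (σ : Bool) :
    (tp (tr M S) (st M S u σ)).tm = hd (st M S u σ) := by
  cases e : st M S u σ with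
  | nil => rfl
  | cons p l => exact tr_tm M S (mem_st (M := M) (S := S) (u := u) (σ := σ) (by simp [e])).1

theorem st_sorted (M : Mc) (S : ℕ → Rec) (u : ℕ) (σ : Bool) : (st M S u σ).Pairwise (· > ·) := by
  induction u with
  | zero => exact List.Pairwise.nil
  | succ u ih =>
    rw [st_succ, upd]
    split_ifs
    · exact List.Pairwise.cons (fun p hp => Nat.lt_succ_of_le (mem_st hp).2.1) ih
    exacts [ih.tail, ih, ih]

/-- A symbol is on its stack from its push on. -/
theorem st_back {u v p : ℕ} {σ : Bool} (h : p ∈ st M S u σ) (h1 : p ≤ v) (h2 : v ≤ u) :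
    p ∈ st M S v σ := by
  induction u with
  | zero => rwa [Nat.le_zero.1 h2]
  | succ u ih =>
    rcases Nat.eq_or_lt_of_le h2 with k | k
    · rwa [k]
    · rw [st_succ] at h
      rcases mem_upd h with ⟨rfl, -⟩ | k'
      · omega
      · exact ih k' (by omega)

theorem st_push {u : ℕ} (h : (tr M S (u + 1)).nv = true) (h1 : (tr M S (u + 1)).act = 1) :
    st M S (u + 1) (tr M S (u + 1)).sd = (u + 1) :: st M S u (tr M S (u + 1)).sd := by
  simp [st_succ, upd, h, h1]

theorem st_pop {u : ℕ} (h : (tr M S (u + 1)).nv = true) (h1 : (tr M S (u + 1)).act = 2) :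
    st M S (u + 1) (tr M S (u + 1)).sd = (st M S u (tr M S (u + 1)).sd).tail := by
  simp [st_succ, upd, h, h1]

theorem st_same {u : ℕ} {σ : Bool} (h : ¬((tr M S (u + 1)).nv = true ∧ (tr M S (u + 1)).sd = σ ∧
    ((tr M S (u + 1)).act = 1 ∨ (tr M S (u + 1)).act = 2))) : st M S (u + 1) σ = st M S u σ := by
  rw [st_succ, upd]
  split_ifs with h1 h2 h3
  exacts [absurd ⟨h1.1, h1.2, .inl h2⟩ h, absurd ⟨h1.1, h1.2, .inr h3⟩ h, rfl, rfl]

/-- A pop points to the top of its stack. -/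
theorem pop_m {u : ℕ} (h : (tr M S (u + 1)).nv = true) (h1 : (tr M S (u + 1)).act = 2) :
    (tr M S (u + 1)).m = hd (st M S u (tr M S (u + 1)).sd) := by
  rw [← tp_tm]
  rw [tr_succ] at h h1 ⊢
  unfold nxt at h h1 ⊢
  split_ifs at h h1 ⊢ with k1 k2 k3 k4
  · rfl
  · exact absurd h1 k2
  · exact absurd h Bool.false_ne_true
  · rfl
  · exact absurd h1 k4

theorem hd_eq_zero {u : ℕ} {σ : Bool} : hd (st M S u σ) = 0 ↔ st M S u σ = [] := by
  cases e : st M S u σ with
  | nil => simp [hd]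
  | cons p l =>
    have := (mem_st (M := M) (S := S) (u := u) (σ := σ) (p := p) (by simp [e])).1
    simp [hd]; omega

theorem stop_iff {u : ℕ} : Stop (tr M S (u + 1)) ↔ (tr M S (u + 1)).nv = true ∧
    (tr M S (u + 1)).act = 2 ∧ st M S u (tr M S (u + 1)).sd = [] :=
  and_congr_right fun h => and_congr_right fun h1 => by rw [pop_m h h1, hd_eq_zero]

/-- A pop that is no stop: the stack before it. -/
theorem pop_cons {u : ℕ} (h : (tr M S (u + 1)).nv = true) (h1 : (tr M S (u + 1)).act = 2)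
    (h2 : ¬Stop (tr M S (u + 1))) : st M S u (tr M S (u + 1)).sd =
      (tr M S (u + 1)).m :: st M S (u + 1) (tr M S (u + 1)).sd := by
  rw [st_pop h h1, pop_m h h1]
  cases e : st M S u (tr M S (u + 1)).sd with
  | nil => exact absurd (stop_iff.2 ⟨h, h1, e⟩) h2
  | cons p l => rfl

/-- A symbol leaves its stack only by a pop. -/
theorem st_stay {u p : ℕ} {σ : Bool} (h : p ∈ st M S u σ) : p ∈ st M S (u + 1) σ ∨
    ((tr M S (u + 1)).nv = true ∧ (tr M S (u + 1)).act = 2 ∧ (tr M S (u + 1)).sd = σ ∧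
      (tr M S (u + 1)).m = p) := by
  by_cases k : (tr M S (u + 1)).nv = true ∧ (tr M S (u + 1)).sd = σ ∧
    ((tr M S (u + 1)).act = 1 ∨ (tr M S (u + 1)).act = 2)
  · obtain ⟨k1, rfl, k2 | k2⟩ := k
    · exact .inl (st_push k1 k2 ▸ List.mem_cons_of_mem _ h)
    · rw [st_pop k1 k2, pop_m k1 k2]
      cases e : st M S u (tr M S (u + 1)).sd with
      | nil => rw [e] at h; exact absurd h List.not_mem_nil
      | cons a l =>
        rw [e] at h
        rcases List.mem_cons.1 h with k | k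
        exacts [.inr ⟨k1, k2, rfl, k.symm⟩, .inl k]
  · exact .inl (st_same k ▸ h)

/-- The popped symbol is gone for good. -/
theorem pop_gone {u v : ℕ} (h : (tr M S (u + 1)).nv = true) (h1 : (tr M S (u + 1)).act = 2)
    (hv : u + 1 ≤ v) (σ : Bool) : (tr M S (u + 1)).m ∉ st M S v σ := fun k => by
  have k0 := mem_st k
  have k1 : ¬Stop (tr M S (u + 1)) := fun s => by have := s.2.2; omega
  have e := pop_cons h h1 k1
  have k2 : (tr M S (u + 1)).m ∈ st M S u (tr M S (u + 1)).sd := by simp [e]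
  have k3 := mem_st k2
  have k4 := st_back k (k3.2.1.trans (Nat.le_succ u)) hv
  rw [← k0.2.2.2.2, k3.2.2.2.2] at k4
  have := st_sorted M S u (tr M S (u + 1)).sd
  rw [e] at this
  exact lt_irrefl _ (List.rel_of_pairwise_cons this k4)

theorem st_len (M : Mc) (S : ℕ → Rec) (u : ℕ) (σ : Bool) : (st M S u σ).length ≤ sz M S u := by
  rw [← List.toFinset_card_of_nodup ((st_sorted M S u σ).imp fun h => ne_of_gt h)]
  unfold sz cnt
  refine Finset.card_le_card fun p hp => ?_
  have := mem_st (List.mem_toFinset.1 hp)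
  exact mem_cnt.2 ⟨by omega, this.2.2.1⟩

theorem sz_mono (M : Mc) (S : ℕ → Rec) {u v : ℕ} (h : u ≤ v) : sz M S u ≤ sz M S v :=
  cnt_le fun _ _ k => ⟨by omega, k⟩

theorem tr_scr {u : ℕ} (h : (S u).nv = true) : (tr M S u).nv = true ∧ (tr M S u).md = (S u).md := by
  cases u with
  | zero => exact ⟨h, rfl⟩
  | succ u => rw [tr_succ, nxt, if_pos h]; exact ⟨h, rfl⟩

/-- A step that is not in the script. -/
theorem tr_free {u : ℕ} (h : ¬(S (u + 1)).nv = true) :
    (tr M S (u + 1)).md = (tr M S u).md ∧ ((tr M S (u + 1)).nv = true ↔ (tr M S u).md ≠ 0) := by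
  rw [tr_succ, nxt, if_neg h]
  by_cases k : (tr M S u).md = 0
  · simp [k, vd]
  · simp [k, mk]

theorem tr_void {u : ℕ} (h : ¬(tr M S (u + 1)).nv = true) : tr M S (u + 1) = vd (u + 1) := by
  have h1 : ¬(S (u + 1)).nv = true := fun k => h (tr_scr k).1
  have h2 := (tr_free (M := M) h1).2
  rw [tr_succ, nxt, if_neg h1, if_pos (by tauto)]

theorem md_nv (h0 : (S 0).nv = true) {u : ℕ} (h : (tr M S u).md ≠ 0) : (tr M S u).nv = true := by
  cases u with
  | zero => exact h0
  | succ u =>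
    by_contra k
    rw [tr_void k] at h
    exact h rfl

theorem md_iff (h0 : (S 0).nv = true) (u : ℕ) : (tr M S u).md ≠ 0 ↔
    ∃ v < u + 1, (S v).nv = true ∧ (S v).md ≠ 0 ∧ ∀ w < u + 1, v < w → ¬(S w).nv = true := by
  induction u with
  | zero =>
    refine ⟨fun h => ⟨0, by omega, h0, h, fun w _ _ => by omega⟩, ?_⟩
    rintro ⟨v, hv, -, h, -⟩
    rwa [show v = 0 by omega] at h
  | succ u ih =>
    by_cases k : (S (u + 1)).nv = true
    · rw [(tr_scr k).2]
      refine ⟨fun h => ⟨u + 1, by omega, k, h, fun w _ _ => by omega⟩, ?_⟩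
      rintro ⟨v, hv, -, h, h'⟩
      by_cases e : v = u + 1
      · rwa [e] at h
      · exact absurd k (h' _ (by omega) (by omega))
    · rw [(tr_free k).1, ih]
      constructor
      · rintro ⟨v, hv, h1, h2, h3⟩
        refine ⟨v, by omega, h1, h2, fun w hw hw' => ?_⟩
        by_cases e : w = u + 1
        · rwa [e]
        · exact h3 w (by omega) hw'
      · rintro ⟨v, hv, h1, h2, h3⟩
        have : v ≠ u + 1 := fun e => k (e ▸ h1)
        exact ⟨v, by omega, h1, h2, fun w hw => h3 w (by omega)⟩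

theorem nv_iff (h0 : (S 0).nv = true) (u : ℕ) : (tr M S u).nv = true ↔ nvS S u := by
  by_cases k : (S u).nv = true
  · exact iff_of_true (tr_scr k).1 (.inl k)
  · cases u with
    | zero => exact absurd h0 k
    | succ u => rw [(tr_free k).2, md_iff h0, nvS]; tauto

/-! ### Well formed runs -/

theorem Gd.mono {H H' : ℕ} (h : Gd M G S H) (k : H' ≤ H) : Gd M G S H' :=
  fun u hu => h u (by omega)

theorem Ok.scr {u : ℕ} (h : Ok M G S u) (k : (S u).nv = true) : S u = tr M S u := by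
  cases u with
  | zero => rfl
  | succ u => exact h.2.1 k

theorem Ok.go {u : ℕ} (h : Ok M G S u) : ¬Stop (tr M S u) := by
  cases u with
  | zero => exact fun k => by have := h.2.2.1; have := k.2.1; rw [tr_zero] at this; omega
  | succ u => exact h.1

theorem Ok.tm {u : ℕ} (h : Ok M G S u) : (tr M S u).tm = u := by
  cases u with
  | zero => exact h.2.1
  | succ u => exact tr_tm M S (Nat.succ_pos u)

theorem Ok.gen {u : ℕ} (h : Ok M G S u) (k : (tr M S u).nv = true) : (tr M S u).gen ≤ G := by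
  cases u with
  | zero => exact h.2.2.2.2
  | succ u => exact (Nat.le_add_right _ _).trans (h.2.2 k).2.2.2

theorem Inst.uniq {t H H' : ℕ} (h : Inst M G S t H) (h' : Inst M G S t H') : H = H' := by
  have k : ∀ {H H'}, Inst M G S t H → Inst M G S t H' → ¬H < H' := fun h h' l => by
    rcases h.fin with e | e
    · have := h'.le; omega
    · exact (h'.gd _ l).go e
  have := k h h'
  have := k h' h
  omega

theorem pt_zero (h : Ok M G S 0) : pt (tr M S) 0 = 0 := by
  have := h.2.2.2.1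
  simp [pt, tr_zero, this]

/-- The parent of a step. -/
theorem pt_spec {H s : ℕ} (h : Gd M G S H) (hs : s < H) (h0 : 0 < s) (k : (tr M S s).nv = true) :
    pt (tr M S) s < s ∧ (tr M S (pt (tr M S) s)).nv = true ∧
      (pt (tr M S) s = 0 ∨ (tr M S (pt (tr M S) s)).gen < (tr M S s).gen) := by
  obtain ⟨u, rfl⟩ := Nat.exists_eq_succ_of_ne_zero h0.ne'
  obtain ⟨k0, -, k1⟩ := h _ hs
  obtain ⟨k1, k2, -⟩ := k1 k
  unfold pt
  split_ifs with e1 e2
  · exact ⟨Nat.lt_succ_self u, (k1 e1).1, .inr (k1 e1).2⟩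
  · have := mem_st (M := M) (S := S) (u := u) (p := (tr M S (u + 1)).m)
      (σ := (tr M S (u + 1)).sd) (by simp [pop_cons k (k2 e2).1 k0])
    exact ⟨Nat.lt_succ_of_le this.2.1, this.2.2.1, .inr (k2 e2).2⟩
  · exact ⟨h0, (h 0 (by omega)).1, .inl rfl⟩

theorem rt_le (T : ℕ → Rec) {s u : ℕ} (e : Bool) (h : s ≤ u) : rt T s e u = e := by
  rw [rt, if_pos h]

theorem rt_step {T : ℕ → Rec} {s u : ℕ} (e : Bool) (h : u < s) (k : pt T s < s) :
    rt T s e u = rt T (pt T s) (pe T s) u := by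
  rw [rt, if_neg (by omega), if_pos k]

theorem rt_ext (T : ℕ → Rec) {s u : ℕ} (e e' : Bool) (h : u < s) : rt T s e u = rt T s e' u := by
  rw [rt, if_neg (by omega)]
  conv_rhs => rw [rt, if_neg (by omega)]

theorem rs_le (T : ℕ → Rec) (σ : Bool) {s u : ℕ} (h : s ≤ u) : rs T σ s u := rt_le T _ h

theorem rs_not (T : ℕ → Rec) (σ : Bool) {s u : ℕ} (h : u < s) : rs T (!σ) s u ↔ ¬rs T σ s u := by
  unfold rs
  rw [rt_ext T (!!σ) (!σ) h]
  cases rt T s (!σ) u <;> cases σ <;> simp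

theorem On.refl (T : ℕ → Rec) (s : ℕ) : On T s s := ⟨0, rfl⟩

theorem On.step {T : ℕ → Rec} {s c : ℕ} (h : On T s c) : On T s (pt T c) := by
  obtain ⟨k, rfl⟩ := h
  exact ⟨k + 1, iterate_succ_apply' _ _ _⟩

theorem on_iff {T : ℕ → Rec} {s c : ℕ} : On T s c ↔ c = s ∨ On T (pt T s) c := by
  constructor
  · rintro ⟨k, rfl⟩
    cases k with
    | zero => exact .inl rfl
    | succ k => exact .inr ⟨k, rfl⟩
  · rintro (rfl | ⟨k, rfl⟩)
    exacts [On.refl _ _, ⟨k + 1, rfl⟩]

theorem On.trans {T : ℕ → Rec} {s c d : ℕ} (h : On T s c) (k : On T c d) : On T s d := by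
  obtain ⟨i, rfl⟩ := h
  obtain ⟨j, rfl⟩ := k
  exact ⟨j + i, iterate_add_apply _ _ _ _⟩

theorem on_spec {H s c : ℕ} (h : Gd M G S H) (hs : s < H) (k : (tr M S s).nv = true)
    (hc : On (tr M S) s c) : c ≤ s ∧ (tr M S c).nv = true := by
  obtain ⟨i, rfl⟩ := hc
  induction i with
  | zero => exact ⟨le_rfl, k⟩
  | succ i ih =>
    rw [iterate_succ_apply']
    rcases Nat.eq_zero_or_pos ((pt (tr M S))^[i] s) with e | e
    · rw [e, pt_zero (h 0 (by omega))]
      exact ⟨Nat.zero_le _, (h 0 (by omega)).1⟩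
    · have := pt_spec h (by omega) e ih.2
      exact ⟨by omega, this.2.1⟩

/-- Paths are short. -/
theorem path_end {H s : ℕ} (h : Gd M G S H) (hs : s < H) (k : (tr M S s).nv = true) {i : ℕ}
    (hi : G + 1 ≤ i) : (pt (tr M S))^[i] s = 0 := by
  have z := pt_zero (h 0 (by omega))
  have key : ∀ i s, s < H → (tr M S s).nv = true → (tr M S s).gen + 1 ≤ i →
      (pt (tr M S))^[i] s = 0 := by
    intro i
    induction i with
    | zero => omega
    | succ i ih =>
      intro s hs k hi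
      rw [iterate_succ_apply]
      rcases Nat.eq_zero_or_pos s with e | e
      · rw [e, z, iterate_fixed z]
      · obtain ⟨k1, k2, k3 | k3⟩ := pt_spec h hs e k
        · rw [k3, iterate_fixed z]
        · exact ih _ (by omega) k2 (by omega)
  exact key i s hs k ((Nat.succ_le_succ ((h s hs).gen k)).trans hi)

theorem on_zero {H s : ℕ} (h : Gd M G S H) (hs : s < H) (k : (tr M S s).nv = true) :
    On (tr M S) s 0 := ⟨G + 1, path_end h hs k le_rfl⟩

theorem on_short {H s c : ℕ} (h : Gd M G S H) (hs : s < H) (k : (tr M S s).nv = true)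
    (hc : On (tr M S) s c) : ∃ i < G + 2, (pt (tr M S))^[i] s = c := by
  obtain ⟨i, rfl⟩ := hc
  by_cases e : i < G + 2
  · exact ⟨i, e, rfl⟩
  · exact ⟨G + 1, by omega, by rw [path_end h hs k le_rfl, path_end h hs k (by omega)]⟩

theorem expl_zero (h : Ok M G S 0) : Expl M S 0 := by
  rintro c ⟨i, rfl⟩
  rw [iterate_fixed (pt_zero h)]
  exact h.1

theorem Expl.nv {s : ℕ} (h : Expl M S s) : (tr M S s).nv = true := (tr_scr (h s (On.refl _ _))).1

/-- Off the path the side does not change. -/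
theorem rt_succ {H s u : ℕ} (h : Gd M G S H) (hs : s < H) (k : (tr M S s).nv = true)
    (hu : ¬On (tr M S) s (u + 1)) (e : Bool) :
    rt (tr M S) s e (u + 1) = rt (tr M S) s e u := by
  induction s using Nat.strong_induction_on generalizing e with
  | _ s ih =>
    by_cases c : s ≤ u
    · rw [rt_le _ _ c, rt_le _ _ (by omega)]
    · have c1 : s ≠ u + 1 := fun c1 => hu (c1 ▸ On.refl _ _)
      obtain ⟨k1, k2, -⟩ := pt_spec h hs (by omega) k
      rw [rt_step e (by omega) k1, rt_step e (by omega) k1]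
      exact ih _ k1 (by omega) k2 (fun o => hu (on_iff.2 (.inr o))) _

/-- Deeper symbols stay as long as a symbol above them stays. -/
theorem st_below {u v p q : ℕ} {σ : Bool} (hp : p ∈ st M S u σ) (hq : q ∈ st M S u σ) (h : p ≤ q)
    (hv : u ≤ v) (k : q ∈ st M S v σ) : p ∈ st M S v σ := by
  induction v, hv using Nat.le_induction with
  | base => exact hp
  | succ v hv ih =>
    have k1 := st_back k ((mem_st hq).2.1.trans hv) (Nat.le_succ v)
    rcases st_stay (ih k1) with e | ⟨e1, e2, rfl, e4⟩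
    · exact e
    · have n : ¬Stop (tr M S (v + 1)) := fun s => by have := s.2.2; have := (mem_st hp).1; omega
      have s := st_sorted M S v (tr M S (v + 1)).sd
      rw [pop_cons e1 e2 n, e4] at s
      have := List.rel_of_pairwise_cons s k
      omega

/-- A symbol is popped once. -/
theorem pop_uniq {c c' : ℕ} (h : (tr M S (c + 1)).nv = true) (h1 : (tr M S (c + 1)).act = 2)
    (h2 : ¬Stop (tr M S (c + 1))) (k : (tr M S (c' + 1)).nv = true) (k1 : (tr M S (c' + 1)).act = 2)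
    (e : (tr M S (c' + 1)).m = (tr M S (c + 1)).m) : c = c' := by
  have k2 : ¬Stop (tr M S (c' + 1)) := fun s => h2 ⟨h, h1, e ▸ s.2.2⟩
  rcases lt_trichotomy c c' with l | l | l
  · exact absurd (by rw [pop_cons k k1 k2, e]; simp) (pop_gone h h1 l (tr M S (c' + 1)).sd)
  · exact l
  · exact absurd (by rw [pop_cons h h1 h2, e]; simp) (pop_gone k k1 l (tr M S (c + 1)).sd)

theorem Ok.pk2 {c : ℕ} (h0 : Ok M G S 0) (h : Ok M G S c) (k : (tr M S c).nv = true)
    (e : (tr M S c).pk = 2) : 0 < c ∧ (tr M S c).act = 2 := by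
  cases c with
  | zero => have := h0.2.2.2.1; rw [tr_zero] at e; omega
  | succ c => exact ⟨Nat.succ_pos c, ((h.2.2 k).2.1 e).1⟩

theorem Cut.K_spec {k : Cut} {H c : ℕ} (h : Gd M G S H) (l₁ : k.s₁ < H) (l₂ : k.s₂ < H)
    (x₁ : Expl M S k.s₁) (x₂ : Expl M S k.s₂) (hc : k.K (tr M S) c) :
    (c ≤ k.s₁ ∨ c ≤ k.s₂) ∧ (tr M S c).nv = true ∧ (S c).nv = true := by
  rcases hc with e | e
  · exact ⟨.inl (on_spec h l₁ x₁.nv e).1, (on_spec h l₁ x₁.nv e).2, x₁ c e⟩
  · exact ⟨.inr (on_spec h l₂ x₂.nv e).1, (on_spec h l₂ x₂.nv e).2, x₂ c e⟩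

/-- The symbol popped by a step off the paths is not on an edge of a path. -/
theorem Cut.kp_pop {k : Cut} {H c : ℕ} (h : Gd M G S H) (l₁ : k.s₁ < H) (l₂ : k.s₂ < H)
    (x₁ : Expl M S k.s₁) (x₂ : Expl M S k.s₂) (hc : c < H) (n : (tr M S c).nv = true)
    (a : (tr M S c).act = 2) (hK : ¬k.K (tr M S) c) : k.kp (tr M S) (tr M S c).m ↔
      if (tr M S c).m = k.s₁ ∨ (tr M S c).m = k.s₂ then k.w = false
      else k.inn (tr M S) (tr M S c).m := by
  refine or_iff_right ?_
  rintro ⟨c', e1, e2, e3⟩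
  obtain ⟨k1, k2, -⟩ := Cut.K_spec h l₁ l₂ x₁ x₂ e1
  obtain ⟨k3, k4⟩ := (h 0 (by omega)).pk2 (h c' (by omega)) k2 e2
  obtain ⟨c', rfl⟩ := Nat.exists_eq_succ_of_ne_zero k3.ne'
  cases c with
  | zero => have := (h 0 hc).2.2.1; rw [tr_zero] at a; omega
  | succ c => exact hK (pop_uniq n a (h _ hc).go k2 k4 e3 ▸ e1)

/-- A symbol that is alive after the tops of the paths is not on an edge of a path. -/
theorem Cut.kp_live {k : Cut} {H u p : ℕ} {σ : Bool} (h : Gd M G S H) (l₁ : k.s₁ < H)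
    (l₂ : k.s₂ < H) (x₁ : Expl M S k.s₁) (x₂ : Expl M S k.s₂) (u₁ : k.s₁ ≤ u) (u₂ : k.s₂ ≤ u)
    (hp : p ∈ st M S u σ) : k.kp (tr M S) p ↔
      if p = k.s₁ ∨ p = k.s₂ then k.w = false else k.inn (tr M S) p := by
  refine or_iff_right ?_
  rintro ⟨c', e1, e2, rfl⟩
  obtain ⟨k1, k2, -⟩ := Cut.K_spec h l₁ l₂ x₁ x₂ e1
  obtain ⟨k3, k4⟩ := (h 0 (by omega)).pk2 (h c' (by omega)) k2 e2
  obtain ⟨c', rfl⟩ := Nat.exists_eq_succ_of_ne_zero k3.ne'
  exact pop_gone k2 k4 (by omega) σ hp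

/-- The step that pushed a kept symbol is kept. -/
theorem Cut.kp_kept {k : Cut} {T : ℕ → Rec} {p : ℕ} (h : k.kp T p) : k.K T p ∨ k.inn T p := by
  rcases h with ⟨c, e1, e2, rfl⟩ | e
  · have e : pt T c = (T c).m := by simp [pt, e2]
    exact .inl (e ▸ e1.imp On.step On.step)
  · split_ifs at e with c
    · rcases c with rfl | rfl
      exacts [.inl (.inl (On.refl _ _)), .inl (.inr (On.refl _ _))]
    · exact .inr e

theorem cnt_on {H s : ℕ} (h : Gd M G S H) (hs : s < H) (k : (tr M S s).nv = true) (n : ℕ) :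
    cnt n (On (tr M S) s) ≤ G + 2 := by
  refine (Finset.card_le_card fun c hc => ?_).trans
    ((Finset.card_image_le (s := Finset.range (G + 2)) (f := fun i => (pt (tr M S))^[i] s)).trans
      (Finset.card_range _).le)
  obtain ⟨i, hi, e⟩ := on_short h hs k (mem_cnt.1 hc).2
  exact Finset.mem_image.2 ⟨i, Finset.mem_range.2 hi, e⟩

theorem Mc.Run.mono {f q₀ H G G' q : ℕ} (h : M.Run f q₀ H G q) (k : G ≤ G') : M.Run f q₀ H G' q :=
  ⟨h.go, h.root, fun u hu => (h.dep u hu).trans k, h.stop, h.last⟩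

theorem Top.uniq {Z : Bool → ℕ → Prop} {σ : Bool} {z z' : ℕ} (h : Top Z σ z) (k : Top Z σ z') :
    z = z' := by
  have e : ∀ {z z'}, Top Z σ z → Top Z σ z' → z ≤ z' := fun h k =>
    h.1.elim (fun e => e ▸ Nat.zero_le _) (k.2 _)
  exact (e h k).antisymm (e k h)

theorem Ext.refl (M : Mc) (S : ℕ → Rec) : Ext M S S := ⟨rfl, rfl, fun _ _ => rfl, fun _ h => .inl h⟩

theorem Ext.trans {S' S'' : ℕ → Rec} (h : Ext M S S') (k : Ext M S' S'') : Ext M S S'' := by
  refine ⟨k.1.trans h.1, k.2.1.trans h.2.1, fun u hu => ?_, fun u hu => ?_⟩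
  · rw [k.2.2.1 u (by rw [h.2.2.1 u hu]; exact hu), h.2.2.1 u hu]
  · rcases k.2.2.2 u hu with e | e
    · rcases h.2.2.2 u e with e' | e'
      · exact .inl e'
      · exact .inr ((k.2.2.1 u e).trans e')
    · exact .inr (e.trans (by rw [h.1]))

theorem Ext.nv {S' : ℕ → Rec} (h : Ext M S S') {u : ℕ} (k : (S u).nv = true) : (S' u).nv = true := by
  rw [h.2.2.1 u k]; exact k

theorem Ext.ok {S' : ℕ → Rec} (h : Ext M S S') {u : ℕ} (k : Ok M G S u) : Ok M G S' u := by
  cases u with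
  | zero => unfold Ok; rw [h.2.2.1 0 k.1]; exact k
  | succ u =>
    unfold Ok
    rw [h.1, h.2.1]
    refine ⟨k.1, fun e => ?_, k.2.2⟩
    rcases h.2.2.2 _ e with e' | e'
    · rw [h.2.2.1 _ e']; exact k.2.1 e'
    · exact e'

theorem Ext.expl {S' : ℕ → Rec} (h : Ext M S S') {s : ℕ} (k : Expl M S s) : Expl M S' s :=
  fun c hc => h.nv (k c (h.1 ▸ hc))

theorem Ext.inst {S' : ℕ → Rec} (h : Ext M S S') {t H : ℕ} (k : Inst M G S t H) :
    Inst M G S' t H := ⟨k.pos, k.le, fun u hu => h.ok (k.gd u hu), h.1 ▸ k.fin⟩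

theorem Ext.inv {S' : ℕ → Rec} (h : Ext M S S') {b t H : ℕ} {r : Rec} {Z : Bool → ℕ → Prop} {a : ℕ}
    (k : Inv M G b t H r S Z a) : Inv M G b t H r S' Z a :=
  ⟨h.inst k.inst, h.1 ▸ k.ans, k.lt, h.expl k.ex,
    fun σ z hz => (k.mrk σ z hz).imp_right fun e => ⟨h.2.1 ▸ e.1, h.expl e.2⟩, h.1 ▸ k.grp⟩

theorem Ext.nrm {S' : ℕ → Rec} (h : Ext M S S') {b : ℕ} {Z : Bool → ℕ → Prop} {a : ℕ} {σ : Bool}
    (k : Nrm M b S Z a σ) : Nrm M b S' Z a σ := by
  unfold Nrm
  rw [h.1, h.2.1]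
  exact k

theorem Ext.psi {S' : ℕ → Rec} (h : Ext M S S') (G b H a : ℕ) :
    Psi M G b S' H a = Psi M G b S H a := by
  simp only [Psi, Phi, Sep, Obj, sz, fu, h.1, h.2.1]

theorem Ext.src {S' W : ℕ → Rec} (h : Ext M S S') {m s : ℕ} (k : Src M G m S W s) :
    Src M G m S' W s := fun c hc hn => by
  rw [h.1] at hc ⊢
  exact k c hc fun e => hn (h.nv e)

/-- One more record is made explicit. -/
theorem ext_one {c : ℕ} (k : (tr M S c).nv = true) (hc : ¬(S c).nv = true) (h0 : 0 < c) :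
    Ext M S (update S c (tr M S c)) := by
  have key : ∀ u, tr M (update S c (tr M S c)) u = tr M S u ∧
      st M (update S c (tr M S c)) u = st M S u := by
    intro u
    induction u using Nat.strong_induction_on with
    | _ u ih =>
      cases u with
      | zero => exact ⟨by rw [tr_zero, update_of_ne h0.ne, tr_zero], rfl⟩
      | succ u =>
        have e : tr M (update S c (tr M S c)) (u + 1) = tr M S (u + 1) := by
          have e1 : (fun σ => tp (tr M (update S c (tr M S c)))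
              (st M (update S c (tr M S c)) u σ)) = fun σ => tp (tr M S) (st M S u σ) := by
            funext σ
            rw [(ih u (by omega)).2]
            cases e : st M S u σ with
            | nil => rfl
            | cons p l =>
              exact (ih p (Nat.lt_succ_of_le (mem_st (M := M) (S := S) (σ := σ)
                (by simp [e])).2.1)).1
          rw [tr_succ, e1, (ih u (by omega)).1]
          by_cases e : u + 1 = c
          · subst e
            rw [update_self, nxt, if_pos k]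
            refine Rec.ext rfl (tr_tm M S h0).symm rfl rfl rfl rfl ?_ rfl rfl rfl
            dsimp only
            split_ifs with a
            · rw [tp_tm, pop_m k a]
            · rfl
          · rw [update_of_ne e, ← tr_succ]
        exact ⟨e, by rw [st_succ, st_succ, e, (ih u (by omega)).2]⟩
  refine ⟨funext fun u => (key u).1, funext fun u => (key u).2, fun u hu => ?_, fun u hu => ?_⟩
  · exact update_of_ne (fun e => hc (by rwa [e] at hu)) _ _
  · by_cases e : u = c
    · exact .inr (by rw [e, update_self])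
    · exact .inl (by rwa [update_of_ne e] at hu)

/-! ### Small tools -/

theorem gr_spec (n : ℕ) (Q : ℕ → Prop) :
    gr n Q ≤ n ∧ (gr n Q = 0 ∨ Q (gr n Q)) ∧ ∀ z ≤ n, Q z → z ≤ gr n Q := by
  have h : lst (n + 1) (fun k => k = n ∨ Q (n - k)) ∈ {m | m < n + 1 ∧ (m = n ∨ Q (n - m))} :=
    Nat.sInf_mem ⟨n, Nat.lt_succ_self n, .inl rfl⟩
  refine ⟨Nat.sub_le _ _, h.2.imp_left fun e => by rw [gr, e, Nat.sub_self], fun z hz k => ?_⟩
  have : lst (n + 1) (fun k => k = n ∨ Q (n - k)) ≤ n - z :=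
    Nat.sInf_le ⟨by omega, .inr (by rwa [Nat.sub_sub_self hz])⟩
  unfold gr
  omega

theorem lt_of_not_rs {T : ℕ → Rec} {σ : Bool} {s u : ℕ} (h : ¬rs T σ s u) : u < s :=
  lt_of_not_ge fun k => h (rs_le T σ k)

theorem ws_self (T : ℕ → Rec) (σ : Bool) (a : ℕ) : ws T σ a a = 0 := by simp [ws, cnt]

theorem ws_tri (T : ℕ → Rec) (σ : Bool) (a b c : ℕ) : ws T σ a c ≤ ws T σ a b + ws T σ b c :=
  cnt_le_add fun u hu h => by
    by_cases k : rs T σ b u
    exacts [.inr ⟨hu, h.1, k, h.2.2⟩, .inl ⟨lt_of_not_rs k, h.1, h.2.1, k⟩]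

theorem dec_zero (P : ℕ) : dec P 0 = nil := by simp [dec, nil]

end Pool.Agent.MP_1a6d78_lc.CR
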