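import Pool.Agent.MP_1a6d78_lc.CR.VSpec

/-! PROJECT CR, row CVL: the sweep to the left. -/

namespace Pool.Agent.MP_1a6d78_lc.CR

open Classical ED Function Cv

namespace Cvl

variable {M : TM} {x : List Bool} {a : (pd M).Cfg} {p : ℕ} {L R : List (Cell M)}

theorem move_zero (p : ℕ) : move p 0 = p := by simp [move]

theorem stepB {q : M.Q} {s : Fin M.k → M.Γ} {c : Cell M} (hp : p ≤ x.length)
    (h : At M a (.B q s) p (c :: L) R) :
    At M ((pd M).step x a) (.C q (fun i => if (c i).2 = true then (c i).1 else s i) c) p L R := by
  obtain ⟨h1, h2, h3, h4⟩ := h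
  have e : (a.st false).head?.map Prod.fst = some c := by
    rw [← List.head?_map]
    exact congrArg List.head? h3
  have o : ¬((pd M).out a.q).isSome = true := by rw [h1]; exact Bool.false_ne_true
  have k : (pd M).δ a.q (fun i => (decide (a.head i = 0), x[a.head i]?))
      (fun s => (a.st s).head?.map Prod.fst) =
      (.C q (fun i => if (c i).2 = true then (c i).1 else s i) c, fun _ => 0,
        some (false, none)) := by
    have n : ∀ o (z : Bool → Option (Cell M)), z false = some c → nx M (.B q s) o z =
        (.C q (fun i => if (c i).2 = true then (c i).1 else s i) c, 0, some (false, none)) :=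
      fun o z hz => by simp only [nx, hz]
    rw [h1]
    exact congrArg (fun w : Act M => (w.1, fun _ => w.2.1, w.2.2)) (n _ _ e)
  rw [PD.step, if_neg o]
  simp only [k]
  refine ⟨rfl, ?_, ?_, ?_⟩
  · simp only [move_zero, h2, min_eq_left hp]
  · exact List.map_tail.trans (congrArg List.tail h3)
  · exact h4

theorem stepC {q : M.Q} {s : Fin M.k → M.Γ} {c : Cell M} (hp : p ≤ x.length)
    (h : At M a (.C q s c) p L R) : At M ((pd M).step x a) (.B q s) p L (c :: R) := by
  obtain ⟨h1, h2, h3, h4⟩ := h
  have o : ¬((pd M).out a.q).isSome = true := by rw [h1]; exact Bool.false_ne_true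
  have k : (pd M).δ a.q (fun i => (decide (a.head i = 0), x[a.head i]?))
      (fun s => (a.st s).head?.map Prod.fst) = (.B q s, fun _ => 0, some (true, some c)) := by
    rw [h1]
    rfl
  rw [PD.step, if_neg o]
  simp only [k]
  refine ⟨rfl, ?_, h3, ?_⟩
  · simp only [move_zero, h2, min_eq_left hp]
  · exact congrArg (List.cons c) h4

theorem sweep (c : M.Cfg) (hp : p ≤ x.length) (m : ℕ) : ∀ (a : (pd M).Cfg) s R,
    At M a (.B c.q s) p (dn M c m) R →
      At M (((pd M).step x)^[2 * m] a)
        (.B c.q fun i => if c.head i < m then c.tape i (c.head i) else s i) p []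
        ((List.range m).map (cell M c) ++ R) := by
  induction m with
  | zero => exact fun a s R h => h
  | succ m ih =>
    intro a s R h
    have e : dn M c (m + 1) = cell M c m :: dn M c m := by simp [dn, List.range_succ]
    rw [e] at h
    have := ih _ _ _ (stepC hp (stepB hp h))
    rw [show 2 * (m + 1) = 2 * m + 1 + 1 by ring, iterate_succ_apply, iterate_succ_apply,
      List.range_succ, List.map_append, List.append_assoc, List.map_singleton,
      List.singleton_append]
    convert this using 3 with i
    simp only [cell, decide_eq_true_eq]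
    rcases lt_trichotomy (c.head i) m with k | k | k
    · rw [if_pos k, if_pos (by omega)]
    · rw [if_pos (by omega), if_neg (by omega), if_pos k, k]
    · rw [if_neg (by omega), if_neg (by omega), if_neg (by omega)]

end Cvl

theorem cvl : CvlS := fun M x c a n hf hp h => by
  have := Cvl.sweep c hp n a _ _ h
  rw [List.append_nil] at this
  convert this using 3 with i
  rw [if_pos (hf i).1]

end Pool.Agent.MP_1a6d78_lc.CR
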