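import Pool.Agent.MP_1a6d78_lc.CR.VSpec

/-! PROJECT CR, row CVM: the rounds of the simulating automaton. -/

namespace Pool.Agent.MP_1a6d78_lc.CR

open Classical ED Function Cv

namespace Cvm

theorem fix {A : PD} {x : List Bool} {c : A.Cfg} (h : (A.out c.q).isSome = true) (n : ℕ) :
    (A.step x)^[n] c = c := iterate_fixed (by rw [PD.step, if_pos h]) n

theorem step_d (A : PD) (x : List Bool) (c : A.Cfg) : (A.step x c).d ≤ c.d + 1 := by
  unfold PD.step
  split_ifs
  · omega
  · change A.depth c _ ≤ _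
    unfold PD.depth
    split_ifs
    · omega
    · split
      · omega
      · omega
      · split <;> omega

theorem iter_d (A : PD) (x : List Bool) (c : A.Cfg) (n : ℕ) : ((A.step x)^[n] c).d ≤ c.d + n := by
  induction n with
  | zero => exact le_rfl
  | succ n ih =>
    rw [iterate_succ_apply']
    exact (step_d A x _).trans (by omega)

theorem run_add (A : PD) (x : List Bool) (t n : ℕ) : A.run x (t + n) = (A.step x)^[n] (A.run x t) := by
  rw [PD.run, Nat.add_comm, iterate_add_apply]
  rfl

theorem run_fix {A : PD} {x : List Bool} {t u : ℕ} (h : (A.out (A.run x t).q).isSome = true)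
    (k : t ≤ u) : A.run x u = A.run x t := by
  obtain ⟨n, rfl⟩ := Nat.exists_eq_add_of_le k
  rw [run_add, fix h]

variable {M : TM} {x : List Bool}

theorem mv0 {p n : ℕ} (h : p ≤ n) : min (move p 0) n = p := by simp [move, h]

theorem mv_le (p : ℕ) (d : SignType) : move p d ≤ p + 1 := by
  cases d <;> simp [move]

theorem stA {a : (pd M).Cfg} {q : M.Q} {p : ℕ} {c : Cell M} {L : List (Cell M)}
    (h : At M a (.A q) p (c :: L) []) (hq : M.out q = none) (hp : p ≤ x.length) :
    At M ((pd M).step x a) (.B q fun _ => M.blank) p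
      (if ∃ i, (c i).2 = true then (fun _ => (M.blank, false)) :: c :: L else c :: L) [] := by
  obtain ⟨h1, h2, h3, h4⟩ := h
  have hz : (a.st false).head?.map Prod.fst = some c := by
    rw [← List.head?_map]
    exact congrArg List.head? h3
  have e0 : ∀ v (z : Bool → Option (Cell M)), z false = some c → (pd M).δ (St.A q) v z =
      (St.B q fun _ => M.blank, fun _ => 0,
        if ∃ i, (c i).2 = true then some (false, some fun _ => (M.blank, false)) else none) := by
    intro v z hz
    simp only [pd, nx, hz]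
    split_ifs <;> rfl
  have e : ∀ v, (pd M).δ a.q v (fun σ => (a.st σ).head?.map Prod.fst) = _ := fun v =>
    (congrArg (fun y => (pd M).δ y v _) h1).trans (e0 v _ hz)
  rw [PD.step, if_neg (by rw [h1]; change ¬(M.out q).isSome = true; simp [hq])]
  simp only [e]
  refine ⟨rfl, (congrArg (fun y => min (move y 0) x.length) h2).trans (mv0 hp), ?_⟩
  split_ifs
  exacts [⟨congrArg (_ :: ·) h3, h4⟩, ⟨h3, h4⟩]

theorem dn_succ (c : M.Cfg) (n : ℕ) : dn M c (n + 1) = cell M c n :: dn M c n := by
  simp [dn, List.range_succ]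

theorem pos_le (t : ℕ) : (M.run x t).pos ≤ x.length := by
  induction t with
  | zero => exact Nat.zero_le _
  | succ t ih =>
    rw [TM.run, iterate_succ_apply', ← TM.run, TM.step]
    split_ifs
    exacts [ih, min_le_right _ _]

/-- One round. -/
theorem round (hL : CvlS) (hR : CvrS) {c : M.Cfg} {a : (pd M).Cfg} {n s : ℕ} (hq : M.out c.q = none)
    (hp : c.pos ≤ x.length) (hs : ∀ i, c.head i ≤ s) (hn : n + 1 ≤ s + 2) (F : Fits M c (n + 1))
    (h : At M a (.A c.q) c.pos (dn M c (n + 1)) []) :
    ∃ n', n' + 1 ≤ s + 2 ∧ Fits M (M.step x c) (n' + 1) ∧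
      At M (((pd M).step x)^[4 * n' + 7] a) (.A (M.step x c).q) (M.step x c).pos
        (dn M (M.step x c) (n' + 1)) [] := by
  rw [dn_succ] at h
  have k := stA h hq hp
  obtain ⟨n', k1, k2, k3, k4⟩ : ∃ n', n' + 1 ≤ s + 2 ∧ n ≤ n' ∧ (∀ i, c.head i + 1 < n' + 1) ∧
      At M ((pd M).step x a) (.B c.q fun _ => M.blank) c.pos (dn M c (n' + 1)) [] := by
    split_ifs at k with e
    · obtain ⟨i, e⟩ := e
      have e1 : c.head i = n := by simpa [cell] using e
      have e2 : cell M c (n + 1) = fun _ => (M.blank, false) := funext fun j => by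
        simp [cell, (F j).2 (n + 1) le_rfl, (F j).1.ne]
      refine ⟨n + 1, by have := hs i; omega, n.le_succ, fun j => Nat.succ_lt_succ (F j).1, ?_⟩
      rwa [dn_succ, dn_succ, e2]
    · refine ⟨n, hn, le_rfl, fun j => ?_, by rwa [dn_succ]⟩
      have e1 : c.head j ≠ n := fun q => e ⟨j, by simp [cell, q]⟩
      have := (F j).1
      omega
  have F' : Fits M c (n' + 1) := fun i =>
    ⟨Nat.lt_of_succ_lt (k3 i), fun j hj => (F i).2 j (by omega)⟩
  refine ⟨n', k1, fun i => ?_, ?_⟩
  · rw [TM.step, if_neg (by simp [hq])]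
    refine ⟨(mv_le _ _).trans_lt (k3 i), fun j hj => ?_⟩
    have := k3 i
    exact (update_of_ne (by omega) _ _).trans ((F' i).2 j hj)
  · have := hR M x c _ _ hq hp k3 (hL M x c _ _ F' hp k4)
    rwa [← iterate_add_apply, ← iterate_succ_apply,
      show (2 * (n' + 1) + 2 + 2 * (n' + 1)).succ = 4 * n' + 7 by omega] at this

end Cvm

theorem depS : DepS := by
  intro A x c n h
  by_cases k : (A.out c.q).isSome = true
  · exact .inr ⟨by rw [Cvm.fix k], k⟩
  · have e : (A.step x c).d = 0 := by
      rw [PD.step, if_neg k]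
      exact if_pos h
    have := Cvm.iter_d A x (A.step x c) n
    rw [iterate_succ_apply]
    exact .inl (by omega)

theorem cvm (hL : CvlS) (hR : CvrS) (hD : DepS) : CvmS := by
  intro M x s hs
  by_cases h0 : (M.out M.start).isSome = true
  · have e : ∀ u, (pd M).run x u = (pd M).run x 0 := fun u => Cvm.run_fix h0 u.zero_le
    refine ⟨fun u => by rw [e]; exact Nat.zero_le _, fun t r h => ?_⟩
    rw [TM.run, iterate_fixed (by rw [TM.step, if_pos h0])] at h
    rw [e]
    exact h
  have key : ∀ t, ∃ τ n, τ ≤ (4 * s + 12) * t + 1 ∧ n + 1 ≤ s + 2 ∧ Fits M (M.run x t) (n + 1) ∧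
      At M ((pd M).run x τ) (.A (M.run x t).q) (M.run x t).pos (dn M (M.run x t) (n + 1)) [] ∧
      (t ≤ τ ∨ (M.out (M.run x t).q).isSome = true) ∧
      ∀ u ≤ τ, ((pd M).run x u).d ≤ 4 * s + 12 := by
    intro t
    induction t with
    | zero =>
      refine ⟨1, 0, le_rfl, by omega, fun i => ⟨Nat.one_pos, fun _ _ => rfl⟩, ?_,
        .inl (Nat.zero_le _), fun u hu => ?_⟩
      · change At M ((pd M).step x _) _ _ _ _
        rw [PD.step, if_neg (by exact h0)]
        exact ⟨rfl, Cvm.mv0 (Nat.zero_le _), rfl, rfl⟩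
      · have := Cvm.iter_d (pd M) x ((pd M).run x 0) u
        change ((pd M).run x u).d ≤ 0 + u at this
        omega
    | succ t ih =>
      obtain ⟨τ, n, k1, k2, k3, k4, k5, k6⟩ := ih
      rw [TM.run, iterate_succ_apply', ← TM.run, Nat.mul_succ]
      by_cases q : (M.out (M.run x t).q).isSome = true
      · rw [TM.step, if_pos q]
        exact ⟨τ, n, by omega, k2, k3, k4, .inr q, k6⟩
      · obtain ⟨n', l1, l2, l3⟩ := Cvm.round hL hR (by simpa using q) (Cvm.pos_le t) (hs t) k2 k3 k4
        have := k5.resolve_right q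
        refine ⟨τ + (4 * n' + 7), n', by omega, l1, l2, by rwa [Cvm.run_add], .inl (by omega),
          fun u hu => ?_⟩
        by_cases w : u ≤ τ
        · exact k6 u w
        · obtain ⟨j, rfl⟩ : ∃ j, u = τ + (j + 1) := ⟨u - τ - 1, by omega⟩
          have k7 := k6 τ le_rfl
          rw [Cvm.run_add]
          rcases hD (pd M) x _ j (List.map_eq_nil_iff.1 k4.2.2.2) with e | e
          · omega
          · exact e.1.le.trans k7
  refine ⟨fun u => ?_, fun t r h => ?_⟩
  · obtain ⟨τ, n, -, -, -, k4, k5, k6⟩ := key u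
    rcases le_total u τ with w | w
    · exact k6 u w
    · rcases k5 with e | e
      · exact k6 u e
      · rw [Cvm.run_fix (by rw [k4.1]; exact e) w]
        exact k6 τ le_rfl
  · obtain ⟨τ, n, k1, -, -, k4, -, -⟩ := key t
    have e : (pd M).out ((pd M).run x τ).q = some r := by rw [k4.1]; exact h
    rw [Cvm.run_fix (by simp [e]) k1, e]

end Pool.Agent.MP_1a6d78_lc.CR
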