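import Pool.Agent.MP_1a6d78_lc.CR.VSpec

/-! PROJECT CR, row CVR: the sweep to the right. -/

namespace Pool.Agent.MP_1a6d78_lc.CR

open Classical ED Function Cv

namespace Cvr

variable {M : TM} {x : List Bool} {c : (pd M).Cfg}

/-- The effect of an operation on the symbols of the stores. -/
def ap (o : Option (Bool × Option (Cell M))) (f : Bool → List (Cell M)) : Bool → List (Cell M) :=
  match o with
  | none => f
  | some (s, some b) => update f s (b :: f s)
  | some (s, none) => update f s (f s).tail

theorem one {q q' : St M} {p : ℕ} {L R : List (Cell M)} {d : SignType}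
    {o : Option (Bool × Option (Cell M))} (h : At M c q p L R) (h0 : ou M q = none)
    (h1 : nx M q x[p]? (fun s => (bif s then R else L).head?) = (q', d, o)) :
    At M ((pd M).step x c) q' (min (move p d) x.length)
      (ap o (fun s => bif s then R else L) false) (ap o (fun s => bif s then R else L) true) := by
  obtain ⟨k1, k2, k3, k4⟩ := h
  have e1 : (fun s => (c.st s).head?.map Prod.fst) = fun s => (bif s then R else L).head? := by
    funext s
    cases s
    · rw [cond_false, ← k3, sy, List.head?_map]; rfl
    · rw [cond_true, ← k4, sy, List.head?_map]; rfl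
  have e2 : (pd M).δ c.q (fun i => (decide (c.head i = 0), x[c.head i]?))
      (fun s => (c.st s).head?.map Prod.fst) = (q', fun _ => d, o) := by
    rw [e1]
    change ((nx M c.q x[c.head (0 : Fin 1)]? _).1, fun _ => (nx M c.q x[c.head (0 : Fin 1)]? _).2.1,
      (nx M c.q x[c.head (0 : Fin 1)]? _).2.2) = _
    rw [k1, k2, h1]
    rfl
  have e3 : ¬((pd M).out c.q).isSome = true := by
    change ¬(ou M c.q).isSome = true
    rw [k1, h0]
    simp
  unfold PD.step
  rw [if_neg e3]
  simp only [e2]
  refine ⟨rfl, by simp only [k2], ?_, ?_⟩ <;>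
  · subst k3 k4
    rcases o with _ | ⟨_ | _, _ | b⟩ <;> first | rfl | exact List.map_tail

theorem mv0 {p : ℕ} (h : p ≤ x.length) : min (move p 0) x.length = p := by
  simp [move, h]

theorem sD0 {q a p pos L} (h : At M c (.D q a p) pos L []) (k : pos ≤ x.length) :
    At M ((pd M).step x c) (.A q) pos L [] := by
  have := one (x := x) h rfl rfl
  rwa [mv0 k] at this

theorem sD1 {q a p pos L y R} (h : At M c (.D q a p) pos L (y :: R)) (k : pos ≤ x.length) :
    At M ((pd M).step x c) (.E q a p y) pos L R := by
  have := one (x := x) h rfl rfl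
  rw [mv0 k] at this
  simpa [ap] using this

theorem sE {q a p pos L y R} (h : At M c (.E q a p y) pos L R) (k : pos ≤ x.length) :
    At M ((pd M).step x c) (.D q a fun i => (y i).2) pos (new M a p y L.head? R.head? :: L) R := by
  have := one (x := x) h rfl rfl
  rw [mv0 k] at this
  simpa [ap] using this

theorem dn_succ (c : M.Cfg) (j : ℕ) : dn M c (j + 1) = cell M c j :: dn M c j := by
  simp [dn, List.range_succ]

theorem key {c c' : M.Cfg} {a : Mv M} {n j : ℕ} (hn : ∀ i, c.head i + 1 < n)
    (h1 : ∀ i, c'.tape i = update (c.tape i) (c.head i) (a i).1)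
    (h2 : ∀ i, c'.head i = move (c.head i) (a i).2) :
    new M a (fun i => decide (c.head i + 1 = j)) (cell M c j) (dn M c' j).head?
      ((List.range' (j + 1) (n - (j + 1))).map (cell M c)).head? = cell M c' j := by
  funext i
  have e1 : (dn M c' j).head? = none ↔ j = 0 := by
    cases j
    · simp [dn]
    · simp [dn_succ]
  have e2 : (∃ y, ((List.range' (j + 1) (n - (j + 1))).map (cell M c)).head? = some y ∧
      (y i).2 = true) ↔ c.head i = j + 1 := by
    have := hn i
    rcases e : n - (j + 1) with _ | m
    · simp only [List.range'_zero, List.map_nil, List.head?_nil, reduceCtorEq, false_and,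
        exists_false, false_iff]
      omega
    · simp [List.range'_succ, cell]
  unfold new
  simp only [e1, e2]
  refine Prod.ext ?_ ?_
  · simp only [cell, h1, decide_eq_true_eq]
    by_cases e : c.head i = j
    · rw [if_pos e, e, update_self]
    · rw [if_neg e, update_of_ne (Ne.symm e)]
  · simp only [cell, h2, decide_eq_true_eq, decide_eq_decide]
    rcases (a i).2 with _ | _ | _ <;> simp [move] <;> omega

end Cvr

theorem cvr : CvrS := by
  intro M x c a n h0 hp hn h
  obtain ⟨c', hc⟩ : ∃ c', c' = M.step x c := ⟨_, rfl⟩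
  rw [← hc]
  obtain ⟨b, hb⟩ : ∃ b, b = M.δ c.q x[c.pos]? fun i => c.tape i (c.head i) := ⟨_, rfl⟩
  have e : c' = ⟨b.1, min (move c.pos b.2.1) x.length,
      fun i => update (c.tape i) (c.head i) (b.2.2 i).1, fun i => move (c.head i) (b.2.2 i).2⟩ := by
    rw [hc, hb, TM.step, if_neg (by simp [h0])]
  have k : c'.pos ≤ x.length := by rw [e]; exact min_le_right _ _
  have ind : ∀ j ≤ n, At M (((pd M).step x)^[2 * j + 1] a)
      (.D c'.q b.2.2 fun i => decide (c.head i + 1 = j)) c'.pos (dn M c' j)
      ((List.range' j (n - j)).map (cell M c)) := by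
    intro j
    induction j with
    | zero =>
      intro _
      have := Cvr.one (x := x) h rfl rfl
      rw [← hb] at this
      rw [e]
      simpa [Cvr.ap, dn, List.range_eq_range'] using this
    | succ j ih =>
      intro hj
      have s0 := ih (by omega)
      rw [show n - j = n - (j + 1) + 1 by omega, List.range'_succ, List.map_cons] at s0
      have s1 := Cvr.sE (x := x) (Cvr.sD1 (x := x) s0 k) k
      rw [Cvr.key hn (fun i => by rw [e]) (fun i => by rw [e]), ← Cvr.dn_succ] at s1
      rw [show 2 * (j + 1) + 1 = 2 * j + 1 + 1 + 1 by ring, iterate_succ_apply', iterate_succ_apply']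
      simpa [cell] using s1
  have s := ind n le_rfl
  rw [Nat.sub_self] at s
  rw [show 2 * n + 2 = 2 * n + 1 + 1 by ring, iterate_succ_apply']
  exact Cvr.sD0 s k

end Pool.Agent.MP_1a6d78_lc.CR
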