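import Pool.Agent.MP_1a6d78_lc.ED.Defs

/-! Deterministic two-way multihead automata with two pushdown stores, and their depth. -/

namespace Pool.Agent.MP_1a6d78_lc.CR

/-- A deterministic automaton with `k` two-way heads on a read-only binary input and two pushdown
stores (`false` is the left, `true` the right one).  `out q = some r` marks `q` as halting with
answer `r`.  The transition function sees the state, for every head whether it is in cell 0 and
the scanned symbol (`none` is the end marker), and the top symbols of the stores; it gives the next
state, the moves of the heads and an operation: `none` (nothing), `some (s, some a)` (push `a` on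
store `s`) or `some (s, none)` (pop store `s`). -/
structure PD where
  k : ℕ
  Q : Type
  Γ : Type
  finQ : Finite Q
  finΓ : Finite Γ
  start : Q
  out : Q → Option Bool
  δ : Q → (Fin k → Bool × Option Bool) → (Bool → Option Γ) →
    Q × (Fin k → SignType) × Option (Bool × Option Γ)

/-- State, heads, depth of the last step, stores (top first; a symbol is kept with the depth of the
step that pushed it). -/
structure PD.Cfg (A : PD) where
  q : A.Q
  head : Fin A.k → ℕ
  d : ℕ
  st : Bool → List (A.Γ × ℕ)

/-- The depth of a step that makes operation `o`: 0 if the right store is empty; else the depth of
the step before, plus 1 for a push; for a pop, 1 plus the least of the depths of the step before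
and of the step that pushed the symbol. -/
def PD.depth (A : PD) (c : A.Cfg) (o : Option (Bool × Option A.Γ)) : ℕ :=
  if c.st true = [] then 0 else
    match o with
    | none => c.d
    | some (_, some _) => c.d + 1
    | some (s, none) =>
      match c.st s with
      | [] => c.d
      | y :: _ => min c.d y.2 + 1

/-- One step on input `x`; the heads stay in the cells `0, ..., |x|`. -/
def PD.step (A : PD) (x : List Bool) (c : A.Cfg) : A.Cfg :=
  if (A.out c.q).isSome then c else
    let a := A.δ c.q (fun i => (decide (c.head i = 0), x[c.head i]?))
      fun s => (c.st s).head?.map Prod.fst
    ⟨a.1, fun i => min (ED.move (c.head i) (a.2.1 i)) x.length, A.depth c a.2.2,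
      match a.2.2 with
      | none => c.st
      | some (s, some b) => Function.update c.st s ((b, A.depth c a.2.2) :: c.st s)
      | some (s, none) => Function.update c.st s (c.st s).tail⟩

/-- The configuration after `t` steps on input `x`, starting with empty stores. -/
def PD.run (A : PD) (x : List Bool) (t : ℕ) : A.Cfg :=
  (A.step x)^[t] ⟨A.start, fun _ => 0, 0, fun _ => []⟩

end Pool.Agent.MP_1a6d78_lc.CR
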