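import Pool.Agent.MP_1a6d78_lc.CR.VSpec

/-! PROJECT CR, row EQV: the two classes of languages are equal. -/

namespace Pool.Agent.MP_1a6d78_lc.CR

open Classical ED Function Cv

namespace Eqv

theorem stay (A : PD) (x : List Bool) {t u : ℕ} {r : Bool} (h : A.out (A.run x t).q = some r)
    (e : t ≤ u) : A.run x u = A.run x t := by
  obtain ⟨d, rfl⟩ := Nat.exists_eq_add_of_le' e
  have : A.step x (A.run x t) = A.run x t := by
    unfold PD.step
    rw [if_pos (by rw [h]; rfl)]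
  rw [PD.run, iterate_add_apply]
  exact iterate_fixed this d

theorem bd {l : ℕ} (h : 2 ≤ l) (c : ℕ) : 4 * l ^ c + 12 ≤ l ^ (c + 4) := by
  have h1 : 0 < l ^ c := Nat.pow_pos (by omega)
  have h2 : 2 ^ 4 ≤ l ^ 4 := Nat.pow_le_pow_left h 4
  have h3 := Nat.mul_le_mul_left (l ^ c) h2
  rw [Nat.pow_add]
  omega

end Eqv

open Eqv

theorem eqv (hA : AuxS) (hM : CvmS) : EqvS := by
  intro L
  constructor
  · rintro ⟨A, a, h⟩
    obtain ⟨M, c, hc⟩ := hA A a fun x => ⟨by rw [(h x).1]; rfl, (h x).2⟩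
    exact ⟨M, c, fun x => ⟨(hc x).1.trans (h x).1, (hc x).2⟩⟩
  · rintro ⟨M, c, h⟩
    refine ⟨pd M, c + 4 + c + 1, fun x => ?_⟩
    obtain ⟨h1, h2⟩ := hM M x _ (h x).2
    have b := bd (l := Nat.log 2 x.length + 2) (by omega) c
    refine ⟨?_, fun t => (h1 t).trans (b.trans (Nat.pow_le_pow_right (by omega) (by omega)))⟩
    have h3 := h2 _ _ (h x).1
    rw [stay _ x h3, h3]
    have l := Nat.log_le_self 2 x.length
    have b1 := b.trans (Nat.pow_le_pow_left (show Nat.log 2 x.length + 2 ≤ x.length + 2 by omega)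
      (c + 4))
    have b2 := Nat.mul_le_mul_right ((x.length + 2) ^ c) b1
    rw [← Nat.pow_add] at b2
    have b3 : 0 < (x.length + 2) ^ (c + 4 + c) := Nat.pow_pos (by omega)
    have b4 := Nat.mul_le_mul_left ((x.length + 2) ^ (c + 4 + c)) (show 2 ≤ x.length + 2 by omega)
    rw [Nat.pow_succ]
    omega

end Pool.Agent.MP_1a6d78_lc.CR
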