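import Pool.Agent.MP_1a6d78_lc.CR.Spec

/-! PROJECT CR, row FLAG: a new mark. -/

namespace Pool.Agent.MP_1a6d78_lc.CR

open Classical ED PR SC Function

namespace Flag

variable {M : Mc} {S : ℕ → Rec} {H : ℕ}

theorem cnt_add {n m l : ℕ} {P Q R : ℕ → Prop} (h1 : ∀ u < m, Q u → u < n ∧ P u)
    (h2 : ∀ u < l, R u → u < n ∧ P u) (h3 : ∀ u, Q u → ¬R u) : cnt m Q + cnt l R ≤ cnt n P := by
  unfold PR.cnt
  rw [← Finset.card_union_of_disjoint (Finset.disjoint_left.2 fun u a b =>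
    h3 u (mem_cnt.1 a).2 (mem_cnt.1 b).2)]
  refine Finset.card_le_card fun u hu => mem_cnt.2 ?_
  rcases Finset.mem_union.1 hu with a | a
  exacts [h1 u (mem_cnt.1 a).1 (mem_cnt.1 a).2, h2 u (mem_cnt.1 a).1 (mem_cnt.1 a).2]

/-- Weights of nested cuts add up. -/
theorem nest (g : GeoK M S H) {h y p : ℕ} {σ : Bool} (hh : h < H) (k : (tr M S h).nv = true)
    (hy : y = 0 ∨ y ∈ st M S h σ) (hp : p ∈ st M S h σ) (l : y ≤ p) :
    ws (tr M S) σ y p + ws (tr M S) σ p h ≤ ws (tr M S) σ y h := by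
  obtain ⟨-, p1, p2, -⟩ := mem_st hp
  refine cnt_add (fun u hu a => ⟨by omega, a.1, a.2.1, fun b => a.2.2 (g.n h p σ u hh k hp b)⟩)
    (fun u hu a => ⟨hu, a.1, ?_, a.2.2⟩) fun u a b => a.2.2 b.2.1
  rcases hy with rfl | hy
  · exact rs_le _ _ u.zero_le
  · exact g.n p y σ u (by omega) p2 (st_back hy l p1) a.2.1

end Flag

theorem flag (hG : GeoS) (hP : PslS) : FlagS := by
  intro M G b t H r S Z h I σ z i j Z' hz a1 a2 p1 p2 ex hZ
  have g := hG M G S H I.inst.gd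
  have z0 : z = 0 ∨ z ∈ st M S h σ := hz.1.elim .inl fun q => (I.mrk σ z q).imp_right And.left
  obtain ⟨k1, -, k2, -⟩ := hP M S h σ z j z0
  obtain ⟨k3, -, k4, -⟩ := hP M S h σ z i z0
  generalize pS M S h σ z (j + 1) = p at *
  generalize pS M S h σ z (i + 1) = a at *
  have p0 : p = 0 ∨ p ∈ st M S h σ := k2.elim (fun e => e ▸ z0) .inr
  have a0 : a = 0 ∨ a ∈ st M S h σ := k4.elim (fun e => e ▸ z0) .inr
  have up : ∀ τ y, Z τ y → Z' τ y := fun τ y q => (hZ τ y).2 (.inl q)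
  have zp : Z' σ p := (hZ σ p).2 (.inr ⟨rfl, rfl⟩)
  refine ⟨⟨I.inst, I.ans, I.lt, I.ex, fun τ y q => ?_, fun τ y q => ?_⟩, fun z1 t1 => ?_,
    fun q => ?_⟩
  · rcases (hZ τ y).1 q with q | ⟨rfl, rfl⟩
    exacts [I.mrk τ y q, p0.imp_right fun e => ⟨e, ex⟩]
  · have old : y = 0 ∨ Z τ y → _ := fun q => (I.grp τ y q).imp_right
      fun ⟨z', e1, e2⟩ => (⟨z', up τ z' e1, e2⟩ : ∃ z', Z' τ z' ∧ y < z' ∧ ws (tr M S) τ y z' ≤ 10 * b)
    rcases q with q | q
    · exact old (.inl q)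
    rcases (hZ τ y).1 q with q | ⟨rfl, rfl⟩
    exacts [old (.inr q), .inl (by omega)]
  · have tp : Top Z' σ p := ⟨.inr zp, fun y q => ((hZ σ y).1 q).elim
      (fun e => (hz.2 y e).trans k1) fun e => e.2.le⟩
    obtain rfl := tp.uniq t1
    refine ⟨p2.le, fun y q l => ?_, fun n => ?_⟩
    · have q' : y = 0 ∨ Z σ y := q.imp_right fun e => ((hZ σ y).1 e).resolve_right fun e => l.ne e.2
      rcases I.grp σ y q' with e | ⟨z', e1, e2⟩
      · have := Flag.nest g I.lt I.ex.nv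
          (q'.elim .inl fun e => (I.mrk σ y e).imp_right And.left) (p0.resolve_left (by omega)) l.le
        exact ⟨p, zp, l, by omega⟩
      · exact ⟨z', up σ z' e1, e2⟩
    · have l : p < a := lt_of_not_ge fun e => by
        have := Flag.nest g I.lt I.ex.nv a0 (p0.resolve_left n) e
        omega
      have := ws_tri (tr M S) σ p a h
      exact ⟨a, a0.resolve_left (by omega), l, by omega, a1⟩
  · have e : Z' (!σ) = Z (!σ) := funext fun y => propext ((hZ _ y).trans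
      (or_iff_left fun e => Bool.not_ne_self σ e.1))
    unfold Nrm Top at q ⊢
    rw [e]
    exact q

end Pool.Agent.MP_1a6d78_lc.CR
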