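import Pool.Agent.MP_1a6d78_lc.CR.SSpec

/-! PROJECT CR, row SHR: shrinking automata have logarithmic depth. -/

namespace Pool.Agent.MP_1a6d78_lc.CR

open Classical ED Function

namespace Shr

theorem upd {α β : Type} [AddCommMonoid α] (f : Bool → β → α) (z : Bool → List β) (s : Bool)
    (L : List β) : ((update z s L false).map (f false)).sum + ((update z s L true).map (f true)).sum +
      ((z s).map (f s)).sum =
    ((z false).map (f false)).sum + ((z true).map (f true)).sum + (L.map (f s)).sum := by
  cases s <;> simp <;> ac_rfl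

theorem cases (A : PD) (x : List Bool) (c c' : A.Cfg) (h : A.out c.q = none)
    (e : c' = A.step x c) : (c'.st = c.st ∧ c'.d = if c.st true = [] then 0 else c.d) ∨
      (∃ s b, c'.st = update c.st s ((b, c'.d) :: c.st s) ∧
        c'.d = if c.st true = [] then 0 else c.d + 1) ∨
      ∃ s y l, c.st s = y :: l ∧ c'.st = update c.st s l ∧
        c'.d = if c.st true = [] then 0 else min c.d y.2 + 1 := by
  rw [PD.step, if_neg (by simp [h])] at e
  subst e
  dsimp only
  generalize (A.δ c.q _ _).2.2 = o
  rcases o with _ | ⟨s, _ | b⟩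
  · exact .inl ⟨rfl, rfl⟩
  · cases k : c.st s with
    | nil => exact .inl ⟨by simp [k], by simp only [PD.depth, k]⟩
    | cons y l => exact .inr (.inr ⟨s, y, l, k, by simp [k], by simp only [PD.depth, k]⟩)
  · exact .inr (.inl ⟨s, b, rfl, rfl⟩)

theorem key {W m n : ℕ} (hW : 1 ≤ W) (h : m < n) (k : n ≤ 2 * W) (e : ℕ) :
    (m : ℝ) * (1 + 1 / (2 * W)) ^ (e + 1) ≤ n * (1 + 1 / (2 * W)) ^ e := by
  have h1 : (m : ℝ) + 1 ≤ n := by exact_mod_cast h
  have h2 : (n : ℝ) ≤ 2 * W := by exact_mod_cast k
  have h3 : (0 : ℝ) < 2 * W := by positivity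
  have h4 : (m : ℝ) * (1 / (2 * W)) ≤ 1 := by
    rw [mul_one_div, div_le_one h3]
    linarith
  rw [pow_succ', ← mul_assoc]
  exact mul_le_mul_of_nonneg_right (by linarith) (by positivity)

end Shr

theorem shr : ShrS := by
  intro A x wc wy W h t
  have hW : 1 ≤ W := (h.pos 0).trans (h.le 0)
  obtain ⟨ρ, hρ⟩ : ∃ ρ : ℝ, ρ = 1 + 1 / (2 * W) := ⟨_, rfl⟩
  have r1 : 1 ≤ ρ := hρ ▸ le_add_of_nonneg_right (by positivity)
  have r0 : 0 ≤ ρ := zero_le_one.trans r1
  have key := fun m n a b e => hρ ▸ Shr.key (m := m) (n := n) hW a b e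
  have nn : ∀ σ (L : List (A.Γ × ℕ)), 0 ≤ (L.map fun b => (wy σ b.1 : ℝ) * ρ ^ b.2).sum :=
    fun σ L => List.sum_nonneg fun a ha => by
      obtain ⟨b, -, rfl⟩ := List.mem_map.1 ha
      positivity
  have pot : ∀ t, wc (A.run x t) * ρ ^ (A.run x t).d +
      ((((A.run x t).st false).map fun b => (wy false b.1 : ℝ) * ρ ^ b.2).sum +
        (((A.run x t).st true).map fun b => (wy true b.1 : ℝ) * ρ ^ b.2).sum) ≤
      W * (2 * t + 1) := by
    intro t
    induction t with
    | zero => simpa [PD.run] using h.le 0
    | succ t ih =>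
      have e : A.run x (t + 1) = A.step x (A.run x t) := iterate_succ_apply' _ _ _
      have l0 := h.le t
      have l1 : (wc (A.run x (t + 1)) : ℝ) ≤ W := by exact_mod_cast h.le (t + 1)
      have l2 := h.lt t
      have w0 : (0 : ℝ) ≤ W := W.cast_nonneg
      generalize A.run x (t + 1) = c' at *
      generalize A.run x t = c at *
      have l3 : 0 ≤ wc c * ρ ^ c.d := by positivity
      push_cast
      cases o : A.out c.q with
      | some r =>
        rw [e, PD.step, if_pos (by simp [o])]
        linarith
      | none =>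
        replace l2 := l2 o
        unfold PD.tot at l2
        rcases Shr.cases A x c c' o e with ⟨a, d⟩ | ⟨s, b, a, d⟩ | ⟨s, y, l, k, a, d⟩
        · rw [a] at l2 ⊢
          split_ifs at d with z <;> rw [d]
          · rw [pow_zero]
            linarith
          · have : (wc c' : ℝ) ≤ wc c := by exact_mod_cast (by have := l2 z; omega)
            have := mul_le_mul_of_nonneg_right this (pow_nonneg r0 c.d)
            linarith
        · have u1 := Shr.upd (fun σ b => (wy σ b.1 : ℝ) * ρ ^ b.2) c.st s ((b, c'.d) :: c.st s)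
          have u2 := Shr.upd (fun σ b => wy σ b.1) c.st s ((b, c'.d) :: c.st s)
          rw [← a, List.map_cons, List.sum_cons] at u1 u2
          dsimp only at u1 u2
          split_ifs at d with z <;> rw [d] at u1 ⊢
          · have : (wy s b : ℝ) ≤ W := by exact_mod_cast h.sym s b
            rw [pow_zero] at u1 ⊢
            linarith
          · have := key (wc c' + wy s b) (wc c) (by have := l2 z; omega) (by omega) c.d
            push_cast at this
            linarith
        · have u1 := Shr.upd (fun σ b => (wy σ b.1 : ℝ) * ρ ^ b.2) c.st s l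
          have u2 := Shr.upd (fun σ b => wy σ b.1) c.st s l
          rw [← a, k, List.map_cons, List.sum_cons] at u1 u2
          have l4 : 0 ≤ wy s y.1 * ρ ^ y.2 := by positivity
          split_ifs at d with z <;> rw [d]
          · rw [pow_zero]
            linarith
          · have s1 := h.sym s y.1
            have s2 := key (wc c') (wc c + wy s y.1) (by have := l2 z; omega) (by omega)
              (min c.d y.2)
            have s3 := mul_le_mul_of_nonneg_left (pow_le_pow_right₀ r1 (min_le_left c.d y.2))
              (wc c).cast_nonneg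
            have s4 := mul_le_mul_of_nonneg_left (pow_le_pow_right₀ r1 (min_le_right c.d y.2))
              (wy s y.1).cast_nonneg
            push_cast at s2
            linarith
  have p1 := pot t
  have p2 : (1 : ℝ) ≤ wc (A.run x t) := by exact_mod_cast h.pos t
  have p3 := nn false ((A.run x t).st false)
  have p4 := nn true ((A.run x t).st true)
  have p5 := le_mul_of_one_le_left (pow_nonneg r0 (A.run x t).d) p2
  generalize (A.run x t).d = d at *
  have p6 : 2 ≤ ρ ^ (2 * W) := by
    have w : (0 : ℝ) < 2 * W := by positivity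
    refine le_trans (le_of_eq ?_) (hρ ▸ one_add_mul_le_pow (by
      have : (0 : ℝ) ≤ 1 / (2 * W) := by positivity
      linarith) (2 * W))
    push_cast
    rw [mul_one_div_cancel w.ne', one_add_one_eq_two]
  have p7 : (2 : ℝ) ^ (d / (2 * W)) ≤ ρ ^ d :=
    (pow_le_pow_left₀ zero_le_two p6 _).trans
      (pow_mul ρ _ _ ▸ pow_le_pow_right₀ r1 (Nat.mul_div_le d _))
  have p8 : 2 ^ (d / (2 * W)) ≤ W * (2 * t + 1) := by
    exact_mod_cast (by linarith : (2 : ℝ) ^ (d / (2 * W)) ≤ W * (2 * t + 1))
  exact (Nat.lt_mul_div_succ d (by omega)).le.trans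
    (Nat.mul_le_mul_left _ (Nat.succ_le_succ (Nat.le_log_of_pow_le one_lt_two p8)))

end Pool.Agent.MP_1a6d78_lc.CR
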