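import Pool.Agent.MP_1a6d78_lc.CR.SSpec

/-! PROJECT CR, row SINV: the invariant of leftmost reduction. -/

namespace Pool.Agent.MP_1a6d78_lc.CR

open Classical ED Function

namespace Sinv

variable {m : ℕ} {s : Sys m} {x : List Bool}

abbrev Sto (s : Sys m) : Type := List (BL m s.k × ℕ)

/-- The stores after an operation. -/
def ap (o : Option (Bool × Option (BL m s.k))) (d : ℕ) (st : Bool → Sto s) : Bool → Sto s :=
  match o with
  | none => st
  | some (σ, some b) => update st σ ((b, d) :: st σ)
  | some (σ, none) => update st σ (st σ).tail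

def Gd (x : List Bool) (p : ℕ) (st : Bool → Sto s) (a : s.Act) : Prop :=
  ∀ d, s.LW (ap a.2.2 d st false) ∧
    s.IvQ x (min (move p a.2.1) x.length) (ap a.2.2 d st false) (ap a.2.2 d st true) a.1

theorem mv0 {p n : ℕ} (h : p ≤ n) : min (move p 0) n = p := by simp [move, h]

theorem mv1 {p n : ℕ} (h : p < n) : min (move p 1) n = p + 1 := by
  have : move p 1 = p + 1 := by simp [move]
  rw [this]
  exact min_eq_left h

theorem bl_val {k : ℕ} {l : Wd m} (h : l.length ≤ k) : (bl k l).1 = l := List.take_of_length_le h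

theorem lt_tail (L : Sto s) : s.lt L.tail = (s.lt L).tail := by simp [Sys.lt]

theorem lt_len (L : Sto s) : (s.lt L).length = L.length := by simp [Sys.lt]

theorem lw_tail {L : Sto s} (h : s.LW L) : s.LW L.tail := by
  cases L with
  | nil => exact h
  | cons b L => exact h.2

theorem wn_eq {L : Sto s} (h : s.LW L) : s.wn (L.head?.map Prod.fst) = (s.lt L).take s.k := by
  cases L with
  | nil => simp [Sys.wn, Sys.lt]
  | cons b L => exact h.1

theorem irr_tail {l : Wd m} (h : s.Irr l.reverse) : s.Irr l.tail.reverse := by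
  cases l with
  | nil => exact h
  | cons c l =>
    rintro v ⟨p, hp, a, b, e, -⟩
    exact h _ ⟨p, hp, a, b ++ [c], by rw [List.reverse_cons, ← List.append_assoc, ← e]; rfl, rfl⟩

theorem irr_full (F : s.Fit) {l : Wd m} (h : s.Irr l.tail.reverse) (k : ¬s.Rdx (l.take s.k)) :
    s.Irr l.reverse := by
  rintro v ⟨p, hp, a, b, e, -⟩
  by_cases q : b = []
  · refine k ⟨p, hp, List.prefix_take_iff.2 ⟨⟨a.reverse, ?_⟩, by simpa using (F.len p hp).1⟩⟩
    rw [← List.reverse_append, ← List.reverse_reverse l, e, q, List.append_nil]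
  · refine h _ ⟨p, hp, a, b.dropLast, ?_, rfl⟩
    rw [← List.dropLast_reverse, e, List.dropLast_append_of_ne_nil q]

theorem rd_ok (F : s.Fit) {p : ℕ} {st : Bool → Sto s} {c : Fin (m + 1)} (hp : p ≤ x.length)
    (hw : s.LW (st false)) (h : s.IvQ x p (st false) (st true) (.C c)) :
    Gd x p st (s.rd c x[p]?) := by
  obtain ⟨h1, h2, h3⟩ := h
  intro d
  rcases Nat.eq_or_lt_of_le hp with e | e
  · have e1 : x[p]? = none := by simp [e]
    rw [e1]
    refine ⟨hw, Nat.zero_le _, irr_tail h2, ?_⟩
    have e2 : (bl s.k s.t₂.reverse).1 = s.t₂.reverse := bl_val (by simpa using F.l₂)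
    simpa [Sys.rd, ap, Sys.rest, e2, h1, Sys.lt, e, dcd] using h3
  · have e1 : x[p]? = some x[p] := by simp [e]
    have e2 := List.drop_eq_getElem_cons e
    rw [e1]
    cases q : x[p] with
    | true =>
      refine ⟨hw, h1, h2, ?_⟩
      change s.Red x (_ ++ s.rest x false (c + 1) (min (move p 1) x.length))
      rw [mv1 e]
      simp only [Sys.rest, Bool.false_eq_true, if_false] at h3 ⊢
      rw [e2, q] at h3
      exact h3
    | false =>
      refine ⟨hw, h2, ?_⟩
      change s.Red x ((s.lt (st false)).reverse ++ [c] ++ s.lt (st true) ++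
        s.rest x false 0 (min (move p 1) x.length))
      rw [mv1 e, h1]
      simp only [Sys.rest, Bool.false_eq_true, if_false] at h3 ⊢
      rw [e2, q] at h3
      simpa [dcd, Sys.lt] using h3

theorem rdx_ok (F : s.Fit) {p : ℕ} {st : Bool → Sto s} {f : Bool} (hp : p ≤ x.length)
    (hw : s.LW (st false)) (h2 : s.Irr (s.lt (st false)).tail.reverse)
    (h3 : s.Red x ((s.lt (st false)).reverse ++ s.lt (st true) ++ s.rest x f 0 p))
    (r : Wd m × Wd m) (q1 : r ∈ s.R) (q2 : r.1.reverse <+: (s.lt (st false)).take s.k)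
    (i : Fin (s.k + 1)) (hi : i.1 = min (r.1.length - 1) s.k) :
    Gd x p st (.W f i (bl s.k r.2.reverse), 0, some (false, none)) := by
  obtain ⟨⟨t, e⟩, -⟩ := List.prefix_take_iff.1 q2
  have n : 0 < r.1.length := List.length_pos_iff.2 fun z => by simpa [z] using F.red r q1
  have l1 := F.len r q1
  have l2 := lt_len (st false)
  rw [← e, List.length_append, List.length_reverse] at l2
  have e1 : i.1 = r.1.length - 1 := by omega
  have e2 : (bl s.k r.2.reverse).1 = r.2.reverse := bl_val (by simpa using l1.2)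
  intro d
  refine ⟨lw_tail hw, ?_, ?_, ?_⟩
  · change i.1 ≤ (st false).tail.length
    rw [List.length_tail]
    omega
  · change s.Irr (s.lt (st false).tail).tail.reverse
    rw [lt_tail]
    exact irr_tail h2
  · change s.Red x (((s.lt (st false).tail).drop i.1).reverse ++
      (bl s.k r.2.reverse).1.reverse ++ s.lt (st true) ++ s.rest x f 0 (min (move p 0) x.length))
    rw [mv0 hp, e1, e2, lt_tail, List.drop_tail, Nat.sub_add_cancel n, ← e,
      List.drop_left' List.length_reverse, List.reverse_reverse]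
    refine Relation.ReflTransGen.tail h3
      ⟨r, q1, t.reverse, s.lt (st true) ++ s.rest x f 0 p, ?_, by simp⟩
    rw [← e]
    simp

theorem idle_ok (F : s.Fit) {p : ℕ} {st : Bool → Sto s} {f : Bool} (hp : p ≤ x.length)
    (hw : s.LW (st false)) (h2 : s.Irr (s.lt (st false)).tail.reverse)
    (h3 : s.Red x ((s.lt (st false)).reverse ++ s.lt (st true) ++ s.rest x f 0 p)) :
    Gd x p st (s.idle f x[p]? fun σ => (st σ).head?.map Prod.fst) := by
  have w := wn_eq hw
  unfold Sys.idle
  beta_reduce
  by_cases k : s.Rdx (s.wn ((st false).head?.map Prod.fst))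
  · rw [dif_pos k]
    exact rdx_ok F hp hw h2 h3 _ k.choose_spec.1 (w ▸ k.choose_spec.2) _ rfl
  rw [dif_neg k, w]
  rw [w] at k
  have h4 := irr_full F h2 k
  cases e : st true with
  | cons b R =>
    intro d
    refine ⟨hw, h4, ?_⟩
    change s.Red x ((s.lt (st false)).reverse ++ [b.1.1.headD 0] ++ s.lt (st true).tail ++
      s.rest x f 0 (min (move p 0) x.length))
    rw [mv0 hp, e]
    rw [e] at h3
    simpa [Sys.lt] using h3
  | nil =>
    cases f with
    | false => exact rd_ok F hp hw ⟨e, h4, by simpa [e, Sys.lt] using h3⟩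
    | true =>
      intro d
      refine ⟨hw, (s.lt (st false)).reverse, by simpa [e, Sys.rest, Sys.lt] using h3, h4, ?_⟩
      rw [decide_eq_true_iff, List.reverse_eq_iff]
      have := F.ly
      refine ⟨fun q => ?_, fun q => by
        rw [q]; exact List.take_of_length_le (by simpa using this.le)⟩
      have q' := congrArg List.length q
      rw [List.length_take, List.length_reverse] at q'
      rwa [List.take_of_length_le (by omega)] at q

theorem nx_ok (F : s.Fit) {p : ℕ} {st : Bool → Sto s} {q : St m s.k} (hp : p ≤ x.length)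
    (hw : s.LW (st false)) (h : s.IvQ x p (st false) (st true) q) :
    Gd x p st (s.nx q x[p]? fun σ => (st σ).head?.map Prod.fst) := by
  have k1 : 0 < s.k := Nat.zero_lt_of_lt F.ly
  cases q with
  | C c => exact rd_ok F hp hw h
  | D b => exact fun d => ⟨hw, h⟩
  | H f a =>
    obtain ⟨j, e⟩ := Nat.exists_eq_succ_of_ne_zero k1.ne'
    have e1 : (bl s.k (a :: s.wn ((st false).head?.map Prod.fst))).1 =
        (a :: s.lt (st false)).take s.k := by
      rw [wn_eq hw]
      simp [bl, e, List.take_take]
    have e2 : ∀ d : ℕ, s.lt ((bl s.k (a :: s.wn ((st false).head?.map Prod.fst)), d) :: st false) =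
        a :: s.lt (st false) := fun d => by
      change (bl s.k _).1.headD 0 :: s.lt (st false) = _
      rw [e1, e]
      rfl
    intro d
    refine ⟨⟨e1.trans (by rw [e2]), hw⟩, Nat.zero_le _, h.1, ?_⟩
    change s.Red x (((s.lt ((_, d) :: st false)).drop 0).reverse ++ (bl s.k []).1.reverse ++
      s.lt (st true) ++ s.rest x f 0 (min (move p 0) x.length))
    rw [mv0 hp, e2]
    simpa [bl] using h.2
  | W f i r =>
    obtain ⟨h1, h2, h3⟩ := h
    obtain ⟨r, hr⟩ := r
    simp only [Sys.nx]
    split_ifs with k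
    · intro d
      refine ⟨lw_tail hw, ?_, ?_, ?_⟩
      · change i.1 - 1 ≤ (st false).tail.length
        rw [List.length_tail]
        omega
      · change s.Irr (s.lt (st false).tail).tail.reverse
        rw [lt_tail]
        exact irr_tail h2
      · change s.Red x (((s.lt (st false).tail).drop (i.1 - 1)).reverse ++ r.reverse ++
          s.lt (st true) ++ s.rest x f 0 (min (move p 0) x.length))
        rw [mv0 hp, lt_tail, List.drop_tail, Nat.sub_add_cancel k]
        exact h3
    · rw [Nat.eq_zero_of_not_pos k] at h3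
      cases r with
      | nil => exact idle_ok F hp hw h2 (by simpa using h3)
      | cons a r =>
        intro d
        refine ⟨hw, Nat.zero_le _, h2, ?_⟩
        change s.Red x (((s.lt (st false)).drop 0).reverse ++ (bl s.k r).1.reverse ++
          ((bl s.k [a]).1.headD 0 :: s.lt (st true)) ++ s.rest x f 0 (min (move p 0) x.length))
        rw [mv0 hp, bl_val (Nat.le_of_succ_le hr), bl_val (l := [a]) k1]
        simpa using h3

end Sinv

theorem sinv : SinvS := by
  intro m s x F t
  induction t with
  | zero =>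
    refine ⟨Nat.zero_le _, trivial, Nat.zero_le _, ?_, ?_⟩
    · rintro v ⟨p, hp, a, b, e, -⟩
      have e1 : p.1 = [] := by
        have : a ++ p.1 ++ b = [] := e.symm
        simp_all
      simpa [e1] using F.red p hp
    · change s.Red x ([] ++ (bl s.k s.t₁.reverse).1.reverse ++ [] ++ s.rest x false 0 0)
      rw [Sinv.bl_val (by simpa using F.l₁)]
      simpa [Sys.rest, Sys.Red] using Relation.ReflTransGen.refl
  | succ t ih =>
    rw [PD.run, iterate_succ_apply', ← PD.run]
    generalize s.pd.run x t = c at ih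
    unfold PD.step
    split_ifs
    · exact ih
    · obtain ⟨a, ha, this⟩ : ∃ a : s.Act, s.pd.δ c.q (fun i => (decide (c.head i = 0), x[c.head i]?))
          (fun σ => (c.st σ).head?.map Prod.fst) = (a.1, fun _ => a.2.1, a.2.2) ∧
          Sinv.Gd x (c.head (0 : Fin 1)) c.st a := ⟨_, rfl, Sinv.nx_ok F ih.1 ih.2.1 ih.2.2⟩
      refine ⟨min_le_right _ _, ?_⟩
      simp only [ha]
      obtain ⟨q, v, _ | ⟨σ, _ | b⟩⟩ := a
      exacts [this 0, this 0, this _]

end Pool.Agent.MP_1a6d78_lc.CR
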