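import Pool.Agent.MP_1a6d78_lc.CR.SSpec

/-! PROJECT CR, row SPOT: the potential of the rewriting automaton. -/

namespace Pool.Agent.MP_1a6d78_lc.CR

open Classical ED Function

noncomputable section

namespace Spot

def ap {Γ : Type} (st : Bool → List (Γ × ℕ)) (d : ℕ) :
    Option (Bool × Option Γ) → Bool → List (Γ × ℕ)
  | none => st
  | some (σ, some b) => update st σ ((b, d) :: st σ)
  | some (σ, none) => update st σ (st σ).tail

theorem step_st (A : PD) (x : List Bool) (c : A.Cfg) (h : ¬(A.out c.q).isSome = true) :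
    (A.step x c).st = ap c.st (A.step x c).d (A.δ c.q (fun i => (decide (c.head i = 0),
      x[c.head i]?)) fun s => (c.st s).head?.map Prod.fst).2.2 := by
  unfold PD.step
  rw [if_neg h]
  dsimp only
  generalize (A.δ c.q (fun i => (decide (c.head i = 0), x[c.head i]?))
    fun s => (c.st s).head?.map Prod.fst) = a
  rcases a with ⟨_, _, _ | ⟨σ, _ | b⟩⟩ <;> rfl

variable {m : ℕ} (s : Sys m)

def T (q : St m s.k) (st : Bool → List (BL m s.k × ℕ)) : ℕ :=
  s.wq (st false) q + ((st false).map fun b => s.wy false b.1).sum +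
    ((st true).map fun b => s.wy true b.1).sum

def ex : St m s.k → ℕ
  | .W f _ _ => if f = true then 1 else s.Wb + 1
  | .H f _ => if f = true then 1 else s.Wb + 1
  | .C _ => s.Wb + 1
  | .D _ => 0

/-- The action `a` makes the potential smaller. -/
def Dn (x : List Bool) (q : St m s.k) (p : ℕ) (st : Bool → List (BL m s.k × ℕ)) (d : ℕ)
    (a : s.Act) : Prop :=
  T s a.1 (ap st d a.2.2) + s.Wb * (x.length - min (move p a.2.1) x.length) + ex s a.1 <
      T s q st + s.Wb * (x.length - p) + ex s q ∧
    (st true ≠ [] → T s a.1 (ap st d a.2.2) < T s q st)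

variable {s}

theorem bl_val {k : ℕ} {l : Wd m} (h : l.length ≤ k) : (bl k l).1 = l := List.take_of_length_le h

theorem bl_hd {k : ℕ} (h : 0 < k) (a : Fin (m + 1)) (l : Wd m) : (bl k (a :: l)).1.headD 0 = a := by
  obtain ⟨k, rfl⟩ : ∃ j, k = j + 1 := ⟨k - 1, by omega⟩
  rfl

theorem phi_le (a : Fin (m + 1)) : 4 * s.k * s.φ a ≤ 4 * s.k * ∑ a, s.φ a :=
  Nat.mul_le_mul_left _ (Finset.single_le_sum (fun _ _ => Nat.zero_le _) (Finset.mem_univ a))

theorem one_le (a : Fin (m + 1)) : 4 * s.k * s.φ a + 6 ≤ s.Wb := by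
  have := phi_le (s := s) a
  unfold Sys.Wb
  rw [add_mul]
  omega

theorem sum_le (r : BL m s.k) : (r.1.map fun a => 4 * s.k * s.φ a + 3).sum + 6 ≤ s.Wb := by
  have h := List.sum_le_card_nsmul (r.1.map fun a => 4 * s.k * s.φ a + 3)
    (4 * s.k * ∑ a, s.φ a + 3) fun y hy => by
      obtain ⟨a, -, rfl⟩ := List.mem_map.1 hy
      exact Nat.add_le_add_right (phi_le a) 3
  rw [List.length_map, smul_eq_mul] at h
  have h1 := Nat.mul_le_mul_right (4 * s.k * ∑ a, s.φ a + 3) r.2
  unfold Sys.Wb
  rw [add_mul]
  omega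

theorem wq_bd (L : List (BL m s.k × ℕ)) (q : St m s.k) : 1 ≤ s.wq L q ∧ s.wq L q + 2 ≤ s.Wb := by
  cases q with
  | W f i r => have := sum_le r; simp only [Sys.wq]; omega
  | H f a => have := one_le (s := s) a; simp only [Sys.wq]; omega
  | C c => have := one_le (s := s) c; simp only [Sys.wq]; omega
  | D b => have := one_le (s := s) 0; simp only [Sys.wq]; omega

theorem kpos (h : s.Fit) (a : Fin (m + 1)) : 1 ≤ 4 * s.k * s.φ a :=
  Nat.mul_pos (by have := h.ly; omega) (h.pos a)

theorem sum_a (l : Wd m) : (l.map fun a => 4 * s.k * s.φ a + 3).sum =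
    4 * s.k * (l.map s.φ).sum + 3 * l.length := by
  induction l with
  | nil => simp
  | cons a l ih => simp only [List.map_cons, List.sum_cons, ih, List.length_cons]; ring

theorem sum_b (h : s.Fit) (l : Wd m) : (l.map fun a => 4 * s.k * s.φ a - 1).sum + l.length =
    4 * s.k * (l.map s.φ).sum := by
  induction l with
  | nil => simp
  | cons a l ih =>
    have := kpos h a
    simp only [List.map_cons, List.sum_cons, List.length_cons, mul_add]
    omega

theorem redex (h : s.Fit) {p : Wd m × Wd m} (hp : p ∈ s.R) :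
    (p.2.reverse.map fun a => 4 * s.k * s.φ a + 3).sum ≤
      (p.1.reverse.map fun a => 4 * s.k * s.φ a - 1).sum := by
  rw [List.map_reverse, List.map_reverse, List.sum_reverse, List.sum_reverse, sum_a]
  have h1 := sum_b h p.1
  have h2 := Nat.mul_le_mul_left (4 * s.k) (Nat.succ_le_of_lt (h.red p hp))
  have h3 := h.len p hp
  rw [Nat.mul_succ] at h2
  omega

variable {x : List Bool} {q : St m s.k} {p d : ℕ} {st : Bool → List (BL m s.k × ℕ)}

theorem dn_of {a : s.Act} (hp : p ≤ x.length) (h0 : a.2.1 = 0) (h1 : ex s a.1 = ex s q)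
    (h2 : T s a.1 (ap st d a.2.2) < T s q st) : Dn s x q p st d a := by
  refine ⟨?_, fun _ => h2⟩
  rw [h0, h1]
  have : min (move p 0) x.length = p := min_eq_left hp
  rw [this]
  omega

theorem dn_rd (hp : p ≤ x.length) (hR : st true = []) (h1 : s.wq (st false) q = 1)
    (h2 : ex s q = s.Wb + 1) (c : Fin (m + 1)) : Dn s x q p st d (s.rd c x[p]?) := by
  refine ⟨?_, fun h => (h hR).elim⟩
  have key : ∀ b, x[p]? = some b →
      s.Wb * (x.length - p) = s.Wb * (x.length - min (move p 1) x.length) + s.Wb := fun b hb => by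
    have h3 := (List.getElem?_eq_some_iff.1 hb).1
    have h4 : min (move p 1) x.length = p + 1 := min_eq_left h3
    rw [h4, ← Nat.mul_succ]
    congr 1
    omega
  have h5 := one_le (s := s) c
  rw [h2]
  rcases hx : x[p]? with _ | _ | _
  · have h3 := wq_bd (st false) (St.W true 0 (bl s.k s.t₂.reverse))
    have h4 : min (move p 0) x.length = p := min_eq_left hp
    simp only [Sys.rd, ap, T, ex, h1, h4, if_true]
    omega
  · rw [key _ hx]
    unfold T
    rw [h1]
    simp only [Sys.rd, ap, ex, Sys.wq, Bool.false_eq_true, if_false]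
    omega
  · rw [key _ hx]
    unfold T
    rw [h1]
    simp only [Sys.rd, ap, ex, Sys.wq]
    omega

theorem dn_red (h : s.Fit) (hp : p ≤ x.length) (hL : s.LW (st false)) {f : Bool}
    {i j : Fin (s.k + 1)} {r : BL m s.k} (h1 : s.wq (st false) (.W f i r) = 1) {y : Wd m × Wd m}
    (k1 : y ∈ s.R) (k2 : y.1.reverse <+: s.wn ((st false).head?.map Prod.fst))
    (hj : j.1 = min (y.1.length - 1) s.k) :
    Dn s x (.W f i r) p st d (.W f j (bl s.k y.2.reverse), 0, some (false, none)) := by
  refine dn_of hp rfl rfl ?_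
  have k3 := redex h k1
  have k4 := h.len y k1
  have k5 : y.1.reverse ≠ [] := fun e => by
    have := h.red y k1
    rw [List.reverse_eq_nil_iff.1 e] at this
    simp at this
  rcases hst : st false with _ | ⟨b, L⟩
  · rw [hst] at k2
    exact (k5 (List.prefix_nil.1 k2)).elim
  rw [hst] at k2 hL
  have k6 : y.1.reverse <+: s.lt (b :: L) := by
    refine k2.trans ?_
    show b.1.1 <+: _
    rw [hL.1]
    exact List.take_prefix _ _
  have k7 := List.prefix_iff_eq_take.1 k6
  have k8 : 0 < y.1.length := by
    rw [← List.length_reverse]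
    exact List.length_pos_iff.2 k5
  have k9 : j.1 + 1 = y.1.reverse.length := by
    rw [List.length_reverse]
    omega
  rw [k7, ← k9] at k3
  have k10 := kpos h (b.1.1.headD 0)
  have k11 : (bl s.k y.2.reverse).1 = y.2.reverse := bl_val (by simpa using k4.2)
  unfold T
  rw [h1]
  simp only [ap, update_self, hst, List.tail_cons, Sys.wq, k11, ne_eq, Bool.true_eq_false,
    not_false_eq_true, update_of_ne, List.map_cons, List.sum_cons, Sys.wy, bn]
  simp only [Sys.lt, List.map_cons, List.take_succ_cons, List.sum_cons] at k3 ⊢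
  omega

theorem dn_idle (h : s.Fit) (hp : p ≤ x.length) (hL : s.LW (st false)) (f : Bool)
    (i : Fin (s.k + 1)) (r : BL m s.k) (hr : r.1 = []) :
    Dn s x (.W f i r) p st d (s.idle f x[p]? fun σ => (st σ).head?.map Prod.fst) := by
  have h1 : s.wq (st false) (.W f i r) = 1 := by simp [Sys.wq, hr]
  unfold Sys.idle
  by_cases h2 : s.Rdx (s.wn ((st false).head?.map Prod.fst))
  · rw [dif_pos h2]
    exact dn_red h hp hL h1 h2.choose_spec.1 h2.choose_spec.2 rfl
  rw [dif_neg h2]
  dsimp only
  rcases hst : st true with _ | ⟨b, L⟩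
  · simp only [List.head?_nil, Option.map_none]
    split_ifs with h3
    · refine ⟨?_, fun k => (k hst).elim⟩
      have h4 : min (move p 0) x.length = p := min_eq_left hp
      unfold T
      rw [h1]
      simp only [ap, h4, ex, h3, if_true, Sys.wq]
      omega
    · exact dn_rd hp hst h1 (by simp [ex, h3]) 0
  · simp only [List.head?_cons, Option.map_some]
    refine dn_of hp rfl rfl ?_
    unfold T
    rw [h1]
    simp [ap, hst, Sys.wq, Sys.wy, bn]
    omega

theorem dn_nx (h : s.Fit) (hp : p ≤ x.length) (hL : s.LW (st false))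
    (hq : s.IvQ x p (st false) (st true) q) (ho : s.ou q = none) :
    Dn s x q p st d (s.nx q x[p]? fun σ => (st σ).head?.map Prod.fst) := by
  have hk : 0 < s.k := by have := h.ly; omega
  cases q with
  | W f i r =>
    rw [Sys.nx]
    split_ifs with h1
    · refine dn_of hp rfl rfl ?_
      have h2 := hq.1
      rcases hst : st false with _ | ⟨b, L⟩
      · rw [hst, List.length_nil] at h2
        omega
      have h3 := kpos h (b.1.1.headD 0)
      obtain ⟨j, hj⟩ : ∃ j, i.1 = j + 1 := ⟨i.1 - 1, by omega⟩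
      simp only [T, ap, update_self, hst, List.tail_cons, Sys.wq, ne_eq, Bool.true_eq_false,
        not_false_eq_true, update_of_ne, List.map_cons, List.sum_cons, Sys.wy, bn, hj, Sys.lt,
        List.take_succ_cons, Nat.add_sub_cancel]
      omega
    · split
      · rename_i a r' hr
        refine dn_of hp rfl rfl ?_
        have h2 : (bl s.k r').1 = r' := bl_val (by have := r.2; rw [hr] at this; simp at this; omega)
        have h3 : i.1 = 0 := by omega
        simp only [T, ap, update_self, Sys.wq, ne_eq, Bool.false_eq_true, not_false_eq_true,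
          update_of_ne, List.map_cons, List.sum_cons, Sys.wy, bn, h2, h3, hr, bl_hd hk,
          Fin.val_zero, List.take_zero, List.map_nil, List.sum_nil, if_true]
        omega
      · rename_i hr
        exact dn_idle h hp hL f i r hr
  | H f a =>
    refine dn_of hp rfl rfl ?_
    have h2 : (bl s.k ([] : Wd m)).1 = [] := bl_val (Nat.zero_le _)
    simp only [Sys.nx, T, ap, update_self, Sys.wq, ne_eq, Bool.true_eq_false, not_false_eq_true,
      update_of_ne, List.map_cons, List.sum_cons, Sys.wy, bn, h2, bl_hd hk, List.map_nil,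
      List.sum_nil, Bool.false_eq_true, if_false]
    omega
  | C c => exact dn_rd hp hq.1 rfl rfl c
  | D b => simp [Sys.ou] at ho

/-- The potential. -/
def Tm (x : List Bool) (c : s.pd.Cfg) : ℕ :=
  T s c.q c.st + s.Wb * (x.length - c.head (0 : Fin 1)) + ex s c.q

theorem step (h : s.Fit) {c : s.pd.Cfg} (hc : s.Iv x c) (ho : s.ou c.q = none) :
    Tm x (s.pd.step x c) < Tm x c ∧
      (c.st true ≠ [] → T s (s.pd.step x c).q (s.pd.step x c).st < T s c.q c.st) := by
  have h1 : ¬(s.pd.out c.q).isSome = true := by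
    show ¬(s.ou c.q).isSome = true
    simp [ho]
  have h2 := dn_nx (d := (s.pd.step x c).d) h hc.1 hc.2.1 hc.2.2 ho
  have h3 : (s.pd.step x c).st = ap c.st (s.pd.step x c).d (s.nx c.q x[c.head (0 : Fin 1)]?
      fun σ => (c.st σ).head?.map Prod.fst).2.2 := step_st s.pd x c h1
  have h4 : (s.pd.step x c).q =
      (s.nx c.q x[c.head (0 : Fin 1)]? fun σ => (c.st σ).head?.map Prod.fst).1 := by
    unfold PD.step
    rw [if_neg h1]
    rfl
  have h5 : (s.pd.step x c).head (0 : Fin 1) = min (move (c.head (0 : Fin 1))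
      (s.nx c.q x[c.head (0 : Fin 1)]? fun σ => (c.st σ).head?.map Prod.fst).2.1) x.length := by
    unfold PD.step
    rw [if_neg h1]
    rfl
  unfold Tm
  rw [h3, h4, h5]
  exact h2

end Spot

open Spot in
theorem spot : SpotS := fun m s x h hI => by
  have hs : ∀ t, s.pd.run x (t + 1) = s.pd.step x (s.pd.run x t) := fun t =>
    iterate_succ_apply' _ _ _
  refine ⟨⟨fun t => (wq_bd _ _).1, fun t => (Nat.le_add_right _ 2).trans (wq_bd _ _).2,
    fun σ a => ?_, fun t ho hR => ?_⟩, ?_⟩
  · have := one_le (s := s) (a.1.headD 0)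
    unfold Sys.wy bn
    split_ifs <;> omega
  · rw [hs]
    exact (step h (hI t) ho).2 hR
  have key : ∀ t, (s.pd.out (s.pd.run x t).q).isSome = true ∨
      Tm x (s.pd.run x t) + t ≤ Tm x (s.pd.run x 0) := fun t => by
    induction t with
    | zero => exact .inr le_rfl
    | succ t ih =>
      by_cases k : (s.pd.out (s.pd.run x t).q).isSome = true
      · left
        rw [hs, PD.step, if_pos k]
        exact k
      · right
        have h1 := (step h (hI t) (Option.not_isSome_iff_eq_none.1 k)).1
        have h2 := ih.resolve_left k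
        rw [hs]
        omega
  refine (key _).resolve_right fun k => ?_
  have h1 := wq_bd (s := s) [] (.W false 0 (bl s.k s.t₁.reverse))
  have h2 : Tm x (s.pd.run x 0) =
      s.wq [] (.W false 0 (bl s.k s.t₁.reverse)) + 0 + 0 + s.Wb * x.length + (s.Wb + 1) := rfl
  rw [h2, mul_add] at k
  omega

end

end Pool.Agent.MP_1a6d78_lc.CR
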