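import Pool.Agent.MP_1a6d78_lc.CR.SSpec

/-! PROJECT CR, row SRS: the theorem for string rewriting systems. -/

namespace Pool.Agent.MP_1a6d78_lc.CR

open Classical ED Function

namespace Srs

theorem num (W : ℕ) : ∃ a, ∀ n, W * (n + 3) ≤ (n + 2) ^ a ∧ ∀ t ≤ W * (n + 3),
    2 * W * (Nat.log 2 (W * (2 * t + 1)) + 1) ≤ (Nat.log 2 n + 2) ^ a := by
  have hW : W ≤ 2 ^ W := Nat.lt_two_pow_self.le
  refine ⟨2 * W * (2 * W + 4) + 1 + (W + 2), fun n => ⟨?_, fun t ht => ?_⟩⟩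
  · refine le_trans ?_ (Nat.pow_le_pow_right (by omega) (Nat.le_add_left (W + 2) _))
    rw [pow_add]
    exact Nat.mul_le_mul (hW.trans (Nat.pow_le_pow_left (by omega) W)) (by nlinarith)
  · have h1 := Nat.lt_pow_succ_log_self one_lt_two n
    generalize Nat.log 2 n = L at *
    have h2 : 0 < 2 ^ L := by positivity
    have h3 : t ≤ 2 ^ W * (8 * 2 ^ L) := ht.trans (Nat.mul_le_mul hW (by omega))
    have h4 : 0 < 2 ^ W * (8 * 2 ^ L) := by positivity
    have h5 : W * (2 * t + 1) ≤ 2 ^ (2 * W + L + 5) :=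
      (Nat.mul_le_mul hW (show _ ≤ 4 * (2 ^ W * (8 * 2 ^ L)) by omega)).trans_eq (by ring)
    have h6 := (Nat.log_mono_right (b := 2) h5).trans_eq (Nat.log_pow one_lt_two _)
    refine le_trans ?_ (Nat.pow_le_pow_right (by omega) (Nat.le_add_right _ (W + 2)))
    calc _ ≤ 2 * W * ((2 * W + 4) * (L + 2)) := Nat.mul_le_mul_left _ (by nlinarith)
      _ = 2 * W * (2 * W + 4) * (L + 2) := by ring
      _ ≤ _ := Nat.mul_le_mul_right _
        (Nat.lt_two_pow_self.le.trans (Nat.pow_le_pow_left (by omega) _))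

theorem fix (A : PD) (x : List Bool) {T t : ℕ} (h : (A.out (A.run x T).q).isSome = true)
    (k : T ≤ t) : A.run x t = A.run x T := by
  obtain ⟨j, rfl⟩ := Nat.exists_eq_add_of_le' k
  rw [PD.run, iterate_add_apply]
  exact iterate_fixed (f := A.step x) (x := A.run x T) (if_pos h) j

theorem dcd_rep {m : ℕ} (a : Fin (m + 1)) (l : List Bool) (k : ℕ) (c : Fin (m + 1))
    (h : c.val + k = a.val) : dcd c (List.replicate k true ++ false :: l) = a :: dcd 0 l := by
  induction k generalizing c with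
  | zero => rw [← Fin.ext h]; rfl
  | succ k ih =>
    refine ih (c + 1) ?_
    rw [Fin.val_add_one_of_lt (Fin.lt_def.2 (by have := a.2; rw [Fin.val_last]; omega))]
    omega

theorem dcd_un {m : ℕ} (w : Wd m) : dcd 0 (unary (w.map Fin.val)) = w := by
  induction w with
  | nil => rfl
  | cons a w ih =>
    rw [unary, List.map_cons, List.flatMap_cons, List.append_assoc, List.singleton_append,
      dcd_rep a _ _ 0 (zero_add _)]
    exact congrArg _ ih

end Srs

theorem crS (hA : AuxS) (hS : ShrS) (hI : SinvS) (hP : SpotS) : CrS := by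
  intro m R φ h1 h2 t₁ t₂ y
  obtain ⟨k, hk⟩ : ∃ k, k = ∑ p ∈ R, (p.1.length + p.2.length) := ⟨_, rfl⟩
  obtain ⟨s, hs, f⟩ : ∃ s : Sys m, (s.R = R ∧ s.t₁ = t₁ ∧ s.t₂ = t₂ ∧ s.y = y) ∧ s.Fit :=
    ⟨⟨R, φ, t₁, t₂, y, k + t₁.length + t₂.length + y.length + 1⟩, ⟨rfl, rfl, rfl, rfl⟩, h2, h1,
      fun p hp => by
        have := Finset.single_le_sum (f := fun p : Wd m × Wd m => p.1.length + p.2.length)
          (fun _ _ => Nat.zero_le _) hp
        dsimp only at *
        omega, by dsimp only; omega, by dsimp only; omega, by dsimp only; omega⟩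
  obtain ⟨rfl, rfl, rfl, rfl⟩ := hs
  obtain ⟨a, ha⟩ := Srs.num s.Wb
  have k1 := fun x => hP m s x f (hI m s x f)
  have k2 : ∀ x : List Bool, (s.pd.out (s.pd.run x ((x.length + 2) ^ a)).q).isSome = true :=
    fun x => Srs.fix _ x (k1 x).2 (ha _).1 ▸ (k1 x).2
  obtain ⟨M, c, hM⟩ := hA s.pd a fun x => ⟨k2 x, fun t => by
    rcases le_total t (s.Wb * (x.length + 3)) with e | e
    · exact (hS _ x _ _ _ (k1 x).1 t).trans ((ha _).2 t e)
    · rw [Srs.fix _ x (k1 x).2 e]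
      exact (hS _ x _ _ _ (k1 x).1 _).trans ((ha _).2 _ le_rfl)⟩
  refine ⟨M, c, fun x => ?_⟩
  have k3 := k2 x
  have k4 := (hI m s x f ((x.length + 2) ^ a)).2.2
  obtain ⟨k5, k6⟩ := hM x
  generalize (s.pd.run x ((x.length + 2) ^ a)).q = q at k3 k4 k5
  cases q with
  | D b =>
    obtain ⟨u, u1, u2, u3⟩ := k4
    refine ⟨b, k5, k6, fun w hw hc => u3.trans ?_⟩
    rw [Sys.Red, hw, Srs.dcd_un] at u1
    exact ⟨fun e => e ▸ u1, fun e => (hc u u1 e).cases_head.elim id fun ⟨v, hv, _⟩ =>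
      absurd hv (u2 v)⟩
  | _ => exact absurd k3 Bool.false_ne_true

end Pool.Agent.MP_1a6d78_lc.CR
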