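import Pool.Agent.MP_1a6d78_lc.CR.All
import Pool.Agent.MP_1a6d78_lc.CR.Shr
import Pool.Agent.MP_1a6d78_lc.CR.Sinv
import Pool.Agent.MP_1a6d78_lc.CR.Spot
import Pool.Agent.MP_1a6d78_lc.CR.Srs
import Pool.Agent.MP_1a6d78_lc.CR.Cvl
import Pool.Agent.MP_1a6d78_lc.CR.Cvr
import Pool.Agent.MP_1a6d78_lc.CR.Cvm
import Pool.Agent.MP_1a6d78_lc.CR.Eqv

/-! PROJECT CR: the characterisation and its instance. -/

namespace Pool.Agent.MP_1a6d78_lc.CR

theorem cr_main : CrS := crS aux_main shr sinv spot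

theorem eqv_main : EqvS := eqv aux_main (cvm cvl cvr depS)

end Pool.Agent.MP_1a6d78_lc.CR
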