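import Pool.Agent.MP_1a6d78_lc.CR.Spec

/-! PROJECT CR, row NORM: normalisation of one side. -/

namespace Pool.Agent.MP_1a6d78_lc.CR

open Classical ED PR SC Function

namespace NormA

theorem mark {π : Pm} {M : Mc} {b t H : ℕ} {r : Rec} {Y : List ℕ} {n : ℕ}
    (h : LI π M b t H r Y n) {σ : Bool} {y : ℕ} (hy : y = 0 ∨ π.Mk Y σ y) :
    y ≤ gt Y 0 ∧ Expl M (π.scr Y) y := by
  rcases hy.elim .inl (h.inv.mrk σ y) with rfl | e
  exacts [⟨Nat.zero_le _, expl_zero (h.inv.inst.gd 0 h.inv.inst.pos)⟩, ⟨(mem_st e.1).2.1, e.2⟩]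

theorem ws_eq (hR : RstS) {π : Pm} {M : Mc} {b t H : ℕ} {r : Rec} {Y : List ℕ} {n : ℕ}
    (h : LI π M b t H r Y n) (hK : 3 ≤ π.K) (hP : H ≤ π.P) {σ : Bool} {y : ℕ}
    (hy : y = 0 ∨ π.Mk Y σ y) : π.wsC Y σ y (gt Y 0) = ws (tr M (π.scr Y)) σ y (gt Y 0) :=
  (hR π M Y n H h.rep hK h.inv.inst.gd h.inv.inst.pos hP).ws σ y _
    ((mark h hy).1.trans_lt h.inv.lt) h.inv.lt (mark h hy).2 h.inv.ex

end NormA

open NormA in
theorem normS (hN : Nm1S) (hP : PruneS) (hR : RstS) (hL : LstS) : NormS := by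
  intro π M g d b t H r Y n c h hn h2 σ
  have hK : 3 ≤ π.K := by have := c.hK; omega
  have hH : H < π.P := by have := c.ht; have := h.inv.inst.le; omega
  obtain ⟨-, z1, z2⟩ := gr_spec (gt Y 0) fun z => π.Mk Y σ z ∧ 4 * b ≤ π.wsC Y σ z (gt Y 0)
  change π.zz b Y σ = 0 ∨ π.Mk Y σ (π.zz b Y σ) ∧ 4 * b ≤ π.wsC Y σ (π.zz b Y σ) _ at z1
  change ∀ z ≤ gt Y 0, _ → z ≤ π.zz b Y σ at z2
  unfold Pm.norm
  generalize π.zz b Y σ = z at z1 z2 ⊢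
  obtain ⟨e1, e2, e3, e4⟩ := (hL π Y n h.rep hK (by omega)).2.1 σ z
  generalize π.prune Y σ z = Y₁ at e1 e2 e3 e4 ⊢
  have e0 := e3 0 (by omega)
  obtain ⟨p1, p2, p3, p4⟩ := hP M π.G b t H r _ _ _ h.inv σ z (π.Mk Y₁)
    (z1.imp_right fun ⟨k, k'⟩ => ⟨k, ws_eq hR h hK hH.le (.inr k) ▸ k'⟩)
    (fun y k k' => z2 y (mark h (.inr k)).1 ⟨k, (ws_eq hR h hK hH.le (.inr k)).symm ▸ k'⟩) e4
  have l : LI π M b t H r Y₁ n := ⟨e2, by rwa [e1, e0], (e3 1 (by omega)).trans h.res⟩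
  unfold Pm.nm0
  rw [ws_eq hR l hK hH.le p2.1]
  split_ifs with k
  · rw [e1, e0] at k
    exact ⟨⟨l.rep.mono (Nat.le_add_right _ _), l.inv, l.res⟩, e0,
      fun k' => absurd ((e3 2 (by omega)).trans h2) k', fun _ => by rw [e1]; exact ⟨rfl, p3 k, p4⟩⟩
  · have tp : π.top Y₁ σ = z := ((hL π Y₁ n e2 hK (by omega)).2.2 σ fun y hy => by
      have := (mark l (.inr hy)).1
      have := l.inv.lt
      omega).uniq p2
    have N := hN π M g d b t H r Y₁ n c l hn σ (by rw [tp]; omega)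
    rw [tp] at N
    generalize π.nm1 g b (π.dmpC (π.rst Y₁ (win (π.top Y₁))) (gt Y₁ 0) σ) Y₁ σ z = Y₂ at N ⊢
    refine ⟨N.li, N.hd.trans e0, fun k' => ?_, fun k' => ?_⟩
    · have := N.cl k'
      rwa [e1, e0] at this
    · have := N.op k'
      rw [e1, e0] at this
      exact ⟨this.1, this.2.1, fun k'' => this.2.2 (p4 k'')⟩

end Pool.Agent.MP_1a6d78_lc.CR
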