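import Pool.Agent.MP_1a6d78_lc.CR.Basic

/-! PROJECT CR: lists as scripts. -/

namespace Pool.Agent.MP_1a6d78_lc.CR

open Classical ED PR Function SC

/-- The fields of the record fit into the digits. -/
structure Rec.Bd (P : ℕ) (r : Rec) : Prop where
  tm : r.tm < P
  act : r.act < 3
  qb : r.qb < P
  qa : r.qa < P
  m : r.m < P
  pk : r.pk < 3
  gen : r.gen < P
  md : r.md < 4

theorem bn_le (s : Bool) : bn s ≤ 1 := by cases s <;> simp [bn]

theorem bn_iff (s : Bool) : decide (bn s = 1) = s := by cases s <;> simp [bn]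

theorem dec_bd {P : ℕ} (h : 0 < P) (e : ℕ) : (dec P e).Bd P :=
  ⟨Nat.mod_lt _ h, Nat.mod_lt _ (by omega), Nat.mod_lt _ h, Nat.mod_lt _ h, Nat.mod_lt _ h,
    Nat.mod_lt _ (by omega), Nat.mod_lt _ h, Nat.mod_lt _ (by omega)⟩

theorem dig {P a : ℕ} (b : ℕ) (h : a < P) : (a + P * b) / P = b ∧ (a + P * b) % P = a :=
  ⟨by rw [Nat.add_mul_div_left _ _ (by omega), Nat.div_eq_of_lt h, zero_add],
    by rw [Nat.add_mul_mod_self_left, Nat.mod_eq_of_lt h]⟩

theorem dec_enc {P : ℕ} {r : Rec} (h : r.Bd P) : dec P (enc P r) = r := by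
  obtain ⟨w, hw⟩ : ∃ w, w = r.tm + P * (r.m + P * (r.gen + P * (r.qb + P * r.qa))) := ⟨_, rfl⟩
  have h1 := bn_le r.nv
  have h2 := bn_le r.sd
  have h3 := h.act
  have h4 := h.pk
  have h5 := h.md
  have e : enc P r = bn r.nv + 2 * bn r.sd + 4 * r.act + 12 * r.pk + 36 * r.md + 144 * w := by
    rw [hw]; rfl
  have e0 : enc P r / 144 = w := by omega
  have e1 : enc P r % 2 = bn r.nv := by omega
  have e2 : enc P r / 2 % 2 = bn r.sd := by omega
  unfold dec
  rw [e0, e1, e2, hw, bn_iff, bn_iff, (dig _ h.tm).1, (dig _ h.tm).2, (dig _ h.m).1, (dig _ h.m).2,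
    (dig _ h.gen).1, (dig _ h.gen).2, (dig _ h.qb).1, (dig _ h.qb).2, Nat.mod_eq_of_lt h.qa]
  exact Rec.ext rfl rfl (by dsimp only; omega) rfl rfl rfl rfl (by dsimp only; omega) rfl
    (by dsimp only; omega)

theorem dig_lt {P a b c : ℕ} (h : a < P) (k : b < c) : a + P * b < P * c :=
  lt_of_lt_of_le (by rw [Nat.mul_succ]; omega) (Nat.mul_le_mul_left P k)

theorem enc_lt {π : Pm} {r : Rec} (h : r.Bd π.P) : enc π.P r < π.β := by
  have h1 := bn_le r.nv
  have h2 := bn_le r.sd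
  have h3 := h.act
  have h4 := h.pk
  have h5 := h.md
  have h6 := dig_lt h.tm (dig_lt h.m (dig_lt h.gen (dig_lt h.qb h.qa)))
  have e : π.P * (π.P * (π.P * (π.P * π.P))) = π.P ^ 5 := by ring
  unfold enc Pm.β
  omega

theorem dec_sam (P e : ℕ) {a d : ℕ} (ha : a < 3) (hd : d < 4) :
    dec P (sam e a d) = { dec P e with act := a, md := d } := by
  obtain ⟨x, hx⟩ : ∃ x, x = e % 4 := ⟨_, rfl⟩
  obtain ⟨y, hy⟩ : ∃ y, y = e / 12 % 3 := ⟨_, rfl⟩
  obtain ⟨w, hw⟩ : ∃ w, w = e / 144 := ⟨_, rfl⟩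
  have h1 : x < 4 := by omega
  have h2 : y < 3 := by omega
  have e : sam e a d = x + 4 * a + 12 * y + 36 * d + 144 * w := by rw [hx, hy, hw]; rfl
  have e0 : (x + 4 * a + 12 * y + 36 * d + 144 * w) / 144 = w := by clear hx hy hw e; omega
  have e1 : (x + 4 * a + 12 * y + 36 * d + 144 * w) % 2 = x % 2 := by clear hx hy hw e; omega
  have e2 : (x + 4 * a + 12 * y + 36 * d + 144 * w) / 2 % 2 = x / 2 := by clear hx hy hw e; omega
  have e3 : (x + 4 * a + 12 * y + 36 * d + 144 * w) / 4 % 3 = a := by clear hx hy hw e; omega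
  have e4 : (x + 4 * a + 12 * y + 36 * d + 144 * w) / 12 % 3 = y := by clear hx hy hw e; omega
  have e5 : (x + 4 * a + 12 * y + 36 * d + 144 * w) / 36 % 4 = d := by clear hx hy hw e; omega
  unfold dec
  rw [e, e0, e1, e2, e3, e4, e5, hx, hy, hw]
  clear e0 e1 e2 e3 e4 e5 e
  exact Rec.ext (by dsimp only; congr 2; omega) rfl rfl (by dsimp only; congr 2; omega) rfl rfl rfl
    rfl rfl rfl

theorem sam_lt {π : Pm} {e a d : ℕ} (h : e < π.β) (ha : a < 3) (hd : d < 4) : sam e a d < π.β := by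
  unfold sam
  unfold Pm.β at h ⊢
  omega

theorem mkE_nv (P : ℕ) (σ : Bool) (z : ℕ) : (dec P (mkE σ z)).nv = false := by
  have := bn_le σ
  simp only [dec, mkE, decide_eq_false_iff_not]
  omega

theorem mkE_ne (σ : Bool) (z : ℕ) : mkE σ z ≠ 0 := by unfold mkE; omega

theorem mkE_inj {σ τ : Bool} {z y : ℕ} (h : mkE σ z = mkE τ y) : σ = τ ∧ z = y := by
  cases σ <;> cases τ <;> simp [mkE, bn] at h ⊢ <;> omega

theorem P_le (π : Pm) : π.P ≤ π.β := by
  unfold Pm.β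
  have := Nat.le_self_pow (n := 5) (by omega) π.P
  omega

theorem mkE_lt {π : Pm} (σ : Bool) {z : ℕ} (h : z < π.P) : mkE σ z < π.β := by
  have := bn_le σ
  have := Nat.le_self_pow (n := 5) (by omega) π.P
  unfold mkE Pm.β
  omega

namespace Pm

variable {π : Pm} {l l' : List ℕ} {k : ℕ}

theorem lk_cases (π : Pm) (l : List ℕ) (u : ℕ) : (π.lk l u = 0 ∧ ∀ i < π.K, ¬π.Is l u i) ∨
    ∃ i < π.K, π.Is l u i ∧ π.lk l u = gt l i ∧ ∀ j < i, ¬π.Is l u j := by
  unfold lk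
  split_ifs with h
  · have k : lst π.K (π.Is l u) ∈ {m | m < π.K ∧ π.Is l u m} := Nat.sInf_mem h
    exact .inr ⟨_, k.1, k.2, rfl, fun j hj e =>
      Nat.notMem_of_lt_sInf hj (show j ∈ {m | m < π.K ∧ π.Is l u m} from ⟨hj.trans k.1, e⟩)⟩
  · exact .inl ⟨rfl, fun i hi e => h ⟨i, hi, e⟩⟩

theorem lk_none {u : ℕ} (h : ∀ i < π.K, ¬π.Is l u i) : π.lk l u = 0 :=
  if_neg fun ⟨i, hi, e⟩ => h i hi e

theorem lk_first {u i : ℕ} (hi : i < π.K) (h : π.Is l u i) (h' : ∀ j < i, ¬π.Is l u j) :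
    π.lk l u = gt l i := by
  rcases π.lk_cases l u with k | ⟨j, -, k1, k2, k3⟩
  · exact absurd h (k.2 i hi)
  · rcases lt_trichotomy i j with e | e | e
    exacts [absurd h (k3 i e), e ▸ k2, absurd k1 (h' j e)]

theorem scr_nil {u : ℕ} (h : ¬(π.scr l u).nv = true) : π.scr l u = nil := by
  unfold scr at h ⊢
  rcases π.lk_cases l u with k | ⟨j, -, k1, k2, -⟩
  · rw [k.1, dec_zero]
  · exact absurd (k2 ▸ k1.2.1) h

theorem scr_tm {u : ℕ} (h : (π.scr l u).nv = true) : (π.scr l u).tm = u := by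
  unfold scr at h ⊢
  rcases π.lk_cases l u with k | ⟨j, -, k1, k2, -⟩
  · rw [k.1, dec_zero] at h; exact absurd h Bool.false_ne_true
  · exact k2 ▸ k1.2.2

theorem lk_lt (hP : 0 < π.P) (h : π.Rep l k) (u : ℕ) : π.lk l u < π.β := by
  rcases π.lk_cases l u with k | ⟨j, -, k1, k2, -⟩
  · rw [k.1]; exact hP.trans_le (P_le π)
  · exact k2 ▸ h.2.1 j k1.1

/-- Entrywise change: an entry for time `u` keeps its time if `c u` and is dropped otherwise. -/
theorem lk_map (φ : ℕ → ℕ) (c : ℕ → Prop) (h : ∀ i < π.K, 3 ≤ i → gt l' i = φ (gt l i))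
    (h1 : ∀ e, (dec π.P e).nv = true → c (dec π.P e).tm →
      (dec π.P (φ e)).nv = true ∧ (dec π.P (φ e)).tm = (dec π.P e).tm)
    (h2 : ∀ e, ¬((dec π.P e).nv = true ∧ c (dec π.P e).tm) → ¬(dec π.P (φ e)).nv = true) (u : ℕ) :
    π.lk l' u = if (π.scr l u).nv = true ∧ c u then φ (π.lk l u) else 0 := by
  have key : ∀ i < π.K, π.Is l' u i ↔ π.Is l u i ∧ c u := fun i hi => by
    constructor
    · rintro ⟨k1, k2, k3⟩
      rw [h i hi k1] at k2 k3
      have k4 := not_not.1 fun n => h2 _ n k2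
      rw [(h1 _ k4.1 k4.2).2] at k3
      exact ⟨⟨k1, k4.1, k3⟩, k3 ▸ k4.2⟩
    · rintro ⟨⟨k1, k2, k3⟩, k4⟩
      have := h1 _ k2 (k3 ▸ k4)
      exact ⟨k1, h i hi k1 ▸ this.1, h i hi k1 ▸ this.2.trans k3⟩
  rcases π.lk_cases l u with k | ⟨j, hj, k1, k2, k3⟩
  · rw [lk_none fun i hi e => k.2 i hi ((key i hi).1 e).1, if_neg]
    simp [scr, k.1, dec_zero, nil]
  · by_cases e : c u
    · rw [if_pos ⟨by rw [scr, k2]; exact k1.2.1, e⟩, k2, ← h j hj k1.1]
      exact lk_first hj ((key j hj).2 ⟨k1, e⟩) fun i hi n => k3 i hi ((key i (by omega)).1 n).1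
    · rw [if_neg fun n => e n.2]
      exact lk_none fun i hi n => e ((key i hi).1 n).2

theorem scr_congr (h : ∀ i < π.K, 3 ≤ i → gt l' i = gt l i) : π.scr l' = π.scr l := by
  funext u
  have := lk_map (π := π) id (fun _ => True) h (fun _ k _ => ⟨k, rfl⟩) (fun _ k n => k ⟨n, trivial⟩) u
  by_cases e : (π.scr l u).nv = true
  · rw [scr, this, if_pos ⟨e, trivial⟩]; rfl
  · rw [scr, this, if_neg fun n => e n.1, dec_zero, scr_nil e]

theorem Mk_congr (h : ∀ i < π.K, 3 ≤ i → gt l' i = gt l i) : π.Mk l' = π.Mk l := by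
  funext σ z
  exact propext (exists_congr fun i => and_congr_right fun hi => and_congr_right fun k => by
    rw [h i hi k])

theorem Rep.mono {k' : ℕ} (h : π.Rep l k) (e : k ≤ k') : π.Rep l k' :=
  ⟨h.1.trans e, h.2.1, fun i hi => h.2.2 i (e.trans hi)⟩

/-- A table whose entries are small and vanish where those of `l` vanish. -/
theorem Rep.tab (h : π.Rep l k) (hP : 0 < π.P) (f : ℕ → ℕ)
    (h1 : ∀ i, 3 ≤ i → gt l i < π.β → f i < π.β) (h2 : ∀ i, 3 ≤ i → gt l i = 0 → f i = 0) :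
    π.Rep (tab π.K f) k := by
  refine ⟨h.1, fun i hi => ?_, fun i hi => ?_⟩ <;> rcases lt_or_ge i π.K with e | e
  · rw [gt_tab _ e]; exact h1 i hi (h.2.1 i hi)
  · rw [gt_tab' _ e]; exact hP.trans_le (P_le π)
  · rw [gt_tab _ e]; exact h2 i (h.1.trans hi) (h.2.2 i hi)
  · exact gt_tab' _ e

theorem gt_seth (l : List ℕ) (i v : ℕ) {e : ℕ} (h : e < π.K) :
    gt (π.seth l i v) e = if e = i then v else gt l e := gt_tab _ h

theorem seth_ent (l : List ℕ) {i : ℕ} (v : ℕ) (h : i < 3) :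
    ∀ e < π.K, 3 ≤ e → gt (π.seth l i v) e = gt l e :=
  fun e he k => by rw [gt_seth l i v he, if_neg (by omega)]

theorem scr_seth (l : List ℕ) {i : ℕ} (v : ℕ) (h : i < 3) : π.scr (π.seth l i v) = π.scr l :=
  scr_congr (seth_ent l v h)

theorem Mk_seth (l : List ℕ) {i : ℕ} (v : ℕ) (h : i < 3) : π.Mk (π.seth l i v) = π.Mk l :=
  Mk_congr (seth_ent l v h)

theorem Rep.seth (h : π.Rep l k) (hP : 0 < π.P) {i : ℕ} (v : ℕ) (hi : i < 3) :
    π.Rep (π.seth l i v) k :=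
  h.tab hP _ (fun e he n => by rwa [if_neg (by omega)]) fun e he n => by rwa [if_neg (by omega)]

theorem gt_trn (l : List ℕ) {e : ℕ} (h : e < π.K) (k : gt l e ≤ π.β) : gt (π.trn l) e = gt l e :=
  (gt_tab _ h).trans (min_eq_left k)

theorem trn_le (l : List ℕ) : ∀ a ∈ π.trn l, a ≤ π.β := fun a ha => by
  obtain ⟨e, -, rfl⟩ := List.mem_map.1 ha
  exact min_le_right _ _

theorem scr_trn (h : π.Rep l k) : π.scr (π.trn l) = π.scr l :=
  scr_congr fun i hi e => gt_trn l hi (h.2.1 i e).le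

theorem Mk_trn (h : π.Rep l k) : π.Mk (π.trn l) = π.Mk l :=
  Mk_congr fun i hi e => gt_trn l hi (h.2.1 i e).le

theorem Rep.trn (h : π.Rep l k) (hP : 0 < π.P) : π.Rep (π.trn l) k :=
  h.tab hP _ (fun _ _ n => (min_le_left _ _).trans_lt n) fun _ _ n => by rw [n, Nat.zero_min]

theorem qry_le (b t : ℕ) (l : List ℕ) : ∀ a ∈ π.qry b t l, a ≤ π.β := fun a ha => by
  obtain ⟨e, -, rfl⟩ := List.mem_map.1 ha
  exact min_le_right _ _

theorem qry_ent (h : π.Rep l k) (b t : ℕ) : ∀ e < π.K, 3 ≤ e → gt (π.qry b t l) e = gt l e :=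
  fun e he n => by
    rw [qry, gt_tab _ he, if_neg (by omega), if_neg (by omega), min_eq_left (h.2.1 e n).le]

theorem Rep.qry (h : π.Rep l k) (hP : 0 < π.P) (b t : ℕ) : π.Rep (π.qry b t l) k :=
  h.tab hP _ (fun e he n => by
      rw [if_neg (by omega), if_neg (by omega)]; exact (min_le_left _ _).trans_lt n)
    fun e he n => by rw [if_neg (by omega), if_neg (by omega), n, Nat.zero_min]

theorem qry_zero (l : List ℕ) {b : ℕ} (t : ℕ) (h : 0 < π.K) (k : b ≤ π.β) :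
    gt (π.qry b t l) 0 = b := by rw [qry, gt_tab _ h, if_pos rfl, min_eq_left k]

theorem qry_one (l : List ℕ) (b : ℕ) {t : ℕ} (h : 1 < π.K) (k : t ≤ π.β) :
    gt (π.qry b t l) 1 = t := by rw [qry, gt_tab _ h, if_neg (by omega), if_pos rfl, min_eq_left k]

theorem gt_ins (a : ℕ) (l : List ℕ) {e : ℕ} (h : e < π.K) : gt (π.ins a l) e =
    if e < 3 then gt l e else if e = 3 then a else gt l (e - 1) := gt_tab _ h

theorem Rep.ins (h : π.Rep l k) {a : ℕ} (ha : a < π.β) : π.Rep (π.ins a l) (k + 1) := by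
  have := h.1
  refine ⟨by omega, fun i hi => ?_, fun i hi => ?_⟩ <;> rcases lt_or_ge i π.K with e | e
  · rw [gt_ins a l e, if_neg (by omega)]
    split_ifs
    exacts [ha, h.2.1 _ (by omega)]
  · rw [Pm.ins, gt_tab' _ e]; omega
  · rw [gt_ins a l e, if_neg (by omega), if_neg (by omega)]; exact h.2.2 _ (by omega)
  · exact gt_tab' _ e

theorem Mk_ins (h : π.Rep l k) (hk : k < π.K) (a : ℕ) (σ : Bool) (z : ℕ) :
    π.Mk (π.ins a l) σ z ↔ π.Mk l σ z ∨ a = mkE σ z := by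
  have := h.1
  constructor
  · rintro ⟨i, hi, k1, k2⟩
    rw [gt_ins a l hi, if_neg (by omega)] at k2
    split_ifs at k2
    exacts [.inr k2, .inl ⟨i - 1, by omega, by omega, k2⟩]
  · rintro (⟨i, hi, k1, k2⟩ | e)
    · have : i < k := lt_of_not_ge fun n => mkE_ne σ z (k2 ▸ h.2.2 i n)
      exact ⟨i + 1, by omega, by omega, by
        rw [gt_ins a l (by omega), if_neg (by omega), if_neg (by omega)]; exact k2⟩
    · exact ⟨3, by omega, le_rfl, by rw [gt_ins a l (by omega)]; simpa using e⟩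

theorem scr_ins (h : π.Rep l k) (hk : k < π.K) (a u : ℕ) : π.scr (π.ins a l) u =
    if (dec π.P a).nv = true ∧ (dec π.P a).tm = u then dec π.P a else π.scr l u := by
  have h3 := h.1
  have e3 : gt (π.ins a l) 3 = a := by rw [gt_ins a l (by omega)]; simp
  have e4 : ∀ i, 3 ≤ i → i + 1 < π.K → gt (π.ins a l) (i + 1) = gt l i := fun i k1 k2 => by
    rw [gt_ins a l k2, if_neg (by omega), if_neg (by omega)]; rfl
  unfold scr
  split_ifs with c
  · rw [lk_first (i := 3) (by omega) ⟨le_rfl, by rwa [e3]⟩ fun j hj n => by have := n.1; omega, e3]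
  · have key : ∀ i < π.K, π.Is (π.ins a l) u i → 4 ≤ i ∧ π.Is l u (i - 1) := fun i hi n => by
      have k1 := n.1
      have k2 : i ≠ 3 := fun e => c (by have := n.2; rwa [e, e3] at this)
      obtain ⟨i, rfl⟩ : ∃ j, i = j + 1 := ⟨i - 1, by omega⟩
      exact ⟨by omega, by omega, by have := n.2; rwa [e4 i (by omega) hi] at this⟩
    congr 1
    rcases π.lk_cases l u with k | ⟨j, hj, k1, k2, k3⟩
    · rw [k.1, lk_none fun i hi n => k.2 _ (by omega) (key i hi n).2]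
    · have : j < k := lt_of_not_ge fun n => by
        have := k1.2.1
        rw [h.2.2 j n, dec_zero] at this
        exact Bool.false_ne_true this
      have e := e4 j k1.1 (by omega)
      rw [k2, ← e]
      exact lk_first (by omega) ⟨by have := k1.1; omega, by rw [e]; exact k1.2⟩ fun i hi n =>
        k3 (i - 1) (by have := (key i (by omega) n).1; omega) (key i (by omega) n).2

end Pm

end Pool.Agent.MP_1a6d78_lc.CR
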