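import Pool.Agent.MP_1a6d78_lc.CR.Spec
import Mathlib.Data.Set.Finite.List

/-! PROJECT CR: string rewriting systems as automata with two pushdown stores. -/

namespace Pool.Agent.MP_1a6d78_lc.CR

open Classical ED Function

noncomputable section

abbrev Wd (m : ℕ) : Type := List (Fin (m + 1))

/-- One rewriting step. -/
def Rw {m : ℕ} (R : Finset (Wd m × Wd m)) (u v : Wd m) : Prop :=
  ∃ p ∈ R, ∃ a b, u = a ++ p.1 ++ b ∧ v = a ++ p.2 ++ b

abbrev BL (m k : ℕ) : Type := {l : Wd m // l.length ≤ k}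

def bl {m : ℕ} (k : ℕ) (l : Wd m) : BL m k := ⟨l.take k, List.length_take_le k l⟩

/-- `W f i r`: pop `i` symbols from the left store, then push `r` on the right store; `H f a`: push
`a` on the left store; `C c`: a letter is being read; `D b`: halt.  `f`: the input is used up. -/
inductive St (m k : ℕ) : Type
  | W (f : Bool) (i : Fin (k + 1)) (r : BL m k)
  | H (f : Bool) (a : Fin (m + 1))
  | C (c : Fin (m + 1))
  | D (b : Bool)

instance (m k : ℕ) : Finite (BL m k) := (List.finite_length_le (Fin (m + 1)) k).to_subtype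

instance (m k : ℕ) : Finite (St m k) :=
  Finite.of_surjective
    (fun s : (Bool × Fin (k + 1) × BL m k) ⊕ (Bool × Fin (m + 1)) ⊕ Fin (m + 1) ⊕ Bool =>
      match s with
      | .inl y => St.W y.1 y.2.1 y.2.2
      | .inr (.inl y) => St.H y.1 y.2
      | .inr (.inr (.inl c)) => St.C c
      | .inr (.inr (.inr b)) => St.D b)
    fun s => match s with
      | .W f i r => ⟨.inl (f, i, r), rfl⟩
      | .H f a => ⟨.inr (.inl (f, a)), rfl⟩
      | .C c => ⟨.inr (.inr (.inl c)), rfl⟩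
      | .D b => ⟨.inr (.inr (.inr b)), rfl⟩

structure Sys (m : ℕ) where
  R : Finset (Wd m × Wd m)
  φ : Fin (m + 1) → ℕ
  t₁ : Wd m
  t₂ : Wd m
  y : Wd m
  k : ℕ

/-- The word coded by a string of bits; `c` ones have been read. -/
def dcd {m : ℕ} : Fin (m + 1) → List Bool → Wd m
  | _, [] => []
  | c, true :: l => dcd (c + 1) l
  | c, false :: l => c :: dcd 0 l

namespace Sys

variable {m : ℕ} (s : Sys m)

structure Fit : Prop where
  red : ∀ p ∈ s.R, (p.2.map s.φ).sum < (p.1.map s.φ).sum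
  pos : ∀ a, 0 < s.φ a
  len : ∀ p ∈ s.R, p.1.length ≤ s.k ∧ p.2.length ≤ s.k
  l₁ : s.t₁.length ≤ s.k
  l₂ : s.t₂.length ≤ s.k
  ly : s.y.length < s.k

/-- The last letters of the left store, last first. -/
def wn (o : Option (BL m s.k)) : Wd m := (o.map Subtype.val).getD []

def Rdx (l : Wd m) : Prop := ∃ p ∈ s.R, p.1.reverse <+: l

abbrev Act : Type := St m s.k × SignType × Option (Bool × Option (BL m s.k))

def rd (c : Fin (m + 1)) : Option Bool → s.Act
  | some true => (.C (c + 1), 1, none)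
  | some false => (.H false c, 1, none)
  | none => (.W true 0 (bl s.k s.t₂.reverse), 0, none)

def idle (f : Bool) (o : Option Bool) (z : Bool → Option (BL m s.k)) : s.Act :=
  if h : s.Rdx (s.wn (z false)) then
    (.W f ⟨min (h.choose.1.length - 1) s.k, Nat.lt_succ_of_le (min_le_right _ _)⟩
      (bl s.k h.choose.2.reverse), 0, some (false, none))
  else
    match z true with
    | some b => (.H f (b.1.headD 0), 0, some (true, none))
    | none => if f = true then (.D (decide (s.wn (z false) = s.y.reverse)), 0, none) else s.rd 0 o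

def nx : St m s.k → Option Bool → (Bool → Option (BL m s.k)) → s.Act
  | .W f i r, o, z =>
    if 0 < i.1 then (.W f ⟨i.1 - 1, (Nat.sub_le _ _).trans_lt i.2⟩ r, 0, some (false, none))
    else
      match r.1 with
      | a :: r' => (.W f 0 (bl s.k r'), 0, some (true, some (bl s.k [a])))
      | [] => s.idle f o z
  | .H f a, _, z => (.W f 0 (bl s.k []), 0, some (false, some (bl s.k (a :: s.wn (z false)))))
  | .C c, o, _ => s.rd c o
  | .D b, _, _ => (.D b, 0, none)

def ou : St m s.k → Option Bool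
  | .D b => some b
  | _ => none

/-- Leftmost reduction. -/
def pd : PD where
  k := 1
  Q := St m s.k
  Γ := BL m s.k
  finQ := inferInstance
  finΓ := inferInstance
  start := .W false 0 (bl s.k s.t₁.reverse)
  out := s.ou
  δ q v z := ((s.nx q (v 0).2 z).1, fun _ => (s.nx q (v 0).2 z).2.1, (s.nx q (v 0).2 z).2.2)

/-- The letters on a store, top first. -/
def lt (L : List (BL m s.k × ℕ)) : Wd m := L.map fun b => b.1.1.headD 0

/-- Every symbol of the left store holds the last letters. -/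
def LW : List (BL m s.k × ℕ) → Prop
  | [] => True
  | b :: L => b.1.1 = (s.lt (b :: L)).take s.k ∧ LW L

def Irr (u : Wd m) : Prop := ∀ v, ¬Rw s.R u v

def Red (x : List Bool) (u : Wd m) : Prop :=
  Relation.ReflTransGen (Rw s.R) (s.t₁ ++ dcd 0 x ++ s.t₂) u

def rest (x : List Bool) (f : Bool) (c : Fin (m + 1)) (p : ℕ) : Wd m :=
  if f = true then [] else dcd c (x.drop p) ++ s.t₂

def IvQ (x : List Bool) (p : ℕ) (L R : List (BL m s.k × ℕ)) : St m s.k → Prop
  | .W f i r => i.1 ≤ L.length ∧ s.Irr (s.lt L).tail.reverse ∧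
      s.Red x (((s.lt L).drop i.1).reverse ++ r.1.reverse ++ s.lt R ++ s.rest x f 0 p)
  | .H f a => s.Irr (s.lt L).reverse ∧ s.Red x ((s.lt L).reverse ++ [a] ++ s.lt R ++ s.rest x f 0 p)
  | .C c => R = [] ∧ s.Irr (s.lt L).reverse ∧ s.Red x ((s.lt L).reverse ++ s.rest x false c p)
  | .D b => ∃ u, s.Red x u ∧ s.Irr u ∧ (b = true ↔ u = s.y)

def Iv (x : List Bool) (c : s.pd.Cfg) : Prop :=
  c.head (0 : Fin 1) ≤ x.length ∧ s.LW (c.st false) ∧
    s.IvQ x (c.head (0 : Fin 1)) (c.st false) (c.st true) c.q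

def wq (L : List (BL m s.k × ℕ)) : St m s.k → ℕ
  | .W _ i r => 1 + ((r.1.map fun a => 4 * s.k * s.φ a + 3).sum -
      (((s.lt L).take i.1).map fun a => 4 * s.k * s.φ a - 1).sum)
  | .H _ a => 4 * s.k * s.φ a + 2
  | _ => 1

def wc (c : s.pd.Cfg) : ℕ := s.wq (c.st false) c.q

def wy (σ : Bool) (b : BL m s.k) : ℕ := 4 * s.k * s.φ (b.1.headD 0) + 2 * bn σ

def Wb : ℕ := 3 + (s.k + 1) * (4 * s.k * ∑ a, s.φ a + 3)

end Sys

/-- The weight of a configuration. -/
def PD.tot (A : PD) (wc : A.Cfg → ℕ) (wy : Bool → A.Γ → ℕ) (c : A.Cfg) : ℕ :=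
  wc c + ((c.st false).map fun b => wy false b.1).sum + ((c.st true).map fun b => wy true b.1).sum

/-- The automaton shrinks on input `x` whenever the right store is not empty. -/
structure PD.Shr (A : PD) (x : List Bool) (wc : A.Cfg → ℕ) (wy : Bool → A.Γ → ℕ) (W : ℕ) :
    Prop where
  pos : ∀ t, 1 ≤ wc (A.run x t)
  le : ∀ t, wc (A.run x t) ≤ W
  sym : ∀ σ a, wy σ a ≤ W
  lt : ∀ t, A.out (A.run x t).q = none → (A.run x t).st true ≠ [] →
    A.tot wc wy (A.run x (t + 1)) < A.tot wc wy (A.run x t)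

/-- SHR -/
def ShrS : Prop := ∀ (A : PD) x wc wy W, A.Shr x wc wy W →
  ∀ t, (A.run x t).d ≤ 2 * W * (Nat.log 2 (W * (2 * t + 1)) + 1)

/-- SINV -/
def SinvS : Prop := ∀ (m : ℕ) (s : Sys m) x, s.Fit → ∀ t, s.Iv x (s.pd.run x t)

/-- SPOT -/
def SpotS : Prop := ∀ (m : ℕ) (s : Sys m) x, s.Fit → (∀ t, s.Iv x (s.pd.run x t)) →
  s.pd.Shr x s.wc s.wy s.Wb ∧ (s.pd.out (s.pd.run x (s.Wb * (x.length + 3))).q).isSome = true

/-- The theorem for string rewriting systems. -/
def CrS : Prop := ∀ (m : ℕ) (R : Finset (Wd m × Wd m)) (φ : Fin (m + 1) → ℕ),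
  (∀ a, 0 < φ a) → (∀ p ∈ R, (p.2.map φ).sum < (p.1.map φ).sum) → ∀ t₁ t₂ y : Wd m,
    ∃ (M : TM) (c : ℕ), ∀ x : List Bool, ∃ r : Bool,
      M.out (M.run x ((x.length + 2) ^ c)).q = some r ∧
      (∀ t i, (M.run x t).head i ≤ (Nat.log 2 x.length + 2) ^ c) ∧
      ∀ w : Wd m, x = unary (w.map Fin.val) →
        (∀ u, Relation.ReflTransGen (Rw R) (t₁ ++ w ++ t₂) u →
          Relation.ReflTransGen (Rw R) (t₁ ++ w ++ t₂) y → Relation.ReflTransGen (Rw R) u y) →
        (r = true ↔ Relation.ReflTransGen (Rw R) (t₁ ++ w ++ t₂) y)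

end

end Pool.Agent.MP_1a6d78_lc.CR
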