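import Pool.Agent.MP_1a6d78_lc.CR.Rep

/-! PROJECT CR: the statements of the rows. -/

namespace Pool.Agent.MP_1a6d78_lc.CR

open Classical ED PR SC Function

noncomputable section

/-! ### Theory -/

/-- GEO: side of a live symbol, nested cuts, a popped symbol and its pop. -/
structure GeoK (M : Mc) (S : ℕ → Rec) (H : ℕ) : Prop where
  q : ∀ s p σ e, s < H → (tr M S s).nv = true → p ∈ st M S s σ → p < s → rt (tr M S) s e p = σ
  n : ∀ s p σ u, s < H → (tr M S s).nv = true → p ∈ st M S s σ → rs (tr M S) σ s u →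
    rs (tr M S) σ p u
  p : ∀ s e c, s < H → c < H → (tr M S s).nv = true → (tr M S c).nv = true → (tr M S c).act = 2 →
    ¬On (tr M S) s c → (c < s ∨ s = 0 ∨ s ∈ st M S c (!e)) →
      rt (tr M S) s e (tr M S c).m = rt (tr M S) s e c

def GeoS : Prop := ∀ M G S H, Gd M G S H → GeoK M S H

/-- The restriction by `k` is sound below `H'`. -/
structure RHyp (M : Mc) (G : ℕ) (S : ℕ → Rec) (H : ℕ) (k : Cut) (H' : ℕ) : Prop where
  gd : Gd M G S H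
  l₁ : k.s₁ < H
  l₂ : k.s₂ < H
  x₁ : Expl M S k.s₁
  x₂ : Expl M S k.s₂
  le : H' ≤ H
  c : ∀ c < H', (tr M S c).nv = true → (tr M S c).act = 2 → ¬k.K (tr M S) c →
    (k.inn (tr M S) c ↔ k.kp (tr M S) (tr M S c).m)

structure ResK (M : Mc) (G : ℕ) (S S' : ℕ → Rec) (k : Cut) (H' : ℕ) : Prop where
  tr' : ∀ u < H', tr M S' u = k.img (tr M S) u (tr M S u) (vd u)
  st' : ∀ u < H', ∀ σ, st M S' u σ = (st M S u σ).filter fun p => decide (k.kp (tr M S) p)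
  gd : Gd M G S' H'
  nx : ∀ u, u + 1 = H' → ¬k.K (tr M S) H' → k.inn (tr M S) H' →
    (tr M S' H').nv = (tr M S H').nv ∧ (tr M S' H').act = (tr M S H').act ∧
      (tr M S' H').sd = (tr M S H').sd ∧
      (((tr M S H').act = 2 → hd (st M S' u (tr M S H').sd) = hd (st M S u (tr M S H').sd)) →
        tr M S' H' = tr M S H')

/-- RES -/
def ResS : Prop := ∀ M G S H k H', RHyp M G S H k H' → ResK M G S (restr k (tr M S) S) k H'

/-- KEPT: the cut of a step that is kept does not change. -/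
def KeptS : Prop := ∀ M G S H k H', RHyp M G S H k H' → ∀ s < H', (tr M S s).nv = true →
  (k.K (tr M S) s ∨ k.inn (tr M S) s) →
    (∀ e v, rt (tr M (restr k (tr M S) S)) s e v = rt (tr M S) s e v) ∧
    (∀ c, On (tr M (restr k (tr M S) S)) s c ↔ On (tr M S) s c) ∧
    (∀ c, On (tr M S) s c → k.K (tr M S) c ∨ k.inn (tr M S) c) ∧
    (Expl M S s → Expl M (restr k (tr M S) S) s)

/-- DMP -/
def DmpS : Prop := ∀ M G S h σ, Gd M G S (h + 1) → (S h).nv = true →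
  (∀ u < h, tr M (dmp S h σ) u = tr M S u) ∧
  (∀ u < h, 0 < u → Inst M G (dmp S h σ) u u ∧ sz M (dmp S h σ) u ≤ sz M S h) ∧
  ∀ j, 0 < j → ∃ H, Inst M G (dmp S h σ) (h + j) H ∧
    (tr M (dmp S h σ) H).m = (st M S h σ).getD (j - 1) 0 ∧ sz M (dmp S h σ) H ≤ 2 * sz M S h + 1

/-- The marks `z` are on their stacks after step `h`, with explicit paths. -/
structure WHyp (M : Mc) (G : ℕ) (S : ℕ → Rec) (t H h : ℕ) (z : Bool → ℕ) : Prop where
  inst : Inst M G S t H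
  lt : h < H
  ex : Expl M S h
  mrk : ∀ σ, z σ = 0 ∨ (z σ ∈ st M S h σ ∧ Expl M S (z σ))

/-- WKP: what a window keeps. -/
def WkpS : Prop := ∀ M G S t H h z, WHyp M G S t H h z →
  (∀ u, h ≤ u → (win z).inn (tr M S) u) ∧ (∀ p, h < p → (win z).kp (tr M S) p) ∧
  (∀ σ, ∀ p ∈ st M S h σ, (win z).kp (tr M S) p ↔ z σ < p) ∧
  ∀ H' ≤ H, (∀ u < H', h ≤ u → ∀ σ, z σ = 0 ∨ z σ ∈ st M S u σ) → RHyp M G S H (win z) H'

/-- WINA: the past of a window. -/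
def WinAS : Prop := ∀ M G S t H h z, WHyp M G S t H h z → ∀ W, W = restr (win z) (tr M S) S →
  Gd M G W (h + 1) ∧ (W h).nv = true ∧ (∀ σ, st M W h σ = (st M S h σ).filter (z σ < ·)) ∧
  sz M W h ≤ ws (tr M S) false (z false) h + ws (tr M S) true (z true) h + 2 * (G + 2) + 1 ∧
  ∀ s, (s = h ∨ ∃ σ, s = z σ ∨ (s ∈ st M S h σ ∧ z σ < s)) →
    ∀ c, On (tr M S) s c → ¬(S c).nv = true → tr M W c = tr M S c

/-- WINB: the future of a window. -/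
def WinBS : Prop := ∀ M G S t H h z, WHyp M G S t H h z → ∀ W, W = restr (win z) (tr M S) S →
  ∀ t', h < t' → t' ≤ t → ∃ H', h < H' ∧ H' ≤ H ∧ Inst M G W t' H' ∧
    sz M W H' ≤ sz M W h + fu M S h t' ∧
    (∀ u < H', h ≤ u → ∀ σ, z σ = 0 ∨ z σ ∈ st M S u σ) ∧
    (∀ s ≤ H', h ≤ s → s < H → (s = H' → ¬Stop (tr M W H')) → (tr M S s).nv = true →
      ∀ c, On (tr M S) s c → ¬(S c).nv = true → tr M W c = tr M S c) ∧
    ((Stop (tr M W H') ∧ z (tr M W H').sd ≠ 0 ∧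
        ∀ u, u + 1 = H' → hd (st M S u (tr M W H').sd) = z (tr M W H').sd) ∨
      (tr M W H' = tr M S H' ∧ (Stop (tr M S H') → z (tr M S H').sd = 0) ∧
        ∀ σ, z σ = 0 ∨ z σ ∈ st M S H' σ))

/-- CLO: a dead gap is closed. -/
def CloS : Prop := ∀ M G S t H h σ a a', Inst M G S t H → h < H → (tr M S h).nv = true →
  (a = h ∨ a ∈ st M S h σ) → (a' = 0 ∨ a' ∈ st M S h σ) → a' < a →
  (∀ p ∈ st M S h σ, p ≤ a' ∨ a ≤ p) → Expl M S a → Expl M S a' →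
  ∀ S', S' = restr (clo σ a' a) (tr M S) S →
    Inst M G S' t H ∧ st M S' h = st M S h ∧ (∀ u ≤ H, h < u → tr M S' u = tr M S u) ∧
    (∀ u ≤ H, (tr M S' u).nv = true → (tr M S u).nv = true ∧
      (On (tr M S) a u ∨ On (tr M S) a' u ∨ ¬(rs (tr M S) σ a' u ∧ ¬rs (tr M S) σ a u))) ∧
    ∀ s, (s = 0 ∨ s = h ∨ ∃ τ, s ∈ st M S h τ) →
      (∀ e v, rt (tr M S') s e v = rt (tr M S) s e v) ∧ (tr M S' s).gen = (tr M S s).gen ∧
        (Expl M S s → Expl M S' s)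

/-- POT: the potential along the run. -/
def PotS : Prop := ∀ M G S H h h', Gd M G S H → h ≤ h' → h' < H → (tr M S h).nv = true →
  (tr M S h').nv = true → Phi M G S H h' ≤ Phi M G S H h ∧
    ∀ σ z a, z ∈ st M S h σ → a ∈ st M S h σ → z < a → hd (st M S h' σ) = z →
      Phi M G S H h' + ws (tr M S) σ z a * ws (tr M S) σ a h ≤ Phi M G S H h

/-- PSL -/
def PslS : Prop := ∀ M S h σ z j, (z = 0 ∨ z ∈ st M S h σ) →
  z ≤ pS M S h σ z (j + 1) ∧ pS M S h σ z (j + 1) ≤ pS M S h σ z j ∧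
  (pS M S h σ z (j + 1) = z ∨ pS M S h σ z (j + 1) ∈ st M S h σ) ∧
  (∀ p ∈ st M S h σ, p ≤ pS M S h σ z (j + 1) ∨ pS M S h σ z j ≤ p) ∧
  (((st M S h σ).filter (z < ·)).length ≤ j → pS M S h σ z (j + 1) = z)

/-- PRUNE -/
def PruneS : Prop := ∀ M G b t H r S Z h, Inv M G b t H r S Z h → ∀ σ z (Z' : Bool → ℕ → Prop),
  (z = 0 ∨ (Z σ z ∧ 4 * b ≤ ws (tr M S) σ z h)) →
  (∀ y, Z σ y → 4 * b ≤ ws (tr M S) σ y h → y ≤ z) →
  (∀ τ y, Z' τ y ↔ Z τ y ∧ (τ = σ → y ≤ z)) →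
    Inv M G b t H r S Z' h ∧ Top Z' σ z ∧ (ws (tr M S) σ z h < 4 * b → Nrm M b S Z' h σ) ∧
      (Nrm M b S Z h (!σ) → Nrm M b S Z' h (!σ))

/-- PROBE -/
def ProbeS : Prop := ∀ M G b t H r S Z h, Inv M G b t H r S Z h → 2 * (G + 2) ≤ b →
  ∀ (z : Bool → ℕ) σ, (∀ τ, Top Z τ (z τ)) → ∀ D, D = dmp (restr (win z) (tr M S) S) h σ →
    (restr (win z) (tr M S) S h).nv = true ∧ ((st M S h σ).filter (z σ < ·)).length + 1 ≤ 64 * b ∧
    (∀ j, Src M G (64 * b) S D (pS M S h σ (z σ) j)) ∧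
    ∀ j, 0 < j → ∃ H', Inst M G D (h + j) H' ∧ sz M D H' ≤ 64 * b ∧
      (if (tr M D H').m = 0 then z σ else (tr M D H').m) = pS M S h σ (z σ) j

/-- CLOSE -/
def CloseS : Prop := ∀ M G b t H r S Z h, Inv M G b t H r S Z h → 2 * (G + 2) ≤ b →
  ∀ σ z j, Top Z σ z → Expl M S (pS M S h σ z j) → Expl M S (pS M S h σ z (j + 1)) →
    ws (tr M S) σ (pS M S h σ z j) h + 2 * b ≤ ws (tr M S) σ (pS M S h σ z (j + 1)) h →
    ∀ S', S' = restr (clo σ (pS M S h σ z (j + 1)) (pS M S h σ z j)) (tr M S) S →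
      Inv M G b t H r S' Z h ∧ Psi M G b S' H h + b * b ≤ Psi M G b S H h

/-- FLAG -/
def FlagS : Prop := ∀ M G b t H r S Z h, Inv M G b t H r S Z h →
  ∀ σ z i j (Z' : Bool → ℕ → Prop), Top Z σ z →
    b ≤ ws (tr M S) σ (pS M S h σ z (i + 1)) h → ws (tr M S) σ (pS M S h σ z (i + 1)) h < 3 * b →
    4 * b ≤ ws (tr M S) σ (pS M S h σ z (j + 1)) h →
    ws (tr M S) σ (pS M S h σ z (j + 1)) h < 6 * b → Expl M S (pS M S h σ z (j + 1)) →
    (∀ τ y, Z' τ y ↔ Z τ y ∨ (τ = σ ∧ y = pS M S h σ z (j + 1))) →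
      Inv M G b t H r S Z' h ∧ Nrm M b S Z' h σ ∧ (Nrm M b S Z h (!σ) → Nrm M b S Z' h (!σ))

/-- RUN -/
def RunS : Prop := ∀ M G b t H r S Z h, Inv M G b t H r S Z h → 2 * (G + 2) ≤ b →
  (∀ σ, Nrm M b S Z h σ) → ∀ z : Bool → ℕ, (∀ τ, Top Z τ (z τ)) →
  ∀ t', h < t' → t' ≤ t → fu M S h t' ≤ b → (t' < t → (tr M S t').nv = true ∧ b ≤ fu M S h t') →
  ∀ W, W = restr (win z) (tr M S) S → ∃ H', h < H' ∧ Inst M G W t' H' ∧ sz M W H' ≤ 64 * b ∧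
    (¬(Stop (tr M W H') ∧ z (tr M W H').sd ≠ 0) → (Stop (tr M W H') ∨ H' = t) → tr M W H' = r) ∧
    ∀ h', ((Stop (tr M W H') ∧ z (tr M W H').sd ≠ 0 ∧ h' < H' ∧ (tr M S h').nv = true ∧
        ∀ v < H', (tr M S v).nv = true → v ≤ h') ∨ (¬Stop (tr M W H') ∧ H' ≠ t ∧ h' = H')) →
      h' < H ∧ (tr M S h').nv = true ∧ Src M G (64 * b) S W h' ∧
        ∀ S', Ext M S S' → Expl M S' h' →
          Inv M G b t H r S' Z h' ∧ Psi M G b S' H h' + b * b ≤ Psi M G b S H h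

/-! ### Program -/

/-- RTC: explicit paths are read off the list. -/
def RtcS : Prop := ∀ (π : Pm) M l H s, Gd M π.G (π.scr l) H → H ≤ π.P → s < H →
  Expl M (π.scr l) s → (∀ c, π.onC l s c ↔ On (tr M (π.scr l)) s c) ∧
    ∀ e u, π.rtC l s e u ↔ rt (tr M (π.scr l)) s e u = true

/-- RST -/
structure RstK (π : Pm) (M : Mc) (l : List ℕ) (n H : ℕ) : Prop where
  ws : ∀ σ a b, a < H → b < H → Expl M (π.scr l) a → Expl M (π.scr l) b →
    π.wsC l σ a b = ws (tr M (π.scr l)) σ a b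
  rst : ∀ k : Cut, k.s₁ < H → k.s₂ < H → Expl M (π.scr l) k.s₁ → Expl M (π.scr l) k.s₂ →
    π.scr (π.rst l k) = restr k (tr M (π.scr l)) (π.scr l)
  rep : ∀ k, π.Rep (π.rst l k) n ∧ (∀ i < 3, gt (π.rst l k) i = gt l i) ∧
    ∀ σ z, π.Mk (π.rst l k) σ z ↔ π.Mk l σ z ∧ k.w = false

def RstS : Prop := ∀ (π : Pm) M l n H, π.Rep l n → 3 ≤ π.K → Gd M π.G (π.scr l) H → 0 < H →
  H ≤ π.P → RstK π M l n H

/-- LST -/
def LstS : Prop := ∀ (π : Pm) l n, π.Rep l n → 3 ≤ π.K → 0 < π.P →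
  (∀ h σ, (π.scr l h).nv = true → π.scr (π.dmpC l h σ) = dmp (π.scr l) h σ ∧
    π.Rep (π.dmpC l h σ) n ∧ ∀ τ z, ¬π.Mk (π.dmpC l h σ) τ z) ∧
  (∀ σ z, π.scr (π.prune l σ z) = π.scr l ∧ π.Rep (π.prune l σ z) n ∧
    (∀ i < 3, gt (π.prune l σ z) i = gt l i) ∧
    ∀ τ y, π.Mk (π.prune l σ z) τ y ↔ π.Mk l τ y ∧ (τ = σ → y ≤ z)) ∧
  ∀ σ, (∀ z, π.Mk l σ z → z ≤ π.P) → Top (π.Mk l) σ (π.top l σ)

/-- BS -/
def BsS : Prop := ∀ (π : Pm) (f : ℕ → ℕ) θ, π.J = 2 ^ π.r → f 0 < θ → θ ≤ f π.J →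
  π.bs f θ + 1 ≤ π.J ∧ f (π.bs f θ) < θ ∧ θ ≤ f (π.bs f θ + 1) ∧
    ∀ f' : ℕ → ℕ, (∀ j ≤ π.J, f' j = f j) → π.bs f' θ = π.bs f θ

/-- EXPL -/
def ExplS : Prop := ∀ (π : Pm) M (g : Orc) b W Y n H s, π.Rep Y n → n + (π.G + 2) ≤ π.K →
  Gd M π.G (π.scr Y) H → H ≤ π.P → s < H → (tr M (π.scr Y) s).nv = true →
  gt Y 0 ≤ π.β → gt Y 1 ≤ π.β →
  (∀ c, On (tr M (π.scr Y)) s c → ¬(π.scr Y c).nv = true →
    dec π.P (g (π.qry b c W)) = tr M (π.scr Y) c ∧ g (π.qry b c W) < π.β) →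
  Ext M (π.scr Y) (π.scr (π.expl g b W s Y)) ∧ Expl M (π.scr (π.expl g b W s Y)) s ∧
    π.Rep (π.expl g b W s Y) (n + (π.G + 2)) ∧ π.Mk (π.expl g b W s Y) = π.Mk Y ∧
    gt (π.expl g b W s Y) 0 = gt Y 0 ∧ gt (π.expl g b W s Y) 1 = gt Y 1 ∧
    gt (π.expl g b W s Y) 2 = 0

/-- The context of a level: `g` answers the queries of level `d`, with block length `b`. -/
structure Cx (π : Pm) (M : Mc) (D : ℕ) (g : Orc) (d b t : ℕ) : Prop where
  fit : π.Fit M D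
  le : d + 1 ≤ D
  hb : b = π.b₀ * π.lam ^ d
  ans : π.Ans M g d
  tm : t + (d + 1) * π.J < π.P

/-- What the rows need from the context. -/
structure CxK (π : Pm) (M : Mc) (g : Orc) (d b t : ℕ) : Prop where
  hb : 2 * (π.G + 2) ≤ b
  hJ : 64 * b ≤ π.J
  pw : π.J = 2 ^ π.r
  hK : 4 ≤ π.K
  ht : t + π.J < π.P
  qry : ∀ W n t' H', π.Rep W n → n + d * π.E ≤ π.K → (∀ σ z, ¬π.Mk W σ z) → t' ≤ t + π.J →
    Inst M π.G (π.scr W) t' H' → sz M (π.scr W) H' ≤ 64 * b →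
      dec π.P (g (π.qry b t' W)) = tr M (π.scr W) H' ∧ g (π.qry b t' W) < π.β

theorem Cx.k {π : Pm} {M : Mc} {D : ℕ} {g : Orc} {d b t : ℕ} (h : Cx π M D g d b t) :
    CxK π M g d b t := by
  have h1 : 1 ≤ π.lam ^ d := Nat.one_le_pow _ _ (by have := h.fit.lam; omega)
  have h2 : π.lam ^ d ≤ π.lam ^ D :=
    Nat.pow_le_pow_right (by have := h.fit.lam; omega) (by have := h.le; omega)
  have h3 : 64 * b ≤ π.J :=
    (Nat.mul_le_mul_left _ (h.hb ▸ Nat.mul_le_mul_left _ h2)).trans h.fit.big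
  have h4 := h.fit.K
  have h5 := h.tm
  have h6 := h.fit.JP
  have h7 := P_le π
  rw [add_mul, one_mul] at h5
  refine ⟨h.fit.b₀.trans (h.hb ▸ Nat.le_mul_of_pos_right _ h1), h3, h.fit.J, by omega, by omega,
    fun W n t' H' k1 k2 k3 k4 k5 k6 => ?_⟩
  have e0 := Pm.qry_zero (π := π) W (b := b) t' (by omega) (by omega)
  have e1 := Pm.qry_one (π := π) W b (t := t') (by omega) (by omega)
  have e2 := Pm.scr_congr (Pm.qry_ent k1 b t')
  have := h.ans _ n H' (k1.qry (by omega) b t') k2 (Pm.Mk_congr (Pm.qry_ent k1 b t') ▸ k3)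
    (e0.trans h.hb) (by rwa [e1, e2]) (by rwa [e0, e2]) (by omega)
  rwa [e2] at this

/-- The invariant of the loop. -/
structure LI (π : Pm) (M : Mc) (b t H : ℕ) (r : Rec) (Y : List ℕ) (n : ℕ) : Prop where
  rep : π.Rep Y n
  inv : Inv M π.G b t H r (π.scr Y) (π.Mk Y) (gt Y 0)
  res : gt Y 1 = 0

/-- FJ: the probes compute the symbols and the weights. -/
def FjS : Prop := ∀ (π : Pm) M g d b t H r Y n, CxK π M g d b t → LI π M b t H r Y n →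
  n + (π.G + 2) + d * π.E ≤ π.K → ∀ σ W, W = π.dmpC (π.rst Y (win (π.top Y))) (gt Y 0) σ →
    Top (π.Mk Y) σ (π.top Y σ) ∧
    ((st M (π.scr Y) (gt Y 0) σ).filter (π.top Y σ < ·)).length + 1 ≤ π.J ∧ ∀ j ≤ π.J,
      π.pj g b W (gt Y 0) (π.top Y σ) j = pS M (π.scr Y) (gt Y 0) σ (π.top Y σ) j ∧
      π.fj g b W Y σ (gt Y 0) (π.top Y σ) j =
        ws (tr M (π.scr Y)) σ (pS M (π.scr Y) (gt Y 0) σ (π.top Y σ) j) (gt Y 0) ∧
      ∀ c, On (tr M (π.scr Y)) (pS M (π.scr Y) (gt Y 0) σ (π.top Y σ) j) c →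
        ¬(π.scr Y c).nv = true →
          dec π.P (g (π.qry b c W)) = tr M (π.scr Y) c ∧ g (π.qry b c W) < π.β

/-- The result `Y'` of a normalisation of side `σ`. -/
structure NmK (π : Pm) (M : Mc) (b t H : ℕ) (r : Rec) (Y : List ℕ) (n : ℕ) (σ : Bool)
    (Y' : List ℕ) : Prop where
  li : LI π M b t H r Y' (n + (2 * (π.G + 2) + 1))
  hd : gt Y' 0 = gt Y 0
  cl : gt Y' 2 ≠ 0 →
    Psi M π.G b (π.scr Y') H (gt Y 0) + b * b ≤ Psi M π.G b (π.scr Y) H (gt Y 0)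
  op : gt Y' 2 = 0 → Psi M π.G b (π.scr Y') H (gt Y 0) = Psi M π.G b (π.scr Y) H (gt Y 0) ∧
    Nrm M b (π.scr Y') (π.Mk Y') (gt Y 0) σ ∧
    (Nrm M b (π.scr Y) (π.Mk Y) (gt Y 0) (!σ) → Nrm M b (π.scr Y') (π.Mk Y') (gt Y 0) (!σ))

/-- NM1: search, then close or mark. -/
def Nm1S : Prop := ∀ (π : Pm) M g d b t H r Y n, CxK π M g d b t → LI π M b t H r Y n →
  n + (2 * (π.G + 2) + 1) + d * π.E ≤ π.K → ∀ σ,
    4 * b ≤ ws (tr M (π.scr Y)) σ (π.top Y σ) (gt Y 0) → NmK π M b t H r Y n σ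
      (π.nm1 g b (π.dmpC (π.rst Y (win (π.top Y))) (gt Y 0) σ) Y σ (π.top Y σ))

/-- NORM -/
def NormS : Prop := ∀ (π : Pm) M g d b t H r Y n, CxK π M g d b t → LI π M b t H r Y n →
  n + (2 * (π.G + 2) + 1) + d * π.E ≤ π.K → gt Y 2 = 0 → ∀ σ,
    NmK π M b t H r Y n σ (π.norm g b Y σ)

/-- RUNC -/
def RuncS : Prop := ∀ (π : Pm) M g d b t H r Y n, CxK π M g d b t → LI π M b t H r Y n →
  n + (π.G + 2) + d * π.E ≤ π.K → (∀ σ, Nrm M b (π.scr Y) (π.Mk Y) (gt Y 0) σ) →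
    (∃ e < π.β, dec π.P e = r ∧ gt (π.run g b t Y) 1 = e + 1) ∨
    (LI π M b t H r (π.run g b t Y) (n + (π.G + 2)) ∧
      Psi M π.G b (π.scr (π.run g b t Y)) H (gt (π.run g b t Y) 0) + b * b ≤
        Psi M π.G b (π.scr Y) H (gt Y 0))

/-- LEV -/
def LevS : Prop := ∀ (π : Pm) M D g d, π.Fit M D → d + 1 ≤ D → π.Ans M g d →
  π.Ans M (π.F g M) (d + 1)

/-- BASE -/
def BaseS : Prop := ∀ (π : Pm) M D g, π.Fit M D → π.Ans M (π.F g M) 0

/-- The first script. -/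
def S₀ (q₀ : ℕ) (u : ℕ) : Rec := if u = 0 then ⟨true, 0, 0, false, q₀, q₀, 0, 0, 0, 1⟩ else nil

/-- LNK: the virtual run of the first script is the run. -/
def LnkS : Prop := ∀ (M : Mc) q₀ H G q t, M.Run 1 q₀ H G q → H + 1 ≤ t →
  Inst M (G + 1) (S₀ q₀) t (H + 1) ∧ (tr M (S₀ q₀) (H + 1)).qb = q

/-- SIM: the recursion computes the last state. -/
def SimS : Prop := ∀ (π : Pm) M D q₀ H G q t, π.Fit M D → M.Run 1 q₀ H G q → π.G = G + 1 →
  H + 1 ≤ t → t + 1 ≤ π.b₀ * π.lam ^ D → 4 + D * π.E ≤ π.K → t + D * π.J < π.P → q₀ < π.P →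
    (dec π.P (rc (fun g => π.F g M) (D + 1) (π.l₀ D q₀ t))).qb = q

/-! ### Machines -/

structure PmC (κ : List Bool → ℕ) (π : List Bool → Pm) : Prop where
  K : Cn κ fun x _ => (π x).K
  P : Cn κ fun x _ => (π x).P
  G : Cn κ fun x _ => (π x).G
  b₀ : Cn κ fun x _ => (π x).b₀
  lam : Cn κ fun x _ => (π x).lam
  J : Cn κ fun x _ => (π x).J
  r : Cn κ fun x _ => (π x).r
  N : Cn κ fun x _ => (π x).N
  le : ∀ x, (π x).K ≤ κ x

structure McC (κ : List Bool → ℕ) (M : List Bool → Mc) : Prop where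
  act : Cn κ fun x ρ => (M x).act (hd (ρ 0))
  sd : Cp κ fun x ρ => (M x).sd (hd (ρ 0)) = true
  root : Cp κ fun x ρ => (M x).root (hd (ρ 0)) = true
  δ : Cn κ fun x ρ => (M x).δ (hd (ρ 0)) (hd (ρ 1))

abbrev NF : Type := List Bool → Env → ℕ
abbrev LF : Type := List Bool → Env → List ℕ

/-- MA: records and lists. -/
structure MaK (κ : List Bool → ℕ) (π : List Bool → Pm) : Prop where
  β : Cn κ fun x _ => (π x).β
  nv : ∀ {e : NF}, Cn κ e → Cp κ fun x ρ => (dec (π x).P (e x ρ)).nv = true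
  sd : ∀ {e : NF}, Cn κ e → Cp κ fun x ρ => (dec (π x).P (e x ρ)).sd = true
  tm : ∀ {e : NF}, Cn κ e → Cn κ fun x ρ => (dec (π x).P (e x ρ)).tm
  act : ∀ {e : NF}, Cn κ e → Cn κ fun x ρ => (dec (π x).P (e x ρ)).act
  qb : ∀ {e : NF}, Cn κ e → Cn κ fun x ρ => (dec (π x).P (e x ρ)).qb
  qa : ∀ {e : NF}, Cn κ e → Cn κ fun x ρ => (dec (π x).P (e x ρ)).qa
  m : ∀ {e : NF}, Cn κ e → Cn κ fun x ρ => (dec (π x).P (e x ρ)).m
  pk : ∀ {e : NF}, Cn κ e → Cn κ fun x ρ => (dec (π x).P (e x ρ)).pk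
  gen : ∀ {e : NF}, Cn κ e → Cn κ fun x ρ => (dec (π x).P (e x ρ)).gen
  md : ∀ {e : NF}, Cn κ e → Cn κ fun x ρ => (dec (π x).P (e x ρ)).md
  stop : ∀ {e : NF}, Cn κ e → Cp κ fun x ρ => Stop (dec (π x).P (e x ρ))
  sam : ∀ {e a d : NF}, Cn κ e → Cn κ a → Cn κ d → Cn κ fun x ρ => sam (e x ρ) (a x ρ) (d x ρ)
  mkE : ∀ (σ : Bool) {z : NF}, Cn κ z → Cn κ fun x ρ => mkE σ (z x ρ)
  gr : ∀ {n : NF} {Q : List Bool → Env → ℕ → Prop}, Cn κ n → P1 κ Q →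
    Cn κ fun x ρ => gr (n x ρ) (Q x ρ)
  lk : ∀ {l : LF} {u : NF}, Cm κ l → Cn κ u → Cn κ fun x ρ => (π x).lk (l x ρ) (u x ρ)
  mrk : ∀ (σ : Bool) {l : LF} {z : NF}, Cm κ l → Cn κ z →
    Cp κ fun x ρ => (π x).Mk (l x ρ) σ (z x ρ)
  seth : ∀ (i : ℕ) {l : LF} {v : NF}, Cm κ l → Cn κ v → Cm κ fun x ρ => (π x).seth (l x ρ) i (v x ρ)
  ins : ∀ {a : NF} {l : LF}, Cn κ a → Cm κ l → Cm κ fun x ρ => (π x).ins (a x ρ) (l x ρ)
  trn : ∀ {l : LF}, Cm κ l → Cm κ fun x ρ => (π x).trn (l x ρ)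
  qry : ∀ {b t : NF} {l : LF}, Cn κ b → Cn κ t → Cm κ l →
    Cm κ fun x ρ => (π x).qry (b x ρ) (t x ρ) (l x ρ)
  pt : ∀ {l : LF} {s : NF}, Cm κ l → Cn κ s → Cn κ fun x ρ => pt ((π x).scr (l x ρ)) (s x ρ)
  nvS : ∀ {l : LF} {u : NF}, Cm κ l → Cn κ u → Cp κ fun x ρ => nvS ((π x).scr (l x ρ)) (u x ρ)
  top : ∀ (σ : Bool) {l : LF}, Cm κ l → Cn κ fun x ρ => (π x).top (l x ρ) σ

def MaS : Prop := ∀ κ π, PmC κ π → MaK κ π

/-- MB: cuts. -/
structure MbK (κ : List Bool → ℕ) (π : List Bool → Pm) : Prop where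
  ws : ∀ (σ : Bool) {l : LF} {a b : NF}, Cm κ l → Cn κ a → Cn κ b →
    Cn κ fun x ρ => (π x).wsC (l x ρ) σ (a x ρ) (b x ρ)
  win : ∀ {l : LF}, Cm κ l → Cm κ fun x ρ => (π x).rst (l x ρ) (win ((π x).top (l x ρ)))
  clo : ∀ (σ : Bool) {l : LF} {a b : NF}, Cm κ l → Cn κ a → Cn κ b →
    Cm κ fun x ρ => (π x).rst (l x ρ) (clo σ (a x ρ) (b x ρ))
  dmp : ∀ (σ : Bool) {l : LF} {h : NF}, Cm κ l → Cn κ h →
    Cm κ fun x ρ => (π x).dmpC (l x ρ) (h x ρ) σ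
  prune : ∀ (σ : Bool) {l : LF} {z : NF}, Cm κ l → Cn κ z →
    Cm κ fun x ρ => (π x).prune (l x ρ) σ (z x ρ)
  zz : ∀ (σ : Bool) {b : NF} {l : LF}, Cn κ b → Cm κ l → Cn κ fun x ρ => (π x).zz (b x ρ) (l x ρ) σ
  tt : ∀ {b t : NF} {l : LF}, Cn κ b → Cn κ t → Cm κ l →
    Cn κ fun x ρ => (π x).tt (b x ρ) (t x ρ) (l x ρ)

def MbS : Prop := ∀ κ π, PmC κ π → MbK κ π

/-- MC: the direct simulation. -/
def McS : Prop := ∀ κ π M, PmC κ π → McC κ M → Cn κ fun x ρ => (π x).base (M x) (ρ 0)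

abbrev NQ : Type := List Bool → Orc → Env → ℕ
abbrev LQ : Type := List Bool → Orc → Env → List ℕ

/-- Loops with calls are short. -/
def Few (q : List Bool → ℕ) (π : List Bool → Pm) : Prop :=
  ∀ x, (π x).G + 2 ≤ q x ∧ (π x).r ≤ q x ∧ (π x).N ≤ q x

/-- MD: explicit paths and probes (every argument is evaluated once). -/
structure MdK (κ q : List Bool → ℕ) (π : List Bool → Pm) : Prop where
  expl : ∀ {b s : NQ} {W Y : LQ}, Nq κ q (fun x => (π x).β) b → Nq κ q (fun x => (π x).β) s →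
    Lq κ q (fun x => (π x).β) W → Lq κ q (fun x => (π x).β) Y →
    Lq κ q (fun x => (π x).β) fun x g ρ => (π x).expl g (b x g ρ) (W x g ρ) (s x g ρ) (Y x g ρ)
  pj : ∀ {b h z j : NQ} {W : LQ}, Nq κ q (fun x => (π x).β) b → Nq κ q (fun x => (π x).β) h →
    Nq κ q (fun x => (π x).β) z → Nq κ q (fun x => (π x).β) j → Lq κ q (fun x => (π x).β) W →
    Nq κ q (fun x => (π x).β) fun x g ρ =>
      (π x).pj g (b x g ρ) (W x g ρ) (h x g ρ) (z x g ρ) (j x g ρ)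
  fj : ∀ (σ : Bool) {b h z j : NQ} {W Y : LQ}, Nq κ q (fun x => (π x).β) b →
    Nq κ q (fun x => (π x).β) h → Nq κ q (fun x => (π x).β) z → Nq κ q (fun x => (π x).β) j →
    Lq κ q (fun x => (π x).β) W → Lq κ q (fun x => (π x).β) Y →
    Nq κ q (fun x => (π x).β) fun x g ρ =>
      (π x).fj g (b x g ρ) (W x g ρ) (Y x g ρ) σ (h x g ρ) (z x g ρ) (j x g ρ)
  pick : ∀ {b : NQ} {f : List Bool → Orc → Env → ℕ → ℕ}, Nq κ q (fun x => (π x).β) b →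
    Fq κ q (fun x => (π x).β) f →
    Nq κ q (fun x => (π x).β) fun x g ρ => (π x).pick (b x g ρ) (f x g ρ)

def MdS : Prop := ∀ κ q π, PmC κ π → Few q π → MdK κ q π

/-- ME: normalisation (`ρ 0` is the list, `ρ 1` the block length). -/
def MeS : Prop := ∀ κ q π, PmC κ π → Few q π → ∀ σ : Bool,
  Lq κ q (fun x => (π x).β) fun x g ρ => (π x).norm g (hd (ρ 1)) (ρ 0) σ

/-- MF: the body of the recursion. -/
def MfS : Prop := ∀ κ q π M, PmC κ π → McC κ M → Few q π →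
  Nq κ q (fun x => (π x).β) fun x g ρ => (π x).F g (M x) (ρ 0)

/-- PAR: parameters for time and numbers `(|x| + 2) ^ a` and depth `(log |x| + 2) ^ a`. -/
def ParS : Prop := ∀ a : ℕ, ∃ (π : List Bool → Pm) (D q : List Bool → ℕ) (e : ℕ),
  PmC (fun x => (π x).K) π ∧ Few q π ∧ (Cn (fun x => (π x).K) fun x _ => D x) ∧
  (Cn (fun x => (π x).K) fun x _ => (Nat.log 2 x.length + 2) ^ D x) ∧ ∀ x : List Bool,
    (π x).lam = Nat.log 2 x.length + 2 ∧ (π x).G = (Nat.log 2 x.length + 2) ^ a + 1 ∧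
    (∀ M : Mc, (∀ y, M.act y < 3) → (∀ y z, M.δ y z < (x.length + 2) ^ a) → (π x).Fit M (D x)) ∧
    (x.length + 2) ^ a + 2 ≤ (π x).b₀ * (π x).lam ^ D x ∧ 4 + D x * (π x).E ≤ (π x).K ∧
    (x.length + 2) ^ a + 1 + D x * (π x).J < (π x).P ∧ (π x).β ≤ (x.length + 2) ^ e ∧
    (π x).K ≤ (Nat.log 2 x.length + 2) ^ e ∧ q x + 2 ≤ (Nat.log 2 x.length + 2) ^ e ∧
    D x + 2 ≤ (Nat.log 2 x.length + 2) ^ e ∧
    (Nat.log 2 x.length + 2) ^ (D x + 1) ≤ (x.length + 2) ^ e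

/-- The theorem for machines on numbers; a step without stack operation costs `f`. -/
def Core (f : ℕ) : Prop :=
  ∀ (M : List Bool → Mc) (q₀ : List Bool → ℕ) (acc : List Bool → ℕ → Prop) (a : ℕ),
    (∀ κ, McC κ M) → (∀ κ, Cn κ fun x _ => q₀ x) → (∀ κ, Cp κ fun x ρ => acc x (hd (ρ 0))) →
    (∀ x y, (M x).act y < 3) → (∀ x y z, (M x).δ y z < (x.length + 2) ^ a) →
    (∀ x, q₀ x < (x.length + 2) ^ a) →
    ∃ (N : TM) (c : ℕ), ∀ (x : List Bool) (H q : ℕ), H ≤ (x.length + 2) ^ a →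
      (M x).Run f (q₀ x) H ((Nat.log 2 x.length + 2) ^ a) q →
      (f = 0 → ∀ u < H, ((M x).run f (q₀ x) u).st true = [] →
        (M x).root ((M x).run f (q₀ x) u).q = true) →
      N.out (N.run x ((x.length + 2) ^ c)).q = some (decide (acc x q)) ∧
        ∀ t i, (N.run x t).head i ≤ (Nat.log 2 x.length + 2) ^ c

/-- Steps without stack operation are skipped. -/
def Mc.cl (M : Mc) (T q : ℕ) : ℕ :=
  it T (fun y => if M.act y = 1 ∨ M.act y = 2 then y else M.δ y 0) T q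

def Mc.cmp (M : Mc) (T : ℕ) : Mc := ⟨M.act, M.sd, M.root, fun y z => M.cl T (M.δ y z)⟩

/-- CMP -/
def CmpS : Prop := ∀ (M : Mc) T q₀ H G q, (∀ y z, M.δ y z < T) → H ≤ T → M.Run 0 q₀ H G q →
  (∀ u < H, (M.run 0 q₀ u).st true = [] → M.root (M.run 0 q₀ u).q = true) → q₀ < T →
    ∃ H' ≤ H, (M.cmp T).Run 1 (M.cl T q₀) H' G q

/-! ### Automata as machines on numbers -/

namespace PD

variable (A : PD)

def nQ : ℕ := Nat.card A.Q

def nG : ℕ := Nat.card (Option A.Γ)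

def eQ (q : A.Q) : ℕ := (@Finite.equivFin A.Q A.finQ q : ℕ)

def eG (y : Option A.Γ) : ℕ := (@Finite.equivFin (Option A.Γ) (haveI := A.finΓ; inferInstance) y : ℕ)

def dQ (n : ℕ) : A.Q := if h : ∃ q, A.eQ q = n then h.choose else A.start

def dG (n : ℕ) : Option A.Γ := if h : ∃ y, A.eG y = n then h.choose else none

/-- State, top symbols and heads as a number; `n` is the length of the input. -/
def code (n : ℕ) (q : A.Q) (s : Bool → Option A.Γ) (h : Fin A.k → ℕ) : ℕ :=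
  A.eQ q + A.nQ * (A.eG (s false) + A.nG * (A.eG (s true) + A.nG * ∑ i, h i * (n + 1) ^ (i : ℕ)))

def cq (y : ℕ) : A.Q := A.dQ (y % A.nQ)

def ct (y : ℕ) (σ : Bool) : Option A.Γ :=
  A.dG (if σ = true then y / A.nQ / A.nG % A.nG else y / A.nQ % A.nG)

def ch (n y : ℕ) (i : Fin A.k) : ℕ := y / A.nQ / A.nG / A.nG / (n + 1) ^ (i : ℕ) % (n + 1)

def ca (x : List Bool) (y : ℕ) : A.Q × (Fin A.k → SignType) × Option (Bool × Option A.Γ) :=
  A.δ (A.cq y) (fun i => (decide (A.ch x.length y i = 0), x[A.ch x.length y i]?)) (A.ct y)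

def opA (s : Bool → Option A.Γ) : Option (Bool × Option A.Γ) → ℕ
  | none => 0
  | some (_, some _) => 1
  | some (σ, none) => if s σ = none then 0 else 2

def opS : Option (Bool × Option A.Γ) → Bool
  | none => false
  | some (σ, _) => σ

/-- The new top symbols; `s'` are the top symbols stored in the popped symbol. -/
def opT (s s' : Bool → Option A.Γ) : Option (Bool × Option A.Γ) → Bool → Option A.Γ
  | none => s
  | some (σ, some b) => update s σ (some b)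
  | some (σ, none) => if s σ = none then s else update s σ (s' σ)

/-- After the halt the left stack is emptied. -/
def mc (x : List Bool) (T : ℕ) : Mc where
  act y := if (A.out (A.cq y)).isSome = true then 2 else A.opA (A.ct y) (A.ca x y).2.2
  sd y := if (A.out (A.cq y)).isSome = true then false else A.opS (A.ca x y).2.2
  root y := decide (A.ct y true = none)
  δ y z := (if (A.out (A.cq y)).isSome = true then y else
    A.code x.length (A.ca x y).1 (A.opT (A.ct y) (A.ct z) (A.ca x y).2.2)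
      fun i => min (move (A.ch x.length y i) ((A.ca x y).2.1 i)) x.length) % T

end PD

/-- COD: decoding. -/
def CodS : Prop := ∀ (A : PD) n q s (h : Fin A.k → ℕ), (∀ i, h i ≤ n) →
  A.cq (A.code n q s h) = q ∧ A.ct (A.code n q s h) = s ∧ A.ch n (A.code n q s h) = h ∧
    A.code n q s h < (n + 2) ^ (A.nQ + 2 * A.nG + A.k)

/-- ENCS -/
def EncS : Prop := ∀ (A : PD) (x : List Bool) T t G,
  (x.length + 2) ^ (A.nQ + 2 * A.nG + A.k) ≤ T → (A.out (A.run x t).q).isSome = true →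
  (∀ u, (A.run x u).d ≤ G) → ∀ q₀, q₀ = A.code x.length A.start (fun _ => none) (fun _ => 0) →
    ∃ H ≤ 2 * t, ∃ q, (A.mc x T).Run 0 q₀ H (G + 1) q ∧ A.cq q = (A.run x t).q ∧
      ∀ u < H, ((A.mc x T).run 0 q₀ u).st true = [] →
        (A.mc x T).root ((A.mc x T).run 0 q₀ u).q = true

/-- FIN: finitely many cases. -/
structure FinK (κ : List Bool → ℕ) : Prop where
  cases : ∀ {X : Type} [Finite X] (φ : List Bool → Env → X) (f : X → NF),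
    (∀ v, Cp κ fun x ρ => φ x ρ = v) → (∀ v, Cn κ (f v)) → Cn κ fun x ρ => f (φ x ρ) x ρ
  all : ∀ {X : Type} [Finite X] (P : X → List Bool → Env → Prop), (∀ v, Cp κ (P v)) →
    Cp κ fun x ρ => ∀ v, P v x ρ
  sum : ∀ {k : ℕ} (f : Fin k → NF), (∀ v, Cn κ (f v)) → Cn κ fun x ρ => ∑ v, f v x ρ

def FinS : Prop := ∀ κ, FinK κ

/-- ENCC -/
def EncC : Prop := ∀ (A : PD) (a : ℕ) κ, McC κ (fun x => A.mc x ((x.length + 2) ^ a)) ∧
  Cp κ fun _ ρ => A.out (A.cq (hd (ρ 0))) = some true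

/-- The theorem for automata with two pushdown stores. -/
def AuxS : Prop := ∀ (A : PD) (a : ℕ),
  (∀ x : List Bool, (A.out (A.run x ((x.length + 2) ^ a)).q).isSome = true ∧
    ∀ t, (A.run x t).d ≤ (Nat.log 2 x.length + 2) ^ a) →
  ∃ (M : TM) (c : ℕ), ∀ x : List Bool,
    M.out (M.run x ((x.length + 2) ^ c)).q = A.out (A.run x ((x.length + 2) ^ a)).q ∧
      ∀ t i, (M.run x t).head i ≤ (Nat.log 2 x.length + 2) ^ c

end

end Pool.Agent.MP_1a6d78_lc.CR
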