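import Pool.Agent.MP_1a6d78_lc.CR.Spec

/-! PROJECT CR: a Turing machine with small work space as an automaton with two pushdown stores. -/

namespace Pool.Agent.MP_1a6d78_lc.CR

open Classical ED Function

noncomputable section

namespace Cv

variable (M : TM)

/-- A cell of all work tapes, with a mark for every head that scans it. -/
abbrev Cell : Type := Fin M.k → M.Γ × Bool

abbrev Mv : Type := Fin M.k → M.Γ × SignType

/-- `A q`: start of a step; `B q s`, `C q s c`: sweep to the left, `s` are the scanned symbols found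
so far, `c` is the cell in hand; `D q a p`, `E q a p c`: sweep to the right, `a` is what the step
does, `p` are the marks of the cell before. -/
inductive St : Type
  | A (q : M.Q)
  | B (q : M.Q) (s : Fin M.k → M.Γ)
  | C (q : M.Q) (s : Fin M.k → M.Γ) (c : Cell M)
  | D (q : M.Q) (a : Mv M) (p : Fin M.k → Bool)
  | E (q : M.Q) (a : Mv M) (p : Fin M.k → Bool) (c : Cell M)

theorem finSt : Finite (St M) := by
  have := M.finQ
  have := M.finΓ
  exact Finite.of_surjective
    (fun s : M.Q ⊕ (M.Q × (Fin M.k → M.Γ)) ⊕ (M.Q × (Fin M.k → M.Γ) × Cell M) ⊕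
        (M.Q × Mv M × (Fin M.k → Bool)) ⊕ (M.Q × Mv M × (Fin M.k → Bool) × Cell M) =>
      match s with
      | .inl q => St.A q
      | .inr (.inl y) => St.B y.1 y.2
      | .inr (.inr (.inl y)) => St.C y.1 y.2.1 y.2.2
      | .inr (.inr (.inr (.inl y))) => St.D y.1 y.2.1 y.2.2
      | .inr (.inr (.inr (.inr y))) => St.E y.1 y.2.1 y.2.2.1 y.2.2.2)
    fun s => match s with
      | .A q => ⟨.inl q, rfl⟩
      | .B q s => ⟨.inr (.inl (q, s)), rfl⟩
      | .C q s c => ⟨.inr (.inr (.inl (q, s, c))), rfl⟩
      | .D q a p => ⟨.inr (.inr (.inr (.inl (q, a, p)))), rfl⟩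
      | .E q a p c => ⟨.inr (.inr (.inr (.inr (q, a, p, c)))), rfl⟩

/-- The cell after the step: `l`, `r` are the top cells of the stores. -/
def new (a : Mv M) (p : Fin M.k → Bool) (c : Cell M) (l r : Option (Cell M)) : Cell M := fun i =>
  (if (c i).2 = true then (a i).1 else (c i).1,
    decide (((c i).2 = true ∧ ((a i).2 = 0 ∨ ((a i).2 = -1 ∧ l = none))) ∨
      (p i = true ∧ (a i).2 = 1) ∨ ((a i).2 = -1 ∧ ∃ c', r = some c' ∧ (c' i).2 = true)))

abbrev Act : Type := St M × SignType × Option (Bool × Option (Cell M))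

def nx : St M → Option Bool → (Bool → Option (Cell M)) → Act M
  | .A q, _, z =>
    match z false with
    | none => (.A q, 0, some (false, some fun _ => (M.blank, true)))
    | some c =>
      if ∃ i, (c i).2 = true then
        (.B q fun _ => M.blank, 0, some (false, some fun _ => (M.blank, false)))
      else (.B q fun _ => M.blank, 0, none)
  | .B q s, o, z =>
    match z false with
    | none => (.D (M.δ q o s).1 (M.δ q o s).2.2 fun _ => false, (M.δ q o s).2.1, none)
    | some c => (.C q (fun i => if (c i).2 = true then (c i).1 else s i) c, 0, some (false, none))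
  | .C q s c, _, _ => (.B q s, 0, some (true, some c))
  | .D q a p, _, z =>
    match z true with
    | none => (.A q, 0, none)
    | some c => (.E q a p c, 0, some (true, none))
  | .E q a p c, _, z =>
    (.D q a fun i => (c i).2, 0, some (false, some (new M a p c (z false) (z true))))

def ou : St M → Option Bool
  | .A q => M.out q
  | _ => none

def pd : PD where
  k := 1
  Q := St M
  Γ := Cell M
  finQ := finSt M
  finΓ := by have := M.finΓ; infer_instance
  start := .A M.start
  out := ou M
  δ q v z := ((nx M q (v 0).2 z).1, fun _ => (nx M q (v 0).2 z).2.1, (nx M q (v 0).2 z).2.2)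

def cell (c : M.Cfg) (j : ℕ) : Cell M := fun i => (c.tape i j, decide (c.head i = j))

/-- The symbols on a store. -/
def sy (c : (pd M).Cfg) (σ : Bool) : List (Cell M) := (c.st σ).map Prod.fst

/-- State, input head and the two stores. -/
def At (c : (pd M).Cfg) (q : St M) (p : ℕ) (L R : List (Cell M)) : Prop :=
  c.q = q ∧ c.head (0 : Fin 1) = p ∧ sy M c false = L ∧ sy M c true = R

/-- The cells `n - 1, ..., 0`, top first. -/
def dn (c : M.Cfg) (n : ℕ) : List (Cell M) := ((List.range n).map (cell M c)).reverse

/-- The cells from `n` on are blank and not scanned. -/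
def Fits (c : M.Cfg) (n : ℕ) : Prop := ∀ i, c.head i < n ∧ ∀ j, n ≤ j → c.tape i j = M.blank

end Cv

open Cv

/-- CVL: the sweep to the left. -/
def CvlS : Prop := ∀ (M : TM) (x : List Bool) (c : M.Cfg) (a : (pd M).Cfg) n, Fits M c n →
  c.pos ≤ x.length →
  At M a (.B c.q fun _ => M.blank) c.pos (dn M c n) [] →
    At M (((pd M).step x)^[2 * n] a) (.B c.q fun i => c.tape i (c.head i)) c.pos []
      ((List.range n).map (cell M c))

/-- CVR: the sweep to the right. -/
def CvrS : Prop := ∀ (M : TM) x (c : M.Cfg) (a : (pd M).Cfg) n, M.out c.q = none →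
  c.pos ≤ x.length → (∀ i, c.head i + 1 < n) →
  At M a (.B c.q fun i => c.tape i (c.head i)) c.pos [] ((List.range n).map (cell M c)) →
    At M (((pd M).step x)^[2 * n + 2] a) (.A (M.step x c).q) (M.step x c).pos
      (dn M (M.step x c) n) []

/-- DEP: the depth is at most the number of steps since the right store was empty. -/
def DepS : Prop := ∀ (A : PD) x (c : A.Cfg) n, c.st true = [] →
  ((A.step x)^[n + 1] c).d ≤ n ∨ ((A.step x)^[n + 1] c).d = c.d ∧ (A.out c.q).isSome = true

/-- CVM: the steps of the machine. -/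
def CvmS : Prop := ∀ (M : TM) (x : List Bool) s, (∀ t i, (M.run x t).head i ≤ s) →
  (∀ u, ((pd M).run x u).d ≤ 4 * s + 12) ∧
  ∀ t r, M.out (M.run x t).q = some r →
    (pd M).out ((pd M).run x ((4 * s + 12) * t + 1)).q = some r

/-- The languages of the automata of small depth. -/
def InPD (L : List Bool → Bool) : Prop := ∃ (A : PD) (a : ℕ), ∀ x : List Bool,
  A.out (A.run x ((x.length + 2) ^ a)).q = some (L x) ∧
    ∀ t, (A.run x t).d ≤ (Nat.log 2 x.length + 2) ^ a

def InSC (L : List Bool → Bool) : Prop := ∃ (M : TM) (c : ℕ), ∀ x : List Bool,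
  M.out (M.run x ((x.length + 2) ^ c)).q = some (L x) ∧
    ∀ t i, (M.run x t).head i ≤ (Nat.log 2 x.length + 2) ^ c

def EqvS : Prop := ∀ L, InPD L ↔ InSC L

end

end Pool.Agent.MP_1a6d78_lc.CR
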