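import Pool.Agent.MP_1a6d78_lc.CR.Spec

/-! PROJECT CR, row WINA: the past of a window. -/

namespace Pool.Agent.MP_1a6d78_lc.CR

open Classical ED PR SC Function

theorem WinA.cnt_succ_le (n : ℕ) (P : ℕ → Prop) : PR.cnt (n + 1) P ≤ PR.cnt n P + 1 := by
  simp only [PR.cnt, Finset.card_filter, Finset.sum_range_succ]
  split_ifs <;> omega

theorem winA (hR : ResS) (hK : KeptS) (hW : WkpS) : WinAS := by
  rintro M G S t H h z hy _ rfl
  obtain ⟨w1, -, w3, w4⟩ := hW M G S t H h z hy
  have hp : RHyp M G S H (win z) (h + 1) := w4 _ hy.lt fun u hu hu' σ => by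
    rw [show u = h by omega]
    exact (hy.mrk σ).imp_right And.left
  have hr := hR M G S H _ _ hp
  have hn : (S h).nv = true := hy.ex h (On.refl _ _)
  refine ⟨hr.gd, ?_, fun σ => ?_, ?_, fun s hs c hc hc' => ?_⟩
  · rw [restr, if_pos hn, Cut.img]
    by_cases e : (win z).K (tr M S) h
    · rw [if_pos e]; exact hn
    · rw [if_neg e, if_pos (w1 h le_rfl)]; exact hn
  · rw [hr.st' h (Nat.lt_succ_self h) σ]
    exact List.filter_congr fun p hp => decide_eq_decide.2 (w3 σ p hp)
  · have c1 := cnt_on hp.gd hp.l₁ hp.x₁.nv h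
    have c2 := cnt_on hp.gd hp.l₂ hp.x₂.nv h
    have c3 : cnt h (fun u => On (tr M S) (win z).s₁ u ∨ On (tr M S) (win z).s₂ u) ≤
        cnt h (On (tr M S) (win z).s₁) + cnt h (On (tr M S) (win z).s₂) :=
      cnt_le_add fun u hu k => k.imp (fun e => ⟨hu, e⟩) fun e => ⟨hu, e⟩
    have c4 : cnt h (fun u => (tr M S u).nv = true ∧ (win z).inn (tr M S) u) ≤
        ws (tr M S) false (z false) h + ws (tr M S) true (z true) h :=
      cnt_le_add fun u hu k => by
        have k1 : rs (tr M S) false (z false) u ∧ rs (tr M S) true (z true) u := by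
          simpa [Cut.inn, win, rs] using k.2
        by_cases e : rs (tr M S) false h u
        · exact .inr ⟨hu, k.1, k1.2, (rs_not _ true hu).1 e⟩
        · exact .inl ⟨hu, k.1, k1.1, e⟩
    have c5 : cnt h (fun u => (tr M (restr (win z) (tr M S) S) u).nv = true) ≤
        cnt h (fun u => On (tr M S) (win z).s₁ u ∨ On (tr M S) (win z).s₂ u) +
          cnt h (fun u => (tr M S u).nv = true ∧ (win z).inn (tr M S) u) :=
      cnt_le_add fun u hu k => by
        by_cases e : (win z).K (tr M S) u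
        · exact .inl ⟨hu, e⟩
        · rw [hr.tr' u (by omega), Cut.img, if_neg e] at k
          by_cases e' : (win z).inn (tr M S) u
          · rw [if_pos e'] at k
            exact .inr ⟨hu, k, e'⟩
          · rw [if_neg e'] at k
            exact absurd k Bool.false_ne_true
    refine (WinA.cnt_succ_le _ _).trans ?_
    omega
  · have k : s < h + 1 ∧ (tr M S s).nv = true ∧
        ((win z).K (tr M S) s ∨ (win z).inn (tr M S) s) := by
      rcases hs with rfl | ⟨σ, rfl | ⟨e1, e2⟩⟩
      · exact ⟨Nat.lt_succ_self _, hy.ex.nv, .inr (w1 _ le_rfl)⟩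
      · refine ⟨?_, ?_, .inl ?_⟩
        · rcases hy.mrk σ with e | e
          · omega
          · exact Nat.lt_succ_of_le (mem_st e.1).2.1
        · cases σ
          exacts [hp.x₁.nv, hp.x₂.nv]
        · cases σ
          exacts [.inl (On.refl _ _), .inr (On.refl _ _)]
      · exact ⟨Nat.lt_succ_of_le (mem_st e1).2.1, (mem_st e1).2.2.1,
          Cut.kp_kept ((w3 σ s e1).2 e2)⟩
    have n : ¬(win z).K (tr M S) c := fun e =>
      hc' (Cut.K_spec hp.gd hp.l₁ hp.l₂ hp.x₁ hp.x₂ e).2.2
    have i := ((hK M G S H _ _ hp s k.1 k.2.1 k.2.2).2.2.1 c hc).resolve_left n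
    have l := (on_spec hp.gd (k.1.trans_le hp.le) k.2.1 hc).1
    rw [hr.tr' c (by omega), Cut.img, if_neg n, if_pos i]

end Pool.Agent.MP_1a6d78_lc.CR
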